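import Pool.Agent.H.MP_83e36b_nt.sp.WApi

/-! Splitting off a hyperbolic plane. -/

set_option autoImplicit false

open Matrix SpinWA

namespace DC83

universe u v w

/-- An isotropic diagonal form represents everything. -/
private theorem HypA_univ {K : Type u} [Field K] (h2 : (2 : K) ≠ 0) {n : ℕ} {d : Fin n → K}
    (hd : ∀ i, d i ≠ 0) {x : Fin n → K} (hx : x ≠ 0) (h0 : ∑ i, d i * x i ^ 2 = 0) (c : K) :
    ∃ y : Fin n → K, ∑ i, d i * y i ^ 2 = c := by
  obtain ⟨i, hi⟩ := Function.ne_iff.1 hx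
  have hi' : x i ≠ 0 := hi
  refine ⟨fun j => (c / d i - 1) / (2 * x i) * x j + Pi.single (M := fun _ => K) i 1 j, ?_⟩
  have h1 : ∀ j, d j * ((c / d i - 1) / (2 * x i) * x j + Pi.single (M := fun _ => K) i 1 j) ^ 2 =
      ((c / d i - 1) / (2 * x i)) ^ 2 * (d j * x j ^ 2) +
        Pi.single (M := fun _ => K) i (d i * (2 * ((c / d i - 1) / (2 * x i)) * x i + 1)) j := by
    intro j
    by_cases hj : j = i
    · subst hj
      rw [Pi.single_eq_same, Pi.single_eq_same]
      ring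
    · rw [Pi.single_eq_of_ne hj, Pi.single_eq_of_ne hj]
      ring
  rw [Finset.sum_congr rfl (fun j _ => h1 j), Finset.sum_add_distrib, ← Finset.mul_sum, h0,
    mul_zero, zero_add, Finset.sum_pi_single']
  rw [if_pos (Finset.mem_univ i)]
  have hdi := hd i
  field_simp
  ring

/-- Isotropic vectors are transported by congruences. -/
private theorem HypA_iso {K : Type u} [Field K] {n : ℕ} {d e : Fin n → K}
    (h : Cong (diagonal d) (diagonal e)) {x : Fin n → K} (hx : x ≠ 0)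
    (h0 : ∑ i, d i * x i ^ 2 = 0) : ∃ z : Fin n → K, z ≠ 0 ∧ ∑ i, e i * z i ^ 2 = 0 := by
  obtain ⟨R, hR, hRe⟩ := h.symm
  have hq : ∀ (f y : Fin n → K), ∑ i, f i * y i ^ 2 = y ⬝ᵥ (diagonal f *ᵥ y) := by
    intro f y
    unfold dotProduct
    refine Finset.sum_congr rfl fun i _ => ?_
    rw [mulVec_diagonal]
    ring
  refine ⟨R *ᵥ x, fun hz => hx (eq_zero_of_mulVec_eq_zero hR hz), ?_⟩
  rw [hq] at h0 ⊢
  rw [← hRe, ← mulVec_mulVec, ← mulVec_mulVec, dotProduct_mulVec x Rᵀ, vecMul_transpose] at h0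
  exact h0

/-- Isotropic diagonal forms split off a hyperbolic plane: there are `d'` and `P` with
`Pᵀ diag(d) P = diag(1, -1, d')`. -/
theorem exists_split {K : Type u} [Field K] (h2 : (2 : K) ≠ 0) {m : ℕ} {d : Fin (m + 2) → K}
    (hd : ∀ i, d i ≠ 0) {x : Fin (m + 2) → K} (hx : x ≠ 0) (h0 : ∑ i, d i * x i ^ 2 = 0) :
    ∃ d' : Fin m → K, (∀ i, d' i ≠ 0) ∧
      Cong (diagonal d) (diagonal (Fin.cons 1 (Fin.cons (-1) d') : Fin (m + 2) → K)) := by
  obtain ⟨y, hy⟩ := HypA_univ h2 hd hx h0 1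
  obtain ⟨r, hr, hr1, -⟩ := wchain_value (m + 1) d y hd (by rw [hy]; exact one_ne_zero)
  rw [hy] at hr1
  obtain ⟨z, hz, hz0⟩ := HypA_iso hr1 hx h0
  rw [Fin.sum_univ_succ, Fin.cons_zero, one_mul] at hz0
  simp only [Fin.cons_succ] at hz0
  have h3 : ∃ w : Fin (m + 1) → K, ∑ i, r i * w i ^ 2 = -1 := by
    by_cases hc : z 0 = 0
    · refine HypA_univ h2 hr (x := fun i => z i.succ) ?_ ?_ (-1)
      · intro hc2
        apply hz
        funext i
        refine Fin.cases ?_ (fun j => ?_) i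
        · exact hc
        · exact congrFun hc2 j
      · rw [hc] at hz0
        simpa using hz0
    · refine ⟨fun i => z i.succ / z 0, ?_⟩
      have h4 : ∀ i : Fin (m + 1), r i * (z i.succ / z 0) ^ 2 =
          (r i * z i.succ ^ 2) * (z 0 ^ 2)⁻¹ := by
        intro i
        rw [div_pow, div_eq_mul_inv, mul_assoc]
      rw [Finset.sum_congr rfl (fun i _ => h4 i), ← Finset.sum_mul]
      have h5 : ∑ i : Fin (m + 1), r i * z i.succ ^ 2 = -(z 0 ^ 2) := by
        linear_combination hz0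
      rw [h5]
      field_simp
  obtain ⟨w, hw⟩ := h3
  obtain ⟨d', hd', hd1, -⟩ := wchain_value m r w hr (by rw [hw]; exact neg_ne_zero.2 one_ne_zero)
  rw [hw] at hd1
  exact ⟨d', hd', hr1.trans (wchain_cons (Cong.refl _) hd1)⟩

end DC83
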