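import Pool.Agent.H.MP_83e36b_nt.sp.WApi

/-! The quaternion step. -/

set_option autoImplicit false

open Matrix SpinWA

namespace DC83

universe u v w

private theorem HypB_anti {R : Type u} [Ring R] {x y : R} (h : y * x = -(x * y)) (z : R) :
    y * (x * z) = -(x * (y * z)) := by
  rw [← mul_assoc, h, neg_mul, mul_assoc]

set_option linter.unusedSimpArgs false in
/-- Four anticommuting operators: `ω = a b e f` anticommutes with `a`, `b`, `e`, and its square is
the product of the squares. -/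
private theorem HypB_omega {K : Type u} [Field K] {R : Type v} [Ring R] [Algebra K R]
    {a b e f : R} {da db de df : K} (haa : a * a = da • (1 : R)) (hbb : b * b = db • (1 : R))
    (hee : e * e = de • (1 : R)) (hff : f * f = df • (1 : R))
    (hba : b * a = -(a * b)) (hea : e * a = -(a * e)) (hfa : f * a = -(a * f))
    (heb : e * b = -(b * e)) (hfb : f * b = -(b * f)) (hfe : f * e = -(e * f)) :
    (a * (b * (e * f))) * (a * (b * (e * f))) = (da * db * de * df) • (1 : R) ∧
    (a * (b * (e * f))) * a = -(a * (a * (b * (e * f)))) ∧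
    (a * (b * (e * f))) * b = -(b * (a * (b * (e * f)))) ∧
    (a * (b * (e * f))) * e = -(e * (a * (b * (e * f)))) := by
  have h1 := HypB_anti hba
  have h2 := HypB_anti hea
  have h3 := HypB_anti hfa
  have h4 := HypB_anti heb
  have h5 := HypB_anti hfb
  have h6 := HypB_anti hfe
  have ha (z : R) : a * (a * z) = da • z := by rw [← mul_assoc, haa, smul_mul_assoc, one_mul]
  have hb (z : R) : b * (b * z) = db • z := by rw [← mul_assoc, hbb, smul_mul_assoc, one_mul]
  have he (z : R) : e * (e * z) = de • z := by rw [← mul_assoc, hee, smul_mul_assoc, one_mul]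
  have hf (z : R) : f * (f * z) = df • z := by rw [← mul_assoc, hff, smul_mul_assoc, one_mul]
  refine ⟨?_, ?_, ?_, ?_⟩
  · simp only [mul_assoc, h1, h2, h3, h4, h5, h6, ha, hb, he, hf, hba, hea, hfa, heb, hfb, hfe,
      haa, hbb, hee, hff, mul_neg, neg_mul, neg_neg, mul_smul_comm, smul_mul_assoc, mul_one,
      smul_smul, smul_neg]
    congr 1
    ring
  · simp only [mul_assoc, h1, h2, h3, h4, h5, h6, ha, hb, he, hf, hba, hea, hfa, heb, hfb, hfe,
      haa, hbb, hee, hff, mul_neg, neg_mul, neg_neg, mul_smul_comm, smul_mul_assoc, mul_one,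
      smul_smul, smul_neg]
  · simp only [mul_assoc, h1, h2, h3, h4, h5, h6, ha, hb, he, hf, hba, hea, hfa, heb, hfb, hfe,
      haa, hbb, hee, hff, mul_neg, neg_mul, neg_neg, mul_smul_comm, smul_mul_assoc, mul_one,
      smul_smul, smul_neg]
  · simp only [mul_assoc, h1, h2, h3, h4, h5, h6, ha, hb, he, hf, hba, hea, hfa, heb, hfb, hfe,
      haa, hbb, hee, hff, mul_neg, neg_mul, neg_neg, mul_smul_comm, smul_mul_assoc, mul_one,
      smul_smul, smul_neg]

/-- The quaternion step: four anticommuting operators on a space of dimension 4 with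
`d_0 d_1 d_2 d_3` a square give an isotropic vector.  Proof: `ω = c_0 c_1 c_2 c_3`,
`ω² = d_0 d_1 d_2 d_3 = δ²`, `ω` anticommutes with the `c_i`, which so exchange the two eigenspaces
`V_±` of `ω` (`V = V_+ ⊕ V_-`, both of dimension 2).  On `V_+` act `1, c_0 c_1, c_0 c_2, c_1 c_2`
(they commute with `ω`); take `v ≠ 0` in `V_+`: the four vectors `v, c_0 c_1 v, c_0 c_2 v, c_1 c_2 v` of
the plane `V_+` are linearly dependent: `z v = 0` for `z = a + b c_0 c_1 + c c_0 c_2 + e c_1 c_2`,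
`(a, b, c, e) ≠ 0`.  With the conjugate `z' = a - b c_0 c_1 - c c_0 c_2 - e c_1 c_2`:
`z' z = a² + d_0 d_1 b² + d_0 d_2 c² + d_1 d_2 e²` (a scalar), so it is 0.  Multiplying by
`d_0 d_1 d_2` resp. using `d_3 = δ² / (d_0 d_1 d_2)` this gives a nonzero zero of `∑ d_i x_i²`. -/
theorem quat_step {K : Type u} [Field K] (h2 : (2 : K) ≠ 0) {d : Fin 4 → K} (hd : ∀ i, d i ≠ 0)
    (hsq : IsSquare (∏ i, d i)) {V : Type v} [AddCommGroup V] [Module K V]
    (hV : Module.finrank K V = 4) (c : Fin 4 → Module.End K V)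
    (hc : ∀ i, c i * c i = d i • 1) (hcc : ∀ i j, i ≠ j → c i * c j = -(c j * c i)) :
    ∃ x : Fin 4 → K, x ≠ 0 ∧ ∑ i, d i * x i ^ 2 = 0 := by
  obtain ⟨δ, hδ⟩ := hsq
  have hprod : ∏ i, d i = d 0 * d 1 * d 2 * d 3 := by
    rw [Fin.prod_univ_four]
  have hδ0 : δ ≠ 0 := by
    intro h
    rw [h, mul_zero, hprod] at hδ
    exact mul_ne_zero (mul_ne_zero (mul_ne_zero (hd 0) (hd 1)) (hd 2)) (hd 3) hδ
  have h2δ : 2 * δ ≠ 0 := mul_ne_zero h2 hδ0
  have : Module.Finite K V := Module.finite_of_finrank_pos (by omega)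
  obtain ⟨ω, hω⟩ : ∃ ω, ω = c 0 * (c 1 * (c 2 * c 3)) := ⟨_, rfl⟩
  obtain ⟨hω2, hω0, hω1, hω2'⟩ := HypB_omega (hc 0) (hc 1) (hc 2) (hc 3)
    (hcc 1 0 (by decide)) (hcc 2 0 (by decide)) (hcc 3 0 (by decide))
    (hcc 2 1 (by decide)) (hcc 3 1 (by decide)) (hcc 3 2 (by decide))
  rw [← hω] at hω2 hω0 hω1 hω2'
  rw [← hprod, hδ] at hω2
  -- the operators applied to vectors
  have sc (i : Fin 4) (v : V) : c i (c i v) = d i • v := by
    have := LinearMap.congr_fun (hc i) v
    simpa using this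
  have ac (i j : Fin 4) (h : i ≠ j) (v : V) : c i (c j v) = -(c j (c i v)) := by
    have := LinearMap.congr_fun (hcc i j h) v
    simpa using this
  have w0 (v : V) : ω (c 0 v) = -(c 0 (ω v)) := by
    have := LinearMap.congr_fun hω0 v
    simpa using this
  have w1 (v : V) : ω (c 1 v) = -(c 1 (ω v)) := by
    have := LinearMap.congr_fun hω1 v
    simpa using this
  have w2 (v : V) : ω (c 2 v) = -(c 2 (ω v)) := by
    have := LinearMap.congr_fun hω2' v
    simpa using this
  have ww (v : V) : ω (ω v) = (δ * δ) • v := by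
    have := LinearMap.congr_fun hω2 v
    simpa using this
  -- the eigenspaces
  obtain ⟨A, hA⟩ : ∃ A : Submodule K V, A = LinearMap.ker (ω - δ • (1 : Module.End K V)) :=
    ⟨_, rfl⟩
  obtain ⟨B, hB⟩ : ∃ B : Submodule K V, B = LinearMap.ker (ω + δ • (1 : Module.End K V)) :=
    ⟨_, rfl⟩
  have memA (v : V) : v ∈ A ↔ ω v = δ • v := by
    rw [hA, LinearMap.mem_ker]
    simp [sub_eq_zero]
  have memB (v : V) : v ∈ B ↔ ω v = -(δ • v) := by
    rw [hB, LinearMap.mem_ker]
    simp [add_eq_zero_iff_eq_neg]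
  have hdis : Disjoint A B := by
    rw [Submodule.disjoint_def]
    intro v hvA hvB
    rw [memA] at hvA
    rw [memB] at hvB
    rw [hvA] at hvB
    have h3 : (2 * δ) • v = 0 := by
      rw [mul_smul, two_smul]
      nth_rewrite 2 [hvB]
      exact add_neg_cancel _
    exact (smul_eq_zero.1 h3).resolve_left h2δ
  -- `c 0` exchanges them
  have hAB : ∀ v ∈ A, c 0 v ∈ B := by
    intro v hv
    rw [memB, w0, (memA v).1 hv, map_smul]
  have hinj : Function.Injective (c 0) := by
    intro v v' h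
    have h3 := congrArg (c 0) h
    rw [sc, sc] at h3
    exact smul_right_injective V (hd 0) h3
  have hle : Module.finrank K A ≤ Module.finrank K B := by
    refine LinearMap.finrank_le_finrank_of_injective (f := (c 0).restrict hAB) ?_
    intro v v' h
    have h3 := congrArg Subtype.val h
    exact Subtype.ext (hinj h3)
  have hsum : Module.finrank K A + Module.finrank K B ≤ Module.finrank K V :=
    Submodule.finrank_add_finrank_le_of_disjoint hdis
  have hA2 : Module.finrank K A ≤ 2 := by omega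
  -- a nonzero vector of `A`
  obtain ⟨v, hvA, hv0⟩ : ∃ v ∈ A, v ≠ 0 := by
    have hne : ∃ v : V, v ≠ 0 := by
      have : Nontrivial V := Module.nontrivial_of_finrank_pos (R := K) (by omega)
      exact exists_ne 0
    obtain ⟨v, hv⟩ := hne
    by_cases h3 : ω v + δ • v = 0
    · refine ⟨c 0 v, ?_, ?_⟩
      · rw [memA, w0, eq_neg_of_add_eq_zero_left h3, map_neg, neg_neg, map_smul]
      · intro h4
        exact hv (hinj (by rw [h4, map_zero]))
    · refine ⟨ω v + δ • v, ?_, h3⟩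
      rw [memA, map_add, map_smul, ww, smul_add, smul_smul, add_comm]
  -- three vectors of `A`
  have hP : c 0 (c 1 v) ∈ A := by
    rw [memA, w0, w1, (memA v).1 hvA, map_smul, map_neg, map_smul, neg_neg]
  have hQ : c 0 (c 2 v) ∈ A := by
    rw [memA, w0, w2, (memA v).1 hvA, map_smul, map_neg, map_smul, neg_neg]
  have hdep : ¬ LinearIndependent K (![⟨v, hvA⟩, ⟨c 0 (c 1 v), hP⟩, ⟨c 0 (c 2 v), hQ⟩] : Fin 3 → A) := by
    intro h
    have h3 := h.fintype_card_le_finrank
    rw [Fintype.card_fin] at h3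
    omega
  obtain ⟨g, hg, i, hi⟩ := Fintype.not_linearIndependent_iff.1 hdep
  have hrel : g 0 • v + g 1 • c 0 (c 1 v) + g 2 • c 0 (c 2 v) = 0 := by
    have h3 := congrArg Subtype.val hg
    rw [Fin.sum_univ_three] at h3
    simpa using h3
  have hPv (x : V) : c 0 (c 1 (c 0 (c 1 x))) = -((d 0 * d 1) • x) := by
    rw [ac 1 0 (by decide), map_neg, sc, sc, smul_smul]
  have hQv (x : V) : c 0 (c 2 (c 0 (c 2 x))) = -((d 0 * d 2) • x) := by
    rw [ac 2 0 (by decide), map_neg, sc, sc, smul_smul]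
  have hPQ : c 0 (c 1 (c 0 (c 2 v))) + c 0 (c 2 (c 0 (c 1 v))) = 0 := by
    rw [ac 1 0 (by decide), ac 2 0 (by decide), map_neg, map_neg, sc, sc,
      ac 2 1 (by decide) v, smul_neg, neg_neg, neg_add_cancel]
  have hr1 := congrArg (fun x => c 0 (c 1 x)) hrel
  have hr2 := congrArg (fun x => c 0 (c 2 x)) hrel
  simp only [map_add, map_smul, map_zero, hPv, hQv] at hr1 hr2
  have hfin : (g 0 ^ 2 + d 0 * d 1 * g 1 ^ 2 + d 0 * d 2 * g 2 ^ 2) • v = 0 := by
    have h3 : (g 0 ^ 2 + d 0 * d 1 * g 1 ^ 2 + d 0 * d 2 * g 2 ^ 2) • v =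
        g 0 • (g 0 • v + g 1 • c 0 (c 1 v) + g 2 • c 0 (c 2 v)) -
        g 1 • (g 0 • c 0 (c 1 v) + g 1 • -((d 0 * d 1) • v) + g 2 • c 0 (c 1 (c 0 (c 2 v)))) -
        g 2 • (g 0 • c 0 (c 2 v) + g 1 • c 0 (c 2 (c 0 (c 1 v))) + g 2 • -((d 0 * d 2) • v)) +
        (g 1 * g 2) • (c 0 (c 1 (c 0 (c 2 v))) + c 0 (c 2 (c 0 (c 1 v)))) := by
      module
    rw [h3, hrel, hr1, hr2, hPQ]
    simp
  have hz : g 0 ^ 2 + d 0 * d 1 * g 1 ^ 2 + d 0 * d 2 * g 2 ^ 2 = 0 :=
    (smul_eq_zero.1 hfin).resolve_right hv0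
  refine ⟨![g 0, d 0 * g 1, d 0 * g 2, 0], ?_, ?_⟩
  · intro h
    have e0 : g 0 = 0 := by simpa using congrFun h 0
    have e1 : d 0 * g 1 = 0 := by simpa using congrFun h 1
    have e2 : d 0 * g 2 = 0 := by simpa using congrFun h 2
    have e1' : g 1 = 0 := (mul_eq_zero.1 e1).resolve_left (hd 0)
    have e2' : g 2 = 0 := (mul_eq_zero.1 e2).resolve_left (hd 0)
    fin_cases i
    · exact hi e0
    · exact hi e1'
    · exact hi e2'
  · rw [Fin.sum_univ_four]
    simp only [Matrix.cons_val_zero, Matrix.cons_val_one, Matrix.cons_val]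
    linear_combination d 0 * hz

end DC83
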