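import Pool.Agent.H.MP_83e36b_nt.sp.WApi

/-! Clifford operators for the orthogonal complement of a hyperbolic plane. -/

set_option autoImplicit false

open Matrix SpinWA

namespace DC83

universe u v w

/-- Splitting the operators: from operators for `diag(1, -1, d')` on a space of dimension `2^(m+1)` to
operators for `diag(d')` on a space of dimension `2^m`.  Proof: `e = (c_0 + c_1) / 2`,
`f = (c_0 - c_1) / 2`: `e² = f² = 0`, `e f + f e = 1`; `V = ker e ⊕ ker f`, `e` maps `ker f`
isomorphically to `ker e`, so `ker e` has dimension `2^m`; the other `c_i` anticommute with `e` and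
preserve `ker e`. -/
theorem op_step {K : Type u} [Field K] (h2 : (2 : K) ≠ 0) {m k : ℕ} {d' : Fin k → K}
    {V : Type v} [AddCommGroup V] [Module K V] (hV : Module.finrank K V = 2 ^ (m + 1))
    (c : Fin (k + 2) → Module.End K V)
    (hc : ∀ i, c i * c i = (Fin.cons 1 (Fin.cons (-1) d') : Fin (k + 2) → K) i • 1)
    (hcc : ∀ i j, i ≠ j → c i * c j = -(c j * c i)) :
    ∃ (V' : Submodule K V) (c' : Fin k → Module.End K V'), Module.finrank K V' = 2 ^ m ∧
      (∀ i, c' i * c' i = d' i • 1) ∧ ∀ i j, i ≠ j → c' i * c' j = -(c' j * c' i) := by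
  have h00 : ∀ x : V, c 0 (c 0 x) = x := fun x => by
    have := congrArg (fun g : Module.End K V => g x) (hc 0)
    simpa using this
  have h11 : ∀ x : V, c 1 (c 1 x) = -x := fun x => by
    have h := congrArg (fun g : Module.End K V => g x) (hc 1)
    have h1 : (Fin.cons 1 (Fin.cons (-1) d') : Fin (k + 2) → K) 1 = -1 := rfl
    rw [h1] at h
    simpa using h
  have h01 : ∀ x : V, c 0 (c 1 x) = -(c 1 (c 0 x)) := fun x => by
    have h := congrArg (fun g : Module.End K V => g x) (hcc 0 1 (by simp))
    simpa using h
  have hs : ∀ (i : Fin k) (x : V), c i.succ.succ (c i.succ.succ x) = d' i • x := fun i x => by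
    have h := congrArg (fun g : Module.End K V => g x) (hc i.succ.succ)
    simpa using h
  have hij : ∀ (i j : Fin (k + 2)), i ≠ j → ∀ x : V, c i (c j x) = -(c j (c i x)) := fun i j h x => by
    have h := congrArg (fun g : Module.End K V => g x) (hcc i j h)
    simpa using h
  set e : Module.End K V := c 0 + c 1 with he
  set f : Module.End K V := c 0 - c 1 with hf
  have hex : ∀ x, e x = c 0 x + c 1 x := fun x => rfl
  have hfx : ∀ x, f x = c 0 x - c 1 x := fun x => rfl
  have hee : ∀ x, e (e x) = 0 := fun x => by
    rw [hex (e x), hex x, map_add, map_add, h00, h11, h01]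
    abel
  have hef : ∀ x, e (f x) + f (e x) = (4 : K) • x := fun x => by
    rw [hex (f x), hfx (e x), hex x, hfx x, map_add, map_add, map_sub, map_sub, h00, h11, h01]
    have h4 : (4 : K) • x = x + x + x + x := by
      rw [show (4 : K) = 1 + 1 + 1 + 1 by norm_num, add_smul, add_smul, add_smul, one_smul]
    rw [h4]
    abel
  have h4 : (4 : K) ≠ 0 := by
    rw [show (4 : K) = 2 * 2 by norm_num]
    exact mul_ne_zero h2 h2
  have hrk : LinearMap.range e = LinearMap.ker e := by
    apply le_antisymm
    · rintro _ ⟨x, rfl⟩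
      exact hee x
    · intro x hx
      have hx' : e x = 0 := hx
      refine ⟨(4 : K)⁻¹ • f x, ?_⟩
      have h := hef x
      rw [hx', map_zero, add_zero] at h
      rw [map_smul, h, smul_smul, inv_mul_cancel₀ h4, one_smul]
  have : Module.Finite K V := Module.finite_of_finrank_pos (by rw [hV]; positivity)
  have hdim : Module.finrank K (LinearMap.ker e) = 2 ^ m := by
    have h := LinearMap.finrank_range_add_finrank_ker e
    rw [hrk, hV, pow_succ] at h
    omega
  have hmap : ∀ (i : Fin k) (x : V), x ∈ LinearMap.ker e → c i.succ.succ x ∈ LinearMap.ker e := by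
    intro i x hx
    have hx' : e x = 0 := hx
    change e (c i.succ.succ x) = 0
    rw [hex, hij 0 i.succ.succ (by simp [Fin.ext_iff]), hij 1 i.succ.succ (by simp [Fin.ext_iff]),
      ← neg_add, ← map_add, ← hex, hx', map_zero, neg_zero]
  refine ⟨LinearMap.ker e, fun i => (c i.succ.succ).restrict (hmap i), hdim, ?_, ?_⟩
  · intro i
    ext x
    have h := hs i (x : V)
    simpa using h
  · intro i j h
    ext x
    have h' := hij i.succ.succ j.succ.succ (by
      intro h1; exact h (Fin.succ_injective _ (Fin.succ_injective _ h1))) (x : V)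
    simpa using h'

end DC83
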