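import Pool.Agent.H.MP_83e36b_nt.dc.U5
import Pool.Agent.H.MP_83e36b_nt.dc.HypA
import Pool.Agent.H.MP_83e36b_nt.dc.HypB
import Pool.Agent.H.MP_83e36b_nt.dc.HypC

/-! Quadratic forms whose Clifford algebra is a matrix algebra. -/

set_option autoImplicit false

open Matrix SpinWA

namespace DC83

universe u v w

private theorem Hyp_change {K : Type u} [Field K] {ι : Type w} [Fintype ι] [DecidableEq ι]
    {A B P : Matrix ι ι K} (hP : Pᵀ * A * P = B) {V : Type v} [AddCommGroup V] [Module K V]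
    {c : ι → Module.End K V} (hc : ∀ i j, c i * c j + c j * c i = (2 * A i j) • 1) (j k : ι) :
    (∑ i, P i j • c i) * (∑ i, P i k • c i) + (∑ i, P i k • c i) * (∑ i, P i j • c i) =
      (2 * B j k) • (1 : Module.End K V) := by
  have h1 : (∑ i, P i j • c i) * (∑ i, P i k • c i) + (∑ i, P i k • c i) * (∑ i, P i j • c i) =
      ∑ i, ∑ l, (P i j * P l k) • (c i * c l + c l * c i) := by
    rw [Finset.sum_mul_sum, Finset.sum_mul_sum]
    rw [Finset.sum_comm (f := fun i l => P i k • c i * P l j • c l), ← Finset.sum_add_distrib]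
    refine Finset.sum_congr rfl fun i _ => ?_
    rw [← Finset.sum_add_distrib]
    refine Finset.sum_congr rfl fun l _ => ?_
    rw [smul_mul_smul_comm, smul_mul_smul_comm, mul_comm (P l k) (P i j), smul_add]
  rw [h1]
  have h3 : ∀ i l, (P i j * P l k) • (c i * c l + c l * c i) =
      (P i j * P l k * (2 * A i l)) • (1 : Module.End K V) := by
    intro i l
    rw [hc, smul_smul]
  simp only [h3]
  simp only [← Finset.sum_smul]
  congr 1
  rw [← hP, Matrix.mul_apply, Finset.mul_sum, Finset.sum_comm]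
  refine Finset.sum_congr rfl fun l _ => ?_
  rw [Matrix.mul_apply, Finset.sum_mul, Finset.mul_sum]
  refine Finset.sum_congr rfl fun i _ => ?_
  rw [Matrix.transpose_apply]
  ring

private theorem Hyp_of_diag {K : Type u} [Field K] {ι : Type w} [DecidableEq ι]
    {d : ι → K} {V : Type v} [AddCommGroup V] [Module K V] {c : ι → Module.End K V}
    (hc : ∀ i, c i * c i = d i • 1) (hcc : ∀ i j, i ≠ j → c i * c j = -(c j * c i)) (i j : ι) :
    c i * c j + c j * c i = (2 * diagonal d i j) • 1 := by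
  by_cases h : i = j
  · subst h
    rw [hc, Matrix.diagonal_apply_eq, two_mul, add_smul]
  · rw [hcc i j h, Matrix.diagonal_apply_ne _ h, mul_zero, zero_smul, neg_add_cancel]

private theorem Hyp_to_sq {K : Type u} [Field K] (h2 : (2 : K) ≠ 0) {ι : Type w} [DecidableEq ι]
    {d : ι → K} {V : Type v} [AddCommGroup V] [Module K V] {c : ι → Module.End K V}
    (h : ∀ i j, c i * c j + c j * c i = (2 * diagonal d i j) • 1) (i : ι) :
    c i * c i = d i • 1 := by
  have h1 := h i i
  rw [Matrix.diagonal_apply_eq, ← two_smul K (c i * c i), mul_smul] at h1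
  exact smul_right_injective _ h2 h1

private theorem Hyp_to_anti {K : Type u} [Field K] {ι : Type w} [DecidableEq ι]
    {d : ι → K} {V : Type v} [AddCommGroup V] [Module K V] {c : ι → Module.End K V}
    (h : ∀ i j, c i * c j + c j * c i = (2 * diagonal d i j) • 1) (i j : ι) (hij : i ≠ j) :
    c i * c j = -(c j * c i) := by
  have h1 := h i j
  rw [Matrix.diagonal_apply_ne _ hij, mul_zero, zero_smul] at h1
  exact eq_neg_of_add_eq_zero_left h1

private theorem Hyp_iso {K : Type u} [Field K] (h2 : (2 : K) ≠ 0) (hu : U5 K) (m : ℕ)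
    (d : Fin (2 * m + 2) → K) (hd : ∀ i, d i ≠ 0) (hsq : IsSquare ((-1) ^ (m + 1) * ∏ i, d i))
    (V : Type v) [AddCommGroup V] [Module K V] (hV : Module.finrank K V = 2 ^ (m + 1))
    (c : Fin (2 * m + 2) → Module.End K V) (hc : ∀ i, c i * c i = d i • 1)
    (hcc : ∀ i j, i ≠ j → c i * c j = -(c j * c i)) :
    ∃ x : Fin (2 * m + 2) → K, x ≠ 0 ∧ ∑ i, d i * x i ^ 2 = 0 := by
  match m, d, hd, hsq, hV, c, hc, hcc with
  | 0, d, hd, hsq, _, _, _, _ =>
    obtain ⟨s, hs⟩ := hsq
    have hs' : -(d 0 * d 1) = s * s := by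
      have : ∏ i : Fin (2 * 0 + 2), d i = d 0 * d 1 := Fin.prod_univ_two d
      rw [this] at hs
      rw [← hs]
      ring
    refine ⟨![s, d 0], ?_, ?_⟩
    · intro h
      exact hd 0 (congrFun h 1)
    · have : ∑ i : Fin (2 * 0 + 2), d i * (![s, d 0] : Fin 2 → K) i ^ 2 =
        d 0 * s ^ 2 + d 1 * d 0 ^ 2 := Fin.sum_univ_two _
      rw [this]
      linear_combination (-(d 0)) * hs'
  | 1, d, hd, hsq, hV, c, hc, hcc =>
    refine quat_step h2 hd ?_ hV c hc hcc
    have e : ((-1 : K)) ^ (1 + 1) * ∏ i, d i = ∏ i, d i := by norm_num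
    rw [e] at hsq
    exact hsq
  | m + 2, d, hd, _, _, _, _, _ =>
    have h5 : 5 ≤ 2 * (m + 2) + 2 := by omega
    obtain ⟨x, hx, hx0⟩ := hu (fun i => d (Fin.castLE h5 i)) (fun i => hd _)
    refine ⟨fun i => if h : (i : ℕ) < 5 then x ⟨i, h⟩ else 0, ?_, ?_⟩
    · intro h
      apply hx
      funext i
      have h1 := congrFun h (Fin.castLE h5 i)
      simpa using h1
    · refine Eq.trans ?_ hx0
      symm
      refine Finset.sum_of_injOn (Fin.castLE h5) (Fin.castLE_injective h5).injOn
        (fun _ _ => Finset.mem_univ _) ?_ ?_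
      · intro i _ hi
        have h1 : ¬ (i : ℕ) < 5 := by
          intro h
          exact hi ⟨⟨i, h⟩, Finset.mem_coe.2 (Finset.mem_univ _), rfl⟩
        simp only [dif_neg h1]
        ring
      · intro i _
        simp

/-- The diagonal form of the theorem.  Proof: induction on `m`; `m = 0` trivial; `m = 1`:
`-(d 0 * d 1)` is a square, so the class is `0` (`cl_neg`, `cl_mul_sq`); `m ≥ 2`: the form is isotropic
(`m = 2`: `quat_step`; `m ≥ 3`: `U5` for the first five variables), `exists_split` with the matrix `P`,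
the operators `∑ i, P i j • c i`, `op_step`, and `cl 1 + cl (-1) = 0`. -/
theorem hyp_diag {K : Type u} [Field K] (h2 : (2 : K) ≠ 0) (hu : U5 K) (m : ℕ) :
    ∀ (d : Fin (2 * m) → K), (∀ i, d i ≠ 0) → IsSquare ((-1) ^ m * ∏ i, d i) →
    ∀ (V : Type v) [AddCommGroup V] [Module K V], Module.finrank K V = 2 ^ m →
    ∀ c : Fin (2 * m) → Module.End K V, (∀ i, c i * c i = d i • 1) →
      (∀ i j, i ≠ j → c i * c j = -(c j * c i)) → ∑ i, cl (d i) = 0 := by
  induction m with
  | zero =>
    intro d _ _ V _ _ _ c _ _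
    exact Finset.sum_eq_zero fun i _ => Fin.elim0 (show Fin 0 from i)
  | succ m ih =>
    intro d hd hsq V _ _ hV c hc hcc
    obtain ⟨x, hx, hx0⟩ := Hyp_iso h2 hu m d hd hsq V hV c hc hcc
    obtain ⟨d', hd', hcong⟩ := exists_split (m := 2 * m) h2 hd hx hx0
    have hd1 : ∀ i, (Fin.cons 1 (Fin.cons (-1) d') : Fin (2 * m + 2) → K) i ≠ 0 := by
      intro i
      refine Fin.cases ?_ (fun i => ?_) i
      · rw [Fin.cons_zero]
        exact one_ne_zero
      · rw [Fin.cons_succ]
        refine Fin.cases ?_ (fun i => ?_) i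
        · rw [Fin.cons_zero]
          exact neg_ne_zero.2 one_ne_zero
        · rw [Fin.cons_succ]
          exact hd' i
    have hsum : ∑ i, cl ((Fin.cons 1 (Fin.cons (-1) d') : Fin (2 * m + 2) → K) i) =
        ∑ i, cl (d' i) := by
      rw [Fin.sum_univ_succ, Fin.sum_univ_succ]
      simp only [Fin.cons_zero, Fin.cons_succ]
      rw [← add_assoc, cl_one_neg, zero_add]
    have hprod : ∏ i, (Fin.cons 1 (Fin.cons (-1) d') : Fin (2 * m + 2) → K) i =
        -∏ i, d' i := by
      rw [Fin.prod_univ_succ, Fin.prod_univ_succ]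
      simp only [Fin.cons_zero, Fin.cons_succ]
      rw [one_mul, neg_one_mul]
    have hwd := diag_wd h2 (n := 2 * m + 2) hd hd1 hcong
    have hwd' : ∑ i : Fin (2 * (m + 1)), cl (d i) = ∑ i, cl (d' i) := hwd.trans hsum
    rw [hwd']
    obtain ⟨t, ht, hdet⟩ := hcong.det
    rw [det_diagonal, det_diagonal, hprod] at hdet
    have hsq' : IsSquare ((-1) ^ m * ∏ i, d' i) := by
      obtain ⟨s, hs⟩ := hsq
      refine ⟨t * s, ?_⟩
      have hs' : (-1) ^ (m + 1) * ∏ i : Fin (2 * m + 2), d i = s * s := hs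
      have e : ∏ i, d' i = -(t ^ 2 * ∏ i : Fin (2 * m + 2), d i) := by
        rw [← hdet, neg_neg]
      rw [e]
      rw [pow_succ] at hs'
      linear_combination (t ^ 2) * hs'
    obtain ⟨P, hP, hPe⟩ := hcong
    have hcl := Hyp_of_diag hc hcc
    have hnew := Hyp_change hPe hcl
    obtain ⟨V', c', hV', hc1, hc2⟩ := op_step h2 (m := m) (k := 2 * m) (d' := d') hV
      (fun j => ∑ i, P i j • c i) (fun j => Hyp_to_sq h2 hnew j)
      (fun i j hij => Hyp_to_anti hnew i j hij)
    exact ih d' hd' hsq' V' hV' c' hc1 hc2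

/-- If a quadratic form of dimension `2 m` and trivial discriminant over a field with `U5` has a Clifford
module of dimension `2^m`, it is hyperbolic.  Proof: diagonalise (`exists_diag`), change the operators
accordingly and reindex (`Fintype.equivFin`), `hyp_diag`, `cls_eq_sum`. -/
theorem hyp {K : Type u} [Field K] (h2 : (2 : K) ≠ 0) (hu : U5 K) {m : ℕ} {ι : Type w} [Fintype ι]
    [DecidableEq ι] (hι : Fintype.card ι = 2 * m) {A : Matrix ι ι K} (hA : Aᵀ = A)
    (hd : A.det ≠ 0) (hsq : IsSquare ((-1) ^ m * A.det)) {V : Type v} [AddCommGroup V] [Module K V]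
    (hV : Module.finrank K V = 2 ^ m) (c : ι → Module.End K V)
    (hc : ∀ i j, c i * c j + c j * c i = (2 * A i j) • 1) : cls A = 0 := by
  obtain ⟨d, hd1, hcong⟩ := exists_diag h2 hA hd
  rw [cls_eq_sum h2 hd1 hcong]
  obtain ⟨t, ht, hdet⟩ := hcong.det
  rw [det_diagonal] at hdet
  obtain ⟨P, hP, hPe⟩ := hcong
  have hnew := Hyp_change hPe hc
  have e : ι ≃ Fin (2 * m) := Fintype.equivFinOfCardEq hι
  rw [← Equiv.sum_comp e.symm (fun i => cl (d i))]
  refine hyp_diag h2 hu m (fun i => d (e.symm i)) (fun i => hd1 _) ?_ V hV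
    (fun j => ∑ i, P i (e.symm j) • c i) (fun j => Hyp_to_sq h2 hnew _)
    (fun i j hij => Hyp_to_anti hnew _ _ (fun h => hij (e.symm.injective h)))
  rw [Equiv.prod_comp e.symm (fun i => d i), hdet]
  obtain ⟨s, hs⟩ := hsq
  refine ⟨t * s, ?_⟩
  linear_combination (t ^ 2) * hs

end DC83
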