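import Pool.Agent.H.MP_83e36b_nt.dc.Perm
import Pool.Agent.H.MP_83e36b_nt.dc.H90
import Pool.Agent.H.MP_83e36b_nt.dc.Hyp

/-! The trace form of an algebra whose Galois representation lifts to `2.A_n`, over a field over which
the forms in five variables are isotropic. -/

set_option autoImplicit false

open Matrix SpinWA

namespace DC83

section
variable {K : Type} [Field K] {Ω : Type} [Field Ω] [Algebra K Ω]

private theorem locP_fix {κ : Type} [Fintype κ] [DecidableEq κ] {T g X : Matrix κ κ Ω}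
    (σ : Ω →+* Ω) (hT : T.det ≠ 0) (hTσ : T.map σ = g * T) (hg : gᵀ * g = 1)
    (hX : X.map σ * g = g * X) : (T⁻¹ * X * T).map σ = T⁻¹ * X * T := by
  have hu : IsUnit T.det := isUnit_iff_ne_zero.2 hT
  have h1 : T * T⁻¹ = 1 := Matrix.mul_nonsing_inv T hu
  have h2 : T⁻¹ * T = 1 := Matrix.nonsing_inv_mul T hu
  have h3 : T * (T⁻¹ * X * T) = X * T := by
    rw [← Matrix.mul_assoc, ← Matrix.mul_assoc, h1, Matrix.one_mul]
  have h4 := congrArg (fun M : Matrix κ κ Ω => M.map σ) h3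
  simp only [Matrix.map_mul] at h4
  have h5 : (T.map σ) * (T⁻¹ * X * T).map σ = X.map σ * T.map σ := by
    simp only [Matrix.map_mul]
    exact h4
  rw [hTσ, ← Matrix.mul_assoc (X.map σ), hX] at h5
  have h6 : g * (T * (T⁻¹ * X * T).map σ) = g * (X * T) := by
    rw [← Matrix.mul_assoc, h5, Matrix.mul_assoc]
  have h7 : T * (T⁻¹ * X * T).map σ = X * T := by
    have h8 := congrArg (fun M => gᵀ * M) h6
    simp only [← Matrix.mul_assoc, hg, Matrix.one_mul] at h8
    exact h8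
  have h9 := congrArg (fun M => T⁻¹ * M) h7
  simp only [← Matrix.mul_assoc, h2, Matrix.one_mul] at h9
  exact h9

private theorem locP_desc [CharZero K] [IsAlgClosed Ω] [Algebra.IsAlgebraic K Ω] {κ : Type}
    {C : Matrix κ κ Ω} (h : ∀ τ : Ω ≃ₐ[K] Ω, C.map τ = C) :
    ∃ D : Matrix κ κ K, D.map (algebraMap K Ω) = C := by
  have h1 : ∀ i j, ∃ a : K, algebraMap K Ω a = C i j := fun i j =>
    exists_of_fixed fun τ => congrFun (congrFun (h τ) i) j
  choose D hD using h1
  exact ⟨D, by ext i j; exact hD i j⟩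

private theorem locP_inj {κ : Type} {A B : Matrix κ κ K}
    (h : A.map (algebraMap K Ω) = B.map (algebraMap K Ω)) : A = B := by
  ext i j
  exact (algebraMap K Ω).injective (congrFun (congrFun h i) j)

private theorem locP_conj {κ : Type} [Fintype κ] [DecidableEq κ] {T : Matrix κ κ Ω}
    (hT : T.det ≠ 0) {X Y : Matrix κ κ Ω} :
    (T⁻¹ * X * T) * (T⁻¹ * Y * T) = T⁻¹ * (X * Y) * T := by
  have hu : IsUnit T.det := isUnit_iff_ne_zero.2 hT
  have h1 : T * T⁻¹ = 1 := Matrix.mul_nonsing_inv T hu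
  calc (T⁻¹ * X * T) * (T⁻¹ * Y * T) = T⁻¹ * X * (T * T⁻¹) * (Y * T) := by
        simp only [Matrix.mul_assoc]
    _ = T⁻¹ * (X * Y) * T := by
        rw [h1]
        simp only [Matrix.mul_assoc, Matrix.one_mul]

private theorem locP_rel {κ : Type} [Fintype κ] [DecidableEq κ] {T : Matrix κ κ Ω}
    (hT : T.det ≠ 0) {X Y : Matrix κ κ Ω} {A B : Matrix κ κ K}
    (hA : A.map (algebraMap K Ω) = T⁻¹ * X * T) (hB : B.map (algebraMap K Ω) = T⁻¹ * Y * T) {a : K}
    (h : X * Y + Y * X = algebraMap K Ω a • (1 : Matrix κ κ Ω)) : A * B + B * A = a • 1 := by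
  have hu : IsUnit T.det := isUnit_iff_ne_zero.2 hT
  have h2 : T⁻¹ * T = 1 := Matrix.nonsing_inv_mul T hu
  apply locP_inj (Ω := Ω)
  have e1 : (A * B + B * A).map (algebraMap K Ω) =
      A.map (algebraMap K Ω) * B.map (algebraMap K Ω) +
        B.map (algebraMap K Ω) * A.map (algebraMap K Ω) := by
    rw [Matrix.map_add _ (map_add _), Matrix.map_mul, Matrix.map_mul]
  have e2 : (a • (1 : Matrix κ κ K)).map (algebraMap K Ω) =
      algebraMap K Ω a • (1 : Matrix κ κ Ω) := by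
    ext i j
    simp only [Matrix.map_apply, Matrix.smul_apply, smul_eq_mul, map_mul, Matrix.one_apply]
    split_ifs <;> simp
  rw [e1, e2, hA, hB, locP_conj hT, locP_conj hT, ← Matrix.add_mul, ← Matrix.mul_add, h,
    Matrix.mul_smul, Matrix.mul_one, Matrix.smul_mul, h2]

end

/-- Proof: `R = (dAlt n).subtype`, `T` from `exists_hilbert90`: `T.map τ = g⁻¹ T`, `g = (ρ τ).map Rat.cast`
(`Spn g (pM (π (ρ τ))⁻¹)`, `spn_pi`).  The matrices `c_i = T⁻¹ * cV (column i of V) * T` and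
`f_j = T⁻¹ * cF Ω n j * T` are fixed by all `τ`: `(cV v).map τ = cV (pM (π (ρ τ)) *ᵥ v)` for a column
`v` of `V` (`hτ`), and `g * cV (pM (π (ρ τ)) *ᵥ v) = cV v * g` (`Spn.conj`), `g * cF j = cF j * g`
(`Spn.comm_cF`).  So they come from matrices `C_i, F_j` over `K` (`exists_of_fixed` for every entry),
with `C_i C_k + C_k C_i = 2 H_ik`, `F_j F_k + F_k F_j = -2 δ_jk`, `C_i F_j = - F_j C_i`.
`det V` is fixed by all `τ` (`pM_det`, `sign_pi`), so `det H` is a square in `K`.
Apply `hyp` with `A = fromBlocks H 0 0 (-1)`, `m = n`, the space `Ix n → K` of dimension `2 ^ n` and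
the operators `Matrix.toLin'` (or `mulVecLin`) of `C_i, F_j`; then `cls_fromBlocks`,
`cls (-1) = n • cl (-1)` (`cls_diagonal`), `cl_one_neg`. -/
theorem locP {K : Type} [Field K] [CharZero K] (hu : U5 K) {Ω : Type} [Field Ω] [CharZero Ω]
    [Algebra K Ω] [IsAlgClosed Ω] [Algebra.IsAlgebraic K Ω] {n : ℕ}
    {ρ : (Ω ≃ₐ[K] Ω) →* dAlt n} (hρ : Cts ρ) {V : Matrix (Fin n) (Fin n) Ω} (hV : V.det ≠ 0)
    (hτ : ∀ τ : Ω ≃ₐ[K] Ω, V.map τ = pM Ω (pi n (ρ τ)) * V) {H : Matrix (Fin n) (Fin n) K}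
    (hH : H.map (algebraMap K Ω) = Vᵀ * V) : cls H = n • cl (1 : K) := by
  classical
  have h20 : (2 : K) ≠ 0 := two_ne_zero
  have := finite_dAlt n
  obtain ⟨T, hT, hTτ⟩ := exists_hilbert90 hρ (dAlt n).subtype
  -- the element of the spin group
  have key : ∀ τ : Ω ≃ₐ[K] Ω, ∃ g : Matrix (Ix n) (Ix n) Ω,
      Spn g (pM Ω (pi n (ρ τ))) ∧ T.map τ = g * T := by
    intro τ
    refine ⟨_, ?_, hTτ τ⟩
    have h1 := spn_pi Ω (ρ τ)⁻¹
    rw [map_inv, inv_inv] at h1
    exact h1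
  have hcV : ∀ (i : Fin n) (τ : Ω ≃ₐ[K] Ω),
      (T⁻¹ * cV (fun k => V k i) * T).map τ = T⁻¹ * cV (fun k => V k i) * T := by
    intro i τ
    obtain ⟨g, hg, hgT⟩ := key τ
    refine locP_fix ((τ : Ω ≃+* Ω) : Ω →+* Ω) hT hgT hg.mul_transpose.2.1 ?_
    have h2 : (fun k => ((τ : Ω ≃+* Ω) : Ω →+* Ω) (V k i)) =
        pM Ω (pi n (ρ τ)) *ᵥ (fun k => V k i) := by
      funext k
      rw [pM_mulVec]
      have h3 := congrFun (congrFun (hτ τ) k) i
      rw [pM_mul_apply] at h3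
      exact h3
    rw [cV_map, h2, hg.conj]
  have hcF : ∀ (j : Fin n) (τ : Ω ≃ₐ[K] Ω),
      (T⁻¹ * cF Ω n j * T).map τ = T⁻¹ * cF Ω n j * T := by
    intro j τ
    obtain ⟨g, hg, hgT⟩ := key τ
    refine locP_fix ((τ : Ω ≃+* Ω) : Ω →+* Ω) hT hgT hg.mul_transpose.2.1 ?_
    rw [cF_map, hg.comm_cF]
  choose C hC using fun i => locP_desc (hcV i)
  choose F hF using fun j => locP_desc (hcF j)
  have hdot : ∀ i k : Fin n, (fun l => V l i) ⬝ᵥ (fun l => V l k) = algebraMap K Ω (H i k) := by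
    intro i k
    have h1 := congrFun (congrFun hH i) k
    rw [Matrix.map_apply, Matrix.mul_apply] at h1
    rw [h1]
    rfl
  have hCC : ∀ i k, C i * C k + C k * C i = (2 * H i k) • 1 := by
    intro i k
    refine locP_rel hT (hC i) (hC k) ?_
    rw [cV_mul_add, hdot, map_mul, map_ofNat]
  have hFF : ∀ j k, F j * F k + F k * F j = (2 * (-1 : Matrix (Fin n) (Fin n) K) j k) • 1 := by
    intro j k
    refine locP_rel hT (hF j) (hF k) ?_
    rcases eq_or_ne j k with rfl | hjk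
    · rw [cF_sq, Matrix.neg_apply, Matrix.one_apply_eq]
      simp only [mul_neg, mul_one, map_neg, map_ofNat, neg_smul]
      rw [two_smul, neg_add]
    · rw [cF_anti Ω n hjk, Matrix.neg_apply, Matrix.one_apply_ne hjk]
      simp
  have hCF : ∀ i j, C i * F j + F j * C i = (0 : K) • 1 := by
    intro i j
    refine locP_rel hT (hC i) (hF j) ?_
    rw [cV_cF]
    simp
  -- the matrix
  have hHt : Hᵀ = H := by
    apply locP_inj (Ω := Ω)
    rw [Matrix.transpose_map, hH, Matrix.transpose_mul, Matrix.transpose_transpose]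
  have hdH : algebraMap K Ω H.det = V.det ^ 2 := by
    rw [RingHom.map_det, RingHom.mapMatrix_apply, hH, Matrix.det_mul, Matrix.det_transpose, sq]
  have hdH0 : H.det ≠ 0 := by
    intro h
    rw [h, map_zero] at hdH
    exact hV (pow_eq_zero_iff two_ne_zero |>.1 hdH.symm)
  obtain ⟨a, ha⟩ : ∃ a : K, algebraMap K Ω a = V.det := by
    apply exists_of_fixed
    intro τ
    have h1 : τ V.det = (V.map τ).det := by
      have h2 := RingHom.map_det ((τ : Ω ≃+* Ω) : Ω →+* Ω) V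
      exact h2
    rw [h1, hτ, Matrix.det_mul, pM_det, sign_pi]
    simp
  have hsq : H.det = a ^ 2 := by
    apply (algebraMap K Ω).injective
    rw [hdH, map_pow, ha]
  have hA : (fromBlocks H 0 0 (-1 : Matrix (Fin n) (Fin n) K))ᵀ = fromBlocks H 0 0 (-1) := by
    rw [Matrix.fromBlocks_transpose, hHt]
    simp
  have hneg : (-1 : Matrix (Fin n) (Fin n) K).det = (-1) ^ n := by
    rw [Matrix.det_neg, Matrix.det_one, mul_one, Fintype.card_fin]
  have hneg0 : (-1 : Matrix (Fin n) (Fin n) K).det ≠ 0 := by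
    rw [hneg]
    exact pow_ne_zero _ (neg_ne_zero.2 one_ne_zero)
  have hdA : (fromBlocks H 0 0 (-1 : Matrix (Fin n) (Fin n) K)).det = H.det * (-1) ^ n := by
    rw [Matrix.det_fromBlocks_zero₂₁, hneg]
  have hcls : cls (fromBlocks H 0 0 (-1 : Matrix (Fin n) (Fin n) K)) = 0 := by
    refine hyp h20 hu (m := n) (ι := Fin n ⊕ Fin n) ?_ hA ?_ ?_ (V := Ix n → K) ?_
      (Sum.elim (fun i => Matrix.toLinAlgEquiv' (C i)) fun j => Matrix.toLinAlgEquiv' (F j)) ?_
    · rw [Fintype.card_sum, Fintype.card_fin, two_mul]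
    · rw [hdA]
      exact mul_ne_zero hdH0 (pow_ne_zero _ (neg_ne_zero.2 one_ne_zero))
    · rw [hdA, hsq]
      refine ⟨a * (-1) ^ n, ?_⟩
      ring
    · rw [Module.finrank_fintype_fun_eq_card, Fintype.card_fun, ZMod.card, Fintype.card_fin]
    · rintro (i | i) (k | k)
      · show Matrix.toLinAlgEquiv' (C i) * Matrix.toLinAlgEquiv' (C k) +
          Matrix.toLinAlgEquiv' (C k) * Matrix.toLinAlgEquiv' (C i) = (2 * H i k) • 1
        rw [← map_mul, ← map_mul, ← map_add, hCC, map_smul, map_one]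
      · show Matrix.toLinAlgEquiv' (C i) * Matrix.toLinAlgEquiv' (F k) +
          Matrix.toLinAlgEquiv' (F k) * Matrix.toLinAlgEquiv' (C i) = (2 * (0 : K)) • 1
        rw [← map_mul, ← map_mul, ← map_add, hCF, map_smul, map_one, mul_zero]
      · show Matrix.toLinAlgEquiv' (F i) * Matrix.toLinAlgEquiv' (C k) +
          Matrix.toLinAlgEquiv' (C k) * Matrix.toLinAlgEquiv' (F i) = (2 * (0 : K)) • 1
        rw [← map_mul, ← map_mul, ← map_add, add_comm, hCF, map_smul, map_one, mul_zero]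
      · show Matrix.toLinAlgEquiv' (F i) * Matrix.toLinAlgEquiv' (F k) +
          Matrix.toLinAlgEquiv' (F k) * Matrix.toLinAlgEquiv' (F i) =
            (2 * (-1 : Matrix (Fin n) (Fin n) K) i k) • 1
        rw [← map_mul, ← map_mul, ← map_add, hFF, map_smul, map_one]
  have hnt : (-1 : Matrix (Fin n) (Fin n) K)ᵀ = -1 := by simp
  rw [cls_fromBlocks h20 hHt hdH0 hnt hneg0] at hcls
  have h3 : cls (-1 : Matrix (Fin n) (Fin n) K) = n • cl (-1 : K) := by
    have h4 : (-1 : Matrix (Fin n) (Fin n) K) = diagonal fun _ => (-1 : K) := by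
      ext i j
      rcases eq_or_ne i j with rfl | hij
      · simp
      · simp [hij]
    rw [h4, cls_diagonal h20 fun _ => neg_ne_zero.2 one_ne_zero, Finset.sum_const,
      Finset.card_univ, Fintype.card_fin]
  rw [h3] at hcls
  have h5 : n • cl (1 : K) + n • cl (-1 : K) = 0 := by
    rw [← nsmul_add, cl_one_neg, nsmul_zero]
  exact add_right_cancel (hcls.trans h5.symm)

end DC83
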