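import Pool.Agent.H.MP_83e36b_nt.dc.PermB

/-! The double cover `2.A_n` and its map to the alternating group. -/

set_option autoImplicit false

open Matrix

namespace DC83

variable {n : ℕ}

/-- the map `2.A_n → A_n ⊂ S_n`: `x e_i x⁻¹ = e_(π x i)` -/
noncomputable def piF (x : dAlt n) : Equiv.Perm (Fin n) :=
  (exists_perm (AlgebraicClosure ℚ) x.1 x.2).choose

/-- Proof: `choose_spec` and `Spn.map` for an embedding of `AlgebraicClosure ℚ` in `Ω`
(`IsAlgClosed.lift`); `Rat.castHom` is unique. -/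
theorem spn_piF (Ω : Type*) [Field Ω] [CharZero Ω] [IsAlgClosed Ω] (x : dAlt n) :
    Spn ((x.1 : Matrix (Ix n) (Ix n) ℚ).map (Rat.castHom Ω)) (pM Ω (piF x)⁻¹) := by
  have h := (exists_perm (AlgebraicClosure ℚ) x.1 x.2).choose_spec
  have hal : Algebra.IsAlgebraic ℚ (AlgebraicClosure ℚ) := AlgebraicClosure.isAlgebraic ℚ
  obtain ⟨φ⟩ : Nonempty (AlgebraicClosure ℚ →+* Ω) :=
    ⟨(IsAlgClosed.lift (R := ℚ) (S := AlgebraicClosure ℚ) (M := Ω)).toRingHom⟩
  have h1 := h.map φ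
  have e1 : ((x.1 : Matrix (Ix n) (Ix n) ℚ).map (Rat.castHom (AlgebraicClosure ℚ))).map φ
      = (x.1 : Matrix (Ix n) (Ix n) ℚ).map (Rat.castHom Ω) := by
    ext i j
    simp only [Matrix.map_apply]
    exact RingHom.congr_fun
      (Subsingleton.elim (φ.comp (Rat.castHom (AlgebraicClosure ℚ))) (Rat.castHom Ω)) _
  rw [e1, pM_map] at h1
  exact h1

/-- Proof: uniqueness (`Spn.unique`, `pM_inj`). -/
theorem piF_mul (x y : dAlt n) : piF (x * y) = piF x * piF y := by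
  have h1 := spn_piF (AlgebraicClosure ℚ) x
  have h2 := spn_piF (AlgebraicClosure ℚ) y
  have h3 := spn_piF (AlgebraicClosure ℚ) (x * y)
  have h4 := h1.mul' h2
  rw [pM_mul, ← _root_.mul_inv_rev] at h4
  have e1 : (((x * y : dAlt n).1 : (Matrix (Ix n) (Ix n) ℚ)ˣ) : Matrix (Ix n) (Ix n) ℚ).map
      (Rat.castHom (AlgebraicClosure ℚ))
      = (x.1 : Matrix (Ix n) (Ix n) ℚ).map (Rat.castHom (AlgebraicClosure ℚ)) *
        (y.1 : Matrix (Ix n) (Ix n) ℚ).map (Rat.castHom (AlgebraicClosure ℚ)) := by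
    rw [← Matrix.map_mul, Subgroup.coe_mul, Units.val_mul]
  rw [e1] at h3
  have h5 := Spn.unique two_ne_zero h3 h4
  exact inv_injective (pM_inj _ h5)

/-- the homomorphism `2.A_n → S_n` -/
noncomputable def pi (n : ℕ) : dAlt n →* Equiv.Perm (Fin n) :=
  MonoidHom.mk' piF piF_mul

theorem spn_pi (Ω : Type*) [Field Ω] [CharZero Ω] [IsAlgClosed Ω] (x : dAlt n) :
    Spn ((x.1 : Matrix (Ix n) (Ix n) ℚ).map (Rat.castHom Ω)) (pM Ω (pi n x)⁻¹) :=
  spn_piF Ω x

private theorem Perm_sign {Ω : Type*} [Field Ω] [CharZero Ω]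
    {y : Matrix (Ix n) (Ix n) Ω} {σ : Equiv.Perm (Fin n)} (h : Spn y (pM Ω σ⁻¹)) :
    Equiv.Perm.sign σ = 1 := by
  have h1 := h.mul_transpose.2.2.2.2
  rw [pM_det, Equiv.Perm.sign_inv] at h1
  rcases Int.units_eq_one_or (Equiv.Perm.sign σ) with h2 | h2
  · exact h2
  · exfalso
    rw [h2] at h1
    have h3 : (-1 : Ω) = 1 := by simpa using h1
    have h4 : (2 : Ω) = 0 := by
      rw [← one_add_one_eq_two]
      nth_rewrite 1 [← h3]
      exact neg_add_cancel 1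
    exact two_ne_zero h4

private theorem Perm_unique {x : dAlt n} {σ : Equiv.Perm (Fin n)} {Ω : Type*} [Field Ω]
    [CharZero Ω] [IsAlgClosed Ω]
    (h : Spn ((x.1 : Matrix (Ix n) (Ix n) ℚ).map (Rat.castHom Ω)) (pM Ω σ⁻¹)) : pi n x = σ :=
  inv_injective (pM_inj _ (Spn.unique two_ne_zero (spn_pi Ω x) h))

/-- Proof: `Spn.mul_transpose` (determinant one) and `pM_det`. -/
theorem sign_pi (x : dAlt n) : Equiv.Perm.sign (pi n x) = 1 :=
  Perm_sign (spn_pi (AlgebraicClosure ℚ) x)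

private theorem Perm_sq {i j : Fin n} (h : i ≠ j) :
    (cE ℚ n i - cE ℚ n j) * (cE ℚ n i - cE ℚ n j) = (2 : ℚ) • 1 := by
  have h1 := cE_anti ℚ n h
  rw [sub_mul, mul_sub, mul_sub, cE_sq, cE_sq, h1, two_smul]
  abel

private theorem Perm_inv {i j k l : Fin n} (h : i ≠ j) (h' : k ≠ l) :
    ((1 / 2 : ℚ) • ((cE ℚ n i - cE ℚ n j) * (cE ℚ n k - cE ℚ n l))) *
      ((1 / 2 : ℚ) • ((cE ℚ n k - cE ℚ n l) * (cE ℚ n i - cE ℚ n j))) = 1 := by
  have e1 := Perm_sq h
  have e2 := Perm_sq h'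
  generalize cE ℚ n i - cE ℚ n j = a at *
  generalize cE ℚ n k - cE ℚ n l = b at *
  have e3 : a * b * (b * a) = (4 : ℚ) • 1 := by
    calc a * b * (b * a) = a * (b * b) * a := by simp only [mul_assoc]
      _ = (2 : ℚ) • (a * a) := by
          rw [e2, Matrix.mul_smul, mul_one, Matrix.smul_mul]
      _ = (4 : ℚ) • 1 := by rw [e1, smul_smul]; norm_num
  rw [Matrix.smul_mul, Matrix.mul_smul, e3, smul_smul, smul_smul]
  norm_num

private theorem Perm_pair {i j k l : Fin n} (h : i ≠ j) (h' : k ≠ l) :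
    ∃ x : dAlt n, pi n x = Equiv.swap i j * Equiv.swap k l := by
  let u : (Matrix (Ix n) (Ix n) ℚ)ˣ :=
    ⟨(1 / 2 : ℚ) • ((cE ℚ n i - cE ℚ n j) * (cE ℚ n k - cE ℚ n l)),
      (1 / 2 : ℚ) • ((cE ℚ n k - cE ℚ n l) * (cE ℚ n i - cE ℚ n j)),
      Perm_inv h h', Perm_inv h' h⟩
  have hu : u ∈ dAlt n := Subgroup.subset_closure ⟨i, j, k, l, h, h', rfl⟩
  refine ⟨⟨u, hu⟩, ?_⟩
  exact Perm_unique (Ω := AlgebraicClosure ℚ) (x := ⟨u, hu⟩)
    (spn_gen (AlgebraicClosure ℚ) h h')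

private theorem Perm_list (k : ℕ) : ∀ l : List (Equiv.Perm (Fin n)), l.length = 2 * k →
    (∀ g ∈ l, Equiv.Perm.IsSwap g) → ∃ x, pi n x = l.prod := by
  induction k with
  | zero =>
    intro l hl _
    have h0 : l = [] := List.eq_nil_of_length_eq_zero (by omega)
    subst h0
    exact ⟨1, by rw [map_one, List.prod_nil]⟩
  | succ k ih =>
    intro l hl hv
    match l, hl, hv with
    | [], hl, _ => simp at hl
    | [a], hl, _ => simp at hl; omega
    | a :: b :: t, hl, hv =>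
      obtain ⟨x, hx⟩ := ih t (by simp at hl; omega)
        (fun v hv' => hv v (List.mem_cons_of_mem a (List.mem_cons_of_mem b hv')))
      obtain ⟨i, j, hij, rfl⟩ := hv a List.mem_cons_self
      obtain ⟨k', l', hkl, rfl⟩ := hv b (List.mem_cons_of_mem _ List.mem_cons_self)
      obtain ⟨y, hy⟩ := Perm_pair hij hkl
      exact ⟨y * x, by rw [map_mul, hx, hy, List.prod_cons, List.prod_cons, mul_assoc]⟩

/-- Proof: `σ` is a product of an even number of transpositions; `Spn.unique`, `pM_inj`. -/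
theorem exists_pi {σ : Equiv.Perm (Fin n)} (hσ : Equiv.Perm.sign σ = 1) : ∃ x, pi n x = σ := by
  obtain ⟨l, hl, hs⟩ := Equiv.Perm.swapFactors σ
  have h1 := Equiv.Perm.sign_prod_list_swap hs
  rw [hl, hσ] at h1
  have h2 : Even l.length := by
    rcases Nat.even_or_odd l.length with h3 | h3
    · exact h3
    · exfalso
      rw [h3.neg_one_pow] at h1
      exact absurd h1 (by decide)
  obtain ⟨k, hk⟩ := h2
  obtain ⟨x, hx⟩ := Perm_list k l (by omega) hs
  exact ⟨x, by rw [hx, hl]⟩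

private theorem Perm_neg {R S : Type*} [CommRing R] [CommRing S] (φ : R →+* S)
    (M : Matrix (Ix n) (Ix n) R) : (-M).map φ = -(M.map φ) := by
  ext i j
  simp

/-- Proof: `Spn.ker` over `AlgebraicClosure ℚ`. -/
theorem pi_ker {x : dAlt n} (hx : pi n x = 1) :
    (x.1 : Matrix (Ix n) (Ix n) ℚ) = 1 ∨ (x.1 : Matrix (Ix n) (Ix n) ℚ) = -1 := by
  have h := spn_pi (AlgebraicClosure ℚ) x
  rw [hx, inv_one, pM_one] at h
  have hinj : Function.Injective (fun M : Matrix (Ix n) (Ix n) ℚ =>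
      M.map (Rat.castHom (AlgebraicClosure ℚ))) :=
    Matrix.map_injective (Rat.castHom (AlgebraicClosure ℚ)).injective
  rcases Spn.ker two_ne_zero h with h1 | h1
  · left
    apply hinj
    show (x.1 : Matrix (Ix n) (Ix n) ℚ).map _ = (1 : Matrix (Ix n) (Ix n) ℚ).map _
    rw [h1, Matrix.map_one _ (map_zero _) (map_one _)]
  · right
    apply hinj
    show (x.1 : Matrix (Ix n) (Ix n) ℚ).map _ = (-1 : Matrix (Ix n) (Ix n) ℚ).map _
    rw [h1, Perm_neg, Matrix.map_one _ (map_zero _) (map_one _)]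

/-- Every element of the spin group over a permutation belongs to `2.A_n`.  Proof: `exists_pi`,
`Spn.eq_or_neg`, `neg_one_mem`. -/
theorem exists_of_spn (hn : 2 ≤ n) {Ω : Type*} [Field Ω] [CharZero Ω] [IsAlgClosed Ω]
    {y : Matrix (Ix n) (Ix n) Ω} {σ : Equiv.Perm (Fin n)} (h : Spn y (pM Ω σ⁻¹)) :
    ∃ x : dAlt n, pi n x = σ ∧ (x.1 : Matrix (Ix n) (Ix n) ℚ).map (Rat.castHom Ω) = y := by
  obtain ⟨x, hx⟩ := exists_pi (Perm_sign h)
  have h1 := spn_pi Ω x
  rw [hx] at h1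
  rcases Spn.eq_or_neg two_ne_zero h1 h with h2 | h2
  · exact ⟨x, hx, h2.symm⟩
  · let m : dAlt n := ⟨-1, neg_one_mem hn⟩
    have e1 : (((m * x : dAlt n).1 : (Matrix (Ix n) (Ix n) ℚ)ˣ) : Matrix (Ix n) (Ix n) ℚ).map
        (Rat.castHom Ω) = y := by
      rw [Subgroup.coe_mul, Units.val_mul]
      show (((-1 : (Matrix (Ix n) (Ix n) ℚ)ˣ) : Matrix (Ix n) (Ix n) ℚ) * _).map _ = y
      rw [Units.val_neg, Units.val_one, neg_one_mul, Perm_neg, h2]
    refine ⟨m * x, ?_, e1⟩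
    apply Perm_unique (Ω := Ω)
    rw [e1]
    exact h

/-- Proof: the kernel of `pi n` is finite (`pi_ker`) and so is its target. -/
theorem finite_dAlt (n : ℕ) : Finite (dAlt n) := by
  have h1 : Finite (pi n).ker := by
    have h2 : Finite ({1, -1} : Set (Matrix (Ix n) (Ix n) ℚ)) :=
      (Set.toFinite _).to_subtype
    apply Finite.of_injective (β := ({1, -1} : Set (Matrix (Ix n) (Ix n) ℚ)))
      (fun x => ⟨((x.1.1 : (Matrix (Ix n) (Ix n) ℚ)ˣ) : Matrix (Ix n) (Ix n) ℚ), by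
        rcases pi_ker ((MonoidHom.mem_ker).1 x.2) with h3 | h3
        · rw [h3]; simp
        · rw [h3]; simp⟩)
    intro x y hxy
    have h4 : ((x.1.1 : (Matrix (Ix n) (Ix n) ℚ)ˣ) : Matrix (Ix n) (Ix n) ℚ)
        = ((y.1.1 : (Matrix (Ix n) (Ix n) ℚ)ˣ) : Matrix (Ix n) (Ix n) ℚ) :=
      congrArg Subtype.val hxy
    exact Subtype.ext (Subtype.ext (Units.ext h4))
  have h5 : Finite (dAlt n ⧸ (pi n).ker) :=
    Finite.of_injective _ (QuotientGroup.kerLift_injective (pi n))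
  exact Finite.of_subgroup_quotient (pi n).ker

end DC83
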