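import Pool.Agent.H.MP_83e36b_nt.dc.GalB
import Pool.Agent.H.MP_83e36b_nt.Statement

/-! Étale algebras and homomorphisms to the symmetric group. -/

set_option autoImplicit false

open Polynomial

namespace DC83

universe u v

private theorem Pt_monic {R : Type*} [CommRing R] [Nontrivial R] {n : ℕ} (a : Fin n → R) :
    (AnWA.monicPoly a).Monic :=
  monic_X_pow_add (degree_sum_fin_lt a)

private theorem Pt_natDegree {R : Type*} [CommRing R] [Nontrivial R] {n : ℕ} (a : Fin n → R) :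
    (AnWA.monicPoly a).natDegree = n := by
  apply natDegree_eq_of_degree_eq_some
  unfold AnWA.monicPoly
  rw [degree_add_eq_left_of_degree_lt, degree_X_pow]
  rw [degree_X_pow]
  exact degree_sum_fin_lt a

private theorem Pt_coeff {R : Type*} [CommRing R] {n : ℕ} (a : Fin n → R) (i : Fin n) :
    (AnWA.monicPoly a).coeff i = a i := by
  unfold AnWA.monicPoly
  rw [coeff_add, coeff_X_pow, if_neg (by omega), zero_add, finsetSum_coeff]
  rw [Finset.sum_eq_single i]
  · rw [coeff_C_mul, coeff_X_pow, if_pos rfl, mul_one]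
  · intro j _ hj
    rw [coeff_C_mul, coeff_X_pow, if_neg (fun e => hj (Fin.ext e.symm)), mul_zero]
  · intro h
    exact absurd (Finset.mem_univ i) h

/-- A monic polynomial of degree `n` is given by its coefficients. -/
private theorem Pt_of_monic {R : Type*} [CommRing R] [Nontrivial R] {n : ℕ} {g : R[X]}
    (hg : g.Monic) (hn : g.natDegree = n) : AnWA.monicPoly (fun i : Fin n => g.coeff i) = g := by
  ext j
  rcases lt_trichotomy j n with hj | hj | hj
  · exact Pt_coeff (fun i : Fin n => g.coeff i) ⟨j, hj⟩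
  · have h1 := Pt_monic (fun i : Fin n => g.coeff i)
    have h2 := Pt_natDegree (fun i : Fin n => g.coeff i)
    rw [Monic, leadingCoeff, h2] at h1
    rw [hj, h1]
    rw [Monic, leadingCoeff, hn] at hg
    exact hg.symm
  · rw [coeff_eq_zero_of_natDegree_lt (by rw [Pt_natDegree]; exact hj),
      coeff_eq_zero_of_natDegree_lt (by rw [hn]; exact hj)]

private theorem Pt_map {K : Type u} [Field K] {Ω : Type v} [Field Ω] [Algebra K Ω] {n : ℕ}
    (x : Fin n → Ω) (τ : Ω ≃ₐ[K] Ω) :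
    (∏ i, (X - C (x i))).map (τ : Ω →+* Ω) = ∏ i, (X - C (τ (x i))) := by
  rw [Polynomial.map_prod]
  refine Finset.prod_congr rfl fun i _ => ?_
  rw [Polynomial.map_sub, map_X, map_C]
  rfl

/-- Proof: `exists_equivariant` for `G = Perm (Fin n)`, `I = Fin n`; the coefficients of
`∏ (X - x_i)` are fixed (`exists_of_fixed`). -/
theorem exists_point {K : Type u} [Field K] [CharZero K] {Ω : Type v} [Field Ω] [Algebra K Ω]
    [IsAlgClosed Ω] [Algebra.IsAlgebraic K Ω] {n : ℕ} {σ : (Ω ≃ₐ[K] Ω) →* Equiv.Perm (Fin n)}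
    (hσ : Cts σ) : ∃ (a : Fin n → K) (x : Fin n → Ω), Function.Injective x ∧
      AnWA.monicPoly (fun i => algebraMap K Ω (a i)) = ∏ i, (X - C (x i)) ∧
      ∀ τ i, τ (x i) = x (σ τ i) := by
  obtain ⟨x, hx, hτ⟩ := exists_equivariant hσ (Fin n)
  have hτ' : ∀ τ i, τ (x i) = x (σ τ i) := hτ
  obtain ⟨g, hg⟩ : ∃ g : Polynomial Ω, g = ∏ i, (X - C (x i)) := ⟨_, rfl⟩
  have hfix : ∀ (j : ℕ) (τ : Ω ≃ₐ[K] Ω), τ (g.coeff j) = g.coeff j := by
    intro j τ
    have h1 : g.map (τ : Ω →+* Ω) = g := by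
      rw [hg, Pt_map]
      simp only [hτ']
      exact Equiv.prod_comp (σ τ) (fun i => X - C (x i))
    have h2 : (g.map (τ : Ω →+* Ω)).coeff j = τ (g.coeff j) := coeff_map _ _
    rw [← h2, h1]
  choose a ha using fun j : ℕ => exists_of_fixed (K := K) (hfix j)
  refine ⟨fun i => a i, x, hx, ?_, hτ'⟩
  simp only [ha]
  rw [← hg]
  refine Pt_of_monic ?_ ?_
  · rw [hg]
    exact monic_prod_X_sub_C _ _
  · rw [hg, natDegree_prod_of_monic _ _ fun i _ => monic_X_sub_C _]
    simp

/-- Proof: `τ` permutes the roots. -/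
theorem exists_gal {K : Type u} [Field K] {Ω : Type v} [Field Ω] [Algebra K Ω] {n : ℕ}
    {a : Fin n → K} {x : Fin n → Ω} (hx : Function.Injective x)
    (h : AnWA.monicPoly (fun i => algebraMap K Ω (a i)) = ∏ i, (X - C (x i))) :
    ∃ σ : (Ω ≃ₐ[K] Ω) →* Equiv.Perm (Fin n), ∀ τ i, τ (x i) = x (σ τ i) := by
  have h1 : ∀ (τ : Ω ≃ₐ[K] Ω) (i : Fin n), ∃ j, τ (x i) = x j := by
    intro τ i
    have h2 : (∏ i, (X - C (x i))).map (τ : Ω →+* Ω) = ∏ i, (X - C (x i)) := by
      rw [← h, AnWA.monicPoly_map, Polynomial.map_map]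
      congr 1
      exact RingHom.ext fun y => τ.commutes y
    have h3 : (∏ j, (X - C (x j))).eval (τ (x i)) = 0 := by
      rw [← h2, Pt_map, eval_prod]
      exact Finset.prod_eq_zero (Finset.mem_univ i) (by simp)
    rw [eval_prod, Finset.prod_eq_zero_iff] at h3
    obtain ⟨j, _, hj⟩ := h3
    refine ⟨j, ?_⟩
    rw [eval_sub, eval_X, eval_C, sub_eq_zero] at hj
    exact hj
  choose s hs using h1
  have hinj : ∀ τ, Function.Injective (s τ) := by
    intro τ i j hij
    have h2 := hs τ i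
    rw [hij, ← hs τ j] at h2
    exact hx (τ.injective h2)
  refine ⟨MonoidHom.mk' (fun τ => Equiv.ofBijective (s τ)
    (Finite.injective_iff_bijective.1 (hinj τ))) fun τ τ' => ?_, fun τ i => hs τ i⟩
  refine Equiv.ext fun i => hx ?_
  show x (s (τ * τ') i) = x (s τ (s τ' i))
  rw [← hs, ← hs, ← hs]
  rfl

end DC83
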