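import Mathlib

/-! Homomorphisms of absolute Galois groups. -/

set_option autoImplicit false

namespace DC83

universe u v w

section
variable {K : Type u} [Field K] {Ω : Type v} [Field Ω] [Algebra K Ω]

/-- the homomorphism `ρ` is continuous: it is trivial on the automorphisms which are trivial on some
finite extension of `K` -/
def Cts {G : Type w} [Group G] (ρ : (Ω ≃ₐ[K] Ω) →* G) : Prop :=
  ∃ L : IntermediateField K Ω, FiniteDimensional K L ∧
    ∀ τ : Ω ≃ₐ[K] Ω, (∀ x ∈ L, τ x = x) → ρ τ = 1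

theorem Cts.one {G : Type w} [Group G] : Cts (1 : (Ω ≃ₐ[K] Ω) →* G) := by
  exact ⟨⊥, inferInstance, fun _ _ => rfl⟩

theorem Cts.comp {G : Type w} [Group G] {ρ : (Ω ≃ₐ[K] Ω) →* G} (h : Cts ρ) {H : Type w} [Group H]
    (f : G →* H) : Cts (f.comp ρ) := by
  obtain ⟨L, hL, h⟩ := h
  refine ⟨L, hL, fun τ hτ => ?_⟩
  rw [MonoidHom.comp_apply, h τ hτ, map_one]

/-- criterion: an element of `Ω ^ ι` (`ι` finite, `Ω` algebraic) determines `ρ`.
Proof: `L = K(x_i)`, finite over `K`. -/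
theorem Cts.of_fix [Algebra.IsAlgebraic K Ω] {G : Type w} [Group G] (ρ : (Ω ≃ₐ[K] Ω) →* G)
    {ι : Type*} [Finite ι] (x : ι → Ω) (h : ∀ τ, (∀ i, τ (x i) = x i) → ρ τ = 1) : Cts ρ := by
  refine ⟨IntermediateField.adjoin K (Set.range x), ?_, fun τ hτ => h τ fun i => hτ _ ?_⟩
  · exact IntermediateField.finiteDimensional_adjoin fun y _ =>
      (Algebra.IsAlgebraic.isAlgebraic (R := K) y).isIntegral
  · exact IntermediateField.subset_adjoin K _ ⟨i, rfl⟩

/-- if `ρ` and `ρ'` are continuous and `ρ''` is trivial where both are trivial, it is continuous -/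
theorem Cts.of_two {G : Type w} [Group G] {ρ : (Ω ≃ₐ[K] Ω) →* G} (h : Cts ρ) {H : Type w} [Group H]
    {ρ' : (Ω ≃ₐ[K] Ω) →* H} (h' : Cts ρ') {M : Type w} [Group M] (ρ'' : (Ω ≃ₐ[K] Ω) →* M)
    (h'' : ∀ τ, ρ τ = 1 → ρ' τ = 1 → ρ'' τ = 1) : Cts ρ'' := by
  obtain ⟨L, hL, h⟩ := h
  obtain ⟨L', hL', h'⟩ := h'
  refine ⟨L ⊔ L', IntermediateField.finiteDimensional_sup L L', fun τ hτ => h'' τ ?_ ?_⟩
  · exact h τ fun x hx => hτ x ((le_sup_left : L ≤ L ⊔ L') hx)
  · exact h' τ fun x hx => hτ x ((le_sup_right : L' ≤ L ⊔ L') hx)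

/-- the fixed field of the absolute Galois group (`Ω / K` is a Galois extension) -/
theorem exists_of_fixed [CharZero K] [IsAlgClosed Ω] [Algebra.IsAlgebraic K Ω] {x : Ω}
    (h : ∀ τ : Ω ≃ₐ[K] Ω, τ x = x) : ∃ a : K, algebraMap K Ω a = x := by
  have : IsAlgClosure K Ω := ⟨inferInstance, inferInstance⟩
  have : IsGalois K Ω := ⟨⟩
  exact IntermediateField.mem_bot.1 ((InfiniteGalois.mem_bot_iff_fixed x).2 h)

end

end DC83
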