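import Pool.Agent.H.MP_83e36b_nt.dc.U5
import Pool.Agent.H.MP_83e36b_nt.sp.WApi

/-! Sums of four squares and the forms `diag(-1, ..., -1, 1, ..., 1)`. -/

set_option autoImplicit false

open Matrix SpinWA

namespace DC83

/-- Proof: the matrix `L` of the left multiplication by `x + y i + z j + w k` satisfies
`Lᵀ L = a • 1`; so `diag(1,1,1,1)` and `diag(a,a,a,a)` are congruent; `cls_cong`, `cls_diagonal`. -/
theorem four_sq_cl {K : Type*} [Field K] (h2 : (2 : K) ≠ 0) {a : K} (ha : a ≠ 0)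
    (h : ∃ x y z w : K, a = x ^ 2 + y ^ 2 + z ^ 2 + w ^ 2) : 4 • cl a = 4 • cl (1 : K) := by
  obtain ⟨x, y, z, w, h⟩ := h
  set L : Matrix (Fin 4) (Fin 4) K :=
    !![x, -y, -z, -w; y, x, -w, z; z, w, x, -y; w, -z, y, x] with hL
  have h1 : Lᵀ * diagonal (fun _ : Fin 4 => (1 : K)) * L = diagonal (fun _ : Fin 4 => a) := by
    have e1 : diagonal (fun _ : Fin 4 => (1 : K)) = 1 := Matrix.diagonal_one
    rw [e1, Matrix.mul_one]
    ext i j
    fin_cases i <;> fin_cases j <;>
      simp [hL, Matrix.mul_apply, Fin.sum_univ_succ, h] <;> ring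
  have hdet : L.det ≠ 0 := by
    intro h0
    have h3 := congrArg Matrix.det h1
    rw [Matrix.det_mul, h0, mul_zero, Matrix.det_diagonal] at h3
    simp only [Finset.prod_const, Finset.card_univ, Fintype.card_fin] at h3
    exact pow_ne_zero 4 ha h3.symm
  have hc : Cong (diagonal (fun _ : Fin 4 => (1 : K))) (diagonal (fun _ : Fin 4 => a)) :=
    ⟨L, hdet, h1⟩
  have h4 := cls_cong h2 (Matrix.diagonal_transpose _) (by
    rw [Matrix.det_diagonal]
    simp) hc
  rw [cls_diagonal h2 (fun _ => one_ne_zero), cls_diagonal h2 (fun _ => ha)] at h4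
  simp only [Finset.sum_const, Finset.card_univ, Fintype.card_fin] at h4
  exact h4.symm

/-- Proof: `U5` for `(1, 1, 1, 1, -a)`: either `a` is a sum of four squares, or `-1` is a sum of three
squares (divide by a nonzero coordinate) and then `a = ((a+1)/2)² + (-1) ((a-1)/2)²` is a sum of four
squares. -/
theorem four_cl {K : Type*} [Field K] (h2 : (2 : K) ≠ 0) (hu : U5 K) {a : K} (ha : a ≠ 0) :
    4 • cl a = 4 • cl (1 : K) := by
  apply four_sq_cl h2 ha
  obtain ⟨x, hx, hs⟩ := hu ![1, 1, 1, 1, -a] (by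
    intro i
    fin_cases i <;> simp [ha])
  have hs' : x 0 ^ 2 + x 1 ^ 2 + x 2 ^ 2 + x 3 ^ 2 = a * x 4 ^ 2 := by
    simp only [Fin.sum_univ_five] at hs
    simp at hs
    linear_combination hs
  have key : (∃ p q r : K, -1 = p ^ 2 + q ^ 2 + r ^ 2) →
      ∃ x y z w : K, a = x ^ 2 + y ^ 2 + z ^ 2 + w ^ 2 := by
    rintro ⟨p, q, r, h⟩
    refine ⟨(a + 1) / 2, p * ((a - 1) / 2), q * ((a - 1) / 2), r * ((a - 1) / 2), ?_⟩
    have e1 : ((a + 1) / 2) ^ 2 + (p * ((a - 1) / 2)) ^ 2 + (q * ((a - 1) / 2)) ^ 2 +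
        (r * ((a - 1) / 2)) ^ 2 = ((a + 1) / 2) ^ 2 + (p ^ 2 + q ^ 2 + r ^ 2) * ((a - 1) / 2) ^ 2 := by
      ring
    rw [e1, ← h]
    field_simp
    ring
  by_cases h4 : x 4 = 0
  · rw [h4] at hs'
    apply key
    have hne : x 0 ≠ 0 ∨ x 1 ≠ 0 ∨ x 2 ≠ 0 ∨ x 3 ≠ 0 := by
      by_contra hc
      push Not at hc
      apply hx
      funext i
      fin_cases i
      · exact hc.1
      · exact hc.2.1
      · exact hc.2.2.1
      · exact hc.2.2.2
      · exact h4
    rcases hne with h | h | h | h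
    · refine ⟨x 1 / x 0, x 2 / x 0, x 3 / x 0, ?_⟩
      field_simp
      linear_combination -hs'
    · refine ⟨x 0 / x 1, x 2 / x 1, x 3 / x 1, ?_⟩
      field_simp
      linear_combination -hs'
    · refine ⟨x 0 / x 2, x 1 / x 2, x 3 / x 2, ?_⟩
      field_simp
      linear_combination -hs'
    · refine ⟨x 0 / x 3, x 1 / x 3, x 2 / x 3, ?_⟩
      field_simp
      linear_combination -hs'
  · refine ⟨x 0 / x 4, x 1 / x 4, x 2 / x 4, x 3 / x 4, ?_⟩
    field_simp
    linear_combination -hs'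

/-- `diag(-1, ..., -1, 1, ..., 1)`, `s` entries `-1` -/
def Js (n s : ℕ) : Matrix (Fin n) (Fin n) ℚ := diagonal fun i => if (i : ℕ) < s then -1 else 1

private theorem Four_filter {n s : ℕ} (hs : s ≤ n) :
    (Finset.range n).filter (fun i => i < s) = Finset.range s := by
  ext i
  simp only [Finset.mem_filter, Finset.mem_range]
  omega

private theorem Four_filter' {n s : ℕ} (hs : s ≤ n) :
    ((Finset.range n).filter (fun i => ¬ i < s)).card = n - s := by
  have h := Finset.card_filter_add_card_filter_not (s := Finset.range n) (fun i => i < s)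
  rw [Four_filter hs, Finset.card_range, Finset.card_range] at h
  omega

theorem Js_det (n s : ℕ) (hs : s ≤ n) : (Js n s).det = (-1) ^ s := by
  unfold Js
  rw [Matrix.det_diagonal, Fin.prod_univ_eq_prod_range (fun i => if i < s then (-1 : ℚ) else 1) n,
    Finset.prod_ite, Four_filter hs]
  simp

theorem cls_Js {K : Type*} [Field K] (h2 : (2 : K) ≠ 0) (φ : ℚ →+* K) {n s : ℕ} (hs : s ≤ n) :
    cls ((Js n s).map φ) = s • cl (-1 : K) + (n - s) • cl (1 : K) := by
  have h1 : (Js n s).map φ = diagonal fun i : Fin n => if (i : ℕ) < s then (-1 : K) else 1 := by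
    unfold Js
    rw [Matrix.diagonal_map (map_zero φ)]
    congr 1
    funext i
    split_ifs <;> simp
  rw [h1, cls_diagonal h2 (by
    intro i
    split_ifs <;> simp)]
  have h3 : ∀ i : Fin n, cl (if (i : ℕ) < s then (-1 : K) else 1) =
      (fun i : ℕ => if i < s then cl (-1 : K) else cl (1 : K)) (i : ℕ) := by
    intro i
    show cl (if (i : ℕ) < s then (-1 : K) else 1) = if (i : ℕ) < s then cl (-1 : K) else cl (1 : K)
    split_ifs <;> rfl
  rw [Finset.sum_congr rfl (fun i _ => h3 i),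
    Fin.sum_univ_eq_sum_range (fun i : ℕ => if i < s then cl (-1 : K) else cl (1 : K)) n,
    Finset.sum_ite, Finset.sum_const, Finset.sum_const, Four_filter hs, Four_filter' hs,
    Finset.card_range]

/-- Proof: `cls_Js`, `four_cl` for `a = -1`. -/
theorem cls_Js_padic {K : Type*} [Field K] (h2 : (2 : K) ≠ 0) (hu : U5 K) (φ : ℚ →+* K) {n s : ℕ}
    (hs : s ≤ n) (h4 : 4 ∣ s) : cls ((Js n s).map φ) = n • cl (1 : K) := by
  rw [cls_Js h2 φ hs]
  obtain ⟨k, rfl⟩ := h4
  have h3 : (4 * k) • cl (-1 : K) = (4 * k) • cl (1 : K) := by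
    rw [mul_comm, mul_smul, four_cl h2 hu (neg_ne_zero.2 one_ne_zero), ← mul_smul]
  rw [h3, ← add_smul]
  congr 1
  omega

end DC83
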