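import Pool.Agent.H.MP_83e36b_nt.dc.Spn

/-! Products of orthonormal vectors. -/

set_option autoImplicit false

open Matrix

namespace DC83

variable {K : Type*} [Field K] {n : ℕ}

private theorem orth_anti {v w : Fin n → K} (h : v ⬝ᵥ w = 0) : cV v * cV w = -(cV w * cV v) := by
  have h1 := cV_mul_add v w
  rw [h, mul_zero, zero_smul] at h1
  exact eq_neg_of_add_eq_zero_left h1

private theorem orth_anti_prod (a : Matrix (Ix n) (Ix n) K) (l : List (Fin n → K))
    (h : ∀ u ∈ l, a * cV u = -(cV u * a)) :
    a * (l.map cV).prod = ((-1 : ℤ) ^ l.length) • ((l.map cV).prod * a) := by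
  induction l with
  | nil => simp
  | cons u l ih =>
    have h1 := ih fun w hw => h w (List.mem_cons_of_mem _ hw)
    rw [List.map_cons, List.prod_cons, List.length_cons, ← mul_assoc, h u (by simp), neg_mul,
      mul_assoc, h1, mul_smul_comm, pow_succ, mul_smul, neg_smul, one_smul, smul_neg, mul_assoc]

/-- Proof: induction on `k` (`l = v :: w :: l'`): `cV v` and `cV w` anticommute with each other and
with the vectors of `l'` (`cV_mul_add`), so `cV v * cV w` commutes with the product `x'` of `l'`, and
`(cV v * cV w)² = -1`. -/
theorem orth_prod (k : ℕ) (l : List (Fin n → K)) (hl : l.length = 2 * k)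
    (hu : ∀ v ∈ l, v ⬝ᵥ v = 1) (ho : l.Pairwise fun v w => v ⬝ᵥ w = 0) :
    Spn (l.map cV).prod (l.map hh).prod ∧
      (l.map cV).prod * (l.map cV).prod = (-1 : Matrix (Ix n) (Ix n) K) ^ k := by
  induction k generalizing l with
  | zero =>
    have h1 : l = [] := List.length_eq_zero_iff.1 (by rw [hl])
    subst h1
    simp only [List.map_nil, List.prod_nil, pow_zero, mul_one]
    exact ⟨Spn.one, trivial⟩
  | succ k ih =>
    match l, hl, hu, ho with
    | v :: w :: l', hl, hu, ho =>
      have hl' : l'.length = 2 * k := by
        simp only [List.length_cons] at hl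
        omega
      have hv : v ⬝ᵥ v = 1 := hu v (by simp)
      have hw : w ⬝ᵥ w = 1 := hu w (by simp)
      rw [List.pairwise_cons, List.pairwise_cons] at ho
      obtain ⟨hov, how, ho'⟩ := ho
      obtain ⟨ih1, ih2⟩ := ih l' hl' (fun u hu' => hu u (by simp [hu'])) ho'
      have hvw := orth_anti (hov w (by simp))
      have hvl : cV v * (l'.map cV).prod = (l'.map cV).prod * cV v := by
        rw [orth_anti_prod (cV v) l' fun u hu' => orth_anti (hov u (by simp [hu'])), hl', pow_mul]
        norm_num
      have hwl : cV w * (l'.map cV).prod = (l'.map cV).prod * cV w := by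
        rw [orth_anti_prod (cV w) l' fun u hu' => orth_anti (how u hu'), hl', pow_mul]
        norm_num
      have e1 : ((v :: w :: l').map cV).prod = cV v * cV w * (l'.map cV).prod := by
        rw [List.map_cons, List.map_cons, List.prod_cons, List.prod_cons, mul_assoc]
      have e2 : ((v :: w :: l').map hh).prod = hh v * hh w * (l'.map hh).prod := by
        rw [List.map_cons, List.map_cons, List.prod_cons, List.prod_cons, mul_assoc]
      rw [e1, e2]
      refine ⟨Spn.mul v w hv hw ih1, ?_⟩
      obtain ⟨x, hx⟩ : ∃ x, x = (l'.map cV).prod := ⟨_, rfl⟩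
      rw [← hx] at hvl hwl ih2 ⊢
      have h1 : cV v * cV w * x * (cV v * cV w * x) = cV v * cV w * cV v * cV w * (x * x) := by
        calc cV v * cV w * x * (cV v * cV w * x) = cV v * cV w * (x * cV v) * cV w * x := by
              simp only [mul_assoc]
          _ = cV v * cV w * (cV v * x) * cV w * x := by rw [hvl]
          _ = cV v * cV w * cV v * (x * cV w) * x := by simp only [mul_assoc]
          _ = cV v * cV w * cV v * (cV w * x) * x := by rw [hwl]
          _ = cV v * cV w * cV v * cV w * (x * x) := by simp only [mul_assoc]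
      have h2 : cV v * cV w * cV v * cV w = (-1 : Matrix (Ix n) (Ix n) K) := by
        calc cV v * cV w * cV v * cV w = -(cV w * cV v) * cV v * cV w := by rw [hvw]
          _ = -(cV w * (cV v * cV v) * cV w) := by simp only [neg_mul, mul_assoc]
          _ = -(cV w * cV w) := by rw [cV_sq, hv, one_smul, mul_one]
          _ = -1 := by rw [cV_sq, hw, one_smul]
      rw [h1, h2, ih2, pow_succ']
    | [v], hl, _, _ => simp at hl; omega
    | [], hl, _, _ => simp at hl

end DC83
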