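import Mathlib

/-! Quadratic forms in five variables over the `p`-adic numbers are isotropic. -/

set_option autoImplicit false

namespace DC83

/-- diagonal forms in five variables are isotropic -/
def U5 (K : Type*) [Field K] : Prop :=
  ∀ d : Fin 5 → K, (∀ i, d i ≠ 0) → ∃ x : Fin 5 → K, x ≠ 0 ∧ ∑ i, d i * x i ^ 2 = 0

private theorem u5_lt {p : ℕ} [hp : Fact p.Prime] (z : ℤ_[p]) :
    PadicInt.toZMod z = 0 ↔ ‖z‖ < 1 := by
  rw [← RingHom.mem_ker, PadicInt.ker_toZMod, IsLocalRing.mem_maximalIdeal, PadicInt.mem_nonunits]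

/-- a `p`-adic integer which is a square of a unit modulo `p` is a square -/
private theorem u5_sq {p : ℕ} [hp : Fact p.Prime] (h2 : p ≠ 2) (a b : ℤ_[p])
    (hb : PadicInt.toZMod b ≠ 0) (hab : PadicInt.toZMod a = PadicInt.toZMod b ^ 2) :
    ∃ c : ℤ_[p], c ^ 2 = a := by
  have hb1 : ‖b‖ = 1 := by
    have h := fun h' => hb ((u5_lt b).2 h')
    exact le_antisymm (PadicInt.norm_le_one b) (not_lt.1 h)
  have h21 : ‖(2 : ℤ_[p])‖ = 1 := by
    have h : ‖((2 : ℕ) : ℤ_[p])‖ = 1 := by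
      rw [PadicInt.norm_natCast_eq_one_iff]
      exact (Nat.coprime_primes hp.out Nat.prime_two).2 h2
    exact_mod_cast h
  obtain ⟨F, hF⟩ : ∃ F : Polynomial ℤ_[p], F = Polynomial.X ^ 2 - Polynomial.C a := ⟨_, rfl⟩
  have e1 : F.aeval b = b ^ 2 - a := by
    rw [hF]
    simp
  have e2 : F.derivative.aeval b = 2 * b := by
    rw [hF]
    simp
    left
    norm_num
  have h3 : ‖F.aeval b‖ < ‖F.derivative.aeval b‖ ^ 2 := by
    rw [e1, e2, norm_mul, h21, hb1]
    norm_num
    rw [← u5_lt, map_sub, map_pow, hab, sub_self]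
  obtain ⟨z, hz, -⟩ := hensels_lemma h3
  refine ⟨z, ?_⟩
  rw [hF] at hz
  simp only [map_sub, map_pow, Polynomial.aeval_X, Polynomial.aeval_C, Algebra.algebraMap_self,
    RingHom.id_apply] at hz
  exact sub_eq_zero.1 hz

private theorem u5_lift {p : ℕ} [hp : Fact p.Prime] (h2 : p ≠ 2) (u v w : ℤ_[p]) (hu : ‖u‖ = 1)
    (x y : ZMod p) (hx : x ≠ 0)
    (h : PadicInt.toZMod u * x ^ 2 + PadicInt.toZMod v * y ^ 2 + PadicInt.toZMod w = 0) :
    ∃ a b : ℤ_[p], u * a ^ 2 + v * b ^ 2 + w = 0 := by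
  obtain ⟨x0, rfl⟩ := ZMod.ringHom_surjective (PadicInt.toZMod (p := p)) x
  obtain ⟨y0, rfl⟩ := ZMod.ringHom_surjective (PadicInt.toZMod (p := p)) y
  obtain ⟨u', hu'⟩ := PadicInt.isUnit_iff.2 hu
  obtain ⟨c, hc⟩ := u5_sq h2 (-(↑(u'⁻¹) * (v * y0 ^ 2 + w))) x0 hx (by
    have h3 : (↑(u'⁻¹) : ℤ_[p]) * u = 1 := by
      rw [← hu']
      exact Units.inv_mul u'
    have h4 : PadicInt.toZMod (p := p) (↑(u'⁻¹) : ℤ_[p]) * PadicInt.toZMod u = 1 := by
      rw [← map_mul, h3, map_one]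
    rw [map_neg, map_mul, map_add, map_mul, map_pow]
    have h5 : PadicInt.toZMod v * PadicInt.toZMod y0 ^ 2 + PadicInt.toZMod w =
        -(PadicInt.toZMod u * PadicInt.toZMod x0 ^ 2) := by
      linear_combination h
    rw [h5]
    linear_combination (PadicInt.toZMod (p := p) x0 ^ 2) * h4)
  refine ⟨c, y0, ?_⟩
  have h6 : u * (↑(u'⁻¹) : ℤ_[p]) = 1 := by
    rw [← hu']
    exact Units.mul_inv u'
  rw [hc]
  linear_combination (-(v * y0 ^ 2 + w)) * h6

private theorem u5_three {p : ℕ} [hp : Fact p.Prime] (h2 : p ≠ 2) (u v w : ℤ_[p]) (hu : ‖u‖ = 1)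
    (hv : ‖v‖ = 1) (hw : ‖w‖ = 1) : ∃ a b : ℤ_[p], u * a ^ 2 + v * b ^ 2 + w = 0 := by
  have hne : ∀ z : ℤ_[p], ‖z‖ = 1 → PadicInt.toZMod z ≠ 0 := by
    intro z hz h
    rw [u5_lt, hz] at h
    exact lt_irrefl _ h
  obtain ⟨x, y, hxy⟩ := FiniteField.exists_root_sum_quadratic (R := ZMod p)
    (f := Polynomial.C (PadicInt.toZMod u) * Polynomial.X ^ 2 + Polynomial.C (PadicInt.toZMod w))
    (g := Polynomial.C (PadicInt.toZMod v) * Polynomial.X ^ 2)
    (by
      have h1 := Polynomial.degree_quadratic (R := ZMod p) (a := PadicInt.toZMod u) (b := 0)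
        (c := PadicInt.toZMod w) (hne u hu)
      simpa using h1)
    (by
      have h1 := Polynomial.degree_quadratic (R := ZMod p) (a := PadicInt.toZMod v) (b := 0)
        (c := 0) (hne v hv)
      simpa using h1)
    (by
      rw [ZMod.card]
      exact (hp.out.mod_two_eq_one_iff_ne_two).2 h2)
  simp only [Polynomial.eval_add, Polynomial.eval_mul, Polynomial.eval_C, Polynomial.eval_pow,
    Polynomial.eval_X] at hxy
  by_cases hx : x = 0
  · have hy : y ≠ 0 := by
      rintro rfl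
      apply hne w hw
      rw [hx] at hxy
      simpa using hxy
    obtain ⟨a, b, hab⟩ := u5_lift h2 v u w hv y x hy (by linear_combination hxy)
    exact ⟨b, a, by linear_combination hab⟩
  · exact u5_lift h2 u v w hu x y hx (by linear_combination hxy)

/-- `d = p ^ e * u * t ^ 2` with `e = 0` or `e = 1` -/
private theorem u5_dec {p : ℕ} [hp : Fact p.Prime] (d : ℚ_[p]) (hd : d ≠ 0) :
    ∃ (e : Bool) (u : ℤ_[p]) (t : ℚ_[p]), ‖u‖ = 1 ∧ t ≠ 0 ∧
      d = (if e then (p : ℚ_[p]) else 1) * u * t ^ 2 := by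
  have hp0 : (p : ℚ_[p]) ≠ 0 := by exact_mod_cast hp.out.ne_zero
  have hpr : (p : ℝ) ≠ 0 := by exact_mod_cast hp.out.ne_zero
  have h1 : ‖d * (p : ℚ_[p]) ^ (-d.valuation)‖ = 1 := by
    rw [norm_mul, norm_zpow, Padic.norm_p, Padic.norm_eq_zpow_neg_valuation hd, inv_zpow,
      ← zpow_neg, ← zpow_add₀ hpr]
    simp
  obtain ⟨u, hu⟩ : ∃ u : ℤ_[p], (u : ℚ_[p]) = d * (p : ℚ_[p]) ^ (-d.valuation) :=
    ⟨⟨_, h1.le⟩, rfl⟩
  have hu1 : ‖u‖ = 1 := by
    rw [← h1, ← hu]
    rfl
  have h2 : d = u * (p : ℚ_[p]) ^ d.valuation := by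
    rw [hu, mul_assoc, ← zpow_add₀ hp0]
    simp
  rcases Int.even_or_odd' d.valuation with ⟨k, hk | hk⟩
  · refine ⟨false, u, (p : ℚ_[p]) ^ k, hu1, zpow_ne_zero _ hp0, ?_⟩
    conv_lhs => rw [h2, hk]
    rw [← zpow_natCast, ← zpow_mul]
    simp [mul_comm]
  · refine ⟨true, u, (p : ℚ_[p]) ^ k, hu1, zpow_ne_zero _ hp0, ?_⟩
    conv_lhs => rw [h2, hk]
    rw [← zpow_natCast, ← zpow_mul, zpow_add₀ hp0]
    simp only [if_true, zpow_one]
    rw [mul_comm k]
    push_cast
    ring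

/-- `p` odd.  Proof: multiply the `d i` by squares (powers of `p ^ 2`): valuations `0` or `1`; at least
three of the five have the same valuation, dividing by it they are units `u, v, w`.  Modulo `p` the
form `u x² + v y² + w` has a zero with... (`ZMod.sq_add_sq` or `FiniteField.exists_root_sum_quadratic`:
`u x² + v y² = - w`), one of `x, y` is not zero mod `p`; lift by Hensel's lemma (a `p`-adic integer
congruent modulo `p` to the square of a unit is a square: `hensels_lemma`). -/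
theorem u5_odd {p : ℕ} [hp : Fact p.Prime] (h2 : p ≠ 2) : U5 ℚ_[p] := by
  intro d hd
  choose e u t hu ht hdt using fun i => u5_dec (d i) (hd i)
  obtain ⟨c, hc⟩ := Fintype.exists_lt_card_fiber_of_mul_lt_card (f := e) (n := 2) (by
    simp)
  rw [Finset.two_lt_card] at hc
  obtain ⟨i, hi, j, hj, k, hk, hij, hik, hjk⟩ := hc
  simp only [Finset.mem_filter, Finset.mem_univ, true_and] at hi hj hk
  obtain ⟨a, b, hab⟩ := u5_three h2 (u i) (u j) (u k) (hu i) (hu j) (hu k)
  refine ⟨fun l => if l = i then a / t i else if l = j then b / t j else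
    if l = k then 1 / t k else 0, ?_, ?_⟩
  · intro h
    have h1 := congrFun h k
    simp only [if_neg (Ne.symm hik), if_neg (Ne.symm hjk), if_true, Pi.zero_apply] at h1
    exact one_div_ne_zero (ht k) h1
  · have h1 : ∀ l, d l * (if l = i then (a : ℚ_[p]) / t i else if l = j then (b : ℚ_[p]) / t j else
        if l = k then 1 / t k else 0) ^ 2 = (if l = i then d i * (a / t i) ^ 2 else 0) +
          (if l = j then d j * (b / t j) ^ 2 else 0) + (if l = k then d k * (1 / t k) ^ 2 else 0) := by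
      intro l
      by_cases hl : l = i
      · subst hl
        simp [hij, hik]
      · by_cases hl' : l = j
        · subst hl'
          simp [hl, hjk]
        · by_cases hl'' : l = k
          · subst hl''
            simp [hl, hl']
          · simp [hl, hl', hl'']
    rw [Finset.sum_congr rfl fun l _ => h1 l, Finset.sum_add_distrib, Finset.sum_add_distrib]
    simp only [Finset.sum_ite_eq', Finset.mem_univ, if_true]
    have h3 : ∀ (l : Fin 5) (x : ℚ_[p]), e l = c → d l * (x / t l) ^ 2 =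
        (if c then (p : ℚ_[p]) else 1) * (u l * x ^ 2) := by
      intro l x hl
      have := ht l
      rw [hdt l, hl]
      field_simp
    rw [h3 i _ hi, h3 j _ hj, h3 k _ hk]
    have h4 : ((u i : ℚ_[p]) * (a : ℚ_[p]) ^ 2 + u j * (b : ℚ_[p]) ^ 2 + u k) = 0 := by
      exact_mod_cast congrArg (fun z : ℤ_[p] => (z : ℚ_[p])) hab
    linear_combination (if c then (p : ℚ_[p]) else 1) * h4

end DC83
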