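import Pool.Agent.H.MP_83e36b_nt.nr.SMain

/-! The matrices of a linear action. -/

set_option autoImplicit false

open Matrix

namespace DC83

open CM83 NR83

/-- `β g⁻¹ x_i = ∑ j, (M g) i j x_j`.  Proof: `SemiLin.exists_coeff`: `β g x_i = ∑ j, c g i j x_j`;
`c (g h) = c h * c g` by comparing coefficients (the variables are linearly independent:
`semi_uniq`), so `M g = c g⁻¹` is multiplicative, `M 1 = 1`. -/
theorem exists_M {k : Type} [Field k] {G : Type} [Group G] {d : ℕ}
    (β : G →* (RF k d ≃ₐ[k] RF k d)) (hβ : SemiLin (1 : G →* (k ≃ₐ[k] k)) β) :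
    ∃ M : G →* (Matrix (Fin d) (Fin d) k)ˣ, ∀ g i, β g⁻¹ (xv k i) =
      ∑ j, algebraMap k (RF k d) ((M g : Matrix (Fin d) (Fin d) k) i j) * xv k j := by
  obtain ⟨c, hc⟩ := hβ.exists_coeff
  have hone : Matrix.of (c 1) = (1 : Matrix (Fin d) (Fin d) k) := by
    ext i j
    have h1 : ∑ j, algebraMap k (RF k d) (c 1 i j) * xv k j =
        ∑ j, algebraMap k (RF k d) ((1 : Matrix (Fin d) (Fin d) k) i j) * xv k j := by
      rw [← hc, map_one, Finset.sum_eq_single i]
      · rw [Matrix.one_apply_eq, map_one, one_mul]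
        rfl
      · intro l _ hl
        rw [Matrix.one_apply_ne' hl, map_zero, zero_mul]
      · intro hi
        exact absurd (Finset.mem_univ i) hi
    exact congrFun (semi_uniq h1) j
  have hmul : ∀ g h, Matrix.of (c (g * h)) = Matrix.of (c h) * Matrix.of (c g) := by
    intro g h
    ext i j
    have h1 : ∑ j, algebraMap k (RF k d) (c (g * h) i j) * xv k j =
        ∑ j, algebraMap k (RF k d) ((Matrix.of (c h) * Matrix.of (c g)) i j) * xv k j := by
      have h2 : β (g * h) (xv k i) = β g (β h (xv k i)) := by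
        rw [map_mul]
        rfl
      rw [← hc, h2, hc h i, map_sum]
      have h3 : ∀ l, β g (algebraMap k (RF k d) (c h i l) * xv k l) =
          ∑ j, algebraMap k (RF k d) (c h i l * c g l j) * xv k j := by
        intro l
        rw [map_mul, hβ.coeff, hc g l, Finset.mul_sum]
        refine Finset.sum_congr rfl fun j _ => ?_
        rw [map_mul, mul_assoc]
        rfl
      rw [Finset.sum_congr rfl fun l _ => h3 l, Finset.sum_comm]
      refine Finset.sum_congr rfl fun j _ => ?_
      rw [Matrix.mul_apply, map_sum, Finset.sum_mul]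
      rfl
    exact congrFun (semi_uniq h1) j
  let M₀ : G →* Matrix (Fin d) (Fin d) k :=
    { toFun := fun g => Matrix.of (c g⁻¹)
      map_one' := by rw [inv_one, hone]
      map_mul' := fun g h => by rw [_root_.mul_inv_rev, hmul] }
  refine ⟨M₀.toHomUnits, fun g i => ?_⟩
  rw [hc]
  rfl

end DC83
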