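import Pool.Agent.H.MP_83e36b_nt.nr.SMain

/-! Invariants as quotients of invariant polynomials. -/

set_option autoImplicit false

namespace DC83

open CM83 NR83

private theorem TrBp_poly {k : Type} [Field k] {G : Type} [Group G] {d : ℕ}
    (β : G →* (RF k d ≃ₐ[k] RF k d)) (hβ : SemiLin (1 : G →* (k ≃ₐ[k] k)) β) (g : G)
    (P : MvPolynomial (Fin d) k) :
    ∃ P' : MvPolynomial (Fin d) k,
      β g (algebraMap (MvPolynomial (Fin d) k) (RF k d) P) =
        algebraMap (MvPolynomial (Fin d) k) (RF k d) P' := by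
  induction P using MvPolynomial.induction_on with
  | C a =>
    refine ⟨MvPolynomial.C a, ?_⟩
    have h1 : algebraMap (MvPolynomial (Fin d) k) (RF k d) (MvPolynomial.C a) =
        algebraMap k (RF k d) a := by
      rw [IsScalarTower.algebraMap_apply k (MvPolynomial (Fin d) k) (RF k d)]
      rfl
    rw [h1, AlgEquiv.commutes]
  | add p q hp hq =>
    obtain ⟨p', hp⟩ := hp
    obtain ⟨q', hq⟩ := hq
    exact ⟨p' + q', by rw [map_add, map_add, hp, hq, map_add]⟩
  | mul_X p i hp =>
    obtain ⟨p', hp⟩ := hp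
    have h1 : ∀ y ∈ Submodule.span k (Set.range (xv k : Fin d → RF k d)),
        ∃ q : MvPolynomial (Fin d) k, y = algebraMap (MvPolynomial (Fin d) k) (RF k d) q := by
      intro y hy
      induction hy using Submodule.span_induction with
      | mem y hy =>
        obtain ⟨j, rfl⟩ := hy
        exact ⟨MvPolynomial.X j, rfl⟩
      | zero => exact ⟨0, (map_zero _).symm⟩
      | add a b _ _ ha hb =>
        obtain ⟨a', rfl⟩ := ha
        obtain ⟨b', rfl⟩ := hb
        exact ⟨a' + b', (map_add _ _ _).symm⟩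
      | smul c a _ ha =>
        obtain ⟨a', rfl⟩ := ha
        refine ⟨c • a', ?_⟩
        rw [Algebra.smul_def, Algebra.smul_def, map_mul,
          ← IsScalarTower.algebraMap_apply k (MvPolynomial (Fin d) k) (RF k d)]
    obtain ⟨q, hq⟩ := h1 _ (hβ.lin g i)
    refine ⟨p' * q, ?_⟩
    rw [map_mul, map_mul, hp, map_mul, ← hq]
    rfl

/-- Invariants as quotients of invariant polynomials with a common denominator.  Proof: a common
denominator `D₀` of the `z i` (`IsLocalization.exist_integer_multiples_of_finite`), `D` = the product of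
the polynomials `β g D₀` (polynomials, as `β g` maps the variables to linear forms), `C i = D * z i`. -/
theorem exists_polys {k : Type} [Field k] {G : Type} [Group G] [Finite G] {d : ℕ}
    (β : G →* (RF k d ≃ₐ[k] RF k d)) (hβ : SemiLin (1 : G →* (k ≃ₐ[k] k)) β)
    {κ : Type} [Finite κ] (z : κ → fixF β) :
    ∃ (D : MvPolynomial (Fin d) k) (C : κ → MvPolynomial (Fin d) k), D ≠ 0 ∧
      (∀ g, β g (algebraMap _ (RF k d) D) = algebraMap _ (RF k d) D) ∧
      (∀ g i, β g (algebraMap _ (RF k d) (C i)) = algebraMap _ (RF k d) (C i)) ∧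
      ∀ i, algebraMap _ (RF k d) D * (z i : RF k d) = algebraMap _ (RF k d) (C i) := by
  classical
  let _iF : Fintype G := Fintype.ofFinite G
  have hinj : Function.Injective (algebraMap (MvPolynomial (Fin d) k) (RF k d)) :=
    IsFractionRing.injective _ _
  choose T hT using TrBp_poly β hβ
  obtain ⟨b, hb⟩ := IsLocalization.exist_integer_multiples_of_finite
    (nonZeroDivisors (MvPolynomial (Fin d) k)) (fun i => (z i : RF k d))
  choose C₀ hC₀ using hb
  have hD₀ : (b : MvPolynomial (Fin d) k) ≠ 0 := nonZeroDivisors.ne_zero b.2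
  have hT1 : T 1 (b : MvPolynomial (Fin d) k) = b := by
    apply hinj
    rw [← hT, map_one]
    rfl
  have hTg : ∀ g, T g (b : MvPolynomial (Fin d) k) ≠ 0 := by
    intro g h0
    have h1 := hT g (b : MvPolynomial (Fin d) k)
    rw [h0, map_zero, map_eq_zero_iff _ (β g).injective] at h1
    exact hD₀ ((map_eq_zero_iff _ hinj).1 h1)
  have hDa : algebraMap _ (RF k d) (∏ g, T g (b : MvPolynomial (Fin d) k)) =
      ∏ g, β g (algebraMap _ (RF k d) (b : MvPolynomial (Fin d) k)) := by
    rw [map_prod]
    exact Finset.prod_congr rfl fun g _ => (hT g _).symm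
  have hinv : ∀ h, β h (algebraMap _ (RF k d) (∏ g, T g (b : MvPolynomial (Fin d) k))) =
      algebraMap _ (RF k d) (∏ g, T g (b : MvPolynomial (Fin d) k)) := by
    intro h
    rw [hDa, map_prod]
    have h1 : ∀ g, β h (β g (algebraMap _ (RF k d) (b : MvPolynomial (Fin d) k))) =
        β (h * g) (algebraMap _ (RF k d) (b : MvPolynomial (Fin d) k)) := by
      intro g
      rw [map_mul]
      rfl
    rw [Finset.prod_congr rfl fun g _ => h1 g]
    exact Fintype.prod_equiv (Equiv.mulLeft h) _ _ fun g => rfl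
  have hmul : ∀ i, algebraMap _ (RF k d) (∏ g, T g (b : MvPolynomial (Fin d) k)) *
      (z i : RF k d) = algebraMap _ (RF k d)
        ((∏ g ∈ Finset.univ.erase (1 : G), T g (b : MvPolynomial (Fin d) k)) * C₀ i) := by
    intro i
    rw [← Finset.mul_prod_erase Finset.univ (fun g => T g (b : MvPolynomial (Fin d) k))
      (Finset.mem_univ (1 : G)), hT1, map_mul, map_mul, hC₀ i, Algebra.smul_def]
    ring
  refine ⟨∏ g, T g (b : MvPolynomial (Fin d) k), fun i =>
    (∏ g ∈ Finset.univ.erase (1 : G), T g (b : MvPolynomial (Fin d) k)) * C₀ i,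
    Finset.prod_ne_zero_iff.2 fun g _ => hTg g, hinv, fun g i => ?_, hmul⟩
  rw [← hmul i, map_mul, hinv g, (mem_fixF β _).1 (z i).2 g]

end DC83
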