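import Pool.Agent.H.MP_83e36b_nt.nr.SMain
import Pool.Agent.H.MP_83e36b_nt.dc.Gal

/-! The homomorphism of the Galois group of a local field given by a generic local point. -/

set_option autoImplicit false

open Matrix

namespace DC83

open CM83 NR83

universe u

private theorem trC_lift {G : Type} [Group G] [Finite G] {F : Type} [Field F]
    [MulSemiringAction G F] {Ω : Type} [Field Ω] [IsAlgClosed Ω]
    (φ : FixedPoints.subfield G F →+* Ω) :
    ∃ θ' : F →+* Ω, ∀ x : FixedPoints.subfield G F, θ' x = φ x := by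
  let _ : Algebra (FixedPoints.subfield G F) Ω := φ.toAlgebra
  let θA : F →ₐ[FixedPoints.subfield G F] Ω := IsAlgClosed.lift
  exact ⟨θA.toRingHom, fun x => θA.commutes x⟩

private theorem trC_conj {G : Type} [Group G] [Finite G] {F : Type} [Field F]
    [MulSemiringAction G F] {Ω : Type} [Field Ω] (θ' f : F →+* Ω)
    (hf : ∀ x : FixedPoints.subfield G F, f x = θ' x) : ∃ g : G, ∀ x, f x = θ' (g • x) := by
  let _ : Algebra F Ω := θ'.toAlgebra
  let fA : F →ₐ[FixedPoints.subfield G F] Ω := { f with commutes' := fun x => hf x }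
  obtain ⟨g, hg⟩ := FixedPoints.toAlgAut_surjective G F
    (Normal.algHomEquivAut (FixedPoints.subfield G F) Ω F fA)
  refine ⟨g, fun x => ?_⟩
  have h1 : (Normal.algHomEquivAut (FixedPoints.subfield G F) Ω F).symm
      (MulSemiringAction.toAlgAut G (FixedPoints.subfield G F) F g) = fA := by
    rw [hg, Equiv.symm_apply_apply]
  have h2 := DFunLike.congr_fun h1 x
  exact h2.symm

/-- Proof: `RF k d` is algebraic over `fixF β` (finite group), so `algebraMap K Ω ∘ θ ∘ e.symm` on
`fixF β` extends to `θ' : RF k d →+* Ω` (`IsAlgClosed.lift`).  For `τ` the homomorphisms `τ ∘ θ'` and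
`θ'` agree on `fixF β`, over which `RF k d` is Galois with group `β(G)` (`Artin`:
`IntermediateField.fixedField`, `IsGalois.of_fixedField...`; or elementary: for every `x` there is `g`
with `τ (θ' x) = θ' (β g x)`, since `∏_g (T - β g x)` has coefficients in `fixF β`; the `k`-vector space
`RF k d` is the union of the finitely many subspaces `{x | τ (θ' x) = θ' (β g x)}`, so one of them is
everything, `Subspace.biUnion_ne_univ_of_top_notMem`), so `τ ∘ θ' = θ' ∘ β g` for a unique `g` (`β` is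
injective), `ρ τ = g`: a homomorphism.  Continuity: `Cts.of_fix` for the `θ' (xv k i)`.  The last
formula: `β g x_i = ∑ j, (M g⁻¹) i j x_j`. -/
theorem loc_hom {k : Type} [Field k] [CharZero k] {G : Type} [Group G] [Finite G] {d : ℕ}
    (β : G →* (RF k d ≃ₐ[k] RF k d)) (hβ : SemiLin (1 : G →* (k ≃ₐ[k] k)) β)
    {M : G →* (Matrix (Fin d) (Fin d) k)ˣ}
    (hM : ∀ g i, β g⁻¹ (xv k i) =
      ∑ j, algebraMap k (RF k d) ((M g : Matrix (Fin d) (Fin d) k) i j) * xv k j)
    {E : Type u} [Field E] [Algebra k E] (e : E ≃ₐ[k] fixF β) {K : Type} [Field K] [CharZero K]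
    {Ω : Type} [Field Ω] [Algebra K Ω] [IsAlgClosed Ω] [Algebra.IsAlgebraic K Ω] (θ : E →+* K) :
    ∃ (θ' : RF k d →+* Ω) (ρ : (Ω ≃ₐ[K] Ω) →* G), Cts ρ ∧
      (∀ z : E, θ' (e z : RF k d) = algebraMap K Ω (θ z)) ∧
      ∀ τ i, τ (θ' (xv k i)) =
        ∑ j, θ' (algebraMap k (RF k d) ((((M (ρ τ))⁻¹ : (Matrix (Fin d) (Fin d) k)ˣ) :
          Matrix (Fin d) (Fin d) k) i j)) * θ' (xv k j) := by
  let _ : MulSemiringAction G (RF k d) := MulSemiringAction.compHom (RF k d) β
  let ι : FixedPoints.subfield G (RF k d) →+* fixF β :=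
    { toFun := fun x => ⟨x.1, (mem_fixF β x.1).2 fun g => x.2 g⟩
      map_one' := rfl
      map_mul' := fun _ _ => rfl
      map_zero' := rfl
      map_add' := fun _ _ => rfl }
  let φ : FixedPoints.subfield G (RF k d) →+* Ω :=
    (algebraMap K Ω).comp (θ.comp ((e.symm : fixF β →+* E).comp ι))
  obtain ⟨θ', hθ'⟩ := trC_lift φ
  have hφ : ∀ (x : RF k d) (hx : x ∈ fixF β), θ' x = algebraMap K Ω (θ (e.symm ⟨x, hx⟩)) :=
    fun x hx => hθ' ⟨x, fun g => (mem_fixF β x).1 hx g⟩
  have hinj : Function.Injective θ' := θ'.injective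
  have hg : ∀ τ : Ω ≃ₐ[K] Ω, ∃ g : G, ∀ x, τ (θ' x) = θ' (β g x) := by
    intro τ
    obtain ⟨g, hg⟩ := trC_conj θ' ((τ : Ω →+* Ω).comp θ')
      (fun x : FixedPoints.subfield G (RF k d) => by
        show τ (θ' x) = θ' x
        rw [hθ' x]
        exact τ.commutes _)
    exact ⟨g, hg⟩
  have huniq : ∀ g g' : G, (∀ x, θ' (β g x) = θ' (β g' x)) → g = g' := by
    intro g g' h
    apply hβ.inj
    ext x
    exact hinj (h x)
  choose r hr using hg
  let ρ : (Ω ≃ₐ[K] Ω) →* G :=
    { toFun := r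
      map_one' := huniq _ _ fun x => by
        rw [← hr, map_one]
        rfl
      map_mul' := fun τ τ' => huniq _ _ fun x => by
        rw [← hr, map_mul]
        show τ (τ' (θ' x)) = θ' (β (r τ) (β (r τ') x))
        rw [hr τ', hr τ] }
  have hρ : ∀ τ x, τ (θ' x) = θ' (β (ρ τ) x) := hr
  refine ⟨θ', ρ, Cts.of_fix ρ (fun i => θ' (xv k i)) fun τ hτ => ?_, fun z => ?_, fun τ i => ?_⟩
  · apply hβ.inj
    rw [map_one]
    apply wbasic_ext
    intro i
    apply hinj
    rw [← hρ, hτ i]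
    rfl
  · rw [hφ (e z : RF k d) (e z).2]
    congr 2
    exact e.symm_apply_apply z
  · have h1 := hM (ρ τ)⁻¹ i
    rw [inv_inv, map_inv] at h1
    rw [hρ, h1, map_sum]
    refine Finset.sum_congr rfl fun j _ => ?_
    rw [map_mul]

end DC83
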