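import Pool.Agent.H.MP_83e36b_nt.wa.Alg

/-! The embedding of the field of functions given by a generic point. -/

set_option autoImplicit false

open Polynomial

namespace DC83

open WA83

universe u

private theorem TrDc_inj_map {k : Type*} [Field k] {m : ℕ} : Function.Injective
    (Polynomial.map (algebraMap (MvPolynomial (Fin m) k)
      (FractionRing (MvPolynomial (Fin m) k)))) :=
  Polynomial.map_injective _ (IsFractionRing.injective _ _)

private theorem TrDc_den {k : Type*} [Field k] {m : ℕ}
    (P : (FractionRing (MvPolynomial (Fin m) k))[X]) :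
    ∃ (b : MvPolynomial (Fin m) k) (P' : (MvPolynomial (Fin m) k)[X]), b ≠ 0 ∧
      P'.map (algebraMap _ (FractionRing (MvPolynomial (Fin m) k))) =
        C (algebraMap _ (FractionRing (MvPolynomial (Fin m) k)) b) * P := by
  obtain ⟨b, hb0, hb⟩ := IsLocalization.integerNormalization_spec
    (nonZeroDivisors (MvPolynomial (Fin m) k)) P
  refine ⟨b, IsLocalization.integerNormalization (nonZeroDivisors (MvPolynomial (Fin m) k)) P,
    nonZeroDivisors.ne_zero hb0, ?_⟩
  rw [hb, ← algebraMap_smul (FractionRing (MvPolynomial (Fin m) k)) b P,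
    Polynomial.smul_eq_C_mul]

private theorem TrDc_dvd {k : Type*} [Field k] {m : ℕ} {f : (MvPolynomial (Fin m) k)[X]}
    {E : Type*} [Field E] [Algebra k E] {x : Fin m → E} {y : E} (hirr : Irreducible f)
    (hdeg : f.natDegree ≠ 0) (hx : AlgebraicIndependent k x)
    (h0 : evP (algebraMap k E) x y f = 0) (p : (MvPolynomial (Fin m) k)[X])
    (hp : evP (algebraMap k E) x y p = 0) : f ∣ p := by
  have hinj : Function.Injective (MvPolynomial.eval₂Hom (algebraMap k E) x) := hx
  obtain ⟨ψ, hψ⟩ : ∃ ψ : FractionRing (MvPolynomial (Fin m) k) →+* E,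
    ∀ a, ψ (algebraMap _ _ a) = MvPolynomial.eval₂Hom (algebraMap k E) x a :=
    ⟨IsFractionRing.lift hinj, fun a => IsFractionRing.lift_algebraMap hinj a⟩
  have hev : ∀ q : (MvPolynomial (Fin m) k)[X], evP (algebraMap k E) x y q =
      Polynomial.eval₂RingHom ψ y
        (q.map (algebraMap _ (FractionRing (MvPolynomial (Fin m) k)))) := by
    intro q
    unfold evP
    rw [Polynomial.coe_eval₂RingHom, Polynomial.coe_eval₂RingHom, Polynomial.eval₂_map]
    congr 1
    apply RingHom.ext
    intro a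
    rw [RingHom.comp_apply, hψ]
  have hI : Irreducible (f.map (algebraMap _ (FractionRing (MvPolynomial (Fin m) k)))) :=
    (Polynomial.IsPrimitive.irreducible_iff_irreducible_map_fraction_map
      (hirr.isPrimitive hdeg)).mp hirr
  rw [hev] at hp h0
  have hd : f.map (algebraMap _ (FractionRing (MvPolynomial (Fin m) k))) ∣
      p.map (algebraMap _ (FractionRing (MvPolynomial (Fin m) k))) := by
    by_contra hnd
    obtain ⟨a, b, hab⟩ := hI.coprime_iff_not_dvd.mpr hnd
    have h1 := congrArg (Polynomial.eval₂RingHom ψ y) hab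
    rw [map_add, map_mul, map_mul, hp, h0, map_one, mul_zero, mul_zero, add_zero] at h1
    exact zero_ne_one h1
  obtain ⟨Q, hQ⟩ := hd
  obtain ⟨b, Q', hb, hQ'⟩ := TrDc_den Q
  have h1 : C b * p = f * Q' := by
    apply TrDc_inj_map
    rw [Polynomial.map_mul, Polynomial.map_mul, Polynomial.map_C, hQ', hQ]
    ring
  have h2 : f ∣ C b * p := ⟨Q', h1⟩
  rcases hirr.prime.dvd_or_dvd h2 with h3 | h3
  · exfalso
    have h4 := Polynomial.natDegree_le_of_dvd h3 (by
      rw [Ne, Polynomial.C_eq_zero]
      exact hb)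
    rw [Polynomial.natDegree_C] at h4
    exact hdeg (Nat.le_zero.mp h4)
  · exact h3

private theorem TrDc_lift {L F K : Type*} [CommRing L] [Field F] [Field K] (f1 : L →+* F)
    (f2 : L →+* K) (hs : Function.Surjective f1) (hker : ∀ a, f1 a = 0 → f2 a = 0) :
    ∃ θ : F →+* K, ∀ a, θ (f1 a) = f2 a :=
  ⟨(f1.liftOfSurjective hs) ⟨f2, fun a ha => hker a ha⟩, fun a =>
    RingHom.liftOfSurjective_comp_apply f1 hs ⟨f2, fun a ha => hker a ha⟩ a⟩

/-- Proof: `F` is the field of fractions of `k[ξ, η]`, which is the quotient of `k[x][y]` by `f`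
(`Generic.dvd`).  The homomorphism `evP (algebraMap k K) x' y'` kills `f`, and if it kills `p` not
divisible by `f` then (`Generic.norm`) it kills a nonzero polynomial in `x` alone: contradiction to the
independence of the `x'`.  So there is an injective homomorphism `k[ξ, η] → K`, which extends to
`F`. -/
theorem exists_emb {k : Type} [Field k] {K : Type} [Field K] [Algebra k K] {m : ℕ}
    {f : (MvPolynomial (Fin m) k)[X]} {F : Type u} [Field F] [Algebra k F] {ξ : Fin m → F} {η : F}
    (h : Generic f F ξ η) {x' : Fin m → K} {y' : K} (hx : AlgebraicIndependent k x')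
    (hf : evP (algebraMap k K) x' y' f = 0) :
    ∃ θ : F →+* K, (∀ a, θ (algebraMap k F a) = algebraMap k K a) ∧ (∀ j, θ (ξ j) = x' j) ∧
      θ η = y' := by
  have hdeg : f.natDegree ≠ 0 := by
    intro h0
    apply h.deg
    rw [Polynomial.eq_C_of_natDegree_eq_zero h0, derivative_C]
  obtain ⟨evF, hevF⟩ : ∃ e, e = evP (algebraMap k F) ξ η := ⟨_, rfl⟩
  obtain ⟨evK, hevK⟩ : ∃ e, e = evP (algebraMap k K) x' y' := ⟨_, rfl⟩
  have hFK : ∀ p, evF p = 0 → evK p = 0 := by
    intro p hp
    rw [hevF] at hp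
    obtain ⟨q, rfl⟩ := TrDc_dvd h.irr hdeg h.ind h.zero p hp
    rw [hevK, map_mul, hf, zero_mul]
  have hKF : ∀ p, evK p = 0 → evF p = 0 := by
    intro p hp
    rw [hevK] at hp
    obtain ⟨q, rfl⟩ := TrDc_dvd h.irr hdeg hx hf p hp
    rw [hevF, map_mul, h.zero, zero_mul]
  let S : Submonoid (MvPolynomial (Fin m) k)[X] := (nonZeroDivisors F).comap evF
  have hS : ∀ q, q ∈ S ↔ evF q ≠ 0 := fun q => by
    show evF q ∈ nonZeroDivisors F ↔ _
    exact mem_nonZeroDivisors_iff_ne_zero
  have hu1 : ∀ y : S, IsUnit (evF y) := fun y => ((hS _).1 y.2).isUnit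
  have hu2 : ∀ y : S, IsUnit (evK y) := fun y =>
    (show evK y ≠ 0 from fun h0 => (hS _).1 y.2 (hKF _ h0)).isUnit
  let f1 : Localization S →+* F := IsLocalization.lift (S := Localization S) (M := S) hu1
  let f2 : Localization S →+* K := IsLocalization.lift (S := Localization S) (M := S) hu2
  have hsurj : Function.Surjective f1 := by
    intro z
    obtain ⟨p, q, hq, hz⟩ := h.exists_quot z
    rw [← hevF] at hq hz
    refine ⟨IsLocalization.mk' (Localization S) p (⟨q, (hS q).2 hq⟩ : S), ?_⟩
    rw [IsLocalization.lift_mk'_spec]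
    rw [← hz, mul_comm]
  have hker : ∀ a, f1 a = 0 → f2 a = 0 := by
    intro a ha
    obtain ⟨p, q, rfl⟩ := IsLocalization.exists_mk'_eq S a
    rw [IsLocalization.lift_mk'_spec, mul_zero] at ha
    rw [IsLocalization.lift_mk'_spec, mul_zero]
    exact hFK p ha
  obtain ⟨θ, hθ'⟩ := TrDc_lift (L := Localization S) f1 f2 hsurj hker
  have hθ : ∀ p, θ (evF p) = evK p := by
    intro p
    have e1 : evF p = f1 (algebraMap _ (Localization S) p) :=
      (IsLocalization.lift_eq hu1 p).symm
    have e2 : evK p = f2 (algebraMap _ (Localization S) p) :=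
      (IsLocalization.lift_eq hu2 p).symm
    rw [e1, e2]
    exact hθ' _
  refine ⟨θ, fun a => ?_, fun j => ?_, ?_⟩
  · have h1 := hθ (C (MvPolynomial.C a))
    rw [hevF, hevK] at h1
    simpa [evP] using h1
  · have h1 := hθ (C (MvPolynomial.X j))
    rw [hevF, hevK] at h1
    simpa [evP] using h1
  · have h1 := hθ X
    rw [hevF, hevK] at h1
    simpa [evP] using h1

end DC83
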