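import Pool.Agent.H.MP_83e36b_nt.dc.TrDb
import Pool.Agent.H.MP_83e36b_nt.dc.TrDc
import Pool.Agent.H.MP_83e36b_nt.wa.Local
import Pool.Agent.H.MP_83e36b_nt.nr.SI

/-! Generic local points: embeddings of the function field in a complete field near a given point. -/

set_option autoImplicit false

open Polynomial

namespace DC83

open CM83 NR83 WA83

universe u

/-- The image of the field of functions is algebraic over the ring generated by the coordinates. -/
private theorem TrD_alg {k : Type} [Field k] {K : Type} [Field K] [Algebra k K] {m : ℕ}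
    {f : (MvPolynomial (Fin m) k)[X]} {F : Type u} [Field F] [Algebra k F] {ξ : Fin m → F} {η : F}
    (h : Generic f F ξ η) {x' : Fin m → K} {y' : K} (hx : AlgebraicIndependent k x')
    (hf : evP (algebraMap k K) x' y' f = 0) {θ : F →+* K}
    (h0 : ∀ c, θ (algebraMap k F c) = algebraMap k K c) (h1 : ∀ j, θ (ξ j) = x' j)
    (h2 : θ η = y') (z : F) : IsAlgebraic (Algebra.adjoin k (Set.range x')) (θ z) := by
  have hz : z ∈ IntermediateField.adjoin k (insert η (Set.range ξ)) := by
    rw [h.top]; exact IntermediateField.mem_top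
  induction hz using IntermediateField.adjoin_induction with
  | mem w hw =>
    rcases hw with rfl | ⟨j, rfl⟩
    · rw [h2]
      let ψ : MvPolynomial (Fin m) k →+* Algebra.adjoin k (Set.range x') :=
        (MvPolynomial.aeval (fun j => (⟨x' j, Algebra.subset_adjoin ⟨j, rfl⟩⟩ :
          Algebra.adjoin k (Set.range x')))).toRingHom
      have hψ : (algebraMap (Algebra.adjoin k (Set.range x')) K).comp ψ =
          MvPolynomial.eval₂Hom (algebraMap k K) x' := by
        apply MvPolynomial.ringHom_ext
        · intro c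
          simp only [ψ, RingHom.comp_apply, AlgHom.toRingHom_eq_coe, RingHom.coe_coe,
            MvPolynomial.aeval_C, MvPolynomial.eval₂Hom_C]
          rfl
        · intro j
          simp only [ψ, RingHom.comp_apply, AlgHom.toRingHom_eq_coe, RingHom.coe_coe,
            MvPolynomial.aeval_X, MvPolynomial.eval₂Hom_X']
          rfl
      have hinj : Function.Injective ψ := by
        have h3 : Function.Injective ((algebraMap (Algebra.adjoin k (Set.range x')) K).comp ψ) := by
          rw [hψ]
          exact hx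
        intro a b hab
        apply h3
        rw [RingHom.comp_apply, RingHom.comp_apply, hab]
      refine ⟨f.map ψ, ?_, ?_⟩
      · rw [Ne, Polynomial.map_eq_zero_iff hinj]
        exact h.irr.ne_zero
      · rw [Polynomial.aeval_def, Polynomial.eval₂_map, hψ]
        exact hf
    · rw [h1]
      exact isAlgebraic_algebraMap (⟨x' j, Algebra.subset_adjoin ⟨j, rfl⟩⟩ :
        Algebra.adjoin k (Set.range x'))
  | algebraMap c =>
    rw [h0]
    exact isAlgebraic_algebraMap (algebraMap k (Algebra.adjoin k (Set.range x')) c)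
  | add a b _ _ ha hb =>
    rw [map_add]
    exact ha.add hb
  | inv a _ ha =>
    rw [map_inv₀]
    exact ha.inv
  | mul a b _ _ ha hb =>
    rw [map_mul]
    exact ha.mul hb

/-- Proof: `algebraMap k K` := `φ` (`φ.toAlgebra`).  `exists_algInd` for `m + a` elements (`x` near the
given point, the last `a` near `0`): `x', σ`; `implicit`: `y'`; `exists_emb`: `θ₀ : F → K`.  The `σ` are
algebraically independent over the image of `F` (algebraic over `k(x')`: `AlgebraicIndependent` and
transcendence bases), so `θ₀` extends to `RF F a` with `s_l ↦ σ_l`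
(`IsFractionRing.lift`/`IsLocalization.lift` of the injective homomorphism
`MvPolynomial.eval₂Hom θ₀ σ`). -/
theorem gen_point {k : Type} [Field k] [Countable k] {K : Type} [NontriviallyNormedField K]
    [CompleteSpace K]
    (hK : ∀ (x : K) (δ : ℝ), 0 < δ → ¬ (Metric.ball x δ).Countable) (φ : k →+* K) {m : ℕ}
    {f g : (MvPolynomial (Fin m) k)[X]} {F : Type u} [Field F] [Algebra k F] {ξ : Fin m → F} {η : F}
    (h : Generic f F ξ η) (P : Pts f g φ) (a : ℕ) {ε : ℝ} (hε : 0 < ε) :
    ∃ θ : RF F a →+* K, (∀ c, θ (algebraMap F (RF F a) (algebraMap k F c)) = φ c) ∧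
      (∀ j, ‖θ (algebraMap F (RF F a) (ξ j)) - P.1.1 j‖ < ε) ∧
      ‖θ (algebraMap F (RF F a) η) - P.1.2‖ < ε := by
  let _ : Algebra k K := φ.toAlgebra
  obtain ⟨δ, hδ, himp⟩ := implicit φ f P.1.1 P.1.2 P.2.1 P.2.2.1 hε
  obtain ⟨x'', hx'', hclose⟩ := exists_algInd (k := k) hK
    (Fin.append P.1.1 (fun _ : Fin a => (0 : K))) (lt_min hδ hε)
  obtain ⟨x', hx'def⟩ : ∃ x' : Fin m → K, x' = fun j => x'' (Fin.castAdd a j) := ⟨_, rfl⟩
  obtain ⟨σ, hσdef⟩ : ∃ σ : Fin a → K, σ = fun l => x'' (Fin.natAdd m l) := ⟨_, rfl⟩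
  have hx'1 : ∀ j, ‖x' j - P.1.1 j‖ < min δ ε := by
    intro j
    have := hclose (Fin.castAdd a j)
    rw [Fin.append_left] at this
    rw [hx'def]
    exact this
  obtain ⟨y', hy', hfy⟩ := himp x' (fun j => (hx'1 j).trans_le (min_le_left _ _))
  have hind : AlgebraicIndependent k (Sum.elim σ x') := by
    have h1 := hx''.comp (Sum.elim (Fin.natAdd m) (Fin.castAdd a) : Fin a ⊕ Fin m → Fin (m + a)) (by
      rintro (i | i) (j | j) hij
      · simp only [Sum.elim_inl] at hij
        rw [Fin.natAdd_inj] at hij
        rw [hij]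
      · simp only [Sum.elim_inl, Sum.elim_inr] at hij
        have := congrArg Fin.val hij
        simp only [Fin.val_natAdd, Fin.val_castAdd] at this
        omega
      · simp only [Sum.elim_inl, Sum.elim_inr] at hij
        have := congrArg Fin.val hij
        simp only [Fin.val_natAdd, Fin.val_castAdd] at this
        omega
      · simp only [Sum.elim_inr] at hij
        rw [Fin.castAdd_inj] at hij
        rw [hij])
    have h2 : (x'' ∘ (Sum.elim (Fin.natAdd m) (Fin.castAdd a) : Fin a ⊕ Fin m → Fin (m + a))) =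
        Sum.elim σ x' := by
      funext i
      rcases i with i | i
      · rw [hσdef]; rfl
      · rw [hx'def]; rfl
    rw [← h2]
    exact h1
  obtain ⟨hx', hσ⟩ := AlgebraicIndependent.sumElim_iff.1 hind
  obtain ⟨θ₀, h0, h1, h2⟩ := exists_emb h hx' hfy
  have halg : ∀ z : F, θ₀ z ∈ Subalgebra.algebraicClosure (Algebra.adjoin k (Set.range x')) K :=
    fun z => TrD_alg h hx' hfy h0 h1 h2 z
  let _ : Algebra F K := θ₀.toAlgebra
  let _ : Algebra F (Subalgebra.algebraicClosure (Algebra.adjoin k (Set.range x')) K) :=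
    (θ₀.codRestrict (Subalgebra.algebraicClosure (Algebra.adjoin k (Set.range x')) K)
      halg).toAlgebra
  have : IsScalarTower F (Subalgebra.algebraicClosure (Algebra.adjoin k (Set.range x')) K) K :=
    IsScalarTower.of_algebraMap_eq fun _ => rfl
  have hσF : AlgebraicIndependent F σ :=
    hσ.subalgebraAlgebraicClosure.restrictScalars (RingHom.injective _)
  have hinj : Function.Injective (MvPolynomial.aeval σ : MvPolynomial (Fin a) F →ₐ[F] K).toRingHom :=
    hσF
  have hθ : ∀ z : F, IsFractionRing.lift (K := RF F a) hinj (algebraMap F (RF F a) z) = θ₀ z := by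
    intro z
    rw [IsScalarTower.algebraMap_apply F (MvPolynomial (Fin a) F) (RF F a),
      IsFractionRing.lift_algebraMap]
    exact MvPolynomial.aeval_C σ z
  refine ⟨IsFractionRing.lift (K := RF F a) hinj, fun c => ?_, fun j => ?_, ?_⟩
  · rw [hθ, h0]
    rfl
  · rw [hθ, h1]
    exact (hx'1 j).trans_le (min_le_right _ _)
  · rw [hθ, h2]
    exact hy'

end DC83
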