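import Pool.Agent.H.MP_83e36b_nt.nr.SMain
import Pool.Agent.H.MP_83e36b_nt.wa.Defs
import Pool.Agent.H.MP_83e36b_nt.wa.Birat

/-! Specialisation of the equation of a hypersurface. -/

set_option autoImplicit false

open Polynomial

namespace DC83

open CM83 NR83 WA83

/-- Specialisation of the equation `f(z, z') = 0`.  Proof: `z = C / D`, `z' = C' / D` lie in the
localization of the polynomial ring at the powers of `D`, which is a subring of `RF k d`; evaluation at
`w` extends to it (see `Birat_lift` in wa/Birat.lean).  Or: clear denominators, for `N` large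
`D ^ N * f(C / D, C' / D)` is (the image of) a polynomial, which is zero. -/
theorem f_vanish {k : Type} [Field k] {d m : ℕ} {f : (MvPolynomial (Fin m) k)[X]}
    {D C' : MvPolynomial (Fin d) k} {C : Fin m → MvPolynomial (Fin d) k} {z : Fin m → RF k d}
    {z' : RF k d}
    (hC : ∀ j, algebraMap _ (RF k d) D * z j = algebraMap _ (RF k d) (C j))
    (hC' : algebraMap _ (RF k d) D * z' = algebraMap _ (RF k d) C')
    (hf : evP (algebraMap k (RF k d)) z z' f = 0) {L : Type} [Field L] (φ : k →+* L)
    (w : Fin d → L) (hw : MvPolynomial.eval₂ φ w D ≠ 0) :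
    evP φ (fun j => MvPolynomial.eval₂ φ w (C j) / MvPolynomial.eval₂ φ w D)
      (MvPolynomial.eval₂ φ w C' / MvPolynomial.eval₂ φ w D) f = 0 := by
  obtain ⟨N, e, hN⟩ := BiratNum.exists (MvPolynomial.C : k →+* MvPolynomial (Fin d) k) D C C' f
  have hD0 : D ≠ 0 := by
    rintro rfl
    exact hw (MvPolynomial.eval₂_zero φ w)
  have hinj : Function.Injective (algebraMap (MvPolynomial (Fin d) k) (RF k d)) :=
    IsFractionRing.injective _ _
  have hD1 : algebraMap (MvPolynomial (Fin d) k) (RF k d) D ≠ 0 := fun h =>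
    hD0 ((map_eq_zero_iff _ hinj).1 h)
  have h1 := hN.val (algebraMap (MvPolynomial (Fin d) k) (RF k d)) hD1
  have hz : (fun j => algebraMap (MvPolynomial (Fin d) k) (RF k d) (C j) /
      algebraMap (MvPolynomial (Fin d) k) (RF k d) D) = z := by
    funext j
    rw [div_eq_iff hD1, ← hC j, mul_comm]
  have hz' : algebraMap (MvPolynomial (Fin d) k) (RF k d) C' /
      algebraMap (MvPolynomial (Fin d) k) (RF k d) D = z' := by
    rw [div_eq_iff hD1, ← hC', mul_comm]
  have hcomp : (algebraMap (MvPolynomial (Fin d) k) (RF k d)).comp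
      (MvPolynomial.C : k →+* MvPolynomial (Fin d) k) = algebraMap k (RF k d) :=
    (IsScalarTower.algebraMap_eq k (MvPolynomial (Fin d) k) (RF k d)).symm
  rw [hz, hz', hcomp, hf, zero_mul] at h1
  have hN0 : N = 0 := (map_eq_zero_iff _ hinj).1 h1.symm
  have h2 := hN.val (MvPolynomial.eval₂Hom φ w) hw
  have hcomp' : (MvPolynomial.eval₂Hom φ w).comp
      (MvPolynomial.C : k →+* MvPolynomial (Fin d) k) = φ := by
    ext r
    simp
  rw [hcomp', hN0, map_zero] at h2
  exact (mul_eq_zero.1 h2).resolve_right (pow_ne_zero e hw)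

end DC83
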