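import Mathlib

/-! Algebraically independent elements near given elements. -/

set_option autoImplicit false

namespace DC83

/-- Proof: induction on `m`; the algebraic closure in `K` of the countable field generated over `k` by
finitely many elements is countable (`Algebraic.countable`), so the ball contains an element
transcendental over it. -/
theorem exists_algInd {k : Type} [Field k] [Countable k] {K : Type} [NontriviallyNormedField K]
    [Algebra k K]
    (hK : ∀ (x : K) (δ : ℝ), 0 < δ → ¬ (Metric.ball x δ).Countable) {m : ℕ} (x : Fin m → K)
    {δ : ℝ} (hδ : 0 < δ) :
    ∃ x' : Fin m → K, AlgebraicIndependent k x' ∧ ∀ i, ‖x' i - x i‖ < δ := by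
  induction m with
  | zero =>
    refine ⟨x, ?_, fun i => i.elim0⟩
    rw [algebraicIndependent_empty_type_iff]
    exact FaithfulSMul.algebraMap_injective k K
  | succ m ih =>
    obtain ⟨x', hx', hd⟩ := ih (fun i => x i.succ)
    have hcnt : Countable (Algebra.adjoin k (Set.range x')) := by
      have : Countable (MvPolynomial (Fin m) k) := by
        exact (AddMonoidAlgebra.coeffEquiv (R := k) (M := Fin m →₀ ℕ)).injective.countable
      exact (hx'.aevalEquiv.symm.injective).countable
    have hal : {y : K | IsAlgebraic (Algebra.adjoin k (Set.range x')) y}.Countable :=
      Algebraic.countable _ K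
    obtain ⟨y, hy, hyt⟩ : ∃ y ∈ Metric.ball (x 0) δ,
        Transcendental (Algebra.adjoin k (Set.range x')) y := by
      by_contra hno
      push_neg at hno
      apply hK (x 0) δ hδ
      refine hal.mono fun y hy => ?_
      have := hno y hy
      unfold Transcendental at this
      exact not_not.1 this
    have hopt : AlgebraicIndependent k (fun o : Option (Fin m) ↦ o.elim y x') :=
      (hx'.option_iff_transcendental y).2 hyt
    refine ⟨Fin.cons y x', ?_, ?_⟩
    · rw [← algebraicIndependent_equiv (finSuccEquiv m).symm]
      convert hopt using 2 with o
      cases o with
      | none => simp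
      | some i => simp
    · intro i
      refine Fin.cases ?_ (fun j => ?_) i
      · simpa [dist_eq_norm] using hy
      · simpa using hd j

end DC83
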