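import Pool.Agent.H.MP_83e36b_nt.sp.LWa

/-! Balls in the completions of the field of rational numbers are uncountable. -/

set_option autoImplicit false

namespace DC83

open SpinWA

/-- Balls in the completions of `ℚ` are uncountable.  (Complete metric spaces without isolated points:
Baire, or `Cardinal` of open sets: `cardinal_eq_of_isOpen`, `continuum_le_cardinal_of_isOpen` for a
nontrivially normed complete field.) -/
theorem ball_uncountable (v : Pl) (x : Cpl v) {δ : ℝ} (hδ : 0 < δ) :
    ¬ (Metric.ball x δ).Countable := by
  intro hc
  have key : ∀ (K : Type) [NontriviallyNormedField K] [CompleteSpace K] (x : K),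
      ¬ (Metric.ball x δ).Countable := by
    intro K _ _ x hc
    have h1 := continuum_le_cardinal_of_isOpen K (Metric.isOpen_ball (x := x) (ε := δ))
      ⟨x, Metric.mem_ball_self hδ⟩
    have h2 : Cardinal.mk (Metric.ball x δ) ≤ Cardinal.aleph0 := Cardinal.le_aleph0_iff_set_countable.2 hc
    exact absurd (h1.trans h2) (not_le.2 Cardinal.aleph0_lt_continuum)
  cases v with
  | none => exact key ℝ x hc
  | some p => exact key ℚ_[(p : ℕ)] x hc

end DC83
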