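import Pool.Agent.H.MP_83e36b_nt.sp.CRoot
import Pool.Agent.H.MP_83e36b_nt.sp.CRootS
import Pool.Agent.H.MP_83e36b_nt.sp.PDefs

/-! Continuity of the roots of a separable polynomial, through the algebra `K[X]/(f)`:
the implicit function theorem. -/

set_option autoImplicit false

open Polynomial Matrix Topology SpinWA

namespace DC83

section
variable {K : Type} [NontriviallyNormedField K] [CompleteSpace K] {n : ℕ}

/-- The element `∑ c_j C^j` of the algebra generated by the companion matrix. -/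
noncomputable def KrA_L (a c : Fin n → K) : Matrix (Fin n) (Fin n) K :=
  ∑ j, c j • cmp a ^ (j : ℕ)

/-- A matrix as a continuous linear map. -/
noncomputable def KrA_T (M : Matrix (Fin n) (Fin n) K) : (Fin n → K) →L[K] (Fin n → K) :=
  LinearMap.toContinuousLinearMap (Matrix.mulVecLin M)

theorem KrA_T_apply (M : Matrix (Fin n) (Fin n) K) (v : Fin n → K) : KrA_T M v = M *ᵥ v := rfl

omit [CompleteSpace K] in
theorem KrA_e (a : Fin n → K) (k : Fin n) :
    cmp a ^ (k : ℕ) *ᵥ e0 K n = Pi.single k 1 := by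
  have h := kryM_cmp a
  funext i
  have h1 := congrFun (congrFun h i) k
  unfold kryM at h1
  rw [Matrix.of_apply] at h1
  rw [h1, Matrix.one_apply, Pi.single_apply]

omit [CompleteSpace K] in
theorem KrA_L_e0 (a c : Fin n → K) : KrA_L a c *ᵥ e0 K n = c := by
  unfold KrA_L
  rw [Matrix.sum_mulVec]
  have h1 : ∀ k : Fin n, (c k • cmp a ^ (k : ℕ)) *ᵥ e0 K n = c k • Pi.single k 1 := fun k => by
    rw [Matrix.smul_mulVec, KrA_e]
  rw [Finset.sum_congr rfl fun k _ => h1 k]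
  ext i
  rw [Finset.sum_apply, Finset.sum_eq_single i]
  · simp
  · intro j _ hj
    simp [hj.symm]
  · intro h
    exact absurd (Finset.mem_univ i) h

omit [CompleteSpace K] in
theorem KrA_comm (a c : Fin n → K) : Commute (KrA_L a c) (cmp a) := by
  unfold KrA_L
  apply Commute.sum_left
  intro k _
  exact ((Commute.refl (cmp a)).pow_left _).smul_left _

omit [CompleteSpace K] in
theorem KrA_comm' (a c d : Fin n → K) : Commute (KrA_L a c) (KrA_L a d) := by
  conv => arg 2; unfold KrA_L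
  apply Commute.sum_right
  intro k _
  exact ((KrA_comm a c).pow_right _).smul_right _

omit [CompleteSpace K] in
theorem KrA_zero (a : Fin n → K) {M : Matrix (Fin n) (Fin n) K} (h : M * cmp a = cmp a * M)
    (h0 : M *ᵥ e0 K n = 0) : M = 0 := by
  obtain ⟨y, hy⟩ := commute_cmp a h
  have h1 : M = KrA_L a y := hy
  have h2 := KrA_L_e0 a y
  rw [← h1, h0] at h2
  rw [hy, ← h2]
  simp

omit [CompleteSpace K] in
theorem KrA_mulVec (a c v : Fin n → K) :
    KrA_L a c *ᵥ v = ∑ j, c j • (cmp a ^ (j : ℕ) *ᵥ v) := by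
  unfold KrA_L
  rw [Matrix.sum_mulVec]
  exact Finset.sum_congr rfl fun j _ => Matrix.smul_mulVec _ _ _

theorem KrA_der (a c : Fin n → K) (k : ℕ) :
    HasStrictFDerivAt (fun c : Fin n → K => KrA_L a c ^ k *ᵥ e0 K n)
      (k • KrA_T (KrA_L a c ^ (k - 1))) c := by
  induction k with
  | zero =>
    have e : (fun c : Fin n → K => KrA_L a c ^ 0 *ᵥ e0 K n) =
        fun _ => (1 : Matrix (Fin n) (Fin n) K) *ᵥ e0 K n := by
      funext c
      rw [pow_zero]
    rw [e, zero_nsmul]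
    exact hasStrictFDerivAt_const _ _
  | succ k ih =>
    have e : (fun c : Fin n → K => KrA_L a c ^ (k + 1) *ᵥ e0 K n) =
        fun c => ∑ j : Fin n, c j • KrA_T (cmp a ^ (j : ℕ)) (KrA_L a c ^ k *ᵥ e0 K n) := by
      funext c
      rw [pow_succ', ← Matrix.mulVec_mulVec, KrA_mulVec]
      rfl
    rw [e]
    have h1 : ∀ j : Fin n, HasStrictFDerivAt (fun c : Fin n → K => c j)
        (ContinuousLinearMap.proj j : (Fin n → K) →L[K] K) c :=
      fun j => (ContinuousLinearMap.proj j : (Fin n → K) →L[K] K).hasStrictFDerivAt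
    have h2 : ∀ j : Fin n, HasStrictFDerivAt
        (fun c : Fin n → K => KrA_T (cmp a ^ (j : ℕ)) (KrA_L a c ^ k *ᵥ e0 K n))
        ((KrA_T (cmp a ^ (j : ℕ))).comp (k • KrA_T (KrA_L a c ^ (k - 1)))) c :=
      fun j => (KrA_T (cmp a ^ (j : ℕ))).hasStrictFDerivAt.comp c ih
    have h3 := HasStrictFDerivAt.fun_sum (u := Finset.univ) fun j _ => (h1 j).smul (h2 j)
    refine h3.congr_fderiv ?_
    ext1 δ
    have h4 : (∑ j : Fin n, (c j • ((KrA_T (cmp a ^ (j : ℕ))).comp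
        (k • KrA_T (KrA_L a c ^ (k - 1)))) +
        (ContinuousLinearMap.proj j : (Fin n → K) →L[K] K).smulRight
          (KrA_T (cmp a ^ (j : ℕ)) (KrA_L a c ^ k *ᵥ e0 K n)))) δ =
        KrA_L a c *ᵥ (k • (KrA_L a c ^ (k - 1) *ᵥ δ)) +
          KrA_L a δ *ᵥ (KrA_L a c ^ k *ᵥ e0 K n) := by
      rw [KrA_mulVec, KrA_mulVec, ← Finset.sum_add_distrib]
      simp only [FunLike.coe_sum, Finset.sum_apply]
      refine Finset.sum_congr rfl fun j _ => ?_
      rfl
    rw [h4]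
    have h5 : KrA_L a δ *ᵥ (KrA_L a c ^ k *ᵥ e0 K n) = KrA_L a c ^ k *ᵥ δ := by
      rw [Matrix.mulVec_mulVec, ((KrA_comm' a δ c).pow_right k).eq, ← Matrix.mulVec_mulVec,
        KrA_L_e0]
    have h6 : KrA_L a c *ᵥ (k • (KrA_L a c ^ (k - 1) *ᵥ δ)) = k • (KrA_L a c ^ k *ᵥ δ) := by
      rcases Nat.eq_zero_or_pos k with hk | hk
      · rw [hk, zero_nsmul, Matrix.mulVec_zero]
      · rw [Matrix.mulVec_smul, Matrix.mulVec_mulVec, ← pow_succ', Nat.sub_add_cancel hk]
    rw [h5, h6]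
    show _ = (k + 1) • (KrA_L a c ^ k *ᵥ δ)
    rw [add_smul, one_smul]

end

theorem KrA_unit {K : Type} [Field K] {n : ℕ} (a : Fin n → K) (hd : (hk a).det ≠ 0) :
    ∃ W : Matrix (Fin n) (Fin n) K,
      ((n • cmp a ^ (n - 1)) + ∑ i : Fin n, a i • ((i : ℕ) • cmp a ^ ((i : ℕ) - 1))) * W = 1 := by
  obtain ⟨u, w, h⟩ := separable_of_det a hd
  have h1 := congrArg (aeval (cmp a)) h
  rw [map_add, map_mul, map_mul, aeval_cmp, mul_zero, zero_add, map_one] at h1
  refine ⟨aeval (cmp a) w, ?_⟩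
  have h2 : aeval (cmp a) (derivative (AnWA.monicPoly a)) =
      (n • cmp a ^ (n - 1)) + ∑ i : Fin n, a i • ((i : ℕ) • cmp a ^ ((i : ℕ) - 1)) := by
    unfold AnWA.monicPoly
    rw [derivative_add, derivative_X_pow, map_add, derivative_sum, map_sum]
    congr 1
    · rw [map_mul, map_pow, aeval_X, aeval_C, map_natCast, nsmul_eq_mul]
    · refine Finset.sum_congr rfl fun i _ => ?_
      rw [derivative_C_mul_X_pow, map_mul, map_pow, aeval_X, aeval_C, map_mul, map_natCast,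
        nsmul_eq_mul, Algebra.smul_def, mul_assoc]
  rw [← h2, ← map_mul, mul_comm, map_mul, h1]

theorem KrA_aeval {K : Type} [Field K] {n : ℕ} (M : Matrix (Fin n) (Fin n) K) (b : Fin n → K) :
    aeval M (AnWA.monicPoly b) = M ^ n + ∑ i : Fin n, b i • M ^ (i : ℕ) := by
  unfold AnWA.monicPoly
  rw [map_add, map_pow, aeval_X, map_sum]
  congr 1
  refine Finset.sum_congr rfl fun i _ => ?_
  rw [map_mul, aeval_C, map_pow, aeval_X, Algebra.smul_def]

/-- Implicit function theorem in `K[X]/(f_a)`: for `b` near `a` the polynomial `f_b` has a zero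
`θ = ∑ c_j C^j` near `C` in the algebra generated by the companion matrix `C = cmp a`.
Proof: the map `G : (c, b) ↦ (f_b(∑ c_j C^j) e_0, b)` from `K^n × K^n` to itself (`e_0` the first unit
vector; `M ↦ M e_0` is injective on the algebra generated by `C`) is strictly differentiable at
`(c⁰, a)`, `c⁰ = (0, 1, 0, ..., 0)` the coefficients of `X` (`n ≥ 2`), with value `(0, a)` and derivative
`(δ, β) ↦ (f_a'(C) δ(C) e_0 + β, β)` (all matrices in question commute; the powers of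
`Θ(c) = ∑ c_j C^j` are differentiated by induction with the product rule), which is surjective as
`f_a'(C)` is invertible and `δ(C) e_0 = δ`.  `HasStrictFDerivAt.map_nhds_eq_of_surj`. -/
theorem exists_theta {K : Type} [NontriviallyNormedField K] [CompleteSpace K] [CharZero K] {n : ℕ}
    (hn : 2 ≤ n) (a : Fin n → K) (hd : (hk a).det ≠ 0) {U : Set (Fin n → K)}
    (hU : U ∈ 𝓝 (fun i : Fin n => if (i : ℕ) = 1 then (1 : K) else 0)) :
    ∀ᶠ b in 𝓝 a, ∃ c ∈ U, aeval (∑ j, c j • cmp a ^ (j : ℕ)) (AnWA.monicPoly b) = 0 := by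
  obtain ⟨c₀, hc₀⟩ : ∃ c₀ : Fin n → K, c₀ = fun i : Fin n => if (i : ℕ) = 1 then (1 : K) else 0 :=
    ⟨_, rfl⟩
  rw [← hc₀] at hU
  have hL : KrA_L a c₀ = cmp a := by
    unfold KrA_L
    rw [Finset.sum_eq_single (⟨1, by omega⟩ : Fin n)]
    · rw [hc₀]
      simp
    · intro j _ hj
      rw [hc₀]
      have : ¬ (j : ℕ) = 1 := fun h => hj (Fin.ext h)
      simp [this]
    · intro h
      exact absurd (Finset.mem_univ _) h
  obtain ⟨W, hW⟩ := KrA_unit a hd
  -- the map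
  have hG : HasStrictFDerivAt
      (fun q : (Fin n → K) × (Fin n → K) => KrA_L a q.1 ^ n *ᵥ e0 K n +
        ∑ i : Fin n, q.2 i • (KrA_L a q.1 ^ (i : ℕ) *ᵥ e0 K n))
      ((n • KrA_T (KrA_L a c₀ ^ (n - 1))).comp
          (ContinuousLinearMap.fst K (Fin n → K) (Fin n → K)) +
        ∑ i : Fin n, (a i • ((i : ℕ) • KrA_T (KrA_L a c₀ ^ ((i : ℕ) - 1))).comp
          (ContinuousLinearMap.fst K (Fin n → K) (Fin n → K)) +
          ((ContinuousLinearMap.proj i : (Fin n → K) →L[K] K).comp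
            (ContinuousLinearMap.snd K (Fin n → K) (Fin n → K))).smulRight
            (KrA_L a c₀ ^ (i : ℕ) *ᵥ e0 K n))) (c₀, a) := by
    have h1 : ∀ k : ℕ, HasStrictFDerivAt
        (fun q : (Fin n → K) × (Fin n → K) => KrA_L a q.1 ^ k *ᵥ e0 K n)
        ((k • KrA_T (KrA_L a c₀ ^ (k - 1))).comp
          (ContinuousLinearMap.fst K (Fin n → K) (Fin n → K))) (c₀, a) := fun k =>
      HasStrictFDerivAt.comp (g := fun c : Fin n → K => KrA_L a c ^ k *ᵥ e0 K n)
        (f := fun q : (Fin n → K) × (Fin n → K) => q.1) (c₀, a) (KrA_der a c₀ k)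
        hasStrictFDerivAt_fst
    have h2 : ∀ i : Fin n, HasStrictFDerivAt
        (fun q : (Fin n → K) × (Fin n → K) => q.2 i)
        ((ContinuousLinearMap.proj i : (Fin n → K) →L[K] K).comp
            (ContinuousLinearMap.snd K (Fin n → K) (Fin n → K))) (c₀, a) := fun i =>
      ((ContinuousLinearMap.proj i : (Fin n → K) →L[K] K).comp
            (ContinuousLinearMap.snd K (Fin n → K) (Fin n → K))).hasStrictFDerivAt
    exact (h1 n).add (HasStrictFDerivAt.fun_sum (u := Finset.univ) fun i _ => (h2 i).smul (h1 i))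
  have hF := hG.prodMk (hasStrictFDerivAt_snd (𝕜 := K) (p := (c₀, a)))
  have hmap := hF.map_nhds_eq_of_surj (by
    rw [LinearMap.range_eq_top]
    rintro ⟨v, β⟩
    refine ⟨(W *ᵥ (v - ∑ i : Fin n, β i • (KrA_L a c₀ ^ (i : ℕ) *ᵥ e0 K n)), β), ?_⟩
    refine Prod.ext ?_ rfl
    obtain ⟨δ, hδ⟩ : ∃ δ, δ = W *ᵥ (v - ∑ i : Fin n, β i • (KrA_L a c₀ ^ (i : ℕ) *ᵥ e0 K n)) :=
      ⟨_, rfl⟩
    rw [← hδ]
    have h1 : ((n • KrA_T (KrA_L a c₀ ^ (n - 1))).comp
          (ContinuousLinearMap.fst K (Fin n → K) (Fin n → K)) +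
        ∑ i : Fin n, (a i • ((i : ℕ) • KrA_T (KrA_L a c₀ ^ ((i : ℕ) - 1))).comp
          (ContinuousLinearMap.fst K (Fin n → K) (Fin n → K)) +
          ((ContinuousLinearMap.proj i : (Fin n → K) →L[K] K).comp
            (ContinuousLinearMap.snd K (Fin n → K) (Fin n → K))).smulRight
            (KrA_L a c₀ ^ (i : ℕ) *ᵥ e0 K n))) (δ, β) =
        ((n • cmp a ^ (n - 1)) + ∑ i : Fin n, a i • ((i : ℕ) • cmp a ^ ((i : ℕ) - 1))) *ᵥ δ +
          ∑ i : Fin n, β i • (KrA_L a c₀ ^ (i : ℕ) *ᵥ e0 K n) := by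
      rw [Matrix.add_mulVec, Matrix.sum_mulVec, add_assoc, ← Finset.sum_add_distrib]
      simp only [_root_.add_apply, FunLike.coe_sum, Finset.sum_apply]
      congr 1
      · rw [hL, Matrix.smul_mulVec]
        rfl
      · refine Finset.sum_congr rfl fun i _ => ?_
        congr 1
        rw [hL, Matrix.smul_mulVec, Matrix.smul_mulVec]
        rfl
    refine h1.trans ?_
    rw [hδ, Matrix.mulVec_mulVec, hW, Matrix.one_mulVec, sub_add_cancel])
  have h0 : KrA_L a c₀ ^ n *ᵥ e0 K n + ∑ i : Fin n, a i • (KrA_L a c₀ ^ (i : ℕ) *ᵥ e0 K n) = 0 := by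
    have h1 := aeval_cmp a
    rw [KrA_aeval] at h1
    have h2 := congrArg (fun M : Matrix (Fin n) (Fin n) K => M *ᵥ e0 K n) h1
    simp only [Matrix.add_mulVec, Matrix.sum_mulVec, Matrix.smul_mulVec, Matrix.zero_mulVec] at h2
    rw [hL]
    exact h2
  have hS : {q : (Fin n → K) × (Fin n → K) | q.1 ∈ U} ∈ 𝓝 (c₀, a) :=
    continuous_fst.continuousAt hU
  have hI := Filter.image_mem_map (m := fun q : (Fin n → K) × (Fin n → K) =>
    (KrA_L a q.1 ^ n *ᵥ e0 K n +
        ∑ i : Fin n, q.2 i • (KrA_L a q.1 ^ (i : ℕ) *ᵥ e0 K n), q.2)) hS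
  have hmap' : Filter.map (fun q : (Fin n → K) × (Fin n → K) =>
    (KrA_L a q.1 ^ n *ᵥ e0 K n +
        ∑ i : Fin n, q.2 i • (KrA_L a q.1 ^ (i : ℕ) *ᵥ e0 K n), q.2)) (𝓝 (c₀, a)) =
      𝓝 ((0 : Fin n → K), a) := by
    refine hmap.trans ?_
    show 𝓝 (KrA_L a c₀ ^ n *ᵥ e0 K n + ∑ i : Fin n, a i • (KrA_L a c₀ ^ (i : ℕ) *ᵥ e0 K n), a) = _
    rw [h0]
  rw [hmap'] at hI
  have hc : Filter.Tendsto (fun b : Fin n → K => ((0 : Fin n → K), b)) (𝓝 a)
      (𝓝 ((0 : Fin n → K), a)) :=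
    (continuous_const.prodMk continuous_id).tendsto a
  filter_upwards [hc hI] with b hb
  obtain ⟨⟨c, b'⟩, h1, h2⟩ := hb
  obtain ⟨h3, h4⟩ := Prod.mk.inj h2
  have h5 : b' = b := h4
  subst h5
  refine ⟨c, h1, ?_⟩
  show aeval (KrA_L a c) (AnWA.monicPoly b') = 0
  rw [KrA_aeval]
  apply KrA_zero a
  · have h6 : ∀ k : ℕ, Commute (KrA_L a c ^ k) (cmp a) := fun k => (KrA_comm a c).pow_left k
    refine ((h6 n).add_left ?_).eq
    apply Commute.sum_left
    intro i _
    exact (h6 i).smul_left _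
  · rw [Matrix.add_mulVec, Matrix.sum_mulVec]
    simp only [Matrix.smul_mulVec]
    exact h3

end DC83
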