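import Pool.Agent.H.MP_83e36b_nt.sp.CRoot
import Pool.Agent.H.MP_83e36b_nt.sp.CRootS
import Pool.Agent.H.MP_83e36b_nt.sp.PDefs
import Pool.Agent.H.MP_83e36b_nt.sp.PCont
import Pool.Agent.H.MP_83e36b_nt.dc.KrA

/-! Continuity of the roots of a separable polynomial, through the algebra `K[X]/(f)`. -/

set_option autoImplicit false

open Polynomial Matrix Topology SpinWA

namespace DC83

private theorem Kr_smul {K Ω : Type} [Field K] [Field Ω] (φ : K →+* Ω) {n : ℕ} (c : K)
    (M : Matrix (Fin n) (Fin n) K) : φ.mapMatrix (c • M) = φ c • φ.mapMatrix M := by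
  ext i j
  simp only [RingHom.mapMatrix_apply, Matrix.map_apply, Matrix.smul_apply, smul_eq_mul, map_mul]

section
variable {K Ω : Type} [Field K] [Field Ω] (φ : K →+* Ω) {n : ℕ} (a : Fin n → K) (x : Fin n → Ω)
  (hx : AnWA.monicPoly (fun i => φ (a i)) = ∏ i, (X - C (x i)))
include hx

private theorem Kr_theta (c : Fin n → K) :
    vandermonde x * φ.mapMatrix (∑ j, c j • cmp a ^ (j : ℕ)) =
      diagonal (fun i => ∑ j, φ (c j) * x i ^ (j : ℕ)) * vandermonde x := by
  have h1 : φ.mapMatrix (∑ j, c j • cmp a ^ (j : ℕ)) =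
      ∑ j, φ (c j) • (cmp fun i => φ (a i)) ^ (j : ℕ) := by
    rw [map_sum]
    refine Finset.sum_congr rfl fun j _ => ?_
    rw [Kr_smul, map_pow, RingHom.mapMatrix_apply, croot_cmp_map]
  rw [h1, Finset.mul_sum]
  ext i k
  rw [Matrix.sum_apply, diagonal_mul, Finset.sum_mul]
  refine Finset.sum_congr rfl fun j _ => ?_
  rw [mul_smul_comm, croot_vand_pow x _ hx, Matrix.smul_apply, diagonal_pow, diagonal_mul, smul_eq_mul,
    Pi.pow_apply, mul_assoc]

private theorem Kr_pow (c : Fin n → K) (k : ℕ) :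
    vandermonde x * φ.mapMatrix (∑ j, c j • cmp a ^ (j : ℕ)) ^ k =
      diagonal (fun i => ∑ j, φ (c j) * x i ^ (j : ℕ)) ^ k * vandermonde x := by
  induction k with
  | zero => rw [pow_zero, pow_zero, one_mul, mul_one]
  | succ k ih =>
    rw [pow_succ, ← mul_assoc, ih, mul_assoc, Kr_theta φ a x hx c, ← mul_assoc, ← pow_succ]

private theorem Kr_aeval (c : Fin n → K) (p : K[X]) :
    vandermonde x * φ.mapMatrix (aeval (∑ j, c j • cmp a ^ (j : ℕ)) p) =
      diagonal (fun i => (p.map φ).eval (∑ j, φ (c j) * x i ^ (j : ℕ))) * vandermonde x := by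
  induction p using Polynomial.induction_on' with
  | add p q hp hq =>
    rw [map_add, map_add, mul_add, hp, hq]
    ext i j
    simp only [Matrix.add_apply, diagonal_mul, Polynomial.map_add, eval_add]
    ring
  | monomial k d =>
    have h1 : aeval (∑ j, c j • cmp a ^ (j : ℕ)) (monomial k d) =
        d • (∑ j, c j • cmp a ^ (j : ℕ)) ^ k := by
      rw [aeval_monomial, ← Algebra.smul_def]
    rw [h1, Kr_smul, map_pow, mul_smul_comm, Kr_pow φ a x hx c k, diagonal_pow]
    ext i j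
    rw [Matrix.smul_apply, diagonal_mul, diagonal_mul, map_monomial, eval_monomial, Pi.pow_apply,
      smul_eq_mul, mul_assoc]

end

/-- The pure algebra part. -/
private theorem Kr_main {K Ω : Type} [Field K] [Field Ω] (φ : K →+* Ω) {n : ℕ} (a b c : Fin n → K)
    (hd : (hk a).det ≠ 0) (hA : (kryM (∑ j, c j • cmp a ^ (j : ℕ))).det ≠ 0)
    (hb : aeval (∑ j, c j • cmp a ^ (j : ℕ)) (AnWA.monicPoly b) = 0) (x : Fin n → Ω)
    (hx : AnWA.monicPoly (fun i => φ (a i)) = ∏ i, (X - C (x i))) :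
    ∃ y : Fin n → Ω, vandermonde y = vandermonde x * (kryM (∑ j, c j • cmp a ^ (j : ℕ))).map φ ∧
      AnWA.monicPoly (fun i => φ (b i)) = ∏ i, (X - C (y i)) := by
  obtain ⟨y, hy⟩ : ∃ y : Fin n → Ω, y = fun i => ∑ j, φ (c j) * x i ^ (j : ℕ) := ⟨_, rfl⟩
  have he0 : φ ∘ e0 K n = e0 Ω n := by
    funext i
    simp only [Function.comp_apply, e0]
    split_ifs
    · exact map_one φ
    · exact map_zero φ
  have hvec : ∀ M : Matrix (Fin n) (Fin n) K, (φ.mapMatrix M) *ᵥ e0 Ω n = φ ∘ (M *ᵥ e0 K n) := by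
    intro M
    funext i
    rw [Function.comp_apply, RingHom.map_mulVec, he0]
    rfl
  have h1 : vandermonde y = vandermonde x * (kryM (∑ j, c j • cmp a ^ (j : ℕ))).map φ := by
    ext i k
    have h2 := Kr_pow φ a x hx c k
    have h3 := congrFun (congrArg (fun M : Matrix (Fin n) (Fin n) Ω => M *ᵥ e0 Ω n) h2) i
    beta_reduce at h3
    rw [← mulVec_mulVec, ← mulVec_mulVec, vand_e0, ← map_pow, hvec, ← hy, diagonal_pow] at h3
    rw [mulVec_diagonal] at h3
    rw [vandermonde_apply, mul_apply]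
    rw [Pi.pow_apply, mul_one] at h3
    rw [← h3]
    rfl
  refine ⟨y, h1, ?_⟩
  have hinj : Function.Injective x := by
    have h2 : (AnWA.monicPoly (fun i => φ (a i))).Separable := by
      rw [AnWA.monicPoly_map]
      exact (separable_of_det a hd).map
    rw [hx] at h2
    exact separable_prod_X_sub_C_iff.1 h2
  have hyinj : Function.Injective y := by
    rw [← det_vandermonde_ne_zero_iff, h1, det_mul]
    refine mul_ne_zero (det_vandermonde_ne_zero_iff.2 hinj) ?_
    rw [← RingHom.mapMatrix_apply, ← RingHom.map_det]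
    exact (map_ne_zero φ).2 hA
  have hroot : ∀ i, (AnWA.monicPoly (fun i => φ (b i))).eval (y i) = 0 := by
    intro i
    have h2 := Kr_aeval φ a x hx c (AnWA.monicPoly b)
    rw [hb, map_zero, mul_zero] at h2
    have h3 := congrFun (congrArg (fun M : Matrix (Fin n) (Fin n) Ω => M *ᵥ e0 Ω n) h2) i
    simp only [zero_mulVec] at h3
    rw [← mulVec_mulVec, vand_e0, mulVec_diagonal, mul_one, Pi.zero_apply] at h3
    rw [AnWA.monicPoly_map, hy]
    exact h3.symm
  have hm1 : (AnWA.monicPoly (fun i => φ (b i))).Monic := croot_monic _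
  have hm2 : (∏ i, (X - C (y i)) : Polynomial Ω).Monic := monic_prod_X_sub_C _ _
  have hn1 : (AnWA.monicPoly (fun i => φ (b i))).degree = n := by
    rw [degree_eq_natDegree hm1.ne_zero, croot_natDegree]
  have hn2 : (∏ i, (X - C (y i)) : Polynomial Ω).degree = n := by
    rw [degree_prod]
    simp
  refine Polynomial.eq_of_degree_sub_lt_of_eval_index_eq (s := Finset.univ) (v := y) hyinj.injOn ?_ ?_
  · rw [Finset.card_univ, Fintype.card_fin, ← hn1]
    refine degree_sub_lt (hn1.trans hn2.symm) hm1.ne_zero ?_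
    rw [hm1.leadingCoeff, hm2.leadingCoeff]
  · intro i _
    rw [hroot i, eval_prod]
    exact (Finset.prod_eq_zero (Finset.mem_univ i) (by simp)).symm

/-- Proof: let `A` be the matrix with the columns `θ^j e_0`, `θ = ∑ c_j C^j` (`kryM θ`); it depends
continuously on `c` and is `1` at `c = c⁰` (`kryM_cmp`).  If `x` are the roots of `f_a` (distinct, as
`det (hk a) ≠ 0`), then `vandermonde x * C = diagonal x * vandermonde x` (`vand_cmp`), so with
`y i = ∑ c_j (x i)^j`: `vandermonde x * θ = diagonal y * vandermonde x`,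
`vandermonde x * A = vandermonde y` (`vand_e0`) and `f_b(y i) = 0`; `det A ≠ 0` gives that the `y i`
are distinct, so `f_b = ∏ (X - y i)`. -/
theorem kr {K : Type} [NontriviallyNormedField K] [CompleteSpace K] [CharZero K] {n : ℕ}
    (hn : 2 ≤ n) (a : Fin n → K) (hd : (hk a).det ≠ 0) {U : Set K} (hU : U ∈ 𝓝 (1 : K)) :
    ∀ᶠ b in 𝓝 a, ∃ A : Matrix (Fin n) (Fin n) K, A.det ∈ U ∧ A.det ≠ 0 ∧
      ∀ (Ω : Type) [Field Ω] [Algebra K Ω] (x : Fin n → Ω),
        AnWA.monicPoly (fun i => algebraMap K Ω (a i)) = ∏ i, (X - C (x i)) →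
        ∃ y : Fin n → Ω, vandermonde y = vandermonde x * A.map (algebraMap K Ω) ∧
          AnWA.monicPoly (fun i => algebraMap K Ω (b i)) = ∏ i, (X - C (y i)) := by
  have hc : Continuous fun c : Fin n → K => (kryM (∑ j, c j • cmp a ^ (j : ℕ))).det := by
    refine Continuous.matrix_det ?_
    refine continuous_kryM.comp ?_
    refine continuous_finsetSum _ fun j _ => ?_
    exact (continuous_apply j).smul continuous_const
  have h0 : (∑ j : Fin n, (if (j : ℕ) = 1 then (1 : K) else 0) • cmp a ^ (j : ℕ)) = cmp a := by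
    rw [Finset.sum_eq_single (⟨1, by omega⟩ : Fin n)]
    · simp
    · intro j _ hj
      rw [if_neg (fun h => hj (Fin.ext h)), zero_smul]
    · intro h
      exact absurd (Finset.mem_univ _) h
  have h1 : (kryM (∑ j : Fin n, (if (j : ℕ) = 1 then (1 : K) else 0) • cmp a ^ (j : ℕ))).det = 1 := by
    rw [h0, kryM_cmp, det_one]
  have hU' : U ∩ {0}ᶜ ∈ 𝓝 (1 : K) :=
    Filter.inter_mem hU (isOpen_compl_singleton.mem_nhds one_ne_zero)
  have hV : {c : Fin n → K | (kryM (∑ j, c j • cmp a ^ (j : ℕ))).det ∈ U ∩ {0}ᶜ} ∈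
      𝓝 (fun i : Fin n => if (i : ℕ) = 1 then (1 : K) else 0) := by
    refine hc.continuousAt.preimage_mem_nhds ?_
    rw [h1]
    exact hU'
  filter_upwards [exists_theta hn a hd hV] with b hb
  obtain ⟨c, hcV, hcb⟩ := hb
  exact ⟨kryM (∑ j, c j • cmp a ^ (j : ℕ)), hcV.1, hcV.2, fun Ω _ _ x hx =>
    Kr_main (algebraMap K Ω) a b c hd hcV.2 hcb x hx⟩

end DC83
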