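import Pool.Agent.H.MP_83e36b_nt.dc.GalC
import Pool.Agent.H.MP_83e36b_nt.sp.LCls
import Pool.Agent.H.MP_83e36b_nt.sp.LWa

/-! Weak approximation for quadratic characters. -/

set_option autoImplicit false

open SpinWA Topology

namespace DC83

/-- the algebraic closure of `ℚ` -/
abbrev Qb : Type := AlgebraicClosure ℚ

/-- the algebraic closure of a completion of `ℚ` -/
abbrev Om (v : Pl) : Type := AlgebraicClosure (Cpl v)

private theorem Quad_nhds {K : Type*} [NontriviallyNormedField K] [CompleteSpace K] [CharZero K]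
    {d : K} (hd : d ≠ 0) : {a : K | ∃ r : K, r ≠ 0 ∧ a = d * r ^ 2} ∈ 𝓝 d := by
  have h1 : {r : K | r ≠ 0} ∈ 𝓝 (1 : K) := isOpen_ne.mem_nhds one_ne_zero
  have h2 := sqrt_nhds (K := K) two_ne_zero h1
  have h3 : Filter.Tendsto (fun a : K => a / d) (𝓝 d) (𝓝 1) := by
    have h4 : ContinuousAt (fun a : K => a / d) d := continuousAt_id.div_const d
    have h6 := h4.tendsto
    rwa [div_self hd] at h6
  filter_upwards [h3.eventually h2] with a ha
  obtain ⟨r, hr, hra⟩ := ha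
  refine ⟨r, hr, ?_⟩
  rw [hra, mul_div_cancel₀ _ hd]

/-- Proof: `exists_sqrt`: `d_v, y_v`.  By `wa_rat` and `sqrt_nhds` (an element near `1` is a square)
there is a rational `d ≠ 0` with `emb v d = d_v t_v²`, `v ∈ S`.  Let `y² = d` in `Qb`, `χ₀` from
`exists_char`.  Then `ι v y = ± t_v y_v`. -/
theorem quad (S : Finset Pl) (ι : ∀ v : Pl, Qb →+* Om v)
    (χ : ∀ v : Pl, (Om v ≃ₐ[Cpl v] Om v) →* ℤˣ) (hχ : ∀ v, Cts (χ v)) :
    ∃ χ₀ : (Qb ≃ₐ[ℚ] Qb) →* ℤˣ, Cts χ₀ ∧ ∀ v ∈ S, ∀ τ τ₀,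
      (∀ x, ι v (τ₀ x) = τ (ι v x)) → χ₀ τ₀ = χ v τ := by
  classical
  have h1 : ∀ v : Pl, ∃ (d : Cpl v) (y : Om v), d ≠ 0 ∧ y ^ 2 = algebraMap (Cpl v) (Om v) d ∧
      ∀ τ, τ y = ((χ v τ : ℤ) : Om v) * y := fun v => exists_sqrt (hχ v)
  choose d y hd hy hτ using h1
  obtain ⟨r, hr⟩ := wa_rat (insert none S) d
    (fun v => {a : Cpl v | ∃ t : Cpl v, t ≠ 0 ∧ a = d v * t ^ 2}) fun v _ => Quad_nhds (hd v)
  have hr0 : r ≠ 0 := by
    rintro rfl
    obtain ⟨t, ht, h2⟩ := hr none (Finset.mem_insert_self _ _)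
    rw [map_zero] at h2
    exact mul_ne_zero (hd none) (pow_ne_zero 2 ht) h2.symm
  obtain ⟨z, hz⟩ := IsAlgClosed.exists_pow_nat_eq (algebraMap ℚ Qb r) (n := 2) two_pos
  have halg : Algebra.IsAlgebraic ℚ Qb := AlgebraicClosure.isAlgebraic ℚ
  obtain ⟨χ₀, hc, hχ₀⟩ := exists_char (K := ℚ) (Ω := Qb) hr0 hz
  refine ⟨χ₀, hc, fun v hv τ τ₀ hcomm => ?_⟩
  obtain ⟨t, ht, h2⟩ := hr v (Finset.mem_insert_of_mem hv)
  have hchar : CharZero (Om v) :=
    charZero_of_injective_algebraMap (algebraMap (Cpl v) (Om v)).injective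
  have h3 : ι v (algebraMap ℚ Qb r) = algebraMap (Cpl v) (Om v) (emb v r) := by
    have h4 : (ι v).comp (algebraMap ℚ Qb) = (algebraMap (Cpl v) (Om v)).comp (emb v) :=
      RingHom.ext_rat _ _
    exact RingHom.congr_fun h4 r
  have h5 : (ι v z) ^ 2 = (y v * algebraMap (Cpl v) (Om v) t) ^ 2 := by
    rw [← map_pow, hz, h3, h2, mul_pow, hy v, map_mul, map_pow]
  have h6 : τ (ι v z) = ((χ v τ : ℤ) : Om v) * ι v z := by
    rcases sq_eq_sq_iff_eq_or_eq_neg.1 h5 with h7 | h7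
    · rw [h7, map_mul, hτ v τ, AlgEquiv.commutes]
      ring
    · rw [h7, map_neg, map_mul, hτ v τ, AlgEquiv.commutes]
      ring
  have h7 : ι v (τ₀ z) = ((χ₀ τ₀ : ℤ) : Om v) * ι v z := by
    rw [hχ₀ τ₀, map_mul, map_intCast]
  have hz0 : ι v z ≠ 0 := by
    intro h8
    have h9 : z = 0 := (map_eq_zero_iff _ (ι v).injective).1 h8
    rw [h9, zero_pow two_ne_zero] at hz
    exact hr0 ((map_eq_zero_iff _ (algebraMap ℚ Qb).injective).1 hz.symm)
  have h8 : ((χ₀ τ₀ : ℤ) : Om v) = ((χ v τ : ℤ) : Om v) := by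
    refine mul_right_cancel₀ hz0 ?_
    rw [← h7, hcomm z, h6]
  exact Units.ext (Int.cast_injective h8)

end DC83
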