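import Pool.Agent.H.MP_83e36b_nt.dc.Defs

/-! Relations of the Clifford matrices.

`cE i` is a signed permutation matrix: it maps the basis vector `A` to `sg i A` times the basis vector
`A + single i 1`.  `cF i` is `x ↦ γ(x) e_i` (`γ` the grading): it maps `A` to
`sg i A * (-1)^(A i)` times `A + single i 1`.

Useful: `sg i (A + single j 1) = sg i A * (if j < i then -1 else 1)`, `sg i A ^ 2 = 1`. -/

set_option autoImplicit false

open Matrix

namespace DC83

variable (R : Type*) [CommRing R] (n : ℕ)

/-- `x ↦ γ(x) e_i` on the Clifford algebra, `γ` the grading automorphism -/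
def cF (i : Fin n) : Matrix (Ix n) (Ix n) R :=
  Matrix.of fun B A => if B = A + Pi.single i 1 then
    ((sg i A * (if A i = 0 then 1 else -1) : ℤ) : R) else 0

/-! ### The signs -/

private def clfG {n : ℕ} (i : Fin n) (A : Ix n) : ℤ := if A i = 0 then 1 else -1

private theorem clf_two (x : ZMod 2) : x + 1 = 0 ↔ ¬ x = 0 := by
  revert x; decide

private theorem clf_g_add {n : ℕ} (i j : Fin n) (A : Ix n) :
    clfG i (A + Pi.single j 1) = clfG i A * (if i = j then -1 else 1) := by
  unfold clfG
  by_cases h : i = j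
  · subst h
    rw [Pi.add_apply, Pi.single_eq_same, if_pos rfl]
    by_cases h0 : A i = 0
    · rw [if_pos h0, if_neg (by rw [h0]; decide)]
      norm_num
    · rw [if_neg h0, if_pos ((clf_two _).2 h0)]
      norm_num
  · rw [Pi.add_apply, Pi.single_eq_of_ne h, add_zero, if_neg h, mul_one]

private theorem clf_g_sq {n : ℕ} (i : Fin n) (A : Ix n) : clfG i A * clfG i A = 1 := by
  unfold clfG
  split_ifs <;> norm_num

private theorem clf_sg_eq {n : ℕ} (i : Fin n) (A : Ix n) :
    sg i A = ∏ j ∈ Finset.univ.filter (fun j => j < i), clfG j A := rfl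

private theorem clf_sg_add {n : ℕ} (i j : Fin n) (A : Ix n) :
    sg i (A + Pi.single j 1) = sg i A * (if j < i then -1 else 1) := by
  rw [clf_sg_eq, clf_sg_eq, Finset.prod_congr rfl fun k _ => clf_g_add k j A,
    Finset.prod_mul_distrib]
  congr 1
  rw [Finset.prod_ite_eq']
  simp only [Finset.mem_filter, Finset.mem_univ, true_and]

private theorem clf_sg_sq {n : ℕ} (i : Fin n) (A : Ix n) : sg i A * sg i A = 1 := by
  rw [clf_sg_eq, ← Finset.prod_mul_distrib]
  exact Finset.prod_eq_one fun k _ => clf_g_sq k A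

/-! ### Weighted shifts -/

private def clfM (c : Ix n) (w : Ix n → ℤ) : Matrix (Ix n) (Ix n) R :=
  Matrix.of fun B A => if B = A + c then ((w A : ℤ) : R) else 0

private theorem clf_M_apply (c : Ix n) (w : Ix n → ℤ) (B A : Ix n) :
    clfM R n c w B A = if B = A + c then ((w A : ℤ) : R) else 0 := rfl

private theorem clf_M_congr {c c' : Ix n} {w w' : Ix n → ℤ} (hc : c = c') (hw : ∀ A, w A = w' A) :
    clfM R n c w = clfM R n c' w' := by
  have : w = w' := funext hw
  rw [hc, this]

private theorem clf_M_neg (c : Ix n) (w : Ix n → ℤ) :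
    -clfM R n c w = clfM R n c fun A => -w A := by
  ext B A
  rw [Matrix.neg_apply, clf_M_apply, clf_M_apply]
  split_ifs
  · push_cast
    rfl
  · exact neg_zero

private theorem clf_M_mul (c d : Ix n) (w v : Ix n → ℤ) :
    clfM R n c w * clfM R n d v = clfM R n (c + d) fun A => w (A + d) * v A := by
  ext B A
  rw [Matrix.mul_apply, Finset.sum_eq_single (A + d)]
  · rw [clf_M_apply, clf_M_apply, clf_M_apply, if_pos rfl]
    have e : A + d + c = A + (c + d) := by abel
    rw [e]
    split_ifs
    · push_cast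
      rfl
    · rw [zero_mul]
  · intro C _ hC
    rw [clf_M_apply R n d, if_neg hC, mul_zero]
  · intro h
    exact absurd (Finset.mem_univ _) h

private theorem clf_M_one : clfM R n 0 (fun _ => 1) = 1 := by
  ext B A
  rw [clf_M_apply, Matrix.one_apply, add_zero, Int.cast_one]

private theorem clf_cE (i : Fin n) : cE R n i = clfM R n (Pi.single i 1) (sg i) := rfl

private theorem clf_cF (i : Fin n) :
    cF R n i = clfM R n (Pi.single i 1) (fun A => sg i A * clfG i A) := rfl

private theorem clf_dbl {n : ℕ} (c : Ix n) : c + c = 0 := by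
  funext k
  have : ∀ x : ZMod 2, x + x = 0 := by decide
  exact this (c k)

theorem cE_sq (i : Fin n) : cE R n i * cE R n i = 1 := by
  rw [clf_cE, clf_M_mul, ← clf_M_one]
  refine clf_M_congr R n (clf_dbl _) fun A => ?_
  rw [clf_sg_add, if_neg (lt_irrefl i), mul_one, clf_sg_sq]

theorem cE_anti {i j : Fin n} (h : i ≠ j) : cE R n i * cE R n j = -(cE R n j * cE R n i) := by
  rw [clf_cE, clf_cE, clf_M_mul, clf_M_mul, clf_M_neg]
  refine clf_M_congr R n (add_comm _ _) fun A => ?_
  rw [clf_sg_add, clf_sg_add]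
  rcases lt_or_gt_of_ne h with h1 | h1
  · rw [if_neg h1.not_gt, if_pos h1]
    ring
  · rw [if_pos h1, if_neg h1.not_gt]
    ring

theorem cE_transpose (i : Fin n) : (cE R n i)ᵀ = cE R n i := by
  ext B A
  rw [Matrix.transpose_apply, clf_cE, clf_M_apply, clf_M_apply]
  by_cases h : B = A + Pi.single i 1
  · have h1 : A = B + Pi.single i 1 := by rw [h, add_assoc, clf_dbl, add_zero]
    rw [if_pos h1, if_pos h, h, clf_sg_add, if_neg (lt_irrefl i), mul_one]
  · have h1 : ¬ A = B + Pi.single i 1 := by
      intro h1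
      exact h (by rw [h1, add_assoc, clf_dbl, add_zero])
    rw [if_neg h1, if_neg h]

theorem cF_sq (i : Fin n) : cF R n i * cF R n i = -1 := by
  rw [clf_cF, clf_M_mul, ← clf_M_one, clf_M_neg]
  refine clf_M_congr R n (clf_dbl _) fun A => ?_
  rw [clf_sg_add, clf_g_add, if_neg (lt_irrefl i), if_pos rfl]
  have h1 := clf_sg_sq i A
  have h2 := clf_g_sq i A
  linear_combination (-(clfG i A * clfG i A)) * h1 - h2

theorem cF_anti {i j : Fin n} (h : i ≠ j) : cF R n i * cF R n j = -(cF R n j * cF R n i) := by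
  rw [clf_cF, clf_cF, clf_M_mul, clf_M_mul, clf_M_neg]
  refine clf_M_congr R n (add_comm _ _) fun A => ?_
  rw [clf_sg_add, clf_sg_add, clf_g_add, clf_g_add, if_neg h, if_neg h.symm]
  rcases lt_or_gt_of_ne h with h1 | h1
  · rw [if_neg h1.not_gt, if_pos h1]
    ring
  · rw [if_pos h1, if_neg h1.not_gt]
    ring

theorem cE_cF (i j : Fin n) : cE R n i * cF R n j = -(cF R n j * cE R n i) := by
  rw [clf_cE, clf_cF, clf_M_mul, clf_M_mul, clf_M_neg]
  refine clf_M_congr R n (add_comm _ _) fun A => ?_
  rw [clf_sg_add, clf_sg_add, clf_g_add]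
  rcases lt_trichotomy i j with h1 | h1 | h1
  · rw [if_neg h1.not_gt, if_pos h1, if_neg h1.ne']
    ring
  · subst h1
    rw [if_neg (lt_irrefl i), if_pos rfl]
    ring
  · rw [if_pos h1, if_neg h1.not_gt, if_neg h1.ne]
    ring

private theorem clf_M_map {S : Type*} [CommRing S] (φ : R →+* S) (c : Ix n) (w : Ix n → ℤ) :
    (clfM R n c w).map φ = clfM S n c w := by
  ext B A
  rw [Matrix.map_apply, clf_M_apply, clf_M_apply]
  split_ifs
  · exact map_intCast φ _
  · exact map_zero φ

theorem cE_map {S : Type*} [CommRing S] (φ : R →+* S) (i : Fin n) :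
    (cE R n i).map φ = cE S n i := clf_M_map R n φ _ _

theorem cF_map {S : Type*} [CommRing S] (φ : R →+* S) (i : Fin n) :
    (cF R n i).map φ = cF S n i := clf_M_map R n φ _ _

/-- A matrix which commutes with all `cE i` and `cF i` is scalar.  Proof: `cE i * cF i` is the
diagonal matrix with the entries `(-1)^(A i)`; commuting with all of these (and `2 ≠ 0`)
forces `X` to be diagonal; commuting with `cE i` gives `X A A = X (A + single i 1) (A + single i 1)`. -/
theorem scalar_of_comm {K : Type*} [Field K] (h2 : (2 : K) ≠ 0) {n : ℕ}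
    {X : Matrix (Ix n) (Ix n) K} (hE : ∀ i, X * cE K n i = cE K n i * X)
    (hF : ∀ i, X * cF K n i = cF K n i * X) : ∃ c : K, X = c • 1 := by
  have hD : ∀ i, cE K n i * cF K n i = clfM K n 0 (clfG i) := by
    intro i
    rw [clf_cE, clf_cF, clf_M_mul]
    refine clf_M_congr K n (clf_dbl _) fun A => ?_
    rw [clf_sg_add, if_neg (lt_irrefl i), mul_one, ← mul_assoc, clf_sg_sq, one_mul]
  have hXD : ∀ i, X * clfM K n 0 (clfG i) = clfM K n 0 (clfG i) * X := by
    intro i
    rw [← hD, ← mul_assoc, hE, mul_assoc, hF, mul_assoc]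
  -- multiplication with a weighted shift
  have hr : ∀ (c : Ix n) (w : Ix n → ℤ) (B A : Ix n),
      (X * clfM K n c w) B A = X B (A + c) * ((w A : ℤ) : K) := by
    intro c w B A
    rw [Matrix.mul_apply, Finset.sum_eq_single (A + c)]
    · rw [clf_M_apply, if_pos rfl]
    · intro C _ hC
      rw [clf_M_apply, if_neg hC, mul_zero]
    · intro h
      exact absurd (Finset.mem_univ _) h
  have hl : ∀ (c : Ix n) (w : Ix n → ℤ) (B A : Ix n),
      (clfM K n c w * X) (B + c) A = ((w B : ℤ) : K) * X B A := by
    intro c w B A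
    rw [Matrix.mul_apply, Finset.sum_eq_single B]
    · rw [clf_M_apply, if_pos rfl]
    · intro C _ hC
      rw [clf_M_apply, if_neg (fun h => hC (add_right_cancel h).symm), zero_mul]
    · intro h
      exact absurd (Finset.mem_univ _) h
  have hoff : ∀ B A, B ≠ A → X B A = 0 := by
    intro B A hBA
    obtain ⟨i, hi⟩ := Function.ne_iff.1 hBA
    have h1 := congrFun (congrFun (hXD i) B) A
    have h3 := hl 0 (clfG i) B A
    rw [add_zero] at h3
    rw [hr, h3, add_zero] at h1
    have h4 : (((clfG i A : ℤ) : K) - ((clfG i B : ℤ) : K)) * X B A = 0 := by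
      linear_combination h1
    have h5 : (((clfG i A : ℤ) : K) - ((clfG i B : ℤ) : K)) ≠ 0 := by
      have key : ∀ x y : ZMod 2, x ≠ y → (x = 0 ∧ y ≠ 0) ∨ (x ≠ 0 ∧ y = 0) := by decide
      unfold clfG
      rcases key (B i) (A i) hi with ⟨h6, h7⟩ | ⟨h6, h7⟩
      · rw [if_neg h7, if_pos h6]
        intro h
        apply h2
        push_cast at h
        linear_combination -h
      · rw [if_pos h7, if_neg h6]
        intro h
        apply h2
        push_cast at h
        linear_combination h
    exact (mul_eq_zero.1 h4).resolve_left h5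
  have hdiag : ∀ (i : Fin n) (A : Ix n), X (A + Pi.single i 1) (A + Pi.single i 1) = X A A := by
    intro i A
    have h1 := congrFun (congrFun (hE i) (A + Pi.single i 1)) A
    rw [clf_cE, hr, hl] at h1
    have h3 : ((sg i A : ℤ) : K) * ((sg i A : ℤ) : K) = 1 := by
      exact_mod_cast congrArg (Int.cast : ℤ → K) (clf_sg_sq i A)
    have h4 : ((sg i A : ℤ) : K) ≠ 0 := by
      intro h
      rw [h, zero_mul] at h3
      exact zero_ne_one h3
    rw [mul_comm] at h1
    exact mul_left_cancel₀ h4 h1
  have hall : ∀ (A : Ix n) (S : Finset (Fin n)),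
      X (∑ i ∈ S, Pi.single i (A i)) (∑ i ∈ S, Pi.single i (A i)) = X 0 0 := by
    intro A S
    induction S using Finset.induction_on with
    | empty => rw [Finset.sum_empty]
    | insert i S hi ih =>
      rw [Finset.sum_insert hi, add_comm]
      have key : ∀ x : ZMod 2, x = 0 ∨ x = 1 := by decide
      rcases key (A i) with h | h
      · rw [h, Pi.single_zero, add_zero]
        exact ih
      · rw [h, hdiag]
        exact ih
  refine ⟨X 0 0, ?_⟩
  ext B A
  rw [Matrix.smul_apply, Matrix.one_apply, smul_eq_mul]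
  by_cases h : B = A
  · rw [if_pos h, mul_one, h]
    have h1 := hall A Finset.univ
    rwa [Finset.univ_sum_single] at h1
  · rw [if_neg h, mul_zero, hoff B A h]

end DC83
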