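import Pool.Agent.H.MP_83e36b_nt.dc.LocRa

/-! The trace form of a real algebra whose Galois representation lifts to `2.A_n`. -/

set_option autoImplicit false

open Matrix SpinWA

namespace DC83

/-- Real quadratic forms.  Proof: the rows `V_i` satisfy `conj V_i = V_(σ i)`.  Let the row `i` of the
real matrix `W` be `V_i` if `σ i = i`, `√2 Re V_i` if `i < σ i` and `√2 Im V_i` if `σ i < i`.  Then
`Vᵀ V = Wᵀ diag(ε) W`, `ε_i = -1` if `σ i < i` and `1` otherwise. -/
theorem real_form {n : ℕ} {σ : Equiv.Perm (Fin n)} (hσ : σ * σ = 1) {V : Matrix (Fin n) (Fin n) ℂ}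
    (hV : V.det ≠ 0) (hc : ∀ i j, (starRingEnd ℂ) (V i j) = V (σ i) j)
    {H : Matrix (Fin n) (Fin n) ℝ} (hH : H.map (algebraMap ℝ ℂ) = Vᵀ * V) :
    cls H = (Finset.univ.filter fun i : Fin n => σ i < i).card • cl (-1 : ℝ) +
      (n - (Finset.univ.filter fun i : Fin n => σ i < i).card) • cl (1 : ℝ) := by
  classical
  have hσσ : ∀ i, σ (σ i) = i := fun i => by
    have := Equiv.congr_fun hσ i
    simpa using this
  obtain ⟨ε, hε⟩ : ∃ ε : Fin n → ℝ, ε = fun i => if σ i < i then -1 else 1 := ⟨_, rfl⟩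
  obtain ⟨W, hW⟩ : ∃ W : Matrix (Fin n) (Fin n) ℝ, W = Matrix.of fun i j =>
      if σ i < i then Real.sqrt 2 * (V i j).im else
      if i < σ i then Real.sqrt 2 * (V i j).re else (V i j).re := ⟨_, rfl⟩
  have hs2 : Real.sqrt 2 * Real.sqrt 2 = 2 := Real.mul_self_sqrt (by norm_num)
  have hre : ∀ i j, (V (σ i) j).re = (V i j).re := fun i j => by
    rw [← hc, Complex.conj_re]
  have him : ∀ i j, (V (σ i) j).im = -(V i j).im := fun i j => by
    rw [← hc, Complex.conj_im]
  have hent : ∀ a b, H a b = ∑ i, ((V i a).re * (V i b).re - (V i a).im * (V i b).im) := by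
    intro a b
    have h1 := congrArg Complex.re (congrFun (congrFun hH a) b)
    rw [Matrix.mul_apply, Complex.re_sum] at h1
    have h2 : ((H.map (algebraMap ℝ ℂ)) a b).re = H a b := rfl
    rw [h2] at h1
    rw [h1]
    refine Finset.sum_congr rfl fun i _ => ?_
    rw [Matrix.transpose_apply, Complex.mul_re]
  have hpair : ∀ a b i, (W i a * (ε i * W i b)) + (W (σ i) a * (ε (σ i) * W (σ i) b)) =
      ((V i a).re * (V i b).re - (V i a).im * (V i b).im) +
      ((V (σ i) a).re * (V (σ i) b).re - (V (σ i) a).im * (V (σ i) b).im) := by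
    intro a b i
    rw [hε, hW]
    simp only [Matrix.of_apply, hσσ, hre, him]
    rcases lt_trichotomy (σ i) i with h | h | h
    · rw [if_pos h, if_pos h, if_pos h, if_neg h.not_gt, if_neg h.not_gt, if_neg h.not_gt,
        if_pos h, if_pos h]
      linear_combination ((V i a).re * (V i b).re - (V i a).im * (V i b).im) * hs2
    · have h0 : ∀ j, (V i j).im = 0 := fun j => by
        have h1 := him i j
        rw [h] at h1
        linarith
      rw [h]
      simp only [lt_irrefl, if_false, h0]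
      ring
    · rw [if_neg h.not_gt, if_neg h.not_gt, if_neg h.not_gt, if_pos h, if_pos h, if_pos h,
        if_pos h, if_pos h]
      linear_combination ((V i a).re * (V i b).re - (V i a).im * (V i b).im) * hs2
  have hform : Wᵀ * diagonal ε * W = H := by
    ext a b
    rw [Matrix.mul_assoc, Matrix.mul_apply, hent]
    have h1 : ∀ i, Wᵀ a i * (diagonal ε * W) i b = W i a * (ε i * W i b) := fun i => by
      rw [Matrix.diagonal_mul, Matrix.transpose_apply]
    simp only [h1]
    have h2 := Finset.sum_congr (rfl : (Finset.univ : Finset (Fin n)) = Finset.univ)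
      (fun i _ => hpair a b i)
    rw [Finset.sum_add_distrib, Finset.sum_add_distrib] at h2
    have h3 := Equiv.sum_comp σ (fun i => W i a * (ε i * W i b))
    have h4 := Equiv.sum_comp σ
      (fun i => (V i a).re * (V i b).re - (V i a).im * (V i b).im)
    rw [h3, h4] at h2
    linarith
  have hdH : H.det ≠ 0 := by
    intro h0
    have h1 := congrArg Matrix.det hH
    have h2 : (H.map (algebraMap ℝ ℂ)).det = algebraMap ℝ ℂ H.det := by
      rw [← RingHom.mapMatrix_apply, ← RingHom.map_det]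
    rw [h2, h0, map_zero, Matrix.det_mul, Matrix.det_transpose] at h1
    exact mul_ne_zero hV hV h1.symm
  have hdW : W.det ≠ 0 := by
    intro h0
    apply hdH
    rw [← hform, Matrix.det_mul, h0, mul_zero]
  have hcong : Cong H (diagonal ε) := Cong.symm ⟨W, hdW, hform⟩
  rw [cls_eq_sum (by norm_num) (d := ε) (fun i => by rw [hε]; dsimp only; split_ifs <;> norm_num)
    hcong]
  have h5 : ∀ i, cl (ε i) = if σ i < i then cl (-1 : ℝ) else cl (1 : ℝ) := fun i => by
    rw [hε]
    dsimp only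
    split_ifs <;> rfl
  simp only [h5]
  rw [Finset.sum_ite, Finset.sum_const, Finset.sum_const]
  congr 2
  have h6 := Finset.card_filter_add_card_filter_not (s := (Finset.univ : Finset (Fin n)))
    (fun i : Fin n => σ i < i)
  rw [Finset.card_univ, Fintype.card_fin] at h6
  omega

/-- Proof: choose `e : Ω ≃ₐ[ℝ] ℂ` (uniqueness of the algebraic closure, `IsAlgClosure.equiv`), let
`c = e⁻¹ conj e`, `s` the number of `four_dvd` for `ρ c` (`c * c = 1`); `real_form` for `V.map e`. -/
theorem locR {Ω : Type} [Field Ω] [CharZero Ω] [Algebra ℝ Ω] [IsAlgClosed Ω]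
    [Algebra.IsAlgebraic ℝ Ω] {n : ℕ} (ρ : (Ω ≃ₐ[ℝ] Ω) →* dAlt n) :
    ∃ s : ℕ, 4 ∣ s ∧ s ≤ n ∧ ∀ (V : Matrix (Fin n) (Fin n) Ω), V.det ≠ 0 →
      (∀ τ : Ω ≃ₐ[ℝ] Ω, V.map τ = pM Ω (pi n (ρ τ)) * V) → ∀ (H : Matrix (Fin n) (Fin n) ℝ),
      H.map (algebraMap ℝ Ω) = Vᵀ * V → cls H = s • cl (-1 : ℝ) + (n - s) • cl (1 : ℝ) := by
  classical
  have hac : IsAlgClosure ℝ Ω := ⟨inferInstance, inferInstance⟩
  have hac' : IsAlgClosure ℝ ℂ := ⟨inferInstance, inferInstance⟩
  obtain ⟨e⟩ : Nonempty (Ω ≃ₐ[ℝ] ℂ) := ⟨IsAlgClosure.equiv ℝ Ω ℂ⟩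
  obtain ⟨c, hcdef⟩ : ∃ c : Ω ≃ₐ[ℝ] Ω, c = (e.trans Complex.conjAe).trans e.symm := ⟨_, rfl⟩
  have hca : ∀ z, e (c z) = (starRingEnd ℂ) (e z) := fun z => by
    rw [hcdef]
    show e (e.symm (Complex.conjAe (e z))) = _
    rw [e.apply_symm_apply]
    rfl
  have hcc : c * c = 1 := by
    ext z
    apply e.injective
    show e (c (c z)) = e z
    rw [hca, hca, Complex.conj_conj]
  have hx : ρ c * ρ c = 1 := by rw [← map_mul, hcc, map_one]
  refine ⟨(Finset.univ.filter fun i : Fin n => pi n (ρ c) i < i).card, four_dvd hx, ?_, ?_⟩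
  · refine (Finset.card_le_univ _).trans ?_
    rw [Fintype.card_fin]
  intro V hV hτ H hH
  have hσ : pi n (ρ c) * pi n (ρ c) = 1 := by rw [← map_mul, hx, map_one]
  refine real_form hσ (V := V.map e) ?_ (fun i j => ?_) ?_
  · have h1 : (V.map e).det = e V.det := by
      have := RingHom.map_det (e : Ω →+* ℂ) V
      exact this.symm
    rw [h1]
    exact (map_ne_zero e).2 hV
  · rw [Matrix.map_apply, ← hca, Matrix.map_apply]
    have h1 := congrFun (congrFun (hτ c) i) j
    rw [Matrix.map_apply, pM_mul_apply] at h1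
    rw [h1]
  · ext a b
    have h1 := congrArg e (congrFun (congrFun hH a) b)
    rw [Matrix.map_apply, Matrix.mul_apply, map_sum, AlgEquiv.commutes] at h1
    rw [Matrix.map_apply, Matrix.mul_apply, h1]
    refine Finset.sum_congr rfl fun i _ => ?_
    rw [Matrix.transpose_apply, Matrix.transpose_apply, Matrix.map_apply, Matrix.map_apply,
      map_mul]

end DC83
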