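import Pool.Agent.H.MP_83e36b_nt.dc.U5

/-! Quadratic forms in five variables over the 2-adic numbers are isotropic. -/

set_option autoImplicit false

namespace DC83

/-- `2`-adic integers congruent to `1` modulo `8` are squares -/
private lemma u5two_sq {z : ℤ_[2]} (h : (8 : ℤ_[2]) ∣ z - 1) : ∃ y : ℤ_[2], y ^ 2 = z := by
  obtain ⟨k, hk⟩ := h
  have h8 : ‖z - 1‖ ≤ 1 / 8 := by
    rw [hk]
    have h1 : (8 : ℤ_[2]) = ((2 : ℕ) : ℤ_[2]) ^ 3 := by norm_num
    rw [norm_mul, h1, norm_pow, PadicInt.norm_p]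
    have := PadicInt.norm_le_one k
    norm_num
    linarith
  have key := hensels_lemma (p := 2) (R := ℤ_[2]) (F := Polynomial.X ^ 2 - Polynomial.C z) (a := 1)
    (by
      have h2 : ‖(2 : ℤ_[2])‖ = 1 / 2 := by
        have := PadicInt.norm_p (p := 2)
        norm_num at this ⊢
        exact this
      have e1 : Polynomial.aeval (1 : ℤ_[2]) (Polynomial.X ^ 2 - Polynomial.C z) = -(z - 1) := by
        simp
      have e2 : Polynomial.aeval (1 : ℤ_[2])
          (Polynomial.derivative (Polynomial.X ^ 2 - Polynomial.C z)) = 2 := by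
        simp
        norm_num
      rw [e1, e2, norm_neg, h2]
      refine lt_of_le_of_lt h8 ?_
      norm_num)
  obtain ⟨y, hy, -⟩ := key
  refine ⟨y, ?_⟩
  have : y ^ 2 - z = 0 := by simpa using hy
  exact sub_eq_zero.mp this

private lemma u5two_three4 : PadicInt.toZModPow (p := 2) 3 4 = 4 := by
  have := map_natCast (PadicInt.toZModPow (p := 2) 3) 4
  exact_mod_cast this

private lemma u5two_two2 : PadicInt.toZModPow (p := 2) 2 2 = 2 := by
  have := map_natCast (PadicInt.toZModPow (p := 2) 2) 2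
  exact_mod_cast this

private lemma u5two_dvd8 {z : ℤ_[2]} : (8 : ℤ_[2]) ∣ z ↔ PadicInt.toZModPow 3 z = 0 := by
  have h : z ∈ RingHom.ker (PadicInt.toZModPow (p := 2) 3) ↔ z ∈ Ideal.span {((2 : ℕ) : ℤ_[2]) ^ 3} := by
    rw [PadicInt.ker_toZModPow]
  rw [RingHom.mem_ker, Ideal.mem_span_singleton] at h
  rw [h]
  norm_num

private lemma u5two_dvd4 {z : ℤ_[2]} : (4 : ℤ_[2]) ∣ z ↔ PadicInt.toZModPow 2 z = 0 := by
  have h : z ∈ RingHom.ker (PadicInt.toZModPow (p := 2) 2) ↔ z ∈ Ideal.span {((2 : ℕ) : ℤ_[2]) ^ 2} := by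
    rw [PadicInt.ker_toZModPow]
  rw [RingHom.mem_ker, Ideal.mem_span_singleton] at h
  rw [h]
  norm_num

/-- a `2`-adic unit `u` and `c` with `u + c` divisible by `8` -/
private lemma u5two_solve {u c : ℤ_[2]} (hu : IsUnit u) (h : (8 : ℤ_[2]) ∣ u + c) :
    ∃ y : ℤ_[2], u * y ^ 2 + c = 0 ∧ y ≠ 0 := by
  obtain ⟨v, hv⟩ := hu.exists_left_inv
  obtain ⟨y, hy⟩ := u5two_sq (z := -(c * v)) (by
    have : -(c * v) - 1 = -(v * (u + c)) := by linear_combination hv
    rw [this]
    exact (Dvd.dvd.mul_left h v).neg_right)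
  refine ⟨y, ?_, ?_⟩
  · rw [hy]
    linear_combination (-c) * hv
  · rintro rfl
    have hc : c = 0 := by
      have h1 : c * v = 0 := by linear_combination hy
      linear_combination u * h1 - c * hv
    rw [hc, add_zero] at h
    have h2 : IsUnit (8 : ℤ_[2]) := isUnit_of_dvd_unit h hu
    have h3 : IsUnit ((2 : ℕ) : ℤ_[2]) := by
      have : (8 : ℤ_[2]) = ((2 : ℕ) : ℤ_[2]) ^ 3 := by norm_num
      rw [this] at h2
      exact (isUnit_pow_iff (by norm_num)).mp h2
    exact PadicInt.p_nonunit h3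

private lemma u5two_unit {u : ℤ_[2]} (hu : IsUnit u) : (8 : ℤ_[2]) ∣ 4 * (u - 1) := by
  rw [u5two_dvd8]
  have h := hu.map (PadicInt.toZModPow (p := 2) 3)
  have e : PadicInt.toZModPow 3 (4 * (u - 1)) = 4 * (PadicInt.toZModPow (p := 2) 3 u - 1) := by
    rw [map_mul, u5two_three4, map_sub, map_one]
  rw [e]
  revert h
  generalize PadicInt.toZModPow 3 u = w
  revert w
  change ∀ w : ZMod 8, _ → 4 * (w - 1) = 0
  decide

private lemma u5two_unit4 {u : ℤ_[2]} (hu : IsUnit u) :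
    PadicInt.toZModPow 2 u = (1 : ZMod 4) ∨ PadicInt.toZModPow 2 u = (3 : ZMod 4) := by
  have h := hu.map (PadicInt.toZModPow (p := 2) 2)
  revert h
  generalize PadicInt.toZModPow 2 u = w
  revert w
  change ∀ w : ZMod 4, _ → (w = (1 : ZMod 4) ∨ w = (3 : ZMod 4))
  decide

private lemma u5two_two4 {u : ℤ_[2]} (hu : IsUnit u) : PadicInt.toZModPow 2 (2 * u) = (2 : ZMod 4) := by
  have h := u5two_unit4 hu
  have e : PadicInt.toZModPow 2 (2 * u) = (2 : ZMod 4) * PadicInt.toZModPow (p := 2) 2 u := by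
    rw [map_mul, u5two_two2]
  rw [e]
  rcases h with h | h <;> rw [h] <;> decide

/-- every multiple of `4` is `0` or `4` modulo `8` -/
private lemma u5two_four {c : ℤ_[2]} (h : (4 : ℤ_[2]) ∣ c) : (8 : ℤ_[2]) ∣ c ∨ (8 : ℤ_[2]) ∣ c + 4 := by
  obtain ⟨k, rfl⟩ := h
  rw [u5two_dvd8, u5two_dvd8]
  have e1 : PadicInt.toZModPow 3 (4 * k) = 4 * (PadicInt.toZModPow (p := 2) 3 k) := by
    rw [map_mul, u5two_three4]
  have e2 : PadicInt.toZModPow 3 (4 * k + 4) = 4 * (PadicInt.toZModPow (p := 2) 3 k) + 4 := by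
    rw [map_add, map_mul, u5two_three4]
  rw [e1, e2]
  generalize PadicInt.toZModPow 3 k = w
  revert w
  change ∀ w : ZMod 8, 4 * w = 0 ∨ 4 * w + 4 = 0
  decide

set_option maxRecDepth 100000 in
private lemma u5two_comb : ∀ c : Fin 5 → Fin 3, 3 ≤ (Finset.univ.filter (fun i => c i ≠ 2)).card →
    ∃ S : Finset (Fin 5), ∃ i0 ∈ S, ∃ k, k ∉ S ∧ c i0 ≠ 2 ∧ c k ≠ 2 ∧
      ∑ i ∈ S, (![1, 3, 2] : Fin 3 → ZMod 4) (c i) = 0 := by
  decide

private lemma u5two_set (e : Fin 5 → ℤ_[2]) (S : Finset (Fin 5)) (i0 k : Fin 5) (hi : i0 ∈ S)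
    (hk : k ∉ S) (h0 : IsUnit (e i0)) (h1 : IsUnit (e k)) (h4 : (4 : ℤ_[2]) ∣ ∑ i ∈ S, e i) :
    ∃ x : Fin 5 → ℤ_[2], x ≠ 0 ∧ ∑ i, e i * x i ^ 2 = 0 := by
  classical
  have hne : k ≠ i0 := by
    rintro rfl
    exact hk hi
  obtain ⟨z, hz⟩ : ∃ z : ℤ_[2], (8 : ℤ_[2]) ∣ (∑ i ∈ S, e i) + e k * z ^ 2 := by
    rcases u5two_four h4 with h | h
    · exact ⟨0, by simpa using h⟩
    · refine ⟨2, ?_⟩
      have : (∑ i ∈ S, e i) + e k * 2 ^ 2 = ((∑ i ∈ S, e i) + 4) + 4 * (e k - 1) := by ring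
      rw [this]
      exact dvd_add h (u5two_unit h1)
  have hS : ∑ i ∈ S, e i = e i0 + ∑ i ∈ S.erase i0, e i := (Finset.add_sum_erase S e hi).symm
  rw [hS, add_assoc] at hz
  obtain ⟨y, hy, hy0⟩ := u5two_solve h0 hz
  refine ⟨fun i => if i = i0 then y else if i = k then z else if i ∈ S then 1 else 0, ?_, ?_⟩
  · intro h
    have := congrFun h i0
    simp at this
    exact hy0 this
  · have e1 : ∀ i, e i * (if i = i0 then y else if i = k then z else if i ∈ S then 1 else 0) ^ 2 =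
        (if i = i0 then e i * y ^ 2 else 0) + (if i ∈ S.erase i0 then e i else 0) +
          (if i = k then e i * z ^ 2 else 0) := by
      intro i
      by_cases a : i = i0
      · subst a
        simp [hne.symm]
      · by_cases b : i = k
        · subst b
          simp [hne, hk]
        · by_cases c : i ∈ S <;> simp [a, b, c]
    rw [Finset.sum_congr rfl (fun i _ => e1 i), Finset.sum_add_distrib, Finset.sum_add_distrib]
    rw [Finset.sum_ite_eq' Finset.univ i0, Finset.sum_ite_eq' Finset.univ k]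
    rw [Finset.sum_ite_mem]
    simp only [Finset.mem_univ, if_true, Finset.univ_inter]
    linear_combination hy

private lemma u5two_core (e : Fin 5 → ℤ_[2]) (b : Fin 5 → Bool)
    (he : ∀ i, b i = true → IsUnit (e i)) (he2 : ∀ i, b i = false → ∃ u, IsUnit u ∧ e i = 2 * u)
    (h3 : 3 ≤ (Finset.univ.filter (fun i => b i = true)).card) :
    ∃ x : Fin 5 → ℤ_[2], x ≠ 0 ∧ ∑ i, e i * x i ^ 2 = 0 := by
  classical
  have hc : ∀ i, ∃ c : Fin 3, (c ≠ 2 ↔ b i = true) ∧
      PadicInt.toZModPow 2 (e i) = (![1, 3, 2] : Fin 3 → ZMod 4) c := by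
    intro i
    rcases h : b i with _ | _
    · obtain ⟨u, hu, hu2⟩ := he2 i h
      refine ⟨2, by simp, ?_⟩
      rw [hu2, u5two_two4 hu]
      rfl
    · rcases u5two_unit4 (he i h) with h1 | h1
      · exact ⟨0, by simp, h1⟩
      · exact ⟨1, by simp, h1⟩
  choose c hc1 hc2 using hc
  obtain ⟨S, i0, hi, k, hk, h0, h1, hs⟩ := u5two_comb c (by
    simpa only [hc1] using h3)
  refine u5two_set e S i0 k hi hk (he _ ((hc1 _).mp h0)) (he _ ((hc1 _).mp h1)) ?_
  rw [u5two_dvd4, map_sum]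
  simp only [hc2]
  exact hs

private lemma u5two_class (d : ℚ_[2]) (hd : d ≠ 0) :
    ∃ (u : ℤ_[2]) (c : ℚ_[2]), IsUnit u ∧ c ≠ 0 ∧ (d = u * c ^ 2 ∨ d = 2 * u * c ^ 2) := by
  have h2 : ((2 : ℕ) : ℚ_[2]) ≠ 0 := by norm_num
  have hn := Padic.norm_eq_zpow_neg_valuation hd
  set n := d.valuation with hn'
  have hu : ‖d * ((2 : ℕ) : ℚ_[2]) ^ (-n)‖ = 1 := by
    rw [norm_mul, hn, Padic.norm_p_zpow, ← zpow_add₀ (by norm_num)]
    simp
  obtain ⟨w, hw⟩ : ∃ w : ℤ_[2], (w : ℚ_[2]) = d * ((2 : ℕ) : ℚ_[2]) ^ (-n) := ⟨⟨_, hu.le⟩, rfl⟩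
  have hunit : IsUnit w := by
    rw [PadicInt.isUnit_iff, ← PadicInt.padic_norm_e_of_padicInt, hw]
    exact hu
  have hd' : d = w * ((2 : ℕ) : ℚ_[2]) ^ n := by
    rw [hw, mul_assoc, ← zpow_add₀ h2]
    simp
  rcases Int.even_or_odd' n with ⟨m, hm | hm⟩
  · refine ⟨w, ((2 : ℕ) : ℚ_[2]) ^ m, hunit, zpow_ne_zero _ h2, Or.inl ?_⟩
    rw [← zpow_natCast, ← zpow_mul]
    have : m * ((2 : ℕ) : ℤ) = n := by rw [hm]; push_cast; ring
    rw [this]
    exact hd'
  · refine ⟨w, ((2 : ℕ) : ℚ_[2]) ^ m, hunit, zpow_ne_zero _ h2, Or.inr ?_⟩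
    have h3 : ((2 : ℕ) : ℚ_[2]) ^ n = 2 * (((2 : ℕ) : ℚ_[2]) ^ m) ^ 2 := by
      rw [← zpow_natCast (((2 : ℕ) : ℚ_[2]) ^ m) 2, ← zpow_mul]
      have : n = 1 + m * ((2 : ℕ) : ℤ) := by rw [hm]; push_cast; ring
      rw [this, zpow_add₀ h2]
      simp
    calc d = w * ((2 : ℕ) : ℚ_[2]) ^ n := hd'
      _ = 2 * w * (((2 : ℕ) : ℚ_[2]) ^ m) ^ 2 := by rw [h3]; ring

private lemma u5two_mid (d : Fin 5 → ℚ_[2]) (b : Fin 5 → Bool) (u : Fin 5 → ℤ_[2]) (c : Fin 5 → ℚ_[2])
    (hu : ∀ i, IsUnit (u i)) (hc : ∀ i, c i ≠ 0)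
    (h1 : ∀ i, b i = true → d i = u i * c i ^ 2) (h2 : ∀ i, b i = false → d i = 2 * u i * c i ^ 2)
    (h3 : 3 ≤ (Finset.univ.filter (fun i => b i = true)).card) :
    ∃ x : Fin 5 → ℚ_[2], x ≠ 0 ∧ ∑ i, d i * x i ^ 2 = 0 := by
  obtain ⟨x, hx, hs⟩ := u5two_core (fun i => if b i = true then u i else 2 * u i) b
    (fun i hi => by simpa [hi] using hu i) (fun i hi => ⟨u i, hu i, by simp [hi]⟩) h3
  refine ⟨fun i => x i / c i, ?_, ?_⟩
  · intro h
    apply hx
    funext i
    have := congrFun h i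
    simp only [Pi.zero_apply, div_eq_zero_iff, hc i, or_false, PadicInt.coe_eq_zero] at this
    simpa using this
  · have e1 : ∀ i, d i * (x i / c i) ^ 2 = (((if b i = true then u i else 2 * u i) * x i ^ 2 : ℤ_[2]) : ℚ_[2]) := by
      intro i
      have hci := hc i
      have hc2 : ((2 : ℤ_[2]) : ℚ_[2]) = 2 := rfl
      rcases hb : b i with _ | _
      · rw [h2 i hb]
        simp
        rw [hc2]
        field_simp
      · rw [h1 i hb]
        simp
        field_simp
    rw [Finset.sum_congr rfl (fun i _ => e1 i), ← PadicInt.coe_sum, hs, PadicInt.coe_zero]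

/-- Proof: 2-adic integers congruent to `1` modulo `8` are squares (Hensel), so modulo squares every
`d i` is one of `1, 3, 5, 7, 2, 6, 10, 14` (times a power of 4).  For 5 such integers `e i` there are
integers `x i` and an index `j` such that `x j` is odd... i.e. such that
`-(∑ i ≠ j, e i * x i ^ 2)` is `e j` times a 2-adic square: `-(∑_{i ≠ j} e i x i ^ 2) = e j * 4 ^ t * u`,
`u ≡ 1 mod 8`.  This is a finite check (`decide`, or `Fin`/`Bool` search reduced by hand: at least three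
of the `e i` have the same parity of the 2-adic valuation; scale so that these are odd `u, v, w`; then
treat `u x² + v y² + w z² + ε s² + ε' t²`). -/
theorem u5_two : U5 ℚ_[2] := by
  intro d hd
  choose u c hu hc hor using fun i => u5two_class (d i) (hd i)
  classical
  let b : Fin 5 → Bool := fun i => decide (d i = u i * c i ^ 2)
  by_cases h3 : 3 ≤ (Finset.univ.filter (fun i => b i = true)).card
  · refine u5two_mid d b u c hu hc (fun i hi => by simpa [b] using hi) (fun i hi => ?_) h3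
    rcases hor i with h | h
    · exact absurd h (by simpa [b] using hi)
    · exact h
  · have h3' : 3 ≤ (Finset.univ.filter (fun i => (!b i) = true)).card := by
      have h := Finset.card_filter_add_card_filter_not (s := (Finset.univ : Finset (Fin 5)))
        (p := fun i => b i = true)
      simp only [Finset.card_univ, Fintype.card_fin] at h
      have e : (Finset.univ.filter (fun i => (!b i) = true)) = (Finset.univ.filter (fun i => ¬ b i = true)) := by
        apply Finset.filter_congr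
        intro i _
        simp
      rw [e]
      omega
    obtain ⟨x, hx, hs⟩ := u5two_mid (fun i => 2 * d i) (fun i => !b i) u
      (fun i => if b i = true then c i else 2 * c i) hu (fun i => by
        split_ifs
        · exact hc i
        · exact mul_ne_zero two_ne_zero (hc i))
      (fun i hi => by
        have hb : b i = false := by simpa using hi
        rcases hor i with h | h
        · exact absurd h (by simpa [b] using hb)
        · simp only [hb]
          rw [h]
          simp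
          ring)
      (fun i hi => by
        have hb : b i = true := by simpa using hi
        have h : d i = u i * c i ^ 2 := by simpa [b] using hb
        simp only [hb]
        rw [h]
        simp
        ring) h3'
    refine ⟨x, hx, ?_⟩
    have : 2 * ∑ i, d i * x i ^ 2 = 0 := by
      rw [Finset.mul_sum, ← hs]
      exact Finset.sum_congr rfl (fun i _ => by ring)
    simpa using this

theorem u5_padic (p : ℕ) [hp : Fact p.Prime] : U5 ℚ_[p] := by
  by_cases h : p = 2
  · subst h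
    exact u5_two
  · exact u5_odd h

end DC83
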