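import Pool.Agent.H.MP_83e36b_nt.dc.LocP
import Pool.Agent.H.MP_83e36b_nt.dc.LocR
import Pool.Agent.H.MP_83e36b_nt.dc.Four
import Pool.Agent.H.MP_83e36b_nt.dc.Pt
import Pool.Agent.H.MP_83e36b_nt.dc.U5Two
import Pool.Agent.H.MP_83e36b_nt.dc.Quad
import Pool.Agent.H.MP_83e36b_nt.sp.CRoot
import Pool.Agent.H.MP_83e36b_nt.sp.PDefs
import Pool.Agent.H.MP_83e36b_nt.sp.PMap

/-! The local points. -/

set_option autoImplicit false

open Matrix Polynomial SpinWA

namespace DC83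

/-- Proof: `cong_of_cls` gives `B`; `det(B)² det(Js) = det (hk a) = det (vandermonde x)²` (`vand_hk`) and
`det Js = (-1)^s = 1`, so `det (vandermonde x) = ± det B`; if the sign is `-1` replace `B` by
`diag(-1, 1, ..., 1) B`, which satisfies the same equation. -/
theorem loc_B {K : Type} [Field K] [CharZero K] {Ω : Type} [Field Ω] [Algebra K Ω] (φ : ℚ →+* K)
    {n s : ℕ} (hn : 1 ≤ n) (hs : Even s) (hsn : s ≤ n) {a : Fin n → K} {x : Fin n → Ω}
    (hx : Function.Injective x)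
    (hax : AnWA.monicPoly (fun i => algebraMap K Ω (a i)) = ∏ i, (X - C (x i)))
    (hc : cls (hk a) = cls ((Js n s).map φ)) :
    ∃ B : Matrix (Fin n) (Fin n) K, Bᵀ * (Js n s).map φ * B = hk a ∧ B.det ≠ 0 ∧
      algebraMap K Ω B.det = (vandermonde x).det := by
  have h2 : (2 : K) ≠ 0 := two_ne_zero
  have hinj : Function.Injective (algebraMap K Ω) := (algebraMap K Ω).injective
  have hV : (vandermonde x).det ≠ 0 := det_vandermonde_ne_zero_iff.2 hx
  have e1 : (hk a).map (algebraMap K Ω) = (vandermonde x)ᵀ * vandermonde x := by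
    rw [hk_map]
    exact (vand_hk x _ hx hax).symm
  have e2 : algebraMap K Ω (hk a).det = (vandermonde x).det ^ 2 := by
    rw [RingHom.map_det, RingHom.mapMatrix_apply, e1, det_mul, det_transpose, sq]
  have hd : (hk a).det ≠ 0 := by
    intro h
    rw [h, map_zero] at e2
    exact hV (pow_eq_zero_iff two_ne_zero |>.1 e2.symm)
  obtain ⟨J, hJ⟩ : ∃ J, J = (Js n s).map φ := ⟨_, rfl⟩
  have hJ1 : ∃ d : Fin n → K, J = diagonal d := by
    refine ⟨fun i => φ (if (i : ℕ) < s then -1 else 1), ?_⟩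
    rw [hJ, Js, Matrix.diagonal_map (map_zero φ)]
  have hJd : J.det = 1 := by
    rw [hJ, ← RingHom.mapMatrix_apply, ← RingHom.map_det, Js_det n s hsn, hs.neg_one_pow, map_one]
  obtain ⟨d, hd'⟩ := hJ1
  have hJt : Jᵀ = J := by rw [hd', diagonal_transpose]
  rw [← hJ] at hc ⊢
  obtain ⟨P, hP, hP'⟩ := cong_of_cls h2 hJt (by rw [hJd]; exact one_ne_zero) (hk_transpose a) hd
    hc.symm
  have e3 : P.det ^ 2 = (hk a).det := by
    rw [← hP', det_mul, det_mul, det_transpose, hJd]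
    ring
  have e4 : (algebraMap K Ω P.det) ^ 2 = (vandermonde x).det ^ 2 := by
    rw [← map_pow, e3, e2]
  rcases sq_eq_sq_iff_eq_or_eq_neg.1 e4 with h | h
  · exact ⟨P, hP', hP, h⟩
  · obtain ⟨D, hD⟩ : ∃ D : Matrix (Fin n) (Fin n) K,
        D = diagonal fun i => if i = (⟨0, hn⟩ : Fin n) then (-1 : K) else 1 := ⟨_, rfl⟩
    have hDd : D.det = -1 := by
      rw [hD, det_diagonal, Finset.prod_ite_eq' Finset.univ (⟨0, hn⟩ : Fin n) fun _ => (-1 : K),
        if_pos (Finset.mem_univ _)]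
    have hDJ : Dᵀ * J * D = J := by
      rw [hD, hd', diagonal_transpose, diagonal_mul_diagonal, diagonal_mul_diagonal]
      congr 1
      funext i
      split_ifs <;> ring
    refine ⟨D * P, ?_, ?_, ?_⟩
    · calc (D * P)ᵀ * J * (D * P) = Pᵀ * (Dᵀ * J * D) * P := by
            rw [transpose_mul]
            simp only [Matrix.mul_assoc]
        _ = hk a := by rw [hDJ, hP']
    · rw [det_mul, hDd]
      simpa using hP
    · rw [det_mul, hDd, neg_one_mul, map_neg, h, neg_neg]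

private theorem locB_real {n : ℕ} (ρ : (AlgebraicClosure ℝ ≃ₐ[ℝ] AlgebraicClosure ℝ) →* dAlt n) :
    ∃ s : ℕ, 4 ∣ s ∧ s ≤ n ∧ ∀ (V : Matrix (Fin n) (Fin n) (AlgebraicClosure ℝ)), V.det ≠ 0 →
      (∀ τ : AlgebraicClosure ℝ ≃ₐ[ℝ] AlgebraicClosure ℝ,
        V.map τ = pM (AlgebraicClosure ℝ) (pi n (ρ τ)) * V) →
      ∀ (H : Matrix (Fin n) (Fin n) ℝ), H.map (algebraMap ℝ (AlgebraicClosure ℝ)) = Vᵀ * V →
      cls H = s • cl (-1 : ℝ) + (n - s) • cl (1 : ℝ) :=
  locR ρ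

/-- Proof: `s` from `locR` for `ρ none` (`Cpl none` is `ℝ` by definition); for every `v` `exists_point` for
`σ = (pi n).comp (ρ v)`, `V = vandermonde x`, `H = hk a` (`vand_hk`, `hk_map` or
`trForm_map`): `locP` with `u5_padic` and `cls_Js_padic` for `v = some p`, `locR` and `cls_Js` for
`v = none`; `loc_B`. -/
theorem loc_all {n : ℕ} (hn : 1 ≤ n) (ρ : ∀ v : Pl, (Om v ≃ₐ[Cpl v] Om v) →* dAlt n)
    (hρ : ∀ v, Cts (ρ v)) : ∃ s : ℕ, 4 ∣ s ∧ s ≤ n ∧ ∀ v : Pl, ∃ (a : Fin n → Cpl v)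
      (x : Fin n → Om v) (B : Matrix (Fin n) (Fin n) (Cpl v)), Function.Injective x ∧
      AnWA.monicPoly (fun i => algebraMap (Cpl v) (Om v) (a i)) = ∏ i, (X - C (x i)) ∧
      (∀ τ i, τ (x i) = x (pi n (ρ v τ) i)) ∧ Bᵀ * (Js n s).map (emb v) * B = hk a ∧
      B.det ≠ 0 ∧ algebraMap (Cpl v) (Om v) B.det = (vandermonde x).det := by
  have hR : ∃ s : ℕ, 4 ∣ s ∧ s ≤ n ∧ ∀ (V : Matrix (Fin n) (Fin n) (Om none)), V.det ≠ 0 →
      (∀ τ : Om none ≃ₐ[Cpl none] Om none, V.map τ = pM (Om none) (pi n (ρ none τ)) * V) →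
      ∀ (H : Matrix (Fin n) (Fin n) (Cpl none)),
      H.map (algebraMap (Cpl none) (Om none)) = Vᵀ * V →
      cls H = s • cl (-1 : Cpl none) + (n - s) • cl (1 : Cpl none) :=
    locB_real (ρ none)
  obtain ⟨s, h4, hsn, hR⟩ := hR
  refine ⟨s, h4, hsn, fun v => ?_⟩
  obtain ⟨a, x, hx, hax, hτ⟩ := exists_point ((hρ v).comp (pi n))
  have hs : Even s := even_iff_two_dvd.2 (dvd_trans (by norm_num) h4)
  have hV : (vandermonde x).det ≠ 0 := det_vandermonde_ne_zero_iff.2 hx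
  have hVτ : ∀ τ : Om v ≃ₐ[Cpl v] Om v,
      (vandermonde x).map τ = pM (Om v) (pi n (ρ v τ)) * vandermonde x := by
    intro τ
    ext i j
    rw [pM_mul_apply, map_apply, vandermonde_apply, vandermonde_apply, map_pow, hτ]
    rfl
  have e1 : (hk a).map (algebraMap (Cpl v) (Om v)) = (vandermonde x)ᵀ * vandermonde x := by
    rw [hk_map]
    exact (vand_hk x _ hx hax).symm
  have hc : cls (hk a) = cls ((Js n s).map (emb v)) := by
    rcases v with _ | p
    · rw [hR (vandermonde x) hV hVτ (hk a) e1, cls_Js two_ne_zero (emb none) hsn]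
    · have hu : U5 (Cpl (some p)) := u5_padic (p : ℕ)
      rw [locP hu (hρ (some p)) hV hVτ e1, cls_Js_padic two_ne_zero hu (emb (some p)) hsn h4]
  obtain ⟨B, hB1, hB2, hB3⟩ := loc_B (emb v) hn hs hsn hx hax hc
  exact ⟨a, x, B, hx, hax, hτ, hB1, hB2, hB3⟩

end DC83
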