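import Pool.Agent.H.MP_83e36b_nt.dc.Kr
import Pool.Agent.H.MP_83e36b_nt.dc.LocB
import Pool.Agent.H.MP_83e36b_nt.sp.XWa

/-! Approximation of the local points. -/

set_option autoImplicit false

open Matrix Polynomial SpinWA Topology

namespace DC83

private theorem Apx_Js_symm (n s : ℕ) : (Js n s)ᵀ = Js n s := by
  unfold Js
  exact diagonal_transpose _

private theorem Apx_Js_det {n s : ℕ} (hsn : s ≤ n) : (Js n s).det ≠ 0 := by
  rw [Js_det n s hsn]
  exact pow_ne_zero _ (by norm_num)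

/-- near `(1, d)` a pair `(t, D)` satisfies `D ≠ - d t` -/
private theorem Apx_box {K : Type} [NontriviallyNormedField K] [CharZero K] {d : K} (hd : d ≠ 0) :
    ∃ U ∈ 𝓝 (1 : K), ∃ W ∈ 𝓝 d, ∀ t ∈ U, ∀ D ∈ W, D + d * t ≠ 0 := by
  have h1 : ContinuousAt (fun q : K × K => q.2 + d * q.1) ((1 : K), d) := by fun_prop
  have h2 : (fun q : K × K => q.2 + d * q.1) ((1 : K), d) ≠ 0 := by
    show d + d * 1 ≠ 0
    have h3 : d + d * 1 = 2 * d := by ring
    rw [h3]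
    exact mul_ne_zero two_ne_zero hd
  have h3 := h1.eventually_ne h2
  rw [Filter.Eventually, mem_nhds_prod_iff] at h3
  obtain ⟨U, hU, W, hW, h4⟩ := h3
  exact ⟨U, hU, W, hW, fun t ht D hD => h4 (Set.mk_mem_prod ht hD)⟩

/-- one place -/
private theorem Apx_loc {K : Type} [NontriviallyNormedField K] [CompleteSpace K] [CharZero K]
    {n : ℕ} (hn : 2 ≤ n) {a : Fin n → K} {B J : Matrix (Fin n) (Fin n) K} (hJ : J.det ≠ 0)
    (hB : Bᵀ * J * B = hk a) (hBd : B.det ≠ 0) {Ω : Type} [Field Ω] [Algebra K Ω]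
    {x : Fin n → Ω}
    (hax : AnWA.monicPoly (fun i => algebraMap K Ω (a i)) = ∏ i, (X - C (x i)))
    (hBx : algebraMap K Ω B.det = (vandermonde x).det) :
    ∃ U ∈ 𝓝 (a, B), ∀ q ∈ U, ∃ A : Matrix (Fin n) (Fin n) K, ∃ y : Fin n → Ω,
      vandermonde y = vandermonde x * A.map (algebraMap K Ω) ∧
      AnWA.monicPoly (fun i => algebraMap K Ω (q.1 i)) = ∏ i, (X - C (y i)) ∧
      (vandermonde y).det ≠ - algebraMap K Ω q.2.det := by
  have hd : (hk a).det ≠ 0 := by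
    rw [← hB, det_mul, det_mul, det_transpose]
    exact mul_ne_zero (mul_ne_zero hBd hJ) hBd
  obtain ⟨U, hU, W, hW, hUW⟩ := Apx_box hBd
  have h1 := kr hn a hd hU
  have hdet : Continuous fun M : Matrix (Fin n) (Fin n) K => M.det :=
    Continuous.matrix_det continuous_id
  have h2 : ∀ᶠ M in 𝓝 B, M.det ∈ W := hdet.continuousAt.eventually hW
  refine ⟨{q | (∃ A : Matrix (Fin n) (Fin n) K, A.det ∈ U ∧ A.det ≠ 0 ∧
      ∀ (Ω : Type) [Field Ω] [Algebra K Ω] (x : Fin n → Ω),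
        AnWA.monicPoly (fun i => algebraMap K Ω (a i)) = ∏ i, (X - C (x i)) →
        ∃ y : Fin n → Ω, vandermonde y = vandermonde x * A.map (algebraMap K Ω) ∧
          AnWA.monicPoly (fun i => algebraMap K Ω (q.1 i)) = ∏ i, (X - C (y i))) ∧
      q.2.det ∈ W}, ?_, ?_⟩
  · rw [nhds_prod_eq]
    exact (h1.prod_inl (𝓝 B)).and (h2.prod_inr (𝓝 a))
  · rintro q ⟨⟨A, hAU, hA0, hA⟩, hqW⟩
    obtain ⟨y, hy1, hy2⟩ := hA Ω x hax
    refine ⟨A, y, hy1, hy2, fun h => ?_⟩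
    have h3 : algebraMap K Ω (q.2.det + B.det * A.det) = 0 := by
      rw [hy1, det_mul, ← hBx] at h
      have h4 : (A.map (algebraMap K Ω)).det = algebraMap K Ω A.det := by
        rw [RingHom.map_det]
        rfl
      rw [h4] at h
      rw [map_add, map_mul, h]
      ring
    exact hUW _ hAU _ hqW ((map_eq_zero (algebraMap K Ω)).1 h3)

/-- the roots `y` are moved as the roots `x` -/
private theorem Apx_act {K : Type} [Field K] {Ω : Type} [Field Ω] [Algebra K Ω] {n : ℕ}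
    (hn : 2 ≤ n) {x y : Fin n → Ω} {A : Matrix (Fin n) (Fin n) K}
    (h : vandermonde y = vandermonde x * A.map (algebraMap K Ω)) (τ : Ω ≃ₐ[K] Ω)
    (σ : Fin n → Fin n) (hτ : ∀ i, τ (x i) = x (σ i)) (i : Fin n) : τ (y i) = y (σ i) := by
  have h1 : ∀ i, y i = ∑ k : Fin n, x i ^ (k : ℕ) * algebraMap K Ω (A k ⟨1, by omega⟩) := by
    intro i
    have h2 := congrFun (congrFun h i) ⟨1, by omega⟩
    rw [vandermonde_apply, mul_apply] at h2
    rw [pow_one] at h2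
    rw [h2]
    exact Finset.sum_congr rfl fun k _ => rfl
  rw [h1 i, h1 (σ i), map_sum]
  refine Finset.sum_congr rfl fun k _ => ?_
  rw [map_mul, map_pow, hτ, AlgEquiv.commutes]

/-- Proof: `x_wa` (`n = 2 m + e`, as in the proof of `dense_XTr` in sp/Final.lean) for `Q = Js n s`, the
local points `(a v, B v)` and neighbourhoods `U v` such that for `(b, B') ∈ U v` there is `A` as in
`kr` with `det B' / (det (B v) * det A) ≠ -1` (near `1`).  With the `y` of `kr` (`x` the given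
roots): `det (vandermonde y) = det (vandermonde x) * det A = det (B v) * det A`; and
`y i = ∑_k x_i^k A_(k,1)` is moved by `τ` as `x i` is (`n ≥ 2`). -/
theorem approx {n s : ℕ} (hn : 4 ≤ n) (hs : 4 ∣ s) (hsn : s ≤ n) (S : Finset Pl)
    (ρ : ∀ v : Pl, (Om v ≃ₐ[Cpl v] Om v) →* dAlt n)
    (a : ∀ v : Pl, Fin n → Cpl v) (x : ∀ v : Pl, Fin n → Om v)
    (B : ∀ v : Pl, Matrix (Fin n) (Fin n) (Cpl v)) (hx : ∀ v, Function.Injective (x v))
    (hax : ∀ v, AnWA.monicPoly (fun i => algebraMap (Cpl v) (Om v) (a v i)) =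
      ∏ i, (X - C (x v i))) (hρ : ∀ v τ i, τ (x v i) = x v (pi n (ρ v τ) i))
    (hB : ∀ v, (B v)ᵀ * (Js n s).map (emb v) * B v = hk (a v)) (hBd : ∀ v, (B v).det ≠ 0)
    (hBx : ∀ v, algebraMap (Cpl v) (Om v) (B v).det = (vandermonde (x v)).det) :
    ∃ (b : Fin n → ℚ) (C' : Matrix (Fin n) (Fin n) ℚ), C'ᵀ * Js n s * C' = hk b ∧ C'.det ≠ 0 ∧
      ∀ v ∈ S, ∃ y : Fin n → Om v,
        AnWA.monicPoly (fun i => algebraMap (Cpl v) (Om v) (emb v (b i))) =
          ∏ i, (X - C (y i)) ∧ (∀ τ i, τ (y i) = y (pi n (ρ v τ) i)) ∧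
        (vandermonde y).det ≠ - algebraMap (Cpl v) (Om v) (emb v C'.det) := by
  obtain ⟨m, e, he, hm, rfl⟩ : ∃ m e : ℕ, e ≤ 1 ∧ 2 ≤ m ∧ n = 2 * m + e :=
    ⟨n / 2, n % 2, by omega, by omega, by omega⟩
  have hJ : ∀ v : Pl, ((Js (2 * m + e) s).map (emb v)).det ≠ 0 := by
    intro v
    have h1 : ((Js (2 * m + e) s).map (emb v)).det = emb v (Js (2 * m + e) s).det := by
      rw [RingHom.map_det]
      rfl
    rw [h1]
    exact (map_ne_zero (emb v)).2 (Apx_Js_det hsn)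
  have hloc := fun v : Pl => Apx_loc (K := Cpl v) (Ω := Om v) (by omega) (hJ v) (hB v) (hBd v)
    (hax v) (hBx v)
  choose U hU hUp using hloc
  obtain ⟨b, C', h1, h2, h3⟩ := x_wa he hm (Apx_Js_symm _ s) (Apx_Js_det hsn) S
    (fun v => (a v, B v)) (fun v => ⟨hB v, hBd v⟩) U (fun v _ => hU v)
  refine ⟨b, C', h1, h2, fun v hv => ?_⟩
  obtain ⟨A, y, hy1, hy2, hy3⟩ := hUp v _ (h3 v hv)
  refine ⟨y, hy2, fun τ i => Apx_act (by omega) hy1 τ (pi _ (ρ v τ)) (hρ v τ) i, ?_⟩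
  have h4 : (C'.map (emb v)).det = emb v C'.det := by
    rw [RingHom.map_det]
    rfl
  rw [← h4]
  exact hy3

end DC83
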