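import Pool.Agent.H.MP_83e36b_nt.dc.Gal

/-! Restriction to decomposition groups. -/

set_option autoImplicit false

namespace DC83

universe u v w x

/-- a finite set of elements of a finite extension such that the automorphisms which fix them are trivial on
the extension -/
private theorem Res_aux {F : Type u} [Field F] {E : Type v} [Field E] [Algebra F E]
    (L : IntermediateField F E) (hL : FiniteDimensional F L) :
    ∃ (n : ℕ) (y : Fin n → E), ∀ σ : E ≃ₐ[F] E, (∀ i, σ (y i) = y i) → ∀ z ∈ L, σ z = z := by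
  let b := Module.finBasis F L
  refine ⟨_, fun i => (b i : E), fun σ h z hz => ?_⟩
  have h2 : ((σ : E →ₐ[F] E).toLinearMap.comp L.val.toLinearMap) = L.val.toLinearMap :=
    b.ext fun i => h i
  exact LinearMap.congr_fun h2 ⟨z, hz⟩

section
variable {K : Type u} [Field K] {Ω : Type v} [Field Ω] [Algebra K Ω] {Ω₀ : Type w} [Field Ω₀]
  [Algebra ℚ Ω₀]

/-- Proof: `ι` identifies `Ω₀` with the algebraic closure of `ℚ` in `Ω`, which is stable under `τ`
(`AlgEquiv.restrictNormalHom`, with the algebra structures given by `ι`, or directly: the range of `ι`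
is the set of the elements algebraic over `ℚ` as `Ω₀` is algebraically closed). -/
theorem exists_res [IsAlgClosed Ω₀] [Algebra.IsAlgebraic ℚ Ω₀] (ι : Ω₀ →+* Ω) :
    ∃ r : (Ω ≃ₐ[K] Ω) →* (Ω₀ ≃ₐ[ℚ] Ω₀), ∀ τ x, ι (r τ x) = τ (ι x) := by
  letI : Algebra Ω₀ Ω := ι.toAlgebra
  letI : Algebra ℚ Ω := (ι.comp (algebraMap ℚ Ω₀)).toAlgebra
  haveI : IsScalarTower ℚ Ω₀ Ω := IsScalarTower.of_algebraMap_eq' rfl
  haveI : IsAlgClosure ℚ Ω₀ := ⟨inferInstance, inferInstance⟩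
  haveI : Normal ℚ Ω₀ := IsAlgClosure.normal ℚ Ω₀
  let f : (Ω ≃ₐ[K] Ω) →* (Ω ≃ₐ[ℚ] Ω) :=
    { toFun := fun τ => AlgEquiv.ofRingEquiv (f := τ.toRingEquiv) fun q => by
        have h : (τ.toRingEquiv.toRingHom.comp (algebraMap ℚ Ω)) = algebraMap ℚ Ω :=
          Subsingleton.elim _ _
        exact RingHom.congr_fun h q
      map_one' := by
        ext x
        rfl
      map_mul' := fun σ τ => by
        ext x
        rfl }
  refine ⟨(AlgEquiv.restrictNormalHom Ω₀).comp f, fun τ x => ?_⟩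
  exact AlgEquiv.restrictNormal_commutes (f τ) Ω₀ x

/-- Proof: if `ρ` is trivial on the automorphisms fixing `L = ℚ(x_1, ..., x_k)`, then `ρ ∘ r` is
trivial on the automorphisms fixing `K(ι x_1, ..., ι x_k)`. -/
theorem Cts.res [CharZero K] [Algebra.IsAlgebraic K Ω] [Algebra.IsAlgebraic ℚ Ω₀] (ι : Ω₀ →+* Ω)
    {r : (Ω ≃ₐ[K] Ω) →* (Ω₀ ≃ₐ[ℚ] Ω₀)} (hr : ∀ τ x, ι (r τ x) = τ (ι x)) {G : Type x} [Group G]
    {ρ : (Ω₀ ≃ₐ[ℚ] Ω₀) →* G} (hρ : Cts ρ) : Cts (ρ.comp r) := by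
  obtain ⟨L, hL, h⟩ := hρ
  obtain ⟨n, y, hy⟩ := Res_aux L hL
  refine Cts.of_fix _ (fun i => ι (y i)) fun τ hτ => ?_
  exact h (r τ) (hy (r τ) fun i => ι.injective ((hr τ _).trans (hτ i)))

end

end DC83
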