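import Mathlib

/-! Matrices of the Clifford algebra of `x_1² + ... + x_n²` and the double cover `2.A_n`. -/

set_option autoImplicit false

namespace DC83

/-- the basis `e_A = e_{i_1} ⋯ e_{i_k}` (`i_1 < ... < i_k` the elements of `A`) of the Clifford algebra
of `x_1² + ... + x_n²`, `A` a subset of `Fin n`, given by its characteristic function -/
abbrev Ix (n : ℕ) : Type := Fin n → ZMod 2

/-- the sign of `e_i e_A = ± e_{A Δ {i}}`: `-1` to the number of the elements `< i` of `A` -/
def sg {n : ℕ} (i : Fin n) (A : Ix n) : ℤ :=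
  ∏ j ∈ Finset.univ.filter (fun j => j < i), if A j = 0 then 1 else -1

/-- the matrix of the left multiplication by the generator `e_i` of the Clifford algebra of
`x_1² + ... + x_n²` in the basis `e_A`; `e_i² = 1`, `e_i e_j = - e_j e_i` -/
def cE (R : Type*) [CommRing R] (n : ℕ) (i : Fin n) : Matrix (Ix n) (Ix n) R :=
  Matrix.of fun B A => if B = A + Pi.single i 1 then ((sg i A : ℤ) : R) else 0

/-- the double cover `2.A_n` of the alternating group: the group generated by the elements
`(1/2) (e_i - e_j) (e_k - e_l)`, `i ≠ j`, `k ≠ l`, of the Clifford algebra of `x_1² + ... + x_n²`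
over `ℚ` -/
def dAlt (n : ℕ) : Subgroup (Matrix (Ix n) (Ix n) ℚ)ˣ :=
  Subgroup.closure {x | ∃ i j k l : Fin n, i ≠ j ∧ k ≠ l ∧
    (x : Matrix (Ix n) (Ix n) ℚ) = (1 / 2 : ℚ) • ((cE ℚ n i - cE ℚ n j) * (cE ℚ n k - cE ℚ n l))}

end DC83
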