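import Pool.Agent.H.MP_83e36b_nt.dc.Quad

/-! The Grunwald problem. -/

set_option autoImplicit false

open SpinWA

namespace DC83

/-- the Grunwald problem for the finite group `G` over `ℚ` is solvable for all finite sets of places:
homomorphisms `ρ v` of the absolute Galois groups of the completions at the places of `S` are, up to
conjugation, the restrictions of a homomorphism of the absolute Galois group of `ℚ` -/
def Grunwald (G : Type) [Group G] : Prop :=
  ∀ (S : Finset Pl) (ι : ∀ v : Pl, Qb →+* Om v) (ρ : ∀ v : Pl, (Om v ≃ₐ[Cpl v] Om v) →* G),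
    (∀ v, Cts (ρ v)) → ∃ ρ₀ : (Qb ≃ₐ[ℚ] Qb) →* G, Cts ρ₀ ∧ ∀ v ∈ S, ∃ g : G, ∀ τ τ₀,
      (∀ x, ι v (τ₀ x) = τ (ι v x)) → ρ₀ τ₀ = g * ρ v τ * g⁻¹

end DC83
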