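import Pool.Agent.H.MP_83e36b_nt.dc.Perm
import Pool.Agent.H.MP_83e36b_nt.dc.Orth
import Pool.Agent.H.MP_83e36b_nt.dc.Gal
import Pool.Agent.H.MP_83e36b_nt.dc.Four

/-! The lifting of a Galois representation with values in `A_n` to `2.A_n`. -/

set_option autoImplicit false

open Matrix SpinWA

namespace DC83

private theorem Glob_hh {n : ℕ} (i : Fin n) :
    hh (Pi.single i (1 : ℚ)) = diagonal fun j => if j = i then -1 else 1 := by
  ext a b
  unfold hh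
  rw [Matrix.sub_apply, Matrix.smul_apply, vecMulVec_apply, diagonal_apply, Matrix.one_apply,
    Pi.single_apply, Pi.single_apply]
  by_cases h : a = b
  · subst h
    by_cases h' : a = i
    · simp [h']
      norm_num
    · simp [h']
  · by_cases h' : a = i
    · subst h'
      simp [h, Ne.symm h]
    · simp [h, h']

private theorem Glob_list {n : ℕ} (l : List (Fin n)) (hl : l.Nodup) :
    (l.map fun i => hh (Pi.single i (1 : ℚ))).prod =
      diagonal fun j => if j ∈ l then -1 else 1 := by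
  induction l with
  | nil =>
    rw [List.map_nil, List.prod_nil, ← diagonal_one]
    simp
  | cons a t ih =>
    rw [List.nodup_cons] at hl
    rw [List.map_cons, List.prod_cons, ih hl.2, Glob_hh, diagonal_mul_diagonal]
    congr 1
    funext j
    by_cases h1 : j = a
    · subst h1
      simp [hl.1]
    · simp [h1]

/-- The diagonal element.  Proof: `orth_prod` for the list of the first `s` unit vectors, `k = s / 2`
even. -/
theorem exists_omega {Ω : Type*} [Field Ω] [CharZero Ω] {n s : ℕ} (hs : 4 ∣ s) (hsn : s ≤ n) :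
    ∃ w : Matrix (Ix n) (Ix n) ℚ, w * w = 1 ∧
      Spn (w.map (Rat.castHom Ω)) ((Js n s).map (Rat.castHom Ω)) := by
  obtain ⟨q, hq⟩ := hs
  obtain ⟨l0, hl0⟩ : ∃ l0, l0 = (List.finRange s).map (Fin.castLE hsn) := ⟨_, rfl⟩
  have hnd : l0.Nodup := by
    rw [hl0]
    exact (List.nodup_finRange s).map (Fin.castLE_injective hsn)
  have hlen : l0.length = s := by
    rw [hl0, List.length_map, List.length_finRange]
  have hmem : ∀ j : Fin n, j ∈ l0 ↔ (j : ℕ) < s := by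
    intro j
    rw [hl0, List.mem_map]
    constructor
    · rintro ⟨a, _, rfl⟩
      exact a.2
    · intro hj
      exact ⟨⟨j, hj⟩, List.mem_finRange _, Fin.ext rfl⟩
  obtain ⟨h1, h2⟩ := orth_prod (2 * q) (l0.map fun i => Pi.single i (1 : ℚ))
    (by rw [List.length_map, hlen, hq]; ring)
    (fun v hv => by
      rw [List.mem_map] at hv
      obtain ⟨i, _, rfl⟩ := hv
      rw [single_dotProduct, Pi.single_eq_same, mul_one])
    (by
      rw [List.pairwise_map]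
      refine List.Pairwise.imp ?_ hnd
      intro a b hab
      rw [single_dotProduct, Pi.single_eq_of_ne hab, mul_zero])
  have h3 : ((l0.map fun i => Pi.single i (1 : ℚ)).map hh).prod = Js n s := by
    rw [List.map_map]
    have h4 := Glob_list l0 hnd
    rw [Function.comp_def, h4]
    unfold Js
    congr 1
    funext j
    simp only [hmem]
  rw [h3] at h1
  refine ⟨_, ?_, h1.map (Rat.castHom Ω)⟩
  rw [h2, pow_mul]
  norm_num

section
variable {Ω : Type} [Field Ω] [CharZero Ω] [Algebra ℚ Ω]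

omit [CharZero Ω] in
private theorem Glob_mul {m : Type*} [Fintype m] (τ : Ω ≃ₐ[ℚ] Ω) (A B : Matrix m m Ω) :
    (A * B).map τ = A.map τ * B.map τ :=
  Matrix.map_mul (f := (τ : Ω →+* Ω))

private theorem Glob_rat {m : Type*} (τ : Ω ≃ₐ[ℚ] Ω) (A : Matrix m m ℚ) :
    (A.map (Rat.castHom Ω)).map τ = A.map (Rat.castHom Ω) := by
  ext i j
  simp only [Matrix.map_apply, eq_ratCast, map_ratCast]

private theorem Glob_sign {n : ℕ} (hn : 2 ≤ n) {a : Ω} (ha : a * a = 1) :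
    ∃ r : Fin n → ℚ, (∀ i, r i * r i = 1) ∧ (diagonal fun i => (Rat.castHom Ω) (r i)).det = a := by
  rcases mul_self_eq_one_iff.1 ha with h | h
  · refine ⟨fun _ => 1, fun _ => one_mul 1, ?_⟩
    rw [det_diagonal, h]
    simp
  · refine ⟨fun i => if i = ⟨0, by omega⟩ then -1 else 1, fun i => ?_, ?_⟩
    · by_cases hi : i = ⟨0, by omega⟩
      · simp only [if_pos hi]
        norm_num
      · simp only [if_neg hi]
        norm_num
    · rw [det_diagonal, h]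
      have e : ∀ i : Fin n, (Rat.castHom Ω) (if i = ⟨0, by omega⟩ then -1 else 1) =
          if i = ⟨0, by omega⟩ then -1 else 1 := by
        intro i
        split_ifs <;> simp
      rw [Finset.prod_congr rfl fun i _ => e i, Finset.prod_ite_eq']
      simp

end

/-- Proof: let `i₀ ∈ Ω`, `i₀² = -1`, `J = diag(i₀, ..., i₀, 1, ..., 1)` (`s` entries `i₀`), so
`Jᵀ J = Js`, and `M = V B⁻¹ J⁻¹`: `Mᵀ M = 1`, so `det M = ± 1`; multiply `M` on the right by the rational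
matrix `diag(1, ..., 1, -1)` (or `diag(-1, 1, ...)`) if necessary: `M₁ = M R`, `det M₁ = 1`,
`R² = 1`, `R` diagonal rational.  For `τ` let `D_τ = J τ(J)⁻¹ = 1` if `τ i₀ = i₀`, `= Js` if
`τ i₀ = -i₀` (`Js` diagonal with the entries `-1`, `1`).  Then `τ(M₁) = pM (σ τ) M₁ D_τ` (diagonal
matrices commute).  Let `x` with `Spn x M₁` (`Spn.exists`) and `w` from `exists_omega`, `w_τ = 1` or `w`
accordingly.  Put `g_τ = x w_τ τ(x)⁻¹ = x w_τ (τ x)ᵀ`: `Spn g_τ (M₁ D_τ τ(M₁)ᵀ)` and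
`M₁ D_τ τ(M₁)ᵀ = (pM (σ τ))ᵀ = pM (σ τ)⁻¹`.  By `exists_of_spn` there is a unique `ρ τ ∈ dAlt n` with
`pi n (ρ τ) = σ τ` whose image is `g_τ`.  It is multiplicative: `g_τ` is rational, so fixed by all
automorphisms, and `g_τ g_τ' = g_τ τ(g_τ') = x w_τ τ(x)⁻¹ τ(x) w_τ' (ττ'(x))⁻¹ = g_(ττ')` (the elements
`w_τ` are rational and `w_τ w_τ' = w_(ττ')`).  Continuity: `Cts.of_fix` for the entries of `x` and
`i₀`. -/
theorem glob {n s : ℕ} (hn : 2 ≤ n) (hs : 4 ∣ s) (hsn : s ≤ n) {Ω : Type} [Field Ω] [CharZero Ω]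
    [Algebra ℚ Ω] [IsAlgClosed Ω] [Algebra.IsAlgebraic ℚ Ω] {V : Matrix (Fin n) (Fin n) Ω}
    (hV : V.det ≠ 0) (σ : (Ω ≃ₐ[ℚ] Ω) →* Equiv.Perm (Fin n))
    (hτ : ∀ τ : Ω ≃ₐ[ℚ] Ω, V.map τ = pM Ω (σ τ) * V) {B : Matrix (Fin n) (Fin n) ℚ}
    (h : (B.map (algebraMap ℚ Ω))ᵀ * (Js n s).map (algebraMap ℚ Ω) * B.map (algebraMap ℚ Ω) =
      Vᵀ * V) :
    ∃ ρ : (Ω ≃ₐ[ℚ] Ω) →* dAlt n, Cts ρ ∧ ∀ τ, pi n (ρ τ) = σ τ := by
  classical
  have hcr : algebraMap ℚ Ω = Rat.castHom Ω := Subsingleton.elim _ _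
  rw [hcr] at h
  obtain ⟨c, hc⟩ : ∃ c : ℚ →+* Ω, c = Rat.castHom Ω := ⟨_, rfl⟩
  have hcm : ∀ (τ : Ω ≃ₐ[ℚ] Ω) {m : Type} (A : Matrix m m ℚ), (A.map c).map τ = A.map c := by
    intro τ m A
    rw [hc]
    exact Glob_rat τ A
  rw [← hc] at h
  obtain ⟨i₀, hi⟩ := IsAlgClosed.exists_pow_nat_eq (-1 : Ω) (n := 2) two_pos
  have hi1 : i₀ * i₀ = -1 := by rw [← pow_two, hi]
  have hi0 : i₀ ≠ 0 := by
    rintro rfl
    rw [mul_zero] at hi1
    exact one_ne_zero (neg_eq_zero.1 hi1.symm)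
  have hne : -i₀ ≠ i₀ := fun h0 => hi0 (CharZero.neg_eq_self_iff.1 h0)
  have hflip : ∀ τ : Ω ≃ₐ[ℚ] Ω, τ i₀ = i₀ ∨ τ i₀ = -i₀ := by
    intro τ
    have h1 : τ i₀ * τ i₀ = i₀ * i₀ := by rw [← map_mul, hi1, map_neg, map_one]
    exact mul_self_eq_mul_self_iff.1 h1
  -- the matrices J, J'
  obtain ⟨J, hJ⟩ : ∃ J : Matrix (Fin n) (Fin n) Ω,
    J = diagonal fun i : Fin n => if (i : ℕ) < s then i₀ else 1 := ⟨_, rfl⟩
  obtain ⟨J', hJ'⟩ : ∃ J' : Matrix (Fin n) (Fin n) Ω,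
    J' = diagonal fun i : Fin n => if (i : ℕ) < s then -i₀ else 1 := ⟨_, rfl⟩
  have hJs : (Js n s).map c = diagonal fun i : Fin n => if (i : ℕ) < s then (-1 : Ω) else 1 := by
    unfold Js
    rw [diagonal_map (map_zero c)]
    congr 1
    funext i
    split_ifs <;> simp
  have hJJ : J * J = (Js n s).map c := by
    rw [hJs, hJ, diagonal_mul_diagonal]
    congr 1
    funext i
    split_ifs
    · exact hi1
    · exact mul_one 1
  have hJ1 : J * J' = 1 := by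
    rw [hJ, hJ', diagonal_mul_diagonal, ← diagonal_one]
    congr 1
    funext i
    split_ifs
    · rw [mul_neg, hi1, neg_neg]
    · exact mul_one 1
  have hJ2 : J' * J = 1 := mul_eq_one_comm.1 hJ1
  have hJt : J'ᵀ = J' := by rw [hJ', diagonal_transpose]
  -- the inverse of B
  have hBdet : B.det ≠ 0 := by
    intro h0
    have h1 : (B.map c).det = 0 := by
      have h2 := RingHom.map_det c B
      rw [h0, map_zero] at h2
      exact h2.symm
    have h3 := congrArg Matrix.det h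
    rw [det_mul, det_mul, h1, mul_zero, det_mul, det_transpose] at h3
    exact mul_ne_zero hV hV h3.symm
  obtain ⟨Bm, hBm⟩ : ∃ Bm, Bm = B.map c := ⟨_, rfl⟩
  obtain ⟨Bi, hBi⟩ : ∃ Bi, Bi = (B⁻¹).map c := ⟨_, rfl⟩
  have hBB : Bm * Bi = 1 := by
    rw [hBm, hBi, ← Matrix.map_mul, Matrix.mul_nonsing_inv B (isUnit_iff_ne_zero.2 hBdet),
      Matrix.map_one _ (map_zero c) (map_one c)]
  have hBBt : Biᵀ * Bmᵀ = 1 := by rw [← transpose_mul, hBB, transpose_one]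
  rw [← hBm, ← hJJ] at h
  obtain ⟨M, hM⟩ : ∃ M, M = V * Bi * J' := ⟨_, rfl⟩
  have hMM : Mᵀ * M = 1 := by
    rw [hM, transpose_mul, transpose_mul, hJt]
    calc J' * (Biᵀ * Vᵀ) * (V * Bi * J') = J' * Biᵀ * (Vᵀ * V) * Bi * J' := by
          simp only [Matrix.mul_assoc]
      _ = J' * (Biᵀ * Bmᵀ) * J * (J * (Bm * Bi) * J') := by
          rw [← h]
          simp only [Matrix.mul_assoc]
      _ = 1 := by rw [hBBt, hBB, Matrix.mul_one, Matrix.mul_one, hJ1, hJ2, Matrix.mul_one]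
  have hMdet : M.det * M.det = 1 := by
    have h1 := congrArg Matrix.det hMM
    rw [det_mul, det_transpose, det_one] at h1
    exact h1
  obtain ⟨r, hr1, hr2⟩ := Glob_sign hn hMdet
  obtain ⟨R, hR⟩ : ∃ R : Matrix (Fin n) (Fin n) Ω, R = diagonal fun i => c (r i) := ⟨_, rfl⟩
  have hRdet : R.det = M.det := by rw [hR, hc, hr2]
  have hRt : Rᵀ = R := by rw [hR, diagonal_transpose]
  have hRR : R * R = 1 := by
    rw [hR, diagonal_mul_diagonal, ← diagonal_one]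
    congr 1
    funext i
    rw [← map_mul, hr1, map_one]
  have hRτ : ∀ τ : Ω ≃ₐ[ℚ] Ω, R.map τ = R := by
    intro τ
    have h1 : R = (diagonal r).map c := by
      rw [hR, diagonal_map (map_zero c)]
    rw [h1, hcm]
  obtain ⟨M₁, hM₁⟩ : ∃ M₁, M₁ = M * R := ⟨_, rfl⟩
  have hMM₁ : M₁ᵀ * M₁ = 1 := by
    rw [hM₁, transpose_mul, hRt]
    calc R * Mᵀ * (M * R) = R * (Mᵀ * M) * R := by simp only [Matrix.mul_assoc]
      _ = 1 := by rw [hMM, Matrix.mul_one, hRR]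
  have hdet₁ : M₁.det = 1 := by rw [hM₁, det_mul, hRdet, hMdet]
  obtain ⟨x, hx⟩ := Spn.exists hMM₁ hdet₁
  obtain ⟨w, hw1, hw2⟩ := exists_omega (Ω := Ω) hs hsn
  rw [← hc] at hw2
  have hx1 := hx.mul_transpose
  -- the cocycle of J
  obtain ⟨d, hd⟩ : ∃ d : (Ω ≃ₐ[ℚ] Ω) → Matrix (Fin n) (Fin n) Ω, d = fun τ =>
    if τ i₀ = i₀ then 1 else (Js n s).map c := ⟨_, rfl⟩
  obtain ⟨u, hu⟩ : ∃ u : (Ω ≃ₐ[ℚ] Ω) → Matrix (Ix n) (Ix n) ℚ, u = fun τ =>
    if τ i₀ = i₀ then 1 else w := ⟨_, rfl⟩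
  have hd1 : ∀ τ, τ i₀ = i₀ → d τ = 1 := fun τ h1 => by rw [hd]; exact if_pos h1
  have hd2 : ∀ τ, τ i₀ = -i₀ → d τ = (Js n s).map c := fun τ h1 => by
    rw [hd]
    exact if_neg (by rw [h1]; exact hne)
  have hu1 : ∀ τ, τ i₀ = i₀ → u τ = 1 := fun τ h1 => by rw [hu]; exact if_pos h1
  have hu2 : ∀ τ, τ i₀ = -i₀ → u τ = w := fun τ h1 => by
    rw [hu]
    exact if_neg (by rw [h1]; exact hne)
  have hud : ∀ τ, Spn ((u τ).map c) (d τ) := by
    intro τ
    rcases hflip τ with h1 | h1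
    · rw [hd1 τ h1, hu1 τ h1, Matrix.map_one _ (map_zero c) (map_one c)]
      exact Spn.one
    · rw [hd2 τ h1, hu2 τ h1]
      exact hw2
  have hdd : ∀ τ, d τ * d τ = 1 := by
    intro τ
    rcases hflip τ with h1 | h1
    · rw [hd1 τ h1, Matrix.one_mul]
    · rw [hd2 τ h1, hJs, diagonal_mul_diagonal, ← diagonal_one]
      congr 1
      funext i
      split_ifs <;> norm_num
  have hdt : ∀ τ, (d τ)ᵀ = d τ := by
    intro τ
    rcases hflip τ with h1 | h1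
    · rw [hd1 τ h1, transpose_one]
    · rw [hd2 τ h1, hJs, diagonal_transpose]
  have hdR : ∀ τ, d τ * R = R * d τ := by
    intro τ
    rcases hflip τ with h1 | h1
    · rw [hd1 τ h1, Matrix.one_mul, Matrix.mul_one]
    · rw [hd2 τ h1, hJs, hR, diagonal_mul_diagonal, diagonal_mul_diagonal]
      congr 1
      funext i
      exact mul_comm _ _
  have hJτ : ∀ τ : Ω ≃ₐ[ℚ] Ω, J'.map τ = J' * d τ := by
    intro τ
    rcases hflip τ with h1 | h1
    · rw [hd1 τ h1, Matrix.mul_one, hJ', diagonal_map (map_zero τ)]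
      congr 1
      funext i
      split_ifs
      · rw [map_neg, h1]
      · exact map_one τ
    · rw [hd2 τ h1, hJs, hJ', diagonal_map (map_zero τ), diagonal_mul_diagonal]
      congr 1
      funext i
      split_ifs
      · rw [map_neg, h1, neg_mul_neg, mul_one, neg_neg]
      · rw [map_one, mul_one]
  have hMτ : ∀ τ : Ω ≃ₐ[ℚ] Ω, M₁.map τ = pM Ω (σ τ) * M₁ * d τ := by
    intro τ
    rw [hM₁, hM, Glob_mul, Glob_mul, Glob_mul, hτ, hJτ, hRτ, hBi, hcm]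
    simp only [Matrix.mul_assoc]
    rw [hdR]
  obtain ⟨g, hg⟩ : ∃ g : (Ω ≃ₐ[ℚ] Ω) → Matrix (Ix n) (Ix n) Ω, g = fun τ =>
    x * (u τ).map c * (x.map τ)ᵀ := ⟨_, rfl⟩
  have hgs : ∀ τ, Spn (g τ) (pM Ω (σ τ)⁻¹) := by
    intro τ
    have h1 := (hx.mul' (hud τ)).mul' ((hx.map (τ : Ω →+* Ω)).transpose)
    have h2 : M₁ * d τ * (M₁.map (τ : Ω →+* Ω))ᵀ = pM Ω (σ τ)⁻¹ := by
      have h3 : M₁.map (τ : Ω →+* Ω) = pM Ω (σ τ) * M₁ * d τ := hMτ τ
      rw [h3, transpose_mul, transpose_mul, hdt, pM_transpose]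
      calc M₁ * d τ * (d τ * (M₁ᵀ * pM Ω (σ τ)⁻¹))
          = M₁ * (d τ * d τ) * M₁ᵀ * pM Ω (σ τ)⁻¹ := by simp only [Matrix.mul_assoc]
        _ = pM Ω (σ τ)⁻¹ := by
            rw [hdd, Matrix.mul_one, mul_eq_one_comm.1 hMM₁, Matrix.one_mul]
    rw [h2] at h1
    rw [hg]
    exact h1
  have hex := fun τ => exists_of_spn hn (hgs τ)
  rw [← hc] at hex
  choose ρ hρ1 hρ2 using hex
  have hinj : ∀ a b : dAlt n, (a.1 : Matrix (Ix n) (Ix n) ℚ).map c =
      (b.1 : Matrix (Ix n) (Ix n) ℚ).map c → a = b := fun a b hab =>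
    Subtype.ext (Units.ext (Matrix.map_injective c.injective hab))
  have hxτ : ∀ τ : Ω ≃ₐ[ℚ] Ω, (x.map τ)ᵀ * x.map τ = 1 := by
    intro τ
    have h1 : (x.map τ)ᵀ = xᵀ.map τ := rfl
    rw [h1, ← Glob_mul, hx1.2.1, Matrix.map_one _ (map_zero τ) (map_one τ)]
  have huu : ∀ τ τ' : Ω ≃ₐ[ℚ] Ω, u τ * u τ' = u (τ * τ') := by
    intro τ τ'
    have e : (τ * τ') i₀ = τ (τ' i₀) := rfl
    rcases hflip τ with h1 | h1
    · rcases hflip τ' with h2 | h2
      · rw [hu1 τ h1, hu1 τ' h2, hu1 _ (by rw [e, h2, h1]), Matrix.one_mul]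
      · rw [hu1 τ h1, hu2 τ' h2, hu2 _ (by rw [e, h2, map_neg, h1]), Matrix.one_mul]
    · rcases hflip τ' with h2 | h2
      · rw [hu2 τ h1, hu1 τ' h2, hu2 _ (by rw [e, h2, h1]), Matrix.mul_one]
      · rw [hu2 τ h1, hu2 τ' h2, hu1 _ (by rw [e, h2, map_neg, h1, neg_neg]), hw1]
  have hgg : ∀ τ τ' : Ω ≃ₐ[ℚ] Ω, g (τ * τ') = g τ * g τ' := by
    intro τ τ'
    have e1 : (g τ').map τ = g τ' := by rw [← hρ2, hcm]
    have e2 : (g τ').map τ = x.map τ * (u τ').map c * (x.map (τ * τ'))ᵀ := by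
      rw [hg]
      simp only []
      rw [Glob_mul, Glob_mul, hcm]
      rfl
    rw [← e1, e2, hg]
    show x * (u (τ * τ')).map c * (x.map (τ * τ'))ᵀ =
      x * (u τ).map c * (x.map τ)ᵀ * (x.map τ * (u τ').map c * (x.map (τ * τ'))ᵀ)
    rw [← huu, Matrix.map_mul]
    calc x * ((u τ).map c * (u τ').map c) * (x.map (τ * τ'))ᵀ
        = x * (u τ).map c * 1 * (u τ').map c * (x.map (τ * τ'))ᵀ := by
          simp only [Matrix.mul_assoc, Matrix.mul_one, Matrix.one_mul]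
      _ = x * (u τ).map c * (x.map τ)ᵀ * (x.map τ * (u τ').map c * (x.map (τ * τ'))ᵀ) := by
          rw [← hxτ τ]
          simp only [Matrix.mul_assoc]
  refine ⟨MonoidHom.mk' ρ fun τ τ' => hinj _ _ ?_, ?_, hρ1⟩
  · rw [hρ2, hgg, ← hρ2, ← hρ2, ← Matrix.map_mul, Subgroup.coe_mul, Units.val_mul]
  · refine Cts.of_fix _ (ι := (Ix n × Ix n) ⊕ Unit)
      (Sum.elim (fun p => x p.1 p.2) fun _ => i₀) fun τ hfix => ?_
    have h1 : τ i₀ = i₀ := hfix (Sum.inr ())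
    have h2 : x.map τ = x := by
      ext a b
      exact hfix (Sum.inl (a, b))
    apply hinj
    show (((ρ τ).1 : (Matrix (Ix n) (Ix n) ℚ)ˣ) : Matrix (Ix n) (Ix n) ℚ).map c = _
    rw [hρ2, hg]
    simp only []
    rw [hu1 τ h1, h2, Matrix.map_one _ (map_zero c) (map_one c), Matrix.mul_one, hx1.1,
      Subgroup.coe_one, Units.val_one, Matrix.map_one _ (map_zero c) (map_one c)]

end DC83
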