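import Pool.Agent.H.MP_83e36b_nt.dc.TrG
import Pool.Agent.H.MP_83e36b_nt.dc.Grun
import Pool.Agent.H.MP_83e36b_nt.nr.Galois

/-! Weak approximation for the quotients by the double covers of the alternating groups. -/

set_option autoImplicit false

open Matrix Polynomial SpinWA Topology

namespace DC83

open CM83 NR83 WA83

universe u v

attribute [local instance 2000] OreLocalization.instAlgebra IntermediateField.algebra' Algebra.id

/-- The local points as a family over all places. -/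
private noncomputable def Fin_glue {m : ℕ} {f g : (MvPolynomial (Fin m) ℚ)[X]}
    (xr : Pts f g (algebraMap ℚ ℝ)) (xp : ∀ q : Nat.Primes, Pts f g (algebraMap ℚ ℚ_[(q : ℕ)])) :
    ∀ v : Pl, Pts f g (emb v)
  | none => xr
  | some q => xp q

/-- Density in the product over all places.  Proof: as `dense_XTr` in sp/Final.lean, with
`transfer`. -/
theorem transfer_dense {G : Type} [Group G] [Finite G] (hG : Grunwald G) {d : ℕ}
    (β : G →* (RF ℚ d ≃ₐ[ℚ] RF ℚ d)) (hβ : SemiLin (1 : G →* (ℚ ≃ₐ[ℚ] ℚ)) β) {m : ℕ}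
    {f g : (MvPolynomial (Fin m) ℚ)[X]} {F : Type u} [Field F] [Algebra ℚ F] {ξ : Fin m → F} {η : F}
    (h : Generic f F ξ η) (hg : evP (algebraMap ℚ F) ξ η g ≠ 0) (hF : StablyIso ℚ F (fixF β)) :
    DenseRange (fun p : Pts f g (RingHom.id ℚ) =>
      (mapPts (algebraMap ℚ ℝ) p, fun q : Nat.Primes => mapPts (algebraMap ℚ ℚ_[(q : ℕ)]) p)) := by
  rintro ⟨xr, xp⟩
  rw [mem_closure_iff_nhds]
  intro t ht
  rw [nhds_prod_eq, Filter.mem_prod_iff] at ht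
  obtain ⟨t1, ht1, t2, ht2, ht12⟩ := ht
  rw [nhds_pi, Filter.mem_pi] at ht2
  obtain ⟨I, hI, s, hs, hst⟩ := ht2
  obtain ⟨e1, he1, hb1⟩ := Metric.mem_nhds_iff.1 ht1
  have hs' : ∀ q, ∃ e : ℝ, 0 < e ∧ Metric.ball (xp q) e ⊆ s q := fun q =>
    Metric.mem_nhds_iff.1 (hs q)
  choose e he hb using hs'
  obtain ⟨ε, ⟨hε1, hε2⟩, hε⟩ : ∃ ε : ℝ, (ε ≤ e1 ∧ ∀ q ∈ I, ε ≤ e q) ∧ 0 < ε := by
    have h1 : ∀ᶠ ε : ℝ in 𝓝[>] 0, ε ≤ e1 :=
      nhdsWithin_le_nhds (Iic_mem_nhds he1)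
    have h2 : ∀ᶠ ε : ℝ in 𝓝[>] 0, ∀ q ∈ I, ε ≤ e q :=
      (Filter.eventually_all_finite hI).2 fun q _ => nhdsWithin_le_nhds (Iic_mem_nhds (he q))
    have h3 : ∀ᶠ ε : ℝ in 𝓝[>] 0, 0 < ε := self_mem_nhdsWithin
    exact ((h1.and h2).and h3).exists
  obtain ⟨p, hp⟩ := transfer hG β hβ h hg hF (insert none (hI.toFinset.image some))
    (Fin_glue xr xp) hε
  refine ⟨_, ht12 (Set.mem_prod.2 ⟨hb1 ?_, hst ?_⟩), ⟨p, rfl⟩⟩
  · obtain ⟨h1, h2⟩ := hp none (Finset.mem_insert_self _ _)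
    rw [Metric.mem_ball, Subtype.dist_eq, Prod.dist_eq]
    refine max_lt ((dist_pi_lt_iff he1).2 fun j => ?_) ?_
    · exact (dist_eq_norm _ _).trans_lt ((h1 j).trans_le hε1)
    · exact (dist_eq_norm _ _).trans_lt (h2.trans_le hε1)
  · intro q hq
    refine hb q ?_
    obtain ⟨h1, h2⟩ := hp (some q)
      (Finset.mem_insert_of_mem (Finset.mem_image_of_mem _ (hI.mem_toFinset.2 hq)))
    rw [Metric.mem_ball, Subtype.dist_eq, Prod.dist_eq]
    refine max_lt ((dist_pi_lt_iff (he q)).2 fun j => ?_) ?_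
    · exact (dist_eq_norm _ _).trans_lt ((h1 j).trans_le (hε2 q hq))
    · exact (dist_eq_norm _ _).trans_lt (h2.trans_le (hε2 q hq))

end DC83
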