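import Pool.Agent.H.MP_83e36b_nt.dc.Fin

/-! Weak approximation for the quotients by the double covers of the alternating groups. -/

set_option autoImplicit false

open Matrix Polynomial SpinWA

namespace DC83

open CM83 NR83 WA83

universe u v w

attribute [local instance 2000] OreLocalization.instAlgebra IntermediateField.algebra' Algebra.id

/-- the reduction to the quotient, over an arbitrary field -/
private theorem FinB_red {k : Type u} [Field k] [CharZero k] {G : Type v} [Group G] [Finite G]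
    (N : Subgroup G) [N.Normal] (hN : AltSeries N ∨ Tower G N) {H : Type w} [Group H] [Finite H]
    (e : G ⧸ N ≃* H) {d : ℕ} (β : G →* (RF k d ≃ₐ[k] RF k d))
    (hβ : SemiLin (1 : G →* (k ≃ₐ[k] k)) β) :
    ∃ (c : ℕ) (γ : H →* (RF k c ≃ₐ[k] RF k c)), SemiLin (1 : H →* (k ≃ₐ[k] k)) γ ∧
      StablyIso k (fixF β) (fixF γ) := by
  obtain ⟨c, γ, hγ⟩ := exists_semi (1 : H →* (k ≃ₐ[k] k))
  have hT : Tower G N := hN.elim (Tower.of_alt N) id
  have hR : Red k k G N := red_tower hT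
  have h1 := hR 1 d c β (by rw [MonoidHom.one_comp]; exact hβ) (γ.comp e.toMonoidHom)
    ⟨fun g a => hγ.coeff (e g) a, fun g i => hγ.lin (e g) i, hγ.inj.comp e.injective⟩
  refine ⟨c, γ, hγ, ?_⟩
  have h2 : fixF (γ.comp e.toMonoidHom) = fixF γ := by
    ext x
    rw [mem_fixF, mem_fixF]
    constructor
    · intro h g
      obtain ⟨g', rfl⟩ := e.surjective g
      exact h g'
    · intro h g
      exact h _
  rw [h2] at h1
  exact h1

/-- The main theorem.  Proof: `finite_dAlt`; a faithful linear representation of `dAlt n` on `ℚ^e`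
(`exists_faithful` in nr/RepAct.lean or the regular one) gives `γ : dAlt n →* (RF ℚ e ≃ₐ[ℚ] RF ℚ e)`,
`SemiLin 1 γ`; with `G ⧸ N ≃ dAlt n` it gives an action of `G ⧸ N` with the same fixed field
(`fixF_comp`); the reduction theorem of nr/SMain.lean (`red_tower`, `Tower.of_alt`; for `K = ℚ`,
`α = 1`) gives `StablyIso ℚ (fixF β) (fixF γ)`; `transfer_dense` for `dAlt n`, `grun`, `γ`. -/
theorem main_alt {n : ℕ} (hn : 4 ≤ n) {G : Type v} [Group G] [Finite G] (N : Subgroup G) [N.Normal]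
    (hN : AltSeries N ∨ Tower G N) (e : G ⧸ N ≃* dAlt n) {d : ℕ}
    (β : G →* (RF ℚ d ≃ₐ[ℚ] RF ℚ d)) (hβ : SemiLin (1 : G →* (ℚ ≃ₐ[ℚ] ℚ)) β) {m : ℕ}
    {f g : (MvPolynomial (Fin m) ℚ)[X]} {F : Type u} [Field F] [Algebra ℚ F] {ξ : Fin m → F} {η : F}
    (h : Generic f F ξ η) (hg : evP (algebraMap ℚ F) ξ η g ≠ 0) (hF : StablyIso ℚ F (fixF β)) :
    DenseRange (fun p : Pts f g (RingHom.id ℚ) =>
      (mapPts (algebraMap ℚ ℝ) p, fun q : Nat.Primes => mapPts (algebraMap ℚ ℚ_[(q : ℕ)]) p)) := by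
  have := finite_dAlt n
  obtain ⟨c, γ, hγ, h1⟩ := FinB_red N hN e β hβ
  exact transfer_dense (grun hn) γ hγ h hg (hF.trans h1)

end DC83
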