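import Pool.Agent.H.MP_83e36b_nt.nr.SDefs
import Pool.Agent.H.MP_83e36b_nt.wa.Defs

/-! Models of the quotients of linear actions. -/

set_option autoImplicit false

open Polynomial

namespace DC83

open CM83 NR83 WA83

universe u

/-- The smooth hypersurface `X : f(x, y) = 0`, `∂f/∂y ≠ 0`, `g ≠ 0` over `k` is stably birational to
the quotient `V / G` by the finite group `G` of a faithful linear representation `V` of `G` over `k`:
`f` is irreducible and depends on `y`, and the field of functions `F` of `X` is stably isomorphic over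
`k` to the field of invariants `k(x_1, ..., x_d)^G` of a faithful linear action `β` of `G`. -/
def QuotModel (k : Type) [Field k] (G : Type u) [Group G] {m : ℕ}
    (f g : (MvPolynomial (Fin m) k)[X]) : Prop :=
  ∃ (F : Type) (_ : Field F) (_ : Algebra k F) (ξ : Fin m → F) (η : F),
    Generic f F ξ η ∧ evP (algebraMap k F) ξ η g ≠ 0 ∧
    ∃ (d : ℕ) (β : G →* (RF k d ≃ₐ[k] RF k d)),
      SemiLin (1 : G →* (k ≃ₐ[k] k)) β ∧ StablyIso k F (fixF β)

end DC83
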