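import Pool.Agent.H.MP_83e36b_nt.dc.Defs
import Pool.Agent.H.MP_83e36b_nt.dc.MDef

/-! Groups with quotient the double cover of the alternating group; weak approximation over `ℚ`. -/

set_option autoImplicit false

open Polynomial

namespace DC83

open WA83

universe u

/-- `N` is a normal subgroup of `G` whose quotient `G / N` is isomorphic to the double cover
`2.A_n = dAlt n` of the alternating group `A_n` -/
def QuotTwoAlt (n : ℕ) {G : Type u} [Group G] (N : Subgroup G) [N.Normal] : Prop :=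
  Nonempty (G ⧸ N ≃* dAlt n)

/-- Weak approximation for the variety `X : f(x, y) = 0`, `∂f/∂y ≠ 0`, `g ≠ 0` over `ℚ` at all places:
for every real point `A` and all `p`-adic points `B p` of `X`, every finite set `S` of primes and every
`ε > 0` there is a rational point `P` of `X` whose coordinates are `ε`-near to those of `A` and, for
`p ∈ S`, to those of `B p`; that is, `X(ℚ)` is dense in `X(ℝ) × ∏_p X(ℚ_p)`. -/
def WeakApprox {m : ℕ} (f g : (MvPolynomial (Fin m) ℚ)[X]) : Prop :=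
  ∀ (A : Pts f g (algebraMap ℚ ℝ)) (B : ∀ (p : ℕ) [Fact p.Prime], Pts f g (algebraMap ℚ ℚ_[p]))
    (S : Finset ℕ) (ε : ℝ), 0 < ε → ∃ P : Pts f g (RingHom.id ℚ),
      ((∀ j, |(P.1.1 j : ℝ) - A.1.1 j| < ε) ∧ |(P.1.2 : ℝ) - A.1.2| < ε) ∧
      ∀ (p : ℕ) [Fact p.Prime], p ∈ S →
        (∀ j, ‖(P.1.1 j : ℚ_[p]) - (B p).1.1 j‖ < ε) ∧ ‖(P.1.2 : ℚ_[p]) - (B p).1.2‖ < ε

end DC83
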