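import Pool.Agent.H.MP_83e36b_nt.dc.FinB
import Pool.Agent.H.MP_83e36b_nt.dc.MDef2

/-! The main theorem with an explicit form of weak approximation. -/

set_option autoImplicit false

open Polynomial SpinWA

namespace DC83

open CM83 NR83 WA83

universe u v

theorem weakApprox_of_dense {m : ℕ} {f g : (MvPolynomial (Fin m) ℚ)[X]}
    (h : DenseRange (fun p : Pts f g (RingHom.id ℚ) =>
      (mapPts (algebraMap ℚ ℝ) p, fun q : Nat.Primes => mapPts (algebraMap ℚ ℚ_[(q : ℕ)]) p))) :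
    WeakApprox f g := by
  intro A B S ε hε
  classical
  let S' : Set Nat.Primes := {q | (q : ℕ) ∈ S}
  have hS' : S'.Finite := Set.Finite.preimage (fun _ _ _ _ h => Subtype.ext h) S.finite_toSet
  let U : Set (Pts f g (algebraMap ℚ ℝ)) :=
    {Z | (∀ j, |Z.1.1 j - A.1.1 j| < ε) ∧ |Z.1.2 - A.1.2| < ε}
  let V : ∀ q : Nat.Primes, Set (Pts f g (algebraMap ℚ ℚ_[(q : ℕ)])) := fun q =>
    {Z | (∀ j, ‖Z.1.1 j - (B q).1.1 j‖ < ε) ∧ ‖Z.1.2 - (B q).1.2‖ < ε}
  have hU : IsOpen U := by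
    have h1 : U = (⋂ j, {Z : Pts f g (algebraMap ℚ ℝ) | |Z.1.1 j - A.1.1 j| < ε}) ∩
        {Z | |Z.1.2 - A.1.2| < ε} := by
      ext Z
      simp [U]
    rw [h1]
    refine IsOpen.inter (isOpen_iInter_of_finite fun j => ?_) ?_
    · exact isOpen_lt (by fun_prop) continuous_const
    · exact isOpen_lt (by fun_prop) continuous_const
  have hV : ∀ q, IsOpen (V q) := by
    intro q
    have h1 : V q = (⋂ j, {Z : Pts f g (algebraMap ℚ ℚ_[(q : ℕ)]) |
        ‖Z.1.1 j - (B q).1.1 j‖ < ε}) ∩ {Z | ‖Z.1.2 - (B q).1.2‖ < ε} := by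
      ext Z
      simp [V]
    rw [h1]
    refine IsOpen.inter (isOpen_iInter_of_finite fun j => ?_) ?_
    · exact isOpen_lt (by fun_prop) continuous_const
    · exact isOpen_lt (by fun_prop) continuous_const
  have hO : IsOpen (U ×ˢ Set.pi S' V) := hU.prod (isOpen_set_pi hS' fun q _ => hV q)
  obtain ⟨P, hP⟩ := h.exists_mem_open hO
    ⟨(A, fun q => B q), ⟨⟨fun j => by simpa using hε, by simpa using hε⟩,
      fun q _ => ⟨fun j => by simpa using hε, by simpa using hε⟩⟩⟩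
  refine ⟨P, hP.1, ?_⟩
  intro p hp hpS
  exact hP.2 ⟨p, hp.out⟩ hpS

/-- the main theorem -/
theorem main_two {n : ℕ} (hn : 4 ≤ n) {G : Type v} [Group G] [Finite G] (N : Subgroup G) [N.Normal]
    (hN : AltSeries N ∨ Tower G N) (e : QuotTwoAlt n N) {m : ℕ}
    {f g : (MvPolynomial (Fin m) ℚ)[X]} (h : QuotModel ℚ G f g) : WeakApprox f g := by
  obtain ⟨e⟩ := e
  obtain ⟨F, iF, iA, ξ, η, hgen, hg, d, β, hβ, hF⟩ := h
  exact weakApprox_of_dense (main_alt hn N hN e β hβ hgen hg hF)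

end DC83
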