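import Pool.Agent.H.MP_83e36b_nt.dc.Gal

/-! Equivariant points. -/

set_option autoImplicit false

namespace DC83

universe u v w

section
variable {K : Type u} [Field K] {Ω : Type v} [Field Ω] [Algebra K Ω]

/-- Equivariant points.  Proof: let `L` be a finite Galois extension of `K` in `Ω` on whose group `ρ`
is trivial (normal closure), `Γ = Gal(L/K)` (finite), `ρ' : Γ →* G` the induced homomorphism
(`AlgEquiv.restrictNormalHom`, surjective).  Let `c : I → K` be injective.  For `α ∈ L` put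
`x_i(α) = ∑ s : Γ, c (ρ'(s)⁻¹ • i) * s α`; then `τ (x_i(α)) = x_(ρ τ • i)(α)`.  For `i ≠ j` the linear
form `x_i - x_j` on `L` is not zero by Dedekind's theorem (its coefficient at `s = 1` is `c i - c j`).
`L` is not the union of the finitely many kernels (`K` is infinite). -/
theorem exists_equivariant [CharZero K] [IsAlgClosed Ω] [Algebra.IsAlgebraic K Ω] {G : Type w}
    [Group G] {ρ : (Ω ≃ₐ[K] Ω) →* G} (hρ : Cts ρ) (I : Type*) [Finite I] [MulAction G I] :
    ∃ x : I → Ω, Function.Injective x ∧ ∀ τ i, τ (x i) = x (ρ τ • i) := by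
  classical
  obtain ⟨L₀, hfin, hL₀⟩ := hρ
  have hcl : IsAlgClosure K Ω := ⟨inferInstance, inferInstance⟩
  have hΩ : Normal K Ω := IsAlgClosure.normal K Ω
  have hinf : Infinite K := Infinite.of_injective (Nat.cast : ℕ → K) Nat.cast_injective
  obtain ⟨L, hLL, hLf, hLn⟩ : ∃ L : IntermediateField K Ω, L₀ ≤ L ∧ FiniteDimensional K L ∧
      Normal K L :=
    ⟨IntermediateField.normalClosure K L₀ Ω, L₀.le_normalClosure,
      normalClosure.is_finiteDimensional K L₀ Ω, normalClosure.normal K L₀ Ω⟩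
  have hΓ : Fintype (L ≃ₐ[K] L) := Fintype.ofFinite _
  obtain ⟨res, hres, hcomm⟩ : ∃ res : (Ω ≃ₐ[K] Ω) →* (L ≃ₐ[K] L), Function.Surjective res ∧
      ∀ τ (α : L), ((res τ α : L) : Ω) = τ α :=
    ⟨AlgEquiv.restrictNormalHom L, AlgEquiv.restrictNormalHom_surjective Ω,
      fun τ α => AlgEquiv.restrictNormal_commutes τ L α⟩
  have hker : ∀ τ, res τ = 1 → ρ τ = 1 := by
    intro τ h
    apply hL₀
    intro x hx
    have h1 := hcomm τ ⟨x, hLL hx⟩
    rw [h] at h1
    exact h1.symm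
  choose lift hlift using hres
  obtain ⟨ρ', hdef⟩ : ∃ ρ' : (L ≃ₐ[K] L) → G, ρ' = fun s => ρ (lift s) := ⟨_, rfl⟩
  have hρ' : ∀ τ, ρ' (res τ) = ρ τ := by
    intro τ
    have h1 : res ((lift (res τ)) * τ⁻¹) = 1 := by
      rw [map_mul, map_inv, hlift, mul_inv_cancel]
    have h2 := hker _ h1
    rw [map_mul, map_inv, mul_inv_eq_one] at h2
    rw [hdef]
    exact h2
  have hmul : ∀ τ s, ρ' (res τ * s) = ρ τ * ρ' s := by
    intro τ s
    rw [← hlift s, ← map_mul, hρ', hρ', map_mul]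
  obtain ⟨n, ⟨e⟩⟩ := Finite.exists_equiv_fin I
  obtain ⟨c, hc⟩ : ∃ c : I → K, Function.Injective c :=
    ⟨fun i => ((e i : ℕ) : K), fun i j h => e.injective (Fin.ext (Nat.cast_injective h))⟩
  -- the linear maps
  obtain ⟨Φ, hΦ⟩ : ∃ Φ : I → L →ₗ[K] L, ∀ i α, Φ i α = ∑ s, c ((ρ' s)⁻¹ • i) • s α := by
    refine ⟨fun i => ∑ s : L ≃ₐ[K] L, c ((ρ' s)⁻¹ • i) • s.toLinearMap, fun i α => ?_⟩
    rw [LinearMap.sum_apply]
    rfl
  have heq : ∀ τ i α, res τ (Φ i α) = Φ (ρ τ • i) α := by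
    intro τ i α
    have h1 : ∀ s : L ≃ₐ[K] L, res τ (c ((ρ' s)⁻¹ • i) • s α) =
        c ((ρ' (res τ * s))⁻¹ • ρ τ • i) • (res τ * s) α := by
      intro s
      rw [hmul, mul_inv_rev, mul_smul, inv_smul_smul]
      exact map_smul (res τ).toLinearMap _ _
    rw [hΦ, hΦ, map_sum]
    exact (Finset.sum_congr rfl fun s _ => h1 s).trans (Equiv.sum_comp (Equiv.mulLeft (res τ))
      (fun t : L ≃ₐ[K] L => c ((ρ' t)⁻¹ • ρ τ • i) • t α))
  have hne : ∀ i j, i ≠ j → LinearMap.ker (Φ i - Φ j) ≠ ⊤ := by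
    intro i j hij htop
    rw [LinearMap.ker_eq_top] at htop
    have hli : LinearIndependent L (fun s : L ≃ₐ[K] L => (fun α : L => s α)) := by
      have h1 := (linearIndependent_monoidHom L L).comp
        (fun s : L ≃ₐ[K] L => ((s : L →+* L) : L →* L)) (by
          intro s t hst
          ext α
          exact congrArg Subtype.val (DFunLike.congr_fun hst α))
      exact h1
    rw [Fintype.linearIndependent_iff] at hli
    have h2 := hli (fun s => algebraMap K L (c ((ρ' s)⁻¹ • i) - c ((ρ' s)⁻¹ • j))) (by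
      funext α
      have h3 := LinearMap.congr_fun htop α
      rw [LinearMap.sub_apply, hΦ, hΦ, ← Finset.sum_sub_distrib] at h3
      rw [Finset.sum_apply]
      refine Eq.trans (Finset.sum_congr rfl fun s _ => ?_) h3
      show algebraMap K L (c ((ρ' s)⁻¹ • i) - c ((ρ' s)⁻¹ • j)) * s α = _
      rw [← Algebra.smul_def, sub_smul]) 1
    have h3 : ρ' 1 = 1 := by
      have h4 := hρ' 1
      rwa [map_one, map_one] at h4
    rw [h3, inv_one, one_smul, one_smul, map_eq_zero, sub_eq_zero] at h2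
    exact hij (hc h2)
  obtain ⟨α, hα⟩ : ∃ α : L, ∀ i j, i ≠ j → Φ i α ≠ Φ j α := by
    by_contra hcon
    push Not at hcon
    have hcov : ⋃ q : {q : I × I // q.1 ≠ q.2},
        ((LinearMap.ker (Φ q.1.1 - Φ q.1.2) : Subspace K L) : Set L) = Set.univ := by
      rw [Set.eq_univ_iff_forall]
      intro α
      obtain ⟨i, j, hij, h⟩ := hcon α
      rw [Set.mem_iUnion]
      refine ⟨⟨(i, j), hij⟩, ?_⟩
      show (Φ i - Φ j) α = 0
      rw [LinearMap.sub_apply, h, sub_self]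
    obtain ⟨q, hq⟩ := Subspace.exists_eq_top_of_iUnion_eq_univ hcov
    exact hne q.1.1 q.1.2 q.2 hq
  refine ⟨fun i => ((Φ i α : L) : Ω), fun i j h => ?_, fun τ i => ?_⟩
  · by_contra hij
    exact hα i j hij (Subtype.ext h)
  · show τ ((Φ i α : L) : Ω) = ((Φ (ρ τ • i) α : L) : Ω)
    rw [← hcomm, heq]

end

end DC83
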