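import Pool.Agent.H.MP_83e36b_nt.dc.GalB

/-! Quadratic characters. -/

set_option autoImplicit false

namespace DC83

universe u v w

section
variable {K : Type u} [Field K] {Ω : Type v} [Field Ω] [Algebra K Ω]

/-- Kummer theory for quadratic characters.  Proof: `exists_equivariant` for `G = I = ℤˣ` gives `x`;
`y = x 1 - x (-1)`; `y ^ 2` is fixed. -/
theorem exists_sqrt [CharZero K] [IsAlgClosed Ω] [Algebra.IsAlgebraic K Ω]
    {χ : (Ω ≃ₐ[K] Ω) →* ℤˣ} (hχ : Cts χ) :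
    ∃ (d : K) (y : Ω), d ≠ 0 ∧ y ^ 2 = algebraMap K Ω d ∧
      ∀ τ, τ y = ((χ τ : ℤ) : Ω) * y := by
  obtain ⟨x, hx, hτ⟩ := exists_equivariant hχ ℤˣ
  have hy0 : x 1 - x (-1) ≠ 0 := by
    intro h
    have h1 : (1 : ℤˣ) = -1 := hx (sub_eq_zero.1 h)
    exact absurd h1 (by decide)
  have hact : ∀ τ : Ω ≃ₐ[K] Ω, τ (x 1 - x (-1)) = ((χ τ : ℤ) : Ω) * (x 1 - x (-1)) := by
    intro τ
    rw [map_sub, hτ τ 1, hτ τ (-1)]
    rcases Int.units_eq_one_or (χ τ) with h | h
    · rw [h, one_smul, one_smul]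
      push_cast
      ring
    · rw [h]
      have e1 : (-1 : ℤˣ) • (1 : ℤˣ) = -1 := by decide
      have e2 : (-1 : ℤˣ) • (-1 : ℤˣ) = 1 := by decide
      rw [e1, e2]
      push_cast
      ring
  have hsq : ∀ τ : Ω ≃ₐ[K] Ω, τ ((x 1 - x (-1)) ^ 2) = (x 1 - x (-1)) ^ 2 := by
    intro τ
    rw [map_pow, hact τ, mul_pow]
    rcases Int.units_eq_one_or (χ τ) with h | h
    · rw [h]
      push_cast
      ring
    · rw [h]
      push_cast
      ring
  obtain ⟨d, hd⟩ := exists_of_fixed hsq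
  refine ⟨d, x 1 - x (-1), ?_, hd.symm, hact⟩
  rintro rfl
  rw [map_zero] at hd
  exact hy0 (pow_eq_zero_iff (two_ne_zero)|>.1 hd.symm)

/-- the quadratic character of a square root -/
theorem exists_char [CharZero K] [IsAlgClosed Ω] [Algebra.IsAlgebraic K Ω] {d : K} (hd : d ≠ 0)
    {y : Ω} (hy : y ^ 2 = algebraMap K Ω d) :
    ∃ χ : (Ω ≃ₐ[K] Ω) →* ℤˣ, Cts χ ∧ ∀ τ, τ y = ((χ τ : ℤ) : Ω) * y := by
  classical
  have hc : CharZero Ω := charZero_of_injective_algebraMap (algebraMap K Ω).injective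
  have hy0 : y ≠ 0 := by
    rintro rfl
    rw [zero_pow two_ne_zero] at hy
    exact hd ((map_eq_zero_iff _ (algebraMap K Ω).injective).1 hy.symm)
  have hny : -y ≠ y := by
    intro h
    have h2 : (2 : Ω) * y = 0 := by linear_combination (-1 : Ω) * h
    rcases mul_eq_zero.1 h2 with h3 | h3
    · exact two_ne_zero h3
    · exact hy0 h3
  have hpm : ∀ τ : Ω ≃ₐ[K] Ω, τ y = y ∨ τ y = -y := by
    intro τ
    have h1 : (τ y) ^ 2 = y ^ 2 := by
      rw [← map_pow, hy, AlgEquiv.commutes]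
    exact sq_eq_sq_iff_eq_or_eq_neg.1 h1
  have key : ∀ τ : Ω ≃ₐ[K] Ω,
      τ y = (((if τ y = y then (1 : ℤˣ) else -1 : ℤˣ) : ℤ) : Ω) * y := by
    intro τ
    rcases hpm τ with h | h
    · rw [if_pos h, h]
      push_cast
      ring
    · rw [if_neg (by rw [h]; exact hny), h]
      push_cast
      ring
  refine ⟨{ toFun := fun τ => if τ y = y then 1 else -1, map_one' := ?_, map_mul' := ?_ }, ?_, ?_⟩
  · exact if_pos rfl
  · intro σ τ
    show (if σ (τ y) = y then (1 : ℤˣ) else -1) = _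
    rcases hpm σ with hs | hs <;> rcases hpm τ with ht | ht
    · rw [ht, hs, if_pos rfl, one_mul]
    · rw [ht, map_neg, hs, if_neg hny, if_pos rfl, one_mul]
    · rw [ht, hs, if_neg hny, if_pos rfl, mul_one]
    · rw [ht, map_neg, hs, neg_neg, if_pos rfl, if_neg hny]
      decide
  · refine Cts.of_fix _ (fun _ : Unit => y) fun τ h => ?_
    exact if_pos (h ())
  · intro τ
    exact key τ

end

end DC83
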