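import Pool.Agent.H.MP_83e36b_nt.dc.Perm
import Pool.Agent.H.MP_83e36b_nt.dc.Orth
import Pool.Agent.H.MP_83e36b_nt.sp.WApi

/-! The trace form of a real algebra whose Galois representation lifts to `2.A_n`. -/

set_option autoImplicit false

open Matrix SpinWA

namespace DC83

private theorem LocRa_hh {K : Type*} [Field K] {n : ℕ} {r : K} (hr : 2 * (r * r) = 1)
    {a b : Fin n} (hab : a ≠ b) :
    hh (r • (Pi.single a (1 : K) - Pi.single b 1)) = pM K (Equiv.swap a b) := by
  ext p q
  rw [hh, pM, Matrix.sub_apply, Matrix.smul_apply, Matrix.vecMulVec_apply, Matrix.of_apply,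
    Matrix.one_apply]
  simp only [Pi.smul_apply, Pi.sub_apply, smul_eq_mul, Pi.single_apply]
  have e : ∀ s t : K, 2 * (r * s * (r * t)) = s * t := by
    intro s t
    linear_combination (s * t) * hr
  rw [e]
  by_cases h1 : p = a
  · subst h1
    rw [Equiv.swap_apply_left, if_pos rfl, if_neg hab]
    by_cases h2 : q = p
    · subst h2
      simp [hab, Ne.symm hab]
    · by_cases h3 : q = b
      · subst h3
        simp [hab, h2]
      · simp [h2, h3, Ne.symm h2, Ne.symm h3]
  · by_cases h2 : p = b
    · subst h2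
      rw [Equiv.swap_apply_right, if_neg h1, if_pos rfl]
      by_cases h3 : q = p
      · subst h3
        simp [hab, Ne.symm hab]
      · by_cases h4 : q = a
        · subst h4
          simp [h1, Ne.symm h1]
        · simp [h3, h4, Ne.symm h3, Ne.symm h4]
    · rw [Equiv.swap_apply_of_ne_of_ne h1 h2, if_neg h1, if_neg h2]
      simp

private theorem LocRa_dot {K : Type*} [Field K] {n : ℕ} {r : K} (a b c d : Fin n) :
    (r • (Pi.single a (1 : K) - Pi.single b 1)) ⬝ᵥ (r • (Pi.single c (1 : K) - Pi.single d 1)) =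
      r * r * ((if a = c then 1 else 0) - (if a = d then 1 else 0) - (if b = c then 1 else 0) +
        (if b = d then 1 else 0)) := by
  rw [smul_dotProduct, dotProduct_smul, sub_dotProduct, single_dotProduct, single_dotProduct]
  simp only [Pi.sub_apply, Pi.single_apply, smul_eq_mul]
  ring

private theorem LocRa_prod {n : ℕ} {σ : Equiv.Perm (Fin n)} (hσ : ∀ i, σ (σ i) = i) :
    ∀ L : List (Fin n), L.Nodup → (∀ i ∈ L, σ i < i) → ∀ a : Fin n,
      (L.map fun i => Equiv.swap (σ i) i).prod a = if a ∈ L ∨ σ a ∈ L then σ a else a := by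
  intro L
  induction L with
  | nil =>
    intro _ _ a
    simp
  | cons i L ih =>
    intro hn hS a
    rw [List.map_cons, List.prod_cons, Equiv.Perm.mul_apply,
      ih (List.nodup_cons.1 hn).2 (fun j hj => hS j (List.mem_cons_of_mem i hj))]
    have hi : i ∉ L := (List.nodup_cons.1 hn).1
    have hi1 : σ i < i := hS i List.mem_cons_self
    have hi2 : σ i ∉ L := by
      intro h
      have h1 := hS _ (List.mem_cons_of_mem i h)
      rw [hσ] at h1
      exact lt_asymm h1 hi1
    by_cases h : a ∈ L ∨ σ a ∈ L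
    · have h' : a ∈ i :: L ∨ σ a ∈ i :: L :=
        h.imp (List.mem_cons_of_mem i) (List.mem_cons_of_mem i)
      rw [if_pos h, if_pos h']
      apply Equiv.swap_apply_of_ne_of_ne
      · intro h1
        have h2 : a = i := σ.injective h1
        subst h2
        exact h.elim hi hi2
      · intro h1
        have h2 : a = σ i := by rw [← h1, hσ]
        rw [h1] at h
        rw [h2] at h
        exact h.elim hi2 hi
    · rw [if_neg h]
      by_cases h1 : a = i
      · subst h1
        rw [Equiv.swap_apply_right, if_pos (Or.inl List.mem_cons_self)]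
      · by_cases h2 : a = σ i
        · subst h2
          rw [Equiv.swap_apply_left, if_pos (Or.inr (by rw [hσ]; exact List.mem_cons_self)), hσ]
        · rw [Equiv.swap_apply_of_ne_of_ne h2 h1, if_neg]
          rintro (h3 | h3)
          · rcases List.mem_cons.1 h3 with h4 | h4
            · exact h1 h4
            · exact h (Or.inl h4)
          · rcases List.mem_cons.1 h3 with h4 | h4
            · apply h2
              rw [← h4, hσ]
            · exact h (Or.inr h4)

private theorem LocRa_pM {K : Type*} [Field K] {n : ℕ} (f : Fin n → Equiv.Perm (Fin n))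
    (hf : ∀ i, (f i)⁻¹ = f i) (L : List (Fin n)) :
    (L.map fun i => pM K (f i)).prod = pM K ((L.map f).prod)⁻¹ := by
  induction L with
  | nil => simp [pM_one]
  | cons i L ih =>
    rw [List.map_cons, List.prod_cons, ih, pM_mul, List.map_cons, List.prod_cons, _root_.mul_inv_rev, hf]

private theorem LocRa_det {K : Type*} [Field K] {n : ℕ} (l : List (Fin n → K))
    (hl : ∀ v ∈ l, v ⬝ᵥ v = 1) : ((l.map hh).prod).det = (-1) ^ l.length := by
  induction l with
  | nil => simp
  | cons a t ih =>
    rw [List.map_cons, List.prod_cons, det_mul, hh_det (hl a List.mem_cons_self),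
      ih (fun v hv => hl v (List.mem_cons_of_mem a hv)), List.length_cons, pow_succ, mul_comm]

/-- The number of the transpositions of an involution of `A_n` which lifts to an involution of `2.A_n` is
divisible by four.  Proof: let `σ = pi n x` (`σ * σ = 1`).  The vectors `w_i = (e_i - e_(σ i)) / √2`,
`i < σ i`, over `AlgebraicClosure ℚ` are orthonormal, the product of the `hh w_i` is `pM σ = pM σ⁻¹`
(`hh w_i = pM (swap i (σ i))`; disjoint transpositions), their number `s` is even (determinant,
`sign_pi`).  `orth_prod`: the product of the `cV w_i` is an element `y` over `σ` with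
`y * y = (-1) ^ (s / 2)`; `x = ± y` (`Spn.eq_or_neg`, `spn_pi`), so `x * x = (-1) ^ (s / 2)`. -/
theorem four_dvd {n : ℕ} {x : dAlt n} (hx : x * x = 1) :
    4 ∣ (Finset.univ.filter fun i : Fin n => pi n x i < i).card := by
  set σ := pi n x with hσd
  have hσ : ∀ i, σ (σ i) = i := by
    intro i
    have h1 : σ * σ = 1 := by rw [hσd, ← map_mul, hx, map_one]
    rw [← Equiv.Perm.mul_apply, h1]
    rfl
  have hσi : σ⁻¹ = σ := by
    apply inv_eq_of_mul_eq_one_right
    exact Equiv.ext hσ
  have h2 : (2 : AlgebraicClosure ℚ) ≠ 0 := two_ne_zero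
  obtain ⟨r, hr⟩ : ∃ r : AlgebraicClosure ℚ, 2 * (r * r) = 1 := by
    obtain ⟨r, hr⟩ := IsAlgClosed.exists_pow_nat_eq ((2 : AlgebraicClosure ℚ)⁻¹) (n := 2) two_pos
    refine ⟨r, ?_⟩
    rw [← sq, hr, mul_inv_cancel₀ h2]
  set S := Finset.univ.filter fun i : Fin n => σ i < i with hS
  have hmem : ∀ i ∈ S.toList, σ i < i := by
    intro i hi
    exact (Finset.mem_filter.1 (Finset.mem_toList.1 hi)).2
  set w : Fin n → Fin n → AlgebraicClosure ℚ :=
    fun i => r • (Pi.single (σ i) (1 : AlgebraicClosure ℚ) - Pi.single i 1) with hw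
  set l : List (Fin n → AlgebraicClosure ℚ) := S.toList.map w with hl
  have hu : ∀ v ∈ l, v ⬝ᵥ v = 1 := by
    intro v hv
    obtain ⟨i, hi, rfl⟩ := List.mem_map.1 hv
    have h1 := (hmem i hi).ne
    rw [hw]
    simp only
    rw [LocRa_dot, if_pos rfl, if_pos rfl, if_neg h1, if_neg h1.symm]
    linear_combination hr
  have ho : l.Pairwise fun v w => v ⬝ᵥ w = 0 := by
    rw [hl, List.pairwise_map]
    refine (Finset.nodup_toList S).imp_of_mem ?_
    intro i j hi hj hij
    have h1 := hmem i hi
    have h3 := hmem j hj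
    rw [hw]
    simp only
    rw [LocRa_dot, if_neg hij, if_neg (fun h => hij (σ.injective h)), if_neg, if_neg]
    · ring
    · intro h
      have h4 : σ i = j := by rw [h, hσ]
      rw [h4] at h1
      rw [← h] at h3
      exact lt_asymm h1 h3
    · intro h
      have h4 : σ j = i := by rw [← h, hσ]
      rw [h] at h1
      rw [h4] at h3
      exact lt_asymm h1 h3
  have hhl : (l.map hh).prod = pM (AlgebraicClosure ℚ) σ⁻¹ := by
    have h1 : l.map hh = S.toList.map fun i => pM (AlgebraicClosure ℚ) (Equiv.swap (σ i) i) := by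
      rw [hl, List.map_map]
      refine List.map_congr_left fun i hi => ?_
      exact LocRa_hh hr (hmem i hi).ne
    rw [h1, LocRa_pM (fun i => Equiv.swap (σ i) i) (fun i => Equiv.swap_inv _ _)]
    congr 2
    ext a
    congr 1
    rw [LocRa_prod hσ S.toList (Finset.nodup_toList S) hmem a]
    split_ifs with h
    · rfl
    · push Not at h
      rw [Finset.mem_toList, Finset.mem_toList, hS, Finset.mem_filter, Finset.mem_filter, hσ] at h
      have h3 : ¬ σ a < a := fun h4 => h.1 ⟨Finset.mem_univ _, h4⟩
      have h4 : ¬ a < σ a := fun h5 => h.2 ⟨Finset.mem_univ _, h5⟩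
      exact le_antisymm (not_lt.1 h3) (not_lt.1 h4)
  have hlen : l.length = S.card := by
    rw [hl, List.length_map, Finset.length_toList]
  have hev : Even l.length := by
    have h1 := LocRa_det l hu
    rw [hhl, pM_det, hσi, hσd, sign_pi, Units.val_one, Int.cast_one] at h1
    have h5 : (-1 : AlgebraicClosure ℚ) ≠ 1 := by
      intro h
      apply h2
      linear_combination -h
    exact (neg_one_pow_eq_one_iff_even h5).1 h1.symm
  obtain ⟨k, hk⟩ := hev
  obtain ⟨hy, hyy⟩ := orth_prod k l (by omega) hu ho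
  rw [hhl] at hy
  have hxs := spn_pi (AlgebraicClosure ℚ) x
  rw [← hσd] at hxs
  have hxx : ((x.1 : Matrix (Ix n) (Ix n) ℚ).map (Rat.castHom (AlgebraicClosure ℚ))) *
      ((x.1 : Matrix (Ix n) (Ix n) ℚ).map (Rat.castHom (AlgebraicClosure ℚ))) = 1 := by
    rw [← Matrix.map_mul]
    have h1 : (x.1 : Matrix (Ix n) (Ix n) ℚ) * (x.1 : Matrix (Ix n) (Ix n) ℚ) = 1 := by
      have h3 : (x.1 * x.1 : (Matrix (Ix n) (Ix n) ℚ)ˣ) = 1 := congrArg Subtype.val hx
      rw [← Units.val_mul, h3, Units.val_one]
    rw [h1]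
    exact Matrix.map_one _ (map_zero _) (map_one _)
  have hkk : (-1 : Matrix (Ix n) (Ix n) (AlgebraicClosure ℚ)) ^ k = 1 := by
    rw [← hyy, ← hxx]
    rcases Spn.eq_or_neg h2 hy hxs with h | h
    · rw [h]
    · rw [h, neg_mul_neg]
  have hne : (-1 : Matrix (Ix n) (Ix n) (AlgebraicClosure ℚ)) ≠ 1 := by
    intro h
    have h1 := congrFun (congrFun h 0) 0
    rw [Matrix.neg_apply, Matrix.one_apply_eq] at h1
    apply h2
    linear_combination -h1
  obtain ⟨j, hj⟩ := (neg_one_pow_eq_one_iff_even hne).1 hkk
  exact ⟨j, by omega⟩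

end DC83
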