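import Mathlib

/-! Permutation matrices. -/

set_option autoImplicit false

open Matrix

namespace DC83

variable {n : ℕ}

/-- the permutation matrix with the entries `1` at `(i, σ i)`: `(pM σ * V) i j = V (σ i) j` -/
def pM (R : Type*) [CommRing R] (σ : Equiv.Perm (Fin n)) : Matrix (Fin n) (Fin n) R :=
  Matrix.of fun i j => if σ i = j then 1 else 0

section
variable (R : Type*) [CommRing R]

theorem pM_mul_apply {m : Type*} (σ : Equiv.Perm (Fin n)) (V : Matrix (Fin n) m R) (i : Fin n)
    (j : m) : (pM R σ * V) i j = V (σ i) j := by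
  simp [pM, Matrix.mul_apply]

theorem pM_mulVec (σ : Equiv.Perm (Fin n)) (u : Fin n → R) (i : Fin n) :
    (pM R σ *ᵥ u) i = u (σ i) := by
  simp [pM, Matrix.mulVec, dotProduct]

theorem pM_one : pM R (1 : Equiv.Perm (Fin n)) = 1 := by
  ext i j
  simp [pM, Matrix.one_apply]

theorem pM_mul (σ τ : Equiv.Perm (Fin n)) : pM R σ * pM R τ = pM R (τ * σ) := by
  ext i j
  rw [pM_mul_apply]
  simp [pM]

theorem pM_transpose (σ : Equiv.Perm (Fin n)) : (pM R σ)ᵀ = pM R σ⁻¹ := by
  ext i j
  simp only [pM, Matrix.transpose_apply, Matrix.of_apply]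
  congr 1
  rw [Equiv.Perm.inv_eq_iff_eq]
  exact propext eq_comm

theorem pM_map {S : Type*} [CommRing S] (φ : R →+* S) (σ : Equiv.Perm (Fin n)) :
    (pM R σ).map φ = pM S σ := by
  ext i j
  simp only [pM, Matrix.map_apply, Matrix.of_apply]
  split_ifs <;> simp

theorem pM_det (σ : Equiv.Perm (Fin n)) : (pM R σ).det = ((Equiv.Perm.sign σ : ℤ) : R) := by
  have h : pM R σ = σ.permMatrix R := by
    ext i j
    simp [pM, Equiv.Perm.permMatrix, PEquiv.toMatrix_apply, eq_comm]
  rw [h, Matrix.det_permutation]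

theorem pM_inj [Nontrivial R] {σ τ : Equiv.Perm (Fin n)} (h : pM R σ = pM R τ) : σ = τ := by
  ext i
  have h1 := congrFun (congrFun h i) (σ i)
  simp only [pM, Matrix.of_apply, if_true] at h1
  by_contra h2
  rw [if_neg (fun h3 => h2 (congrArg Fin.val h3.symm))] at h1
  exact one_ne_zero h1

end

end DC83
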