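import Pool.Agent.H.MP_83e36b_nt.dc.Spn
import Pool.Agent.H.MP_83e36b_nt.sp.WCD

/-! The kernel and the image of the spin group. -/

set_option autoImplicit false

open Matrix

namespace DC83

variable {K : Type*} [Field K] {n : ℕ}

/-- Proof: `x` commutes with all `cV u` (`Spn.conj`, `cV_single`) and all `cF j`, so it is scalar
(`scalar_of_comm`), `x = c • 1`, and `x * xᵀ = 1` gives `c ^ 2 = 1`. -/
theorem Spn.ker (h2 : (2 : K) ≠ 0) {x : Matrix (Ix n) (Ix n) K} (h : Spn x 1) :
    x = 1 ∨ x = -1 := by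
  obtain ⟨c, hc⟩ := scalar_of_comm h2 (X := x)
    (fun i => by
      have h3 := h.conj (Pi.single i (1 : K))
      rwa [one_mulVec, cV_single] at h3)
    (fun j => h.comm_cF j)
  have h1 := h.mul_transpose.1
  have hcc : c * c = 1 := by
    have e := congrFun (congrFun h1 0) 0
    rw [hc, transpose_smul, transpose_one, Matrix.smul_mul, Matrix.one_mul, smul_smul,
      Matrix.smul_apply, Matrix.one_apply_eq, smul_eq_mul, mul_one] at e
    exact e
  rcases mul_self_eq_one_iff.1 hcc with h3 | h3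
  · left
    rw [hc, h3, one_smul]
  · right
    rw [hc, h3, neg_smul, one_smul]

/-- Proof: `Spn (y * xᵀ) (M * Mᵀ) = Spn (y * xᵀ) 1`. -/
theorem Spn.eq_or_neg (h2 : (2 : K) ≠ 0) {x y : Matrix (Ix n) (Ix n) K}
    {M : Matrix (Fin n) (Fin n) K} (h : Spn x M) (h' : Spn y M) : y = x ∨ y = -x := by
  have h1 := h.mul_transpose
  have h3 : Spn (y * xᵀ) 1 := by
    have h5 := h'.mul' h.transpose
    rwa [h1.2.2.1] at h5
  have h4 : y = (y * xᵀ) * x := by rw [Matrix.mul_assoc, h1.2.1, Matrix.mul_one]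
  rcases Spn.ker h2 h3 with h5 | h5
  · left
    rw [h4, h5, Matrix.one_mul]
  · right
    rw [h4, h5, Matrix.neg_mul, Matrix.one_mul]

private theorem SpnKer_unit [IsAlgClosed K] {v : Fin n → K}
    (hv : SpinWA.qf 1 v ≠ 0) : ∃ u : Fin n → K, u ⬝ᵥ u = 1 ∧ SpinWA.rf 1 v = hh u := by
  have hq : SpinWA.qf 1 v = v ⬝ᵥ v := by
    unfold SpinWA.qf
    rw [one_mulVec]
  obtain ⟨s, hs⟩ := IsAlgClosed.exists_pow_nat_eq (v ⬝ᵥ v) (n := 2) two_pos
  rw [hq] at hv
  have hs0 : s ≠ 0 := by
    rintro rfl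
    apply hv
    rw [← hs]
    exact zero_pow two_ne_zero
  have hss : s⁻¹ * s⁻¹ = (v ⬝ᵥ v)⁻¹ := by
    rw [← hs, pow_two, mul_inv]
  refine ⟨s⁻¹ • v, ?_, ?_⟩
  · rw [smul_dotProduct, dotProduct_smul, smul_eq_mul, smul_eq_mul, ← mul_assoc, hss]
    exact inv_mul_cancel₀ hv
  · unfold SpinWA.rf hh
    rw [hq, one_mulVec, smul_vecMulVec, vecMulVec_smul, smul_smul, smul_smul,
      mul_assoc, hss, div_eq_mul_inv]

private theorem SpnKer_list [IsAlgClosed K] (l : List (Fin n → K))
    (hl : ∀ v ∈ l, SpinWA.qf 1 v ≠ 0) : ∃ l' : List (Fin n → K),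
      (∀ v ∈ l', v ⬝ᵥ v = 1) ∧ (l.map (SpinWA.rf 1)).prod = (l'.map hh).prod := by
  induction l with
  | nil => exact ⟨[], by simp, by simp⟩
  | cons a t ih =>
    obtain ⟨l', h1, h3⟩ := ih (fun v hv => hl v (List.mem_cons_of_mem a hv))
    obtain ⟨u, hu1, hu2⟩ := SpnKer_unit (hl a List.mem_cons_self)
    refine ⟨u :: l', ?_, ?_⟩
    · intro v hv
      rcases List.mem_cons.1 hv with rfl | hv
      · exact hu1
      · exact h1 v hv
    · rw [List.map_cons, List.prod_cons, List.map_cons, List.prod_cons, h3, hu2]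

private theorem SpnKer_det (l : List (Fin n → K)) (hl : ∀ v ∈ l, v ⬝ᵥ v = 1) :
    ((l.map hh).prod).det = (-1) ^ l.length := by
  induction l with
  | nil => simp
  | cons a t ih =>
    rw [List.map_cons, List.prod_cons, det_mul, hh_det (hl a List.mem_cons_self),
      ih (fun v hv => hl v (List.mem_cons_of_mem a hv)), List.length_cons, pow_succ, mul_comm]

private theorem SpnKer_pair (k : ℕ) : ∀ l : List (Fin n → K), l.length = 2 * k →
    (∀ v ∈ l, v ⬝ᵥ v = 1) → ∃ x, Spn x (l.map hh).prod := by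
  induction k with
  | zero =>
    intro l hl _
    have h0 : l = [] := List.eq_nil_of_length_eq_zero (by omega)
    subst h0
    exact ⟨1, by simpa using Spn.one⟩
  | succ k ih =>
    intro l hl hv
    match l, hl, hv with
    | [], hl, _ => simp at hl
    | [a], hl, _ => simp at hl; omega
    | a :: b :: t, hl, hv =>
      obtain ⟨x, hx⟩ := ih t (by simp at hl; omega)
        (fun v hv' => hv v (List.mem_cons_of_mem a (List.mem_cons_of_mem b hv')))
      refine ⟨cV a * cV b * x, ?_⟩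
      rw [List.map_cons, List.prod_cons, List.map_cons, List.prod_cons, ← mul_assoc]
      exact Spn.mul a b (hv a List.mem_cons_self)
        (hv b (List.mem_cons_of_mem a List.mem_cons_self)) hx

/-- Over an algebraically closed field every rotation lifts.  Proof: `SpinWA.exists_refl_prod` for
`Q = 1`: `M = (l.map (rf 1)).prod` with `qf 1 v = v ⬝ᵥ v ≠ 0` for `v ∈ l`; replace `v` by `v / √(v ⬝ᵥ v)`
(`IsAlgClosed.exists_pow_nat_eq` or `IsSquare`), `rf 1 v = hh (v / √(v ⬝ᵥ v))`; `det M = 1` and `hh_det`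
give that the length of `l` is even; then pair the factors (induction on lists two by two). -/
theorem Spn.exists [IsAlgClosed K] [CharZero K] {M : Matrix (Fin n) (Fin n) K}
    (hM : Mᵀ * M = 1) (hd : M.det = 1) : ∃ x, Spn x M := by
  have h2 : (2 : K) ≠ 0 := two_ne_zero
  obtain ⟨l, hl, hMl⟩ := SpinWA.exists_refl_prod h2 (Q := (1 : Matrix (Fin n) (Fin n) K))
    transpose_one (by rw [det_one]; exact one_ne_zero) (O := M) (by rw [Matrix.mul_one, hM])
  obtain ⟨l', h1, h3⟩ := SpnKer_list l hl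
  rw [h3] at hMl
  have h4 := SpnKer_det l' h1
  rw [← hMl, hd] at h4
  have h5 : (-1 : K) ≠ 1 := by
    intro h
    apply h2
    rw [← one_add_one_eq_two]
    nth_rewrite 1 [← h]
    exact neg_add_cancel 1
  have h6 : Even l'.length := (neg_one_pow_eq_one_iff_even h5).1 h4.symm
  obtain ⟨k, hk⟩ := h6
  rw [hMl]
  exact SpnKer_pair k l' (by omega) h1

end DC83
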