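import Pool.Agent.H.MP_83e36b_nt.dc.PermA
import Pool.Agent.H.MP_83e36b_nt.dc.SpnKer

/-! Generators of the double cover. -/

set_option autoImplicit false

open Matrix

namespace DC83

variable {n : ℕ}

/-- the rotation is determined by the element of the spin group (`Spn.conj`, `cV` is injective) -/
theorem Spn.unique {K : Type*} [Field K] (h2 : (2 : K) ≠ 0) {x : Matrix (Ix n) (Ix n) K}
    {M M' : Matrix (Fin n) (Fin n) K} (h : Spn x M) (h' : Spn x M') : M = M' := by
  have key : ∀ u : Fin n → K, M *ᵥ u = M' *ᵥ u := by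
    intro u
    have e1 : cV (M *ᵥ u) * x = cV (M' *ᵥ u) * x := by rw [← h.conj u, ← h'.conj u]
    have e2 : cV (M *ᵥ u) = cV (M' *ᵥ u) := by
      have := congrArg (· * xᵀ) e1
      simpa only [mul_assoc, h.mul_transpose.1, mul_one] using this
    have e3 : cV (M *ᵥ u - M' *ᵥ u) = 0 := by rw [cV_sub, e2, sub_self]
    have e4 : ∀ i, (M *ᵥ u - M' *ᵥ u) i = 0 := by
      intro i
      have e5 := cV_mul_add (M *ᵥ u - M' *ᵥ u) (Pi.single i (1 : K))
      rw [e3, zero_mul, mul_zero, add_zero, dotProduct_single, mul_one] at e5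
      have e6 := congrFun (congrFun e5 0) 0
      simp only [Matrix.zero_apply, Matrix.smul_apply, Matrix.one_apply_eq, smul_eq_mul,
        mul_one] at e6
      rcases mul_eq_zero.1 e6.symm with h | h
      · exact absurd h h2
      · exact h
    exact sub_eq_zero.1 (funext e4)
  ext i j
  have := congrFun (key (Pi.single j 1)) i
  simpa using this

private theorem hh_eq_pM {Ω : Type*} [Field Ω] {i j : Fin n} (hij : i ≠ j) {s : Ω}
    (hs : s * s * 2 = 1) :
    hh (s • ((Pi.single i 1 : Fin n → Ω) - Pi.single j 1)) = pM Ω (Equiv.swap i j) := by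
  ext a b
  have e : hh (s • ((Pi.single i 1 : Fin n → Ω) - Pi.single j 1)) a b =
      (if a = b then 1 else 0) - (s * s * 2) *
        (((if a = i then 1 else 0) - (if a = j then 1 else 0)) *
        ((if b = i then 1 else 0) - (if b = j then 1 else 0))) := by
    unfold hh
    rw [Matrix.sub_apply, Matrix.smul_apply, vecMulVec_apply, Matrix.one_apply]
    simp only [Pi.smul_apply, Pi.sub_apply, Pi.single_apply, smul_eq_mul]
    ring
  rw [e, hs, one_mul]
  unfold pM
  rw [Matrix.of_apply]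
  by_cases ha : a = i
  · subst ha
    rw [Equiv.swap_apply_left]
    by_cases hb : b = a
    · subst hb
      simp [hij, hij.symm]
    · by_cases hb' : b = j
      · subst hb'
        simp [hij, hij.symm]
      · have h1 : ¬ a = b := fun h => hb h.symm
        have h2 : ¬ j = b := fun h => hb' h.symm
        simp [hij, hb, hb', h1, h2]
  · by_cases ha' : a = j
    · subst ha'
      rw [Equiv.swap_apply_right]
      by_cases hb : b = i
      · subst hb
        simp [hij, hij.symm]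
      · by_cases hb' : b = a
        · subst hb'
          simp [hij, hij.symm]
        · have h1 : ¬ a = b := fun h => hb' h.symm
          have h2 : ¬ i = b := fun h => hb h.symm
          simp [hij.symm, hb, hb', h1, h2]
    · rw [Equiv.swap_apply_of_ne_of_ne ha ha', if_neg ha, if_neg ha']
      ring

/-- Generators: over a field with a square root of two, `w = (e_i - e_j) / √2` is a unit vector with
`hh w = pM (swap i j)`. -/
theorem spn_gen (Ω : Type*) [Field Ω] [CharZero Ω] [IsAlgClosed Ω] {i j k l : Fin n} (hij : i ≠ j)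
    (hkl : k ≠ l) : Spn (((1 / 2 : ℚ) • ((cE ℚ n i - cE ℚ n j) * (cE ℚ n k - cE ℚ n l))).map
      (Rat.castHom Ω)) (pM Ω (Equiv.swap i j * Equiv.swap k l)⁻¹) := by
  obtain ⟨s, hs⟩ := IsAlgClosed.exists_pow_nat_eq (1 / 2 : Ω) (n := 2) (by norm_num)
  have hs2 : s * s * 2 = 1 := by
    rw [← pow_two, hs]; norm_num
  have unit : ∀ {a b : Fin n}, a ≠ b →
      (s • ((Pi.single a 1 : Fin n → Ω) - Pi.single b 1)) ⬝ᵥ
        (s • ((Pi.single a 1 : Fin n → Ω) - Pi.single b 1)) = 1 := by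
    intro a b hab
    rw [smul_dotProduct, dotProduct_smul, sub_dotProduct, single_dotProduct, single_dotProduct]
    simp only [Pi.sub_apply, Pi.single_eq_same, Pi.single_eq_of_ne hab,
      Pi.single_eq_of_ne hab.symm, smul_eq_mul]
    linear_combination hs2
  have h := Spn.gen (unit hij) (unit hkl)
  rw [hh_eq_pM hij hs2, hh_eq_pM hkl hs2, pM_mul] at h
  have e1 : (Equiv.swap i j * Equiv.swap k l)⁻¹ = Equiv.swap k l * Equiv.swap i j := by
    rw [_root_.mul_inv_rev, Equiv.swap_inv, Equiv.swap_inv]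
  rw [e1]
  have e2 : ((1 / 2 : ℚ) • ((cE ℚ n i - cE ℚ n j) * (cE ℚ n k - cE ℚ n l))).map (Rat.castHom Ω) =
      cV (s • ((Pi.single i 1 : Fin n → Ω) - Pi.single j 1)) *
        cV (s • ((Pi.single k 1 : Fin n → Ω) - Pi.single l 1)) := by
    rw [cV_smul, cV_smul, cV_sub, cV_sub, cV_single, cV_single, cV_single, cV_single,
      smul_mul_smul_comm, ← pow_two, hs]
    have e3 : ∀ X : Matrix (Ix n) (Ix n) ℚ, ((1 / 2 : ℚ) • X).map (Rat.castHom Ω) =
        (1 / 2 : Ω) • X.map (Rat.castHom Ω) := by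
      intro X
      ext a b
      simp [Matrix.map_apply]
    have e4 : ∀ a b : Fin n, (cE ℚ n a - cE ℚ n b).map (Rat.castHom Ω) =
        cE Ω n a - cE Ω n b := by
      intro a b
      rw [← cE_map ℚ n (Rat.castHom Ω) a, ← cE_map ℚ n (Rat.castHom Ω) b]
      ext c d
      simp [Matrix.map_apply]
    rw [e3, Matrix.map_mul, e4, e4]
  rw [e2]
  exact h

/-- `-1` is in the group: `(1/2) (e_i - e_j) (e_j - e_i) = -1`. -/
theorem neg_one_mem (hn : 2 ≤ n) : (-1 : (Matrix (Ix n) (Ix n) ℚ)ˣ) ∈ dAlt n := by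
  have hij : (⟨0, by omega⟩ : Fin n) ≠ ⟨1, by omega⟩ := by
    intro h
    have := congrArg Fin.val h
    simp at this
  refine Subgroup.subset_closure ⟨⟨0, by omega⟩, ⟨1, by omega⟩, ⟨1, by omega⟩, ⟨0, by omega⟩, hij,
    hij.symm, ?_⟩
  have e1 := cE_sq ℚ n (⟨0, by omega⟩ : Fin n)
  have e2 := cE_sq ℚ n (⟨1, by omega⟩ : Fin n)
  have e3 := cE_anti ℚ n hij
  generalize cE ℚ n (⟨0, by omega⟩ : Fin n) = x at *
  generalize cE ℚ n (⟨1, by omega⟩ : Fin n) = y at *
  have e4 : (x - y) * (y - x) = -(2 : ℚ) • 1 := by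
    have : (x - y) * (y - x) = x * y + y * x - x * x - y * y := by noncomm_ring
    rw [this, e1, e2, e3]
    rw [neg_smul, two_smul]
    abel
  rw [e4, smul_smul]
  simp

/-- Proof: closure induction (`spn_gen`, `Spn.mul'`, `Spn.transpose` for the inverse: `x⁻¹ = xᵀ`). -/
theorem exists_perm (Ω : Type*) [Field Ω] [CharZero Ω] [IsAlgClosed Ω]
    (x : (Matrix (Ix n) (Ix n) ℚ)ˣ) (hx : x ∈ dAlt n) :
    ∃ σ : Equiv.Perm (Fin n), Spn ((x : Matrix (Ix n) (Ix n) ℚ).map (Rat.castHom Ω))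
      (pM Ω σ⁻¹) := by
  unfold dAlt at hx
  induction hx using Subgroup.closure_induction with
  | mem y hy =>
    obtain ⟨i, j, k, l, hij, hkl, e⟩ := hy
    exact ⟨_, by rw [e]; exact spn_gen Ω hij hkl⟩
  | one =>
    refine ⟨1, ?_⟩
    rw [Units.val_one, inv_one, pM_one, Matrix.map_one _ (map_zero _) (map_one _)]
    exact Spn.one
  | mul y z _ _ hy hz =>
    obtain ⟨σ, hσ⟩ := hy
    obtain ⟨τ, hτ⟩ := hz
    refine ⟨σ * τ, ?_⟩
    have := hσ.mul' hτ
    rwa [pM_mul, ← _root_.mul_inv_rev, ← Matrix.map_mul, ← Units.val_mul] at this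
  | inv y _ hy =>
    obtain ⟨σ, hσ⟩ := hy
    refine ⟨σ⁻¹, ?_⟩
    have h1 := hσ.transpose
    rw [pM_transpose] at h1
    have h2 : ((y : Matrix (Ix n) (Ix n) ℚ).map (Rat.castHom Ω))ᵀ =
        ((y⁻¹ : (Matrix (Ix n) (Ix n) ℚ)ˣ) : Matrix (Ix n) (Ix n) ℚ).map (Rat.castHom Ω) := by
      have h3 := hσ.mul_transpose.1
      have h4 : ((y⁻¹ : (Matrix (Ix n) (Ix n) ℚ)ˣ) : Matrix (Ix n) (Ix n) ℚ).map (Rat.castHom Ω) *
          (y : Matrix (Ix n) (Ix n) ℚ).map (Rat.castHom Ω) = 1 := by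
        rw [← Matrix.map_mul, Units.inv_mul, Matrix.map_one _ (map_zero _) (map_one _)]
      calc ((y : Matrix (Ix n) (Ix n) ℚ).map (Rat.castHom Ω))ᵀ
          = (((y⁻¹ : (Matrix (Ix n) (Ix n) ℚ)ˣ) : Matrix (Ix n) (Ix n) ℚ).map (Rat.castHom Ω) *
            (y : Matrix (Ix n) (Ix n) ℚ).map (Rat.castHom Ω)) *
            ((y : Matrix (Ix n) (Ix n) ℚ).map (Rat.castHom Ω))ᵀ := by rw [h4, one_mul]
        _ = _ := by rw [mul_assoc, h3, mul_one]
    rwa [h2] at h1

end DC83
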