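import Pool.Agent.H.MP_83e36b_nt.dc.Vec

/-! The spin group: the relation between the elements of the spin group and the rotations. -/

set_option autoImplicit false

open Matrix

namespace DC83

variable {K : Type*} [Field K] {n : ℕ}

/-- the reflection in the unit vector `v` -/
def hh (v : Fin n → K) : Matrix (Fin n) (Fin n) K := 1 - (2 : K) • vecMulVec v v

/-- `Spn x M`: `x` is a product of an even number of unit vectors, `M` is the product of the
corresponding reflections -/
inductive Spn : Matrix (Ix n) (Ix n) K → Matrix (Fin n) (Fin n) K → Prop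
  | one : Spn 1 1
  | mul (v w : Fin n → K) (hv : v ⬝ᵥ v = 1) (hw : w ⬝ᵥ w = 1) {x : Matrix (Ix n) (Ix n) K}
      {M : Matrix (Fin n) (Fin n) K} (h : Spn x M) : Spn (cV v * cV w * x) (hh v * hh w * M)

theorem hh_transpose (v : Fin n → K) : (hh v)ᵀ = hh v := by
  unfold hh
  rw [Matrix.transpose_sub, Matrix.transpose_one, Matrix.transpose_smul, Matrix.transpose_vecMulVec]

theorem hh_sq {v : Fin n → K} (hv : v ⬝ᵥ v = 1) : hh v * hh v = 1 := by
  have h : vecMulVec v v * vecMulVec v v = vecMulVec v v := by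
    rw [Matrix.vecMulVec_mul_vecMulVec, hv, one_smul]
  unfold hh
  rw [Matrix.mul_sub, Matrix.sub_mul, Matrix.sub_mul, Matrix.smul_mul, Matrix.smul_mul,
    Matrix.mul_one, Matrix.one_mul, Matrix.mul_one, Matrix.mul_smul, h]
  module

theorem hh_det {v : Fin n → K} (hv : v ⬝ᵥ v = 1) : (hh v).det = -1 := by
  have h : hh v = 1 + replicateCol Unit (-(2 : K) • v) * replicateRow Unit v := by
    unfold hh
    rw [← Matrix.vecMulVec_eq, Matrix.smul_vecMulVec, neg_smul, sub_eq_add_neg]
  rw [h, Matrix.det_one_add_replicateCol_mul_replicateRow, dotProduct_smul, hv, smul_eq_mul]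
  ring

/-- `v u v = 2 (u.v) v - u (v.v) = - (u - 2 (u.v) v)` -/
theorem cV_hh {v : Fin n → K} (hv : v ⬝ᵥ v = 1) (u : Fin n → K) :
    cV v * cV u = -(cV (hh v *ᵥ u) * cV v) := by
  have h1 : hh v *ᵥ u = u - (2 * (v ⬝ᵥ u)) • v := by
    unfold hh
    rw [Matrix.sub_mulVec, Matrix.one_mulVec, Matrix.smul_mulVec, Matrix.vecMulVec_mulVec, mul_smul,
      op_smul_eq_smul]
  have h2 := cV_mul_add v u
  rw [h1, cV_sub, cV_smul, sub_mul, Matrix.smul_mul, cV_sq, hv, one_smul, ← h2]
  abel

theorem Spn.gen {v w : Fin n → K} (hv : v ⬝ᵥ v = 1) (hw : w ⬝ᵥ w = 1) :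
    Spn (cV v * cV w) (hh v * hh w) := by
  have h := Spn.mul v w hv hw (Spn.one (K := K) (n := n))
  rwa [mul_one, mul_one] at h

theorem Spn.mul' {x y : Matrix (Ix n) (Ix n) K} {M L : Matrix (Fin n) (Fin n) K} (h : Spn x M)
    (h' : Spn y L) : Spn (x * y) (M * L) := by
  induction h with
  | one => rwa [one_mul, one_mul]
  | mul v w hv hw h ih =>
    rw [mul_assoc, mul_assoc (hh v * hh w)]
    exact Spn.mul v w hv hw ih

theorem Spn.transpose {x : Matrix (Ix n) (Ix n) K} {M : Matrix (Fin n) (Fin n) K} (h : Spn x M) :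
    Spn xᵀ Mᵀ := by
  induction h with
  | one =>
    rw [Matrix.transpose_one, Matrix.transpose_one]
    exact Spn.one
  | mul v w hv hw h ih =>
    rw [Matrix.transpose_mul, Matrix.transpose_mul, Matrix.transpose_mul, Matrix.transpose_mul,
      cV_transpose, cV_transpose, hh_transpose, hh_transpose]
    exact ih.mul' (Spn.gen hw hv)

theorem Spn.mul_transpose {x : Matrix (Ix n) (Ix n) K} {M : Matrix (Fin n) (Fin n) K}
    (h : Spn x M) : x * xᵀ = 1 ∧ xᵀ * x = 1 ∧ M * Mᵀ = 1 ∧ Mᵀ * M = 1 ∧ M.det = 1 := by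
  induction h with
  | one =>
    rw [Matrix.transpose_one, Matrix.transpose_one, mul_one, mul_one, Matrix.det_one]
    exact ⟨rfl, rfl, rfl, rfl, rfl⟩
  | @mul v w hv hw x M h ih =>
    obtain ⟨h1, h2, h3, h4, h5⟩ := ih
    have cv : cV v * cV v = 1 := by rw [cV_sq, hv, one_smul]
    have cw : cV w * cV w = 1 := by rw [cV_sq, hw, one_smul]
    have dv := hh_sq hv
    have dw := hh_sq hw
    rw [Matrix.transpose_mul, Matrix.transpose_mul, Matrix.transpose_mul, Matrix.transpose_mul,
      cV_transpose, cV_transpose, hh_transpose, hh_transpose]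
    refine ⟨?_, ?_, ?_, ?_, ?_⟩
    · calc cV v * cV w * x * (xᵀ * (cV w * cV v)) = cV v * cV w * (x * xᵀ) * (cV w * cV v) := by
            simp only [mul_assoc]
        _ = cV v * (cV w * cV w) * cV v := by
            rw [h1, mul_one]
            simp only [mul_assoc]
        _ = 1 := by rw [cw, mul_one, cv]
    · calc xᵀ * (cV w * cV v) * (cV v * cV w * x) = xᵀ * (cV w * (cV v * cV v) * cV w) * x := by
            simp only [mul_assoc]
        _ = 1 := by rw [cv, mul_one, cw, mul_one, h2]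
    · calc hh v * hh w * M * (Mᵀ * (hh w * hh v)) = hh v * hh w * (M * Mᵀ) * (hh w * hh v) := by
            simp only [mul_assoc]
        _ = hh v * (hh w * hh w) * hh v := by
            rw [h3, mul_one]
            simp only [mul_assoc]
        _ = 1 := by rw [dw, mul_one, dv]
    · calc Mᵀ * (hh w * hh v) * (hh v * hh w * M) = Mᵀ * (hh w * (hh v * hh v) * hh w) * M := by
            simp only [mul_assoc]
        _ = 1 := by rw [dv, mul_one, dw, mul_one, h4]
    · rw [Matrix.det_mul, Matrix.det_mul, hh_det hv, hh_det hw, h5]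
      norm_num

theorem Spn.conj {x : Matrix (Ix n) (Ix n) K} {M : Matrix (Fin n) (Fin n) K} (h : Spn x M)
    (u : Fin n → K) : x * cV u = cV (M *ᵥ u) * x := by
  induction h with
  | one => rw [one_mul, mul_one, Matrix.one_mulVec]
  | @mul v w hv hw x M h ih =>
    rw [mul_assoc, ih, ← Matrix.mulVec_mulVec, ← Matrix.mulVec_mulVec, mul_assoc (cV v),
      ← mul_assoc (cV w), cV_hh hw, neg_mul, mul_neg, mul_assoc, ← mul_assoc (cV v), cV_hh hv, neg_mul,
      neg_neg]
    simp only [mul_assoc]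

theorem Spn.comm_cF {x : Matrix (Ix n) (Ix n) K} {M : Matrix (Fin n) (Fin n) K} (h : Spn x M)
    (j : Fin n) : x * cF K n j = cF K n j * x := by
  induction h with
  | one => rw [one_mul, mul_one]
  | @mul v w hv hw x M h ih =>
    rw [mul_assoc, ih, mul_assoc (cV v), ← mul_assoc (cV w), cV_cF w j, neg_mul, mul_neg, mul_assoc,
      ← mul_assoc (cV v), cV_cF v j, neg_mul, neg_neg]
    simp only [mul_assoc]

theorem Spn.map {L : Type*} [Field L] (φ : K →+* L) {x : Matrix (Ix n) (Ix n) K}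
    {M : Matrix (Fin n) (Fin n) K} (h : Spn x M) : Spn (x.map φ) (M.map φ) := by
  have key : ∀ v : Fin n → K, (hh v).map φ = hh (fun i => φ (v i)) := by
    intro v
    ext i j
    simp only [hh, Matrix.map_apply, Matrix.sub_apply, Matrix.smul_apply, vecMulVec_apply,
      smul_eq_mul, map_sub, map_mul, Matrix.one_apply, map_ofNat]
    split_ifs <;> simp
  have key2 : ∀ v : Fin n → K, v ⬝ᵥ v = 1 → (fun i => φ (v i)) ⬝ᵥ (fun i => φ (v i)) = 1 := by
    intro v hv
    have := congrArg φ hv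
    rw [map_one] at this
    rw [← this]
    simp only [dotProduct, map_sum, map_mul]
  induction h with
  | one =>
    rw [Matrix.map_one φ (map_zero φ) (map_one φ), Matrix.map_one φ (map_zero φ) (map_one φ)]
    exact Spn.one
  | mul v w hv hw h ih =>
    rw [Matrix.map_mul, Matrix.map_mul, Matrix.map_mul, Matrix.map_mul, cV_map, cV_map, key, key]
    exact Spn.mul _ _ (key2 v hv) (key2 w hw) ih

theorem Spn.neg (hn : 0 < n) {x : Matrix (Ix n) (Ix n) K} {M : Matrix (Fin n) (Fin n) K}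
    (h : Spn x M) : Spn (-x) M := by
  have h1 : (Pi.single (⟨0, hn⟩ : Fin n) (1 : K)) ⬝ᵥ (Pi.single (⟨0, hn⟩ : Fin n) (1 : K)) = 1 := by
    rw [single_dotProduct, one_mul, Pi.single_eq_same]
  have h2 : (-(Pi.single (⟨0, hn⟩ : Fin n) (1 : K))) ⬝ᵥ (-(Pi.single (⟨0, hn⟩ : Fin n) (1 : K))) = 1 := by
    rw [neg_dotProduct_neg, h1]
  have h3 := (Spn.gen h1 h2).mul' h
  have h4 : cV (-(Pi.single (⟨0, hn⟩ : Fin n) (1 : K))) = -cV (Pi.single (⟨0, hn⟩ : Fin n) (1 : K)) := by
    rw [← neg_one_smul K, cV_smul, neg_one_smul]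
  have h5 : hh (-(Pi.single (⟨0, hn⟩ : Fin n) (1 : K))) = hh (Pi.single (⟨0, hn⟩ : Fin n) (1 : K)) := by
    unfold hh
    rw [Matrix.neg_vecMulVec, Matrix.vecMulVec_neg, neg_neg]
  rw [h4, h5, hh_sq h1, mul_neg, cV_sq, h1, one_smul, neg_mul, one_mul, one_mul] at h3
  exact h3

end DC83
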