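import Pool.Agent.H.MP_83e36b_nt.nr.SMain

/-! Adding variables on which the group acts trivially. -/

set_option autoImplicit false

namespace DC83

open CM83 NR83

/-- a field generated over `P` by finitely many algebraically independent elements -/
private theorem TrA_core {P : Type} [Field P] {E : Type} [Field E] [Algebra P E] {a : ℕ}
    (u : Fin a → E) (hu : AlgebraicIndependent P u)
    (htop : IntermediateField.adjoin P (Set.range u) = ⊤) :
    ∃ e : RF P a ≃ₐ[P] E, ∀ i, e (xv P i) = u i := by
  let f : RF P a →ₐ[P] E := IsFractionRing.liftAlgHom (K := RF P a) (g := MvPolynomial.aeval u) hu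
  have hf : ∀ i, f (xv P i) = u i := by
    intro i
    show IsFractionRing.liftAlgHom (K := RF P a) (g := MvPolynomial.aeval u) hu
      (algebraMap (MvPolynomial (Fin a) P) (RF P a) (MvPolynomial.X i)) = u i
    rw [IsFractionRing.liftAlgHom_apply, IsFractionRing.lift_algebraMap]
    exact MvPolynomial.aeval_X u i
  have hs : Function.Surjective f := by
    have h1 : IntermediateField.adjoin P (Set.range u) ≤ f.fieldRange := by
      rw [IntermediateField.adjoin_le_iff]
      rintro _ ⟨i, rfl⟩
      exact ⟨xv P i, hf i⟩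
    intro z
    have h2 : z ∈ f.fieldRange := h1 (by rw [htop]; exact IntermediateField.mem_top)
    exact h2
  exact ⟨AlgEquiv.ofBijective f ⟨f.toRingHom.injective, hs⟩, hf⟩

/-- the field of rational functions is generated by its variables -/
private theorem TrA_top (K : Type) [Field K] (b : ℕ) :
    IntermediateField.adjoin K (Set.range (xv K : Fin b → RF K b)) = ⊤ := by
  rw [eq_top_iff]
  intro z _
  have h3 : ∀ p : MvPolynomial (Fin b) K, algebraMap (MvPolynomial (Fin b) K) (RF K b) p ∈
      IntermediateField.adjoin K (Set.range (xv K : Fin b → RF K b)) := by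
    intro p
    induction p using MvPolynomial.induction_on with
    | C c =>
      have h4 : algebraMap (MvPolynomial (Fin b) K) (RF K b) (MvPolynomial.C c) =
          algebraMap K (RF K b) c := by
        rw [IsScalarTower.algebraMap_apply K (MvPolynomial (Fin b) K) (RF K b)]
        rfl
      rw [h4]
      exact IntermediateField.algebraMap_mem _ c
    | add p q hp hq =>
      rw [map_add]
      exact add_mem hp hq
    | mul_X p i hp =>
      rw [map_mul]
      exact mul_mem hp (IntermediateField.subset_adjoin K _ ⟨i, rfl⟩)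
  obtain ⟨p, q, _, rfl⟩ := IsFractionRing.div_surjective (MvPolynomial (Fin b) K) z
  exact div_mem (h3 p) (h3 q)

/-- `k(x_1, ..., x_d)(y_1, ..., y_b) ≅ k(x_1, ..., x_{d+b})` -/
private theorem TrA_rf {k : Type} [Field k] (d b : ℕ) :
    ∃ e : RF k (d + b) ≃ₐ[k] RF (RF k d) b,
      (∀ i : Fin d, e (xv k (Fin.castAdd b i)) = algebraMap (RF k d) (RF (RF k d) b) (xv k i)) ∧
      ∀ j : Fin b, e (xv k (Fin.natAdd d j)) = xv (RF k d) j := by
  let y : Fin b → RF (RF k d) b := fun j => xv (RF k d) j
  let x : Fin d → RF k d := fun i => xv k i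
  have hx : AlgebraicIndependent k x := xv_algInd
  have hy : AlgebraicIndependent (RF k d) y := xv_algInd
  have hu := AlgebraicIndependent.sumElim_comp hx hy
  let e : Fin (d + b) ≃ Fin b ⊕ Fin d := finSumFinEquiv.symm.trans (Equiv.sumComm _ _)
  obtain ⟨e1, he1⟩ := TrA_core (P := k) (E := RF (RF k d) b)
    (Sum.elim y (algebraMap (RF k d) (RF (RF k d) b) ∘ x) ∘ e) (hu.comp _ e.injective) (by
      rw [Set.range_comp, e.range_eq_univ, Set.image_univ, Set.Sum.elim_range, eq_top_iff]
      intro z _
      set F := IntermediateField.adjoin k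
        (Set.range y ∪ Set.range (algebraMap (RF k d) (RF (RF k d) b) ∘ x)) with hF
      have h1 : ∀ p : MvPolynomial (Fin d) k,
          algebraMap (RF k d) (RF (RF k d) b) (algebraMap (MvPolynomial (Fin d) k) (RF k d) p) ∈ F := by
        intro p
        induction p using MvPolynomial.induction_on with
        | C c =>
          have h2 : algebraMap (RF k d) (RF (RF k d) b)
              (algebraMap (MvPolynomial (Fin d) k) (RF k d) (MvPolynomial.C c)) =
              algebraMap k (RF (RF k d) b) c := by
            rw [IsScalarTower.algebraMap_apply k (RF k d) (RF (RF k d) b),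
              IsScalarTower.algebraMap_apply k (MvPolynomial (Fin d) k) (RF k d)]
            rfl
          rw [h2]
          exact F.algebraMap_mem c
        | add p q hp hq =>
          rw [map_add, map_add]
          exact F.add_mem hp hq
        | mul_X p i hp =>
          rw [map_mul, map_mul]
          exact F.mul_mem hp (IntermediateField.subset_adjoin k _ (Or.inr ⟨i, rfl⟩))
      have h2 : ∀ c : RF k d, algebraMap (RF k d) (RF (RF k d) b) c ∈ F := by
        intro c
        obtain ⟨p, q, _, rfl⟩ := IsFractionRing.div_surjective (MvPolynomial (Fin d) k) c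
        rw [map_div₀]
        exact F.div_mem (h1 p) (h1 q)
      have h3 : ∀ p : MvPolynomial (Fin b) (RF k d),
          algebraMap (MvPolynomial (Fin b) (RF k d)) (RF (RF k d) b) p ∈ F := by
        intro p
        induction p using MvPolynomial.induction_on with
        | C c =>
          have h4 : algebraMap (MvPolynomial (Fin b) (RF k d)) (RF (RF k d) b) (MvPolynomial.C c) =
              algebraMap (RF k d) (RF (RF k d) b) c := by
            rw [IsScalarTower.algebraMap_apply (RF k d) (MvPolynomial (Fin b) (RF k d)) (RF (RF k d) b)]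
            rfl
          rw [h4]
          exact h2 c
        | add p q hp hq =>
          rw [map_add]
          exact F.add_mem hp hq
        | mul_X p i hp =>
          rw [map_mul]
          exact F.mul_mem hp (IntermediateField.subset_adjoin k _ (Or.inl ⟨i, rfl⟩))
      obtain ⟨p, q, _, rfl⟩ := IsFractionRing.div_surjective (MvPolynomial (Fin b) (RF k d)) z
      exact F.div_mem (h3 p) (h3 q))
  refine ⟨e1, fun i => ?_, fun j => ?_⟩
  · rw [he1, Function.comp_apply]
    have h4 : e (Fin.castAdd b i) = Sum.inr i := by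
      show Sum.swap (finSumFinEquiv.symm (Fin.castAdd b i)) = Sum.inr i
      rw [finSumFinEquiv_symm_apply_castAdd]
      rfl
    rw [h4]
    rfl
  · rw [he1, Function.comp_apply]
    have h4 : e (Fin.natAdd d j) = Sum.inl j := by
      show Sum.swap (finSumFinEquiv.symm (Fin.natAdd d j)) = Sum.inl j
      rw [finSumFinEquiv_symm_apply_natAdd]
      rfl
    rw [h4]
    rfl

/-- the fixed field when the group acts on the coefficients and fixes the variables -/
private theorem TrA_fix {k : Type} [Field k] [CharZero k] {G : Type} [Group G] [Finite G]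
    {L : Type} [Field L] [Algebra k L] (α : G →* (L ≃ₐ[k] L)) (b : ℕ)
    (γ : G →* (RF L b ≃ₐ[k] RF L b))
    (h1 : ∀ g (a : L), γ g (algebraMap L (RF L b) a) = algebraMap L (RF L b) (α g a))
    (h2 : ∀ g i, γ g (xv L i) = xv L i) : Nonempty (RF (fixF α) b ≃ₐ[k] fixF γ) := by
  letI : MulSemiringAction G (RF L b) := MulSemiringAction.compHom (RF L b) γ
  have hsmul : ∀ (g : G) (x : RF L b), g • x = γ g x := fun g x => rfl
  have : CharZero L := charZero_of_injective_algebraMap (algebraMap k L).injective
  have hcoeff : ∀ (g : G) (a : L), ∃ b' : L,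
      g • algebraMap L (RF L b) a = algebraMap L (RF L b) b' :=
    fun g a => ⟨α g a, by rw [hsmul, h1]⟩
  have key : ∀ f : RF L b, f ∈ IntermediateField.adjoin (fixedCoeff L (RF L b) G)
      (Set.range (xv L : Fin b → RF L b)) →
      f ∈ IntermediateField.adjoin (fixF α) (Set.range (xv L : Fin b → RF L b)) := by
    intro f hf
    induction hf using IntermediateField.adjoin_induction with
    | mem x hx => exact IntermediateField.subset_adjoin _ _ hx
    | algebraMap x =>
      have hx : (x : L) ∈ fixF α := by
        rw [mem_fixF]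
        intro g
        apply (algebraMap L (RF L b)).injective
        rw [← h1]
        exact x.2 g
      exact IntermediateField.algebraMap_mem
        (IntermediateField.adjoin (fixF α) (Set.range (xv L : Fin b → RF L b)))
        (⟨(x : L), hx⟩ : fixF α)
    | add x y _ _ h3 h4 => exact add_mem h3 h4
    | inv x _ h3 => exact inv_mem h3
    | mul x y _ _ h3 h4 => exact mul_mem h3 h4
  have hgen : ∀ f : RF L b, (∀ g, γ g f = f) →
      f ∈ IntermediateField.adjoin (fixF α) (Set.range (xv L : Fin b → RF L b)) := by
    intro f hf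
    apply key
    exact descent (L := L) (E := RF L b) (G := G) hcoeff (fun p g => h2 g p) f
      (by rw [TrA_top]; exact IntermediateField.mem_top) (fun g => hf g)
  have hmem : ∀ a : fixF α, algebraMap L (RF L b) (a : L) ∈ fixF γ := by
    intro a
    rw [mem_fixF]
    intro g
    rw [h1, (mem_fixF α _).1 a.2 g]
  let ι : fixF α →+* fixF γ :=
    { toFun := fun a => ⟨algebraMap L (RF L b) (a : L), hmem a⟩
      map_one' := Subtype.ext (map_one (algebraMap L (RF L b)))
      map_zero' := Subtype.ext (map_zero (algebraMap L (RF L b)))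
      map_add' := fun a c => Subtype.ext (map_add (algebraMap L (RF L b)) (a : L) (c : L))
      map_mul' := fun a c => Subtype.ext (map_mul (algebraMap L (RF L b)) (a : L) (c : L)) }
  letI : Algebra (fixF α) (fixF γ) := ι.toAlgebra
  have hst : IsScalarTower k (fixF α) (fixF γ) := by
    refine IsScalarTower.of_algebraMap_eq fun a => Subtype.ext ?_
    show algebraMap k (RF L b) a = algebraMap L (RF L b) (algebraMap k L a)
    exact IsScalarTower.algebraMap_apply k L (RF L b) a
  have hst2 : IsScalarTower (fixF α) (fixF γ) (RF L b) :=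
    IsScalarTower.of_algebraMap_eq fun a => rfl
  have hu' : ∀ p : Fin b, xv L p ∈ fixF γ := fun p => (mem_fixF γ _).2 fun g => h2 g p
  obtain ⟨u', hu'1⟩ : ∃ u' : Fin b → fixF γ, ∀ p, ((u' p : fixF γ) : RF L b) = xv L p :=
    ⟨fun p => ⟨xv L p, hu' p⟩, fun p => rfl⟩
  let f : fixF γ →ₐ[fixF α] RF L b := IsScalarTower.toAlgHom (fixF α) (fixF γ) (RF L b)
  have hf : ∀ z : fixF γ, f z = (z : RF L b) := fun z => rfl
  have hcomp : (f ∘ u') = (xv L : Fin b → RF L b) := funext fun p => by
    rw [Function.comp_apply, hf, hu'1]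
  have halg : AlgebraicIndependent (fixF α) (xv L : Fin b → RF L b) :=
    (xv_algInd (k := L) (n := b)).restrictScalars (algebraMap (fixF α) L).injective
  have h3 : AlgebraicIndependent (fixF α) u' := by
    refine AlgebraicIndependent.of_comp f ?_
    rw [hcomp]
    exact halg
  have h4 : IntermediateField.adjoin (fixF α) (Set.range u') = ⊤ := by
    rw [eq_top_iff]
    intro z _
    have h5 : (z : RF L b) ∈ IntermediateField.adjoin (fixF α)
        (Set.range (xv L : Fin b → RF L b)) :=
      hgen z fun g => (mem_fixF γ _).1 z.2 g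
    have h6 : (IntermediateField.adjoin (fixF α) (Set.range u')).map f =
        IntermediateField.adjoin (fixF α) (Set.range (xv L : Fin b → RF L b)) := by
      rw [IntermediateField.adjoin_map, ← Set.range_comp, hcomp]
    rw [← h6] at h5
    obtain ⟨z', hz', hzz⟩ := h5
    have h7 : z' = z := Subtype.ext hzz
    rw [← h7]
    exact hz'
  obtain ⟨e, -⟩ := TrA_core u' h3 h4
  exact ⟨e.restrictScalars k⟩

/-- the fixed field of a transported action -/
private theorem TrA_equiv {k : Type} [Field k] {G : Type} [Group G] {E F : Type} [Field E]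
    [Algebra k E] [Field F] [Algebra k F] (γ : G →* (E ≃ₐ[k] E)) (δ : G →* (F ≃ₐ[k] F))
    (e : F ≃ₐ[k] E) (h : ∀ g x, e (δ g x) = γ g (e x)) : Nonempty (fixF γ ≃ₐ[k] fixF δ) := by
  have h1 : ∀ x : F, x ∈ fixF δ ↔ e x ∈ fixF γ := by
    intro x
    rw [mem_fixF, mem_fixF]
    refine forall_congr' fun g => ?_
    rw [← h, e.injective.eq_iff]
  have h2 : (fixF δ).map (e : F →ₐ[k] E) = fixF γ := by
    ext y
    constructor
    · rintro ⟨x, hx, rfl⟩
      exact (h1 x).1 hx
    · intro hy
      refine ⟨e.symm y, (h1 _).2 ?_, ?_⟩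
      · rw [e.apply_symm_apply]
        exact hy
      · exact e.apply_symm_apply y
  have e2 : fixF δ ≃ₐ[k] (fixF δ).map (e : F →ₐ[k] E) := IntermediateField.equivMap _ _
  rw [h2] at e2
  exact ⟨e2.symm⟩

/-- Proof: `d' = d + b`, `β'` acts on the first `d` variables as `β` and fixes the last `b` variables
(`SemiLin.exists_coeff`, `exists_semi` in nr/Semi.lean).  The fixed field of `β'` is generated over
the image of `fixF β` by the last `b` variables: `CM83.descent` (as in the proof of `noname` in
nr/PT.lean, with `L = RF k d`, `E = RF k (d + b)`, `u` = the last variables).  These are algebraically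
independent over it; the isomorphism is `rf_of_algInd` (nr/SI.lean). -/
theorem tr_norm {k : Type} [Field k] [CharZero k] {G : Type} [Group G] [Finite G] {d : ℕ}
    (β : G →* (RF k d ≃ₐ[k] RF k d)) (hβ : SemiLin (1 : G →* (k ≃ₐ[k] k)) β) (b : ℕ) :
    ∃ (d' : ℕ) (β' : G →* (RF k d' ≃ₐ[k] RF k d')), SemiLin (1 : G →* (k ≃ₐ[k] k)) β' ∧
      Nonempty (RF (fixF β) b ≃ₐ[k] fixF β') := by
  obtain ⟨γ, h1, h2⟩ := exists_repAct (k := k) (E := RF k d) β
    (1 : G →* Matrix.GeneralLinearGroup (Fin b) k)
  have h2' : ∀ g (i : Fin b), γ g (xv (RF k d) i) = xv (RF k d) i := by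
    intro g i
    rw [h2, Finset.sum_eq_single i]
    · rw [MonoidHom.one_apply, Units.val_one, Matrix.one_apply_eq, map_one, one_mul]
    · intro j _ hj
      rw [MonoidHom.one_apply, Units.val_one, Matrix.one_apply_ne hj, map_zero, zero_mul]
    · intro h
      exact absurd (Finset.mem_univ i) h
  obtain ⟨e, he1, he2⟩ := TrA_rf (k := k) d b
  obtain ⟨e3⟩ := TrA_fix β b γ h1 h2'
  let δ : G →* (RF k (d + b) ≃ₐ[k] RF k (d + b)) :=
    (AlgEquiv.autCongr e.symm : (RF (RF k d) b ≃ₐ[k] RF (RF k d) b) ≃*
      (RF k (d + b) ≃ₐ[k] RF k (d + b))).toMonoidHom.comp γ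
  have hδ : ∀ g x, δ g x = e.symm (γ g (e x)) := fun g x => rfl
  obtain ⟨c, hc⟩ := hβ.exists_coeff
  refine ⟨d + b, δ, ⟨?_, ?_, ?_⟩, ?_⟩
  · intro g a
    rw [AlgEquiv.commutes]
    rfl
  · intro g i
    refine Fin.addCases (fun i => ?_) (fun j => ?_) i
    · have h4 : δ g (xv k (Fin.castAdd b i)) =
          ∑ j, algebraMap k (RF k (d + b)) (c g i j) * xv k (Fin.castAdd b j) := by
        apply e.injective
        rw [hδ, e.apply_symm_apply, he1, h1, hc, map_sum, map_sum]
        refine Finset.sum_congr rfl fun j _ => ?_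
        rw [map_mul, map_mul, he1, AlgEquiv.commutes,
          IsScalarTower.algebraMap_apply k (RF k d) (RF (RF k d) b)]
      rw [h4]
      refine Submodule.sum_mem _ fun j _ => ?_
      rw [← Algebra.smul_def]
      exact Submodule.smul_mem _ _ (Submodule.subset_span ⟨_, rfl⟩)
    · have h4 : δ g (xv k (Fin.natAdd d j)) = xv k (Fin.natAdd d j) := by
        apply e.injective
        rw [hδ, e.apply_symm_apply, he2, h2']
      rw [h4]
      exact Submodule.subset_span ⟨_, rfl⟩
  · intro g g' hgg
    apply hβ.inj
    apply AlgEquiv.ext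
    intro a
    apply (algebraMap (RF k d) (RF (RF k d) b)).injective
    rw [← h1, ← h1]
    have h5 := DFunLike.congr_fun hgg (e.symm (algebraMap (RF k d) (RF (RF k d) b) a))
    rw [hδ, hδ, e.apply_symm_apply] at h5
    exact e.symm.injective h5
  · obtain ⟨e4⟩ := TrA_equiv γ δ e (fun g x => by rw [hδ, e.apply_symm_apply])
    exact ⟨e3.trans e4⟩

end DC83
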