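import Pool.Agent.H.MP_83e36b_nt.dc.Gal
import Pool.Agent.H.MP_83e36b_nt.dc.Res

/-! The parameters of a local point on a twist. -/

set_option autoImplicit false

open Matrix

namespace DC83

/-- The local parameters.  Proof: for compatible `τ₀ = r τ` (`exists_res` of dc/Res.lean) and
`c = (ι T)⁻¹ (M g₀) w`: `τ c = c`, since `τ (ι T) = ι (T.map τ₀) = M (ρ₀ τ₀)⁻¹ ι T`,
`τ w = M (ρ τ)⁻¹ w`, `ρ₀ τ₀ = g₀ ρ τ g₀⁻¹`; so `c` has coordinates in `K` (`exists_of_fixed`). -/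
theorem loc_param {G : Type} [Group G] {d : ℕ} {M : G →* (Matrix (Fin d) (Fin d) ℚ)ˣ}
    {K : Type} [Field K] [CharZero K] {Ω : Type} [Field Ω] [CharZero Ω] [Algebra K Ω]
    [IsAlgClosed Ω] [Algebra.IsAlgebraic K Ω] {Ω₀ : Type} [Field Ω₀] [CharZero Ω₀] [Algebra ℚ Ω₀]
    [IsAlgClosed Ω₀] [Algebra.IsAlgebraic ℚ Ω₀] (ι : Ω₀ →+* Ω) {ρ : (Ω ≃ₐ[K] Ω) →* G}
    {ρ₀ : (Ω₀ ≃ₐ[ℚ] Ω₀) →* G} {g₀ : G}
    (hg : ∀ τ τ₀, (∀ x, ι (τ₀ x) = τ (ι x)) → ρ₀ τ₀ = g₀ * ρ τ * g₀⁻¹)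
    {T : Matrix (Fin d) (Fin d) Ω₀} (hTd : T.det ≠ 0)
    (hT : ∀ τ : Ω₀ ≃ₐ[ℚ] Ω₀, T.map τ = (((M (ρ₀ τ))⁻¹ : (Matrix (Fin d) (Fin d) ℚ)ˣ) :
      Matrix (Fin d) (Fin d) ℚ).map (Rat.cast : ℚ → Ω₀) * T) {w : Fin d → Ω}
    (hw : ∀ τ i, τ (w i) = ∑ j, ((((M (ρ τ))⁻¹ : (Matrix (Fin d) (Fin d) ℚ)ˣ) :
      Matrix (Fin d) (Fin d) ℚ) i j : Ω) * w j) :
    ∃ c : Fin d → K, (T.map ι) *ᵥ (fun i => algebraMap K Ω (c i)) =
      ((M g₀ : Matrix (Fin d) (Fin d) ℚ).map (Rat.cast : ℚ → Ω)) *ᵥ w := by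
  obtain ⟨r, hr⟩ := exists_res (K := K) ι
  obtain ⟨Φ, hΦ⟩ : ∃ Φ : Matrix (Fin d) (Fin d) ℚ →+* Matrix (Fin d) (Fin d) Ω,
    Φ = (Rat.castHom Ω).mapMatrix := ⟨_, rfl⟩
  have hΦa : ∀ (A : Matrix (Fin d) (Fin d) ℚ) (i j : Fin d), Φ A i j = ((A i j : ℚ) : Ω) := by
    intro A i j
    rw [hΦ]
    rfl
  have hΦm : ∀ A : Matrix (Fin d) (Fin d) ℚ, A.map (Rat.cast : ℚ → Ω) = Φ A := by
    intro A
    rw [hΦ]
    rfl
  have hdet : IsUnit (T.map ι).det := by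
    rw [← RingHom.mapMatrix_apply, ← RingHom.map_det]
    exact isUnit_iff_ne_zero.2 ((map_ne_zero ι).2 hTd)
  obtain ⟨c', hc'⟩ : ∃ c' : Fin d → Ω, c' = (T.map ι)⁻¹ *ᵥ (Φ (M g₀) *ᵥ w) := ⟨_, rfl⟩
  have hc : (T.map ι) *ᵥ c' = Φ (M g₀) *ᵥ w := by
    rw [hc', mulVec_mulVec, mul_nonsing_inv _ hdet, one_mulVec]
  have hfix : ∀ (τ : Ω ≃ₐ[K] Ω) (i : Fin d), τ (c' i) = c' i := by
    intro τ
    obtain ⟨σ, hσ⟩ : ∃ σ : Ω →+* Ω, σ = (τ : Ω →+* Ω) := ⟨_, rfl⟩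
    have hσa : ∀ x, σ x = τ x := fun x => by
      rw [hσ]
      rfl
    have h1 : (T.map ι).map σ = Φ ((M (ρ₀ (r τ)))⁻¹ : (Matrix (Fin d) (Fin d) ℚ)ˣ) * T.map ι := by
      ext i j
      rw [map_apply, map_apply, hσa, ← hr]
      have h2 := congrFun (congrFun (hT (r τ)) i) j
      rw [map_apply] at h2
      rw [h2, mul_apply, mul_apply, map_sum]
      refine Finset.sum_congr rfl fun k _ => ?_
      rw [map_mul, map_apply, map_apply, hΦa, map_ratCast]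
    have h2 : σ ∘ w = Φ ((M (ρ τ))⁻¹ : (Matrix (Fin d) (Fin d) ℚ)ˣ) *ᵥ w := by
      funext i
      rw [Function.comp_apply, hσa, hw τ i]
      simp only [mulVec, dotProduct, hΦa]
    have h3 : (Φ (M g₀)).map σ = Φ (M g₀) := by
      ext i j
      rw [map_apply, hΦa, map_ratCast]
    have h4 : (T.map ι).map σ *ᵥ (σ ∘ c') = (Φ (M g₀)).map σ *ᵥ (σ ∘ w) := by
      funext i
      rw [← RingHom.map_mulVec, ← RingHom.map_mulVec, hc]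
    rw [h1, h2, h3, mulVec_mulVec] at h4
    have h5 : M (ρ₀ (r τ)) = M g₀ * M (ρ τ) * (M g₀)⁻¹ := by
      rw [hg τ (r τ) (hr τ), map_mul, map_mul, map_inv]
    have h6 : Φ (M (ρ₀ (r τ))) * Φ ((M (ρ₀ (r τ)))⁻¹ : (Matrix (Fin d) (Fin d) ℚ)ˣ) = 1 := by
      rw [← map_mul, ← Units.val_mul, mul_inv_cancel, Units.val_one, map_one]
    have h7 : Φ (M (ρ₀ (r τ))) * (Φ (M g₀) * Φ ((M (ρ τ))⁻¹ : (Matrix (Fin d) (Fin d) ℚ)ˣ)) =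
        Φ (M g₀) := by
      rw [← map_mul, ← map_mul, ← Units.val_mul, ← Units.val_mul, h5]
      congr 2
      group
    have h8 : (T.map ι) *ᵥ (σ ∘ c') = (T.map ι) *ᵥ c' := by
      have h9 := congrArg (fun v => Φ (M (ρ₀ (r τ))) *ᵥ v) h4
      beta_reduce at h9
      rw [mulVec_mulVec, mulVec_mulVec, ← Matrix.mul_assoc, h6, Matrix.one_mul, h7] at h9
      rw [h9, hc]
    have h9 := congrArg (fun v => (T.map ι)⁻¹ *ᵥ v) h8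
    beta_reduce at h9
    rw [mulVec_mulVec, mulVec_mulVec, nonsing_inv_mul _ hdet, one_mulVec, one_mulVec] at h9
    intro i
    rw [← hσa]
    exact congrFun h9 i
  choose c hcc using fun i => exists_of_fixed (K := K) (fun τ => hfix τ i)
  refine ⟨c, ?_⟩
  have h1 : (fun i => algebraMap K Ω (c i)) = c' := funext hcc
  rw [h1, hΦm]
  exact hc

end DC83
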