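import Pool.Agent.H.MP_83e36b_nt.dc.TrA
import Pool.Agent.H.MP_83e36b_nt.dc.TrB
import Pool.Agent.H.MP_83e36b_nt.dc.TrBp
import Pool.Agent.H.MP_83e36b_nt.dc.TrC
import Pool.Agent.H.MP_83e36b_nt.dc.TrDa
import Pool.Agent.H.MP_83e36b_nt.dc.TrD
import Pool.Agent.H.MP_83e36b_nt.dc.TrE
import Pool.Agent.H.MP_83e36b_nt.dc.TrF
import Pool.Agent.H.MP_83e36b_nt.dc.TrGp
import Pool.Agent.H.MP_83e36b_nt.dc.H90
import Pool.Agent.H.MP_83e36b_nt.dc.GDef
import Pool.Agent.H.MP_83e36b_nt.dc.Res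
import Pool.Agent.H.MP_83e36b_nt.sp.LWa
import Pool.Agent.H.MP_83e36b_nt.wa.Local

/-! From the Grunwald problem to weak approximation. -/

set_option autoImplicit false

open Matrix Polynomial SpinWA Topology

namespace DC83

open CM83 NR83 WA83

universe u

attribute [local instance 2000] OreLocalization.instAlgebra IntermediateField.algebra' Algebra.id

/-- the point of the affine space given by the values of rational functions -/
private def TrG_F {K : Type} [Field K] (φ : ℚ →+* K) {d m : ℕ} (D C' : MvPolynomial (Fin d) ℚ)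
    (C : Fin m → MvPolynomial (Fin d) ℚ) (x : Fin d → K) : (Fin m → K) × K :=
  (fun j => MvPolynomial.eval₂ φ x (C j) / MvPolynomial.eval₂ φ x D,
    MvPolynomial.eval₂ φ x C' / MvPolynomial.eval₂ φ x D)

private theorem TrG_Fcont {K : Type} [NormedField K] (φ : ℚ →+* K) {d m : ℕ}
    (D C' : MvPolynomial (Fin d) ℚ) (C : Fin m → MvPolynomial (Fin d) ℚ) (c : Fin d → K)
    (hD : MvPolynomial.eval₂ φ c D ≠ 0) : ContinuousAt (TrG_F φ D C' C) c := by
  have hDc : ContinuousAt (fun x : Fin d → K => MvPolynomial.eval₂ φ x D) c :=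
    (cont' φ D).continuousAt
  have hXc : ∀ j, ContinuousAt (fun x : Fin d → K => MvPolynomial.eval₂ φ x (C j) /
      MvPolynomial.eval₂ φ x D) c := fun j => (cont' φ (C j)).continuousAt.div hDc hD
  have hYc : ContinuousAt (fun x : Fin d → K => MvPolynomial.eval₂ φ x C' /
      MvPolynomial.eval₂ φ x D) c := (cont' φ C').continuousAt.div hDc hD
  exact (continuousAt_pi.2 hXc).prodMk hYc

/-- the open set of the approximation, in the coordinates of the variety -/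
private def TrG_U {K : Type} [NormedField K] (φ : ℚ →+* K) {m : ℕ}
    (q₁ q₂ : (MvPolynomial (Fin m) ℚ)[X]) (X : Fin m → K) (Y : K) (ε : ℝ) :
    Set ((Fin m → K) × K) :=
  {p | (∀ j, ‖p.1 j - X j‖ < ε) ∧ ‖p.2 - Y‖ < ε ∧ evP φ p.1 p.2 q₁ ≠ 0 ∧ evP φ p.1 p.2 q₂ ≠ 0}

private theorem TrG_Unhds {K : Type} [NormedField K] (φ : ℚ →+* K) {m : ℕ}
    (q₁ q₂ : (MvPolynomial (Fin m) ℚ)[X]) (X : Fin m → K) (Y : K) (ε : ℝ)
    (p : (Fin m → K) × K) (hp : p ∈ TrG_U φ q₁ q₂ X Y ε) : TrG_U φ q₁ q₂ X Y ε ∈ 𝓝 p := by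
  have h1 := (((cont φ q₁).continuousAt (x := p)).eventually_ne hp.2.2.1)
  have h2 := (((cont φ q₂).continuousAt (x := p)).eventually_ne hp.2.2.2)
  have h3 : ∀ᶠ q : (Fin m → K) × K in 𝓝 p, ∀ j, ‖q.1 j - X j‖ < ε := by
    rw [Filter.eventually_all]
    intro j
    have h4 : ContinuousAt (fun q : (Fin m → K) × K => ‖q.1 j - X j‖) p :=
      (((continuous_apply j).comp continuous_fst).sub continuous_const).norm.continuousAt
    exact h4.eventually_lt continuousAt_const (hp.1 j)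
  have h5 : ∀ᶠ q : (Fin m → K) × K in 𝓝 p, ‖q.2 - Y‖ < ε := by
    have h4 : ContinuousAt (fun q : (Fin m → K) × K => ‖q.2 - Y‖) p :=
      (continuous_snd.sub continuous_const).norm.continuousAt
    exact h4.eventually_lt continuousAt_const hp.2.1
  exact h3.and (h5.and (h1.and h2))

/-- the open set of the approximation, in the coordinates of the affine space -/
private def TrG_set {K : Type} [NormedField K] (φ : ℚ →+* K) {d m : ℕ}
    (q₁ q₂ : (MvPolynomial (Fin m) ℚ)[X]) (D C' : MvPolynomial (Fin d) ℚ)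
    (C : Fin m → MvPolynomial (Fin d) ℚ) (X : Fin m → K) (Y : K) (ε : ℝ) : Set (Fin d → K) :=
  {x | MvPolynomial.eval₂ φ x D ≠ 0 ∧ TrG_F φ D C' C x ∈ TrG_U φ q₁ q₂ X Y ε}

/-- the set is a neighbourhood of each of its points -/
private theorem TrG_nhds {K : Type} [NormedField K] (φ : ℚ →+* K) {d m : ℕ}
    (q₁ q₂ : (MvPolynomial (Fin m) ℚ)[X]) (D C' : MvPolynomial (Fin d) ℚ)
    (C : Fin m → MvPolynomial (Fin d) ℚ) (X : Fin m → K) (Y : K) (ε : ℝ) (c : Fin d → K)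
    (hc : c ∈ TrG_set φ q₁ q₂ D C' C X Y ε) : TrG_set φ q₁ q₂ D C' C X Y ε ∈ 𝓝 c := by
  have hDc : ContinuousAt (fun x : Fin d → K => MvPolynomial.eval₂ φ x D) c :=
    (cont' φ D).continuousAt
  have h1 := hDc.eventually_ne hc.1
  have h2 := (TrG_Fcont φ D C' C c hc.1).eventually (TrG_Unhds φ q₁ q₂ X Y ε _ hc.2)
  exact h1.and h2

private theorem TrG_val {K : Type} [Field K] (φ : ℚ →+* K) {d : ℕ} (r : Fin d → ℚ)
    (Q : MvPolynomial (Fin d) ℚ) : MvPolynomial.eval₂ φ (fun i => φ (r i)) Q =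
      φ (MvPolynomial.eval₂ (RingHom.id ℚ) r Q) := by
  rw [MvPolynomial.hom_eval₂, RingHom.comp_id]

/-- the values at a rational point -/
private theorem TrG_Frat {K : Type} [Field K] (φ : ℚ →+* K) {d m : ℕ}
    (D C' : MvPolynomial (Fin d) ℚ) (C : Fin m → MvPolynomial (Fin d) ℚ) (r : Fin d → ℚ) :
    TrG_F φ D C' C (fun i => φ (r i)) =
      ((fun j => φ ((TrG_F (RingHom.id ℚ) D C' C r).1 j)),
        φ (TrG_F (RingHom.id ℚ) D C' C r).2) := by
  unfold TrG_F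
  simp only [TrG_val, map_div₀]

/-- a rational point of the set -/
private theorem TrG_rat {K : Type} [NormedField K] (φ : ℚ →+* K) {d m : ℕ}
    (q₁ q₂ : (MvPolynomial (Fin m) ℚ)[X]) (D C' : MvPolynomial (Fin d) ℚ)
    (C : Fin m → MvPolynomial (Fin d) ℚ) (X : Fin m → K) (Y : K) (ε : ℝ) (r : Fin d → ℚ)
    (hc : (fun i => φ (r i)) ∈ TrG_set φ q₁ q₂ D C' C X Y ε) :
    MvPolynomial.eval₂ (RingHom.id ℚ) r D ≠ 0 ∧
    (∀ j, ‖φ ((TrG_F (RingHom.id ℚ) D C' C r).1 j) - X j‖ < ε) ∧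
    ‖φ (TrG_F (RingHom.id ℚ) D C' C r).2 - Y‖ < ε ∧
    evP (RingHom.id ℚ) (TrG_F (RingHom.id ℚ) D C' C r).1
      (TrG_F (RingHom.id ℚ) D C' C r).2 q₁ ≠ 0 ∧
    evP (RingHom.id ℚ) (TrG_F (RingHom.id ℚ) D C' C r).1
      (TrG_F (RingHom.id ℚ) D C' C r).2 q₂ ≠ 0 := by
  obtain ⟨h1, h2⟩ := hc
  rw [TrG_Frat] at h2
  obtain ⟨h2, h3, h4, h5⟩ := h2
  refine ⟨fun h => h1 ?_, h2, h3, fun h => h4 ?_, fun h => h5 ?_⟩
  · rw [TrG_val, h, map_zero]
  · rw [evP_comp, h, map_zero]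
  · rw [evP_comp, h, map_zero]

/-- the approximation at the places of `S` -/
private theorem TrG_core {d m : ℕ} {f g : (MvPolynomial (Fin m) ℚ)[X]} (S : Finset Pl)
    (P : ∀ v : Pl, Pts f g (emb v)) {ε : ℝ} (D C' : MvPolynomial (Fin d) ℚ)
    (C : Fin m → MvPolynomial (Fin d) ℚ) (c : ∀ v : Pl, Fin d → Cpl v)
    (hc : ∀ v ∈ insert none S, c v ∈ TrG_set (emb v) (derivative f) g D C' C
      (P v).1.1 (P v).1.2 ε)
    (hf : ∀ r : Fin d → ℚ, MvPolynomial.eval₂ (RingHom.id ℚ) r D ≠ 0 → evP (RingHom.id ℚ)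
      (TrG_F (RingHom.id ℚ) D C' C r).1 (TrG_F (RingHom.id ℚ) D C' C r).2 f = 0) :
    ∃ p : Pts f g (RingHom.id ℚ), ∀ v ∈ S,
      (∀ j, ‖(mapPts (emb v) p).1.1 j - (P v).1.1 j‖ < ε) ∧
        ‖(mapPts (emb v) p).1.2 - (P v).1.2‖ < ε := by
  classical
  obtain ⟨r, hr⟩ := wa_fun (insert none S) c
    (fun v => TrG_set (emb v) (derivative f) g D C' C (P v).1.1 (P v).1.2 ε)
    (fun v hv => TrG_nhds (emb v) _ _ _ _ _ _ _ _ _ (hc v hv))
  have hr' := fun v hv => TrG_rat (emb v) _ _ _ _ _ _ _ _ r (hr v hv)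
  obtain ⟨h1, -, -, h4, h5⟩ := hr' none (Finset.mem_insert_self _ _)
  refine ⟨⟨TrG_F (RingHom.id ℚ) D C' C r, hf r h1, h4, h5⟩, fun v hv => ⟨fun j => ?_, ?_⟩⟩
  · exact (hr' v (Finset.mem_insert_of_mem hv)).2.1 j
  · exact (hr' v (Finset.mem_insert_of_mem hv)).2.2.1

/-- an embedding of the field of rational functions at a polynomial -/
private theorem TrG_eval {d : ℕ} {Ω : Type} [Field Ω] (θ' : RF ℚ d →+* Ω) (φ : ℚ →+* Ω)
    (P : MvPolynomial (Fin d) ℚ) : MvPolynomial.eval₂ φ (fun i => θ' (xv ℚ i)) P =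
      θ' (algebraMap (MvPolynomial (Fin d) ℚ) (RF ℚ d) P) := by
  have h : MvPolynomial.eval₂Hom φ (fun i => θ' (xv ℚ i)) =
      θ'.comp (algebraMap (MvPolynomial (Fin d) ℚ) (RF ℚ d)) := by
    apply MvPolynomial.ringHom_ext
    · intro c
      have h1 : (MvPolynomial.eval₂Hom φ (fun i => θ' (xv ℚ i))).comp MvPolynomial.C =
          (θ'.comp (algebraMap (MvPolynomial (Fin d) ℚ) (RF ℚ d))).comp MvPolynomial.C :=
        RingHom.ext_rat _ _
      exact RingHom.congr_fun h1 c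
    · intro i
      rw [MvPolynomial.eval₂Hom_X']
      rfl
  exact RingHom.congr_fun h P

/-- the value of a twisted polynomial at the local parameters -/
private theorem TrG_place {G : Type} [Group G] {d : ℕ} (β : G →* (RF ℚ d ≃ₐ[ℚ] RF ℚ d))
    {M : G →* (Matrix (Fin d) (Fin d) ℚ)ˣ}
    (hM : ∀ g i, β g⁻¹ (xv ℚ i) =
      ∑ j, algebraMap ℚ (RF ℚ d) ((M g : Matrix (Fin d) (Fin d) ℚ) i j) * xv ℚ j)
    {P P' : MvPolynomial (Fin d) ℚ}
    (hP : ∀ g, β g (algebraMap _ (RF ℚ d) P) = algebraMap _ (RF ℚ d) P)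
    {K : Type} [Field K] {Ω : Type} [Field Ω] [Algebra K Ω] (φ : ℚ →+* K) (ι : Qb →+* Ω)
    {T : Matrix (Fin d) (Fin d) Qb}
    (hP' : ∀ (L : Type) [Field L] (j : Qb →+* L) (c : Fin d → L),
      MvPolynomial.eval₂ (j.comp (algebraMap ℚ Qb)) c P' =
        MvPolynomial.eval₂ (j.comp (algebraMap ℚ Qb)) ((T.map j) *ᵥ c) P)
    (θ' : RF ℚ d →+* Ω) (g₀ : G) (c : Fin d → K)
    (hc : (T.map ι) *ᵥ (fun i => algebraMap K Ω (c i)) =
      ((M g₀ : Matrix (Fin d) (Fin d) ℚ).map (Rat.cast : ℚ → Ω)) *ᵥ (fun i => θ' (xv ℚ i))) :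
    algebraMap K Ω (MvPolynomial.eval₂ φ c P') = θ' (algebraMap _ (RF ℚ d) P) := by
  have h1 : algebraMap K Ω (MvPolynomial.eval₂ φ c P') =
      MvPolynomial.eval₂ ((algebraMap K Ω).comp φ) (fun i => algebraMap K Ω (c i)) P' :=
    MvPolynomial.hom_eval₂ _ _ _ _
  have h2 : (algebraMap K Ω).comp φ = ι.comp (algebraMap ℚ Qb) := RingHom.ext_rat _ _
  have h3 : (Rat.cast : ℚ → Ω) = (ι.comp (algebraMap ℚ Qb)) :=
    funext fun q => (eq_ratCast (ι.comp (algebraMap ℚ Qb)) q).symm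
  rw [h1, h2, hP' Ω ι, hc, h3, eval_invariant β hM hP, TrG_eval]

/-- a homomorphism at a polynomial in `ξ`, `η` -/
private theorem TrG_hom {m : ℕ} {F : Type u} [Field F] [Algebra ℚ F] (ξ : Fin m → F) (η : F)
    {L : Type*} [Field L] (ψ : F →+* L) (φ : ℚ →+* L) (q : (MvPolynomial (Fin m) ℚ)[X]) :
    evP φ (fun j => ψ (ξ j)) (ψ η) q = ψ (evP (algebraMap ℚ F) ξ η q) := by
  have h : evP φ (fun j => ψ (ξ j)) (ψ η) = ψ.comp (evP (algebraMap ℚ F) ξ η) := by
    unfold evP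
    apply Polynomial.ringHom_ext'
    · apply MvPolynomial.ringHom_ext'
      · exact RingHom.ext_rat _ _
      · intro i
        simp
    · simp
  exact RingHom.congr_fun h q

/-- the derivative does not vanish at the generic point -/
private theorem TrG_der {m : ℕ} {f : (MvPolynomial (Fin m) ℚ)[X]} {F : Type u} [Field F]
    [Algebra ℚ F] {ξ : Fin m → F} {η : F} (h : Generic f F ξ η) :
    evP (algebraMap ℚ F) ξ η (derivative f) ≠ 0 := by
  intro h0
  have h1 := h.dvd _ h0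
  have h2 : f.natDegree ≠ 0 := by
    intro h3
    apply h.deg
    rw [Polynomial.eq_C_of_natDegree_eq_zero h3, derivative_C]
  exact h.deg (Polynomial.eq_zero_of_dvd_of_natDegree_lt h1
    (Polynomial.natDegree_derivative_lt h2))

private theorem TrG_main {G : Type} [Group G] [Finite G] (hG : Grunwald G) {d : ℕ}
    (β : G →* (RF ℚ d ≃ₐ[ℚ] RF ℚ d)) (hβ : SemiLin (1 : G →* (ℚ ≃ₐ[ℚ] ℚ)) β) {m : ℕ}
    {f g : (MvPolynomial (Fin m) ℚ)[X]} {F : Type u} [Field F] [Algebra ℚ F] {ξ : Fin m → F} {η : F}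
    (h : Generic f F ξ η) (hg : evP (algebraMap ℚ F) ξ η g ≠ 0) {a : ℕ}
    (e : RF F a ≃ₐ[ℚ] fixF β)
    (S : Finset Pl) (P : ∀ v : Pl, Pts f g (emb v)) {ε : ℝ} (hε : 0 < ε) :
    ∃ p : Pts f g (RingHom.id ℚ), ∀ v ∈ S,
      (∀ j, ‖(mapPts (emb v) p).1.1 j - (P v).1.1 j‖ < ε) ∧
        ‖(mapPts (emb v) p).1.2 - (P v).1.2‖ < ε := by
  classical
  have halg : Algebra.IsAlgebraic ℚ Qb := AlgebraicClosure.isAlgebraic ℚ
  obtain ⟨M, hM⟩ := exists_M β hβ
  obtain ⟨D, C, hD0, hDi, hCi, hDC⟩ := exists_polys β hβ (κ := Option (Fin m))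
    (fun i => e (algebraMap F (RF F a) (i.elim η ξ)))
  -- generic local points
  choose θ hθ hθξ hθη using fun v : Pl => gen_point (ball_uncountable v) (emb v) h (P v) a
    (half_pos hε)
  choose θ' ρ hρ hθ' hτ using fun v : Pl => loc_hom β hβ hM e (K := Cpl v) (Ω := Om v) (θ v)
  have hchar : ∀ v : Pl, CharZero (Om v) := fun v =>
    charZero_of_injective_algebraMap (algebraMap (Cpl v) (Om v)).injective
  have hι : ∀ v : Pl, Nonempty (Qb →+* Om v) := fun v => by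
    letI : Algebra ℚ (Om v) := (Rat.castHom (Om v)).toAlgebra
    exact ⟨(IsAlgClosed.lift : Qb →ₐ[ℚ] Om v).toRingHom⟩
  obtain ⟨ι, -⟩ : ∃ ι : ∀ v : Pl, Qb →+* Om v, True := ⟨fun v => (hι v).some, trivial⟩
  -- the Grunwald problem
  obtain ⟨ρ₀, hρ₀, hres⟩ := hG (insert none S) ι ρ hρ
  obtain ⟨T, hTd, hT⟩ := exists_hilbert90 (K := ℚ) (Ω := Qb) hρ₀ M
  have hc : ∀ v : Pl, ∃ (g₀ : G) (c : Fin d → Cpl v), v ∈ insert none S →
      (T.map (ι v)) *ᵥ (fun i => algebraMap (Cpl v) (Om v) (c i)) =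
        ((M g₀ : Matrix (Fin d) (Fin d) ℚ).map (Rat.cast : ℚ → Om v)) *ᵥ
          (fun i => θ' v (xv ℚ i)) := by
    intro v
    by_cases hv : v ∈ insert none S
    · obtain ⟨g₀, hg₀⟩ := hres v hv
      have h1 := hchar v
      obtain ⟨c, hc⟩ := loc_param (M := M) (K := Cpl v) (Ω := Om v) (Ω₀ := Qb) (ι v) (ρ := ρ v)
        (ρ₀ := ρ₀) (g₀ := g₀) hg₀ hTd hT (w := fun i => θ' v (xv ℚ i)) (by
          intro τ i
          rw [hτ v τ i]
          refine Finset.sum_congr rfl fun j _ => ?_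
          congr 1
          exact eq_ratCast ((θ' v).comp (algebraMap ℚ (RF ℚ d))) _)
      exact ⟨g₀, c, fun _ => hc⟩
    · exact ⟨1, 0, fun h => absurd h hv⟩
  choose g₀ c hc using hc
  -- the twisted polynomials
  have hcast : (Rat.cast : ℚ → Qb) = (algebraMap ℚ Qb) :=
    funext fun q => (eq_ratCast (algebraMap ℚ Qb) q).symm
  rw [hcast] at hT
  obtain ⟨D', hD'⟩ := exists_twist β hM hDi hT
  choose C' hC' using fun i : Option (Fin m) => exists_twist β hM (fun g => hCi g i) hT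
  have hkD : ∀ v ∈ insert none S, algebraMap (Cpl v) (Om v)
      (MvPolynomial.eval₂ (emb v) (c v) D') = θ' v (algebraMap _ (RF ℚ d) D) := fun v hv =>
    TrG_place β hM hDi (emb v) (ι v) hD' (θ' v) (g₀ v) (c v) (hc v hv)
  have hkC : ∀ v ∈ insert none S, ∀ i, algebraMap (Cpl v) (Om v)
      (MvPolynomial.eval₂ (emb v) (c v) (C' i)) = θ' v (algebraMap _ (RF ℚ d) (C i)) :=
    fun v hv i =>
    TrG_place β hM (fun g => hCi g i) (emb v) (ι v) (hC' i) (θ' v) (g₀ v) (c v) (hc v hv)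
  have hDne : algebraMap (MvPolynomial (Fin d) ℚ) (RF ℚ d) D ≠ 0 := fun h1 =>
    hD0 ((IsFractionRing.injective (MvPolynomial (Fin d) ℚ) (RF ℚ d)) (by rw [h1, map_zero]))
  have hDv : ∀ v ∈ insert none S, MvPolynomial.eval₂ (emb v) (c v) D' ≠ 0 := by
    intro v hv h1
    have h2 := hkD v hv
    rw [h1, map_zero] at h2
    exact hDne ((map_eq_zero (θ' v)).1 h2.symm)
  have hquo : ∀ v ∈ insert none S, ∀ i, MvPolynomial.eval₂ (emb v) (c v) (C' i) /
      MvPolynomial.eval₂ (emb v) (c v) D' =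
        θ v (algebraMap F (RF F a) (i.elim η ξ)) := by
    intro v hv i
    rw [div_eq_iff (hDv v hv)]
    apply (algebraMap (Cpl v) (Om v)).injective
    rw [map_mul, hkC v hv, hkD v hv, ← hθ' v, ← hDC i, map_mul, mul_comm]
  have hpt : ∀ v ∈ insert none S, (fun j => MvPolynomial.eval₂ (emb v) (c v) (C' (some j)) /
      MvPolynomial.eval₂ (emb v) (c v) D') = fun j => θ v (algebraMap F (RF F a) (ξ j)) :=
    fun v hv => funext fun j => hquo v hv (some j)
  have hpt' : ∀ v ∈ insert none S, MvPolynomial.eval₂ (emb v) (c v) (C' none) /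
      MvPolynomial.eval₂ (emb v) (c v) D' = θ v (algebraMap F (RF F a) η) :=
    fun v hv => hquo v hv none
  have hev : ∀ (v : Pl) (q : (MvPolynomial (Fin m) ℚ)[X]), evP (algebraMap ℚ F) ξ η q ≠ 0 →
      evP (emb v) (fun j => θ v (algebraMap F (RF F a) (ξ j))) (θ v (algebraMap F (RF F a) η)) q ≠
        0 := by
    intro v q hq
    have h1 := TrG_hom ξ η ((θ v).comp (algebraMap F (RF F a))) (emb v) q
    simp only [RingHom.comp_apply] at h1
    rw [h1]
    exact fun h2 => hq ((map_eq_zero (algebraMap F (RF F a))).1 ((map_eq_zero (θ v)).1 h2))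
  refine TrG_core S P D' (C' none) (fun j => C' (some j)) c ?_ ?_
  · intro v hv
    have hF : TrG_F (emb v) D' (C' none) (fun j => C' (some j)) (c v) =
        ((fun j => θ v (algebraMap F (RF F a) (ξ j))), θ v (algebraMap F (RF F a) η)) :=
      Prod.ext (hpt v hv) (hpt' v hv)
    refine ⟨hDv v hv, ?_⟩
    rw [hF]
    exact ⟨fun j => (hθξ v j).trans (by linarith), (hθη v).trans (by linarith),
      hev v _ (TrG_der h), hev v _ hg⟩
  · intro r hr
    have hval : ∀ {Q Q' : MvPolynomial (Fin d) ℚ},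
        (∀ (L : Type) [Field L] (j : Qb →+* L) (c : Fin d → L),
          MvPolynomial.eval₂ (j.comp (algebraMap ℚ Qb)) c Q' =
            MvPolynomial.eval₂ (j.comp (algebraMap ℚ Qb)) ((T.map j) *ᵥ c) Q) →
        MvPolynomial.eval₂ (algebraMap ℚ Qb) (T *ᵥ fun i => algebraMap ℚ Qb (r i)) Q =
          algebraMap ℚ Qb (MvPolynomial.eval₂ (RingHom.id ℚ) r Q') := by
      intro Q Q' hQ
      have h1 := hQ Qb (RingHom.id Qb) (fun i => algebraMap ℚ Qb (r i))
      have h2 : T.map (RingHom.id Qb) = T := by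
        ext i j
        rfl
      rw [RingHom.id_comp, h2] at h1
      rw [← h1, MvPolynomial.hom_eval₂, RingHom.comp_id]
    have hDr : MvPolynomial.eval₂ (algebraMap ℚ Qb) (T *ᵥ fun i => algebraMap ℚ Qb (r i)) D ≠ 0 := by
      rw [hval hD']
      exact fun h1 => hr ((map_eq_zero (algebraMap ℚ Qb)).1 h1)
    have hψ : evP (algebraMap ℚ (RF ℚ d))
        (fun j => ((e (algebraMap F (RF F a) (ξ j)) : fixF β) : RF ℚ d))
        ((e (algebraMap F (RF F a) η) : fixF β) : RF ℚ d) f = 0 := by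
      have h1 := TrG_hom ξ η (((fixF β).val : fixF β →+* RF ℚ d).comp
        (((e : RF F a ≃ₐ[ℚ] fixF β) : RF F a →+* fixF β).comp (algebraMap F (RF F a))))
        (algebraMap ℚ (RF ℚ d)) f
      rw [h.zero, map_zero] at h1
      exact h1
    have h3 := f_vanish (f := f) (D := D) (C' := C none) (C := fun j => C (some j))
      (fun j => hDC (some j)) (hDC none) hψ (algebraMap ℚ Qb)
      (T *ᵥ fun i => algebraMap ℚ Qb (r i)) hDr
    rw [hval hD', hval (hC' none)] at h3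
    have h4 : (fun j => MvPolynomial.eval₂ (algebraMap ℚ Qb)
        (T *ᵥ fun i => algebraMap ℚ Qb (r i)) (C (some j)) /
        algebraMap ℚ Qb (MvPolynomial.eval₂ (RingHom.id ℚ) r D')) = fun j => algebraMap ℚ Qb
        (MvPolynomial.eval₂ (RingHom.id ℚ) r (C' (some j)) /
          MvPolynomial.eval₂ (RingHom.id ℚ) r D') := by
      funext j
      rw [hval (hC' (some j)), map_div₀]
    rw [h4, ← map_div₀, evP_comp] at h3
    exact (map_eq_zero (algebraMap ℚ Qb)).1 h3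

/-- Weak approximation for finitely many places.  Proof: `hF : RF F a ≃ RF (fixF β) b`; by `tr_norm`
`e : RF F a ≃ fixF β'`; rename.  `exists_M`: `M`.  `exists_polys` for the images `z j, z'` of `ξ j, η`
under `e`: `D, C j, C'`.  Let `S' = insert none S`.  For every `v` let `θ v` be as in `gen_point`
(`ball_uncountable`) with `ε / 2`, `θ' v, ρ v` as in `loc_hom`, `w v i = θ' v (xv ℚ i)`.  Choose
embeddings `ι v` (`IsAlgClosed.lift`).  `Grunwald` for `S'`: `ρ₀`, `g v`; `exists_hilbert90` for `ρ₀`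
and `M`: `T`; `loc_param`: `c v`; `exists_twist`: `D̃, C̃ j, C̃'`.  In `Om v`:
`D̃(c v) = D(T c v) = D(M (g v) w v) = D(w v) = θ' v (D) ≠ 0` (`eval_invariant`; `θ' v` is injective),
and `C̃ j (c v) / D̃(c v) = θ' v (z j) = θ v (ξ j)`, `C̃' (c v) / D̃ (c v) = θ v η` (`θ' v (e z) =
algebraMap (θ v z)`).  These are near the point `P v`, and `f_y ≠ 0`, `g ≠ 0` at it (`θ v` is injective;
`f_y(ξ, η) ≠ 0` by `Generic.dvd`).  By continuity (`cont'` in wa/Local.lean) and `wa_fun` there is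
`c ∈ ℚ^d` near the `c v`, `v ∈ S'`; the point `p = (C̃ j (c) / D̃(c), C̃'(c) / D̃(c))` is near the points;
`f(p) = 0` by `f_vanish` for `L = Qb`, `w = T c`; `f_y(p) ≠ 0`, `g(p) ≠ 0` by continuity at the place
`none`. -/
theorem transfer {G : Type} [Group G] [Finite G] (hG : Grunwald G) {d : ℕ}
    (β : G →* (RF ℚ d ≃ₐ[ℚ] RF ℚ d)) (hβ : SemiLin (1 : G →* (ℚ ≃ₐ[ℚ] ℚ)) β) {m : ℕ}
    {f g : (MvPolynomial (Fin m) ℚ)[X]} {F : Type u} [Field F] [Algebra ℚ F] {ξ : Fin m → F} {η : F}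
    (h : Generic f F ξ η) (hg : evP (algebraMap ℚ F) ξ η g ≠ 0) (hF : StablyIso ℚ F (fixF β))
    (S : Finset Pl) (P : ∀ v : Pl, Pts f g (emb v)) {ε : ℝ} (hε : 0 < ε) :
    ∃ p : Pts f g (RingHom.id ℚ), ∀ v ∈ S,
      (∀ j, ‖(mapPts (emb v) p).1.1 j - (P v).1.1 j‖ < ε) ∧
        ‖(mapPts (emb v) p).1.2 - (P v).1.2‖ < ε := by
  obtain ⟨a, b, ⟨e₁⟩⟩ := hF
  obtain ⟨d', β', hβ', ⟨e₂⟩⟩ := tr_norm β hβ b
  exact TrG_main hG β' hβ' h hg (e₁.trans e₂) S P hε

end DC83
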