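import Pool.Agent.H.MP_83e36b_nt.dc.Clf

/-! The vectors of the Clifford algebra. -/

set_option autoImplicit false

open Matrix

namespace DC83

variable {R : Type*} [CommRing R] {n : ℕ}

/-- the matrix of the left multiplication by the vector `∑ v_i e_i` -/
noncomputable def cV (v : Fin n → R) : Matrix (Ix n) (Ix n) R := ∑ i, v i • cE R n i

theorem cV_single (i : Fin n) : cV (Pi.single i (1 : R)) = cE R n i := by
  unfold cV
  rw [Finset.sum_eq_single i]
  · rw [Pi.single_eq_same, one_smul]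
  · intro j _ hj
    rw [Pi.single_eq_of_ne hj, zero_smul]
  · intro h
    exact absurd (Finset.mem_univ i) h

theorem cV_add (v w : Fin n → R) : cV (v + w) = cV v + cV w := by
  unfold cV
  rw [← Finset.sum_add_distrib]
  refine Finset.sum_congr rfl fun i _ => ?_
  rw [Pi.add_apply, add_smul]

theorem cV_sub (v w : Fin n → R) : cV (v - w) = cV v - cV w := by
  unfold cV
  rw [← Finset.sum_sub_distrib]
  refine Finset.sum_congr rfl fun i _ => ?_
  rw [Pi.sub_apply, sub_smul]

theorem cV_smul (a : R) (v : Fin n → R) : cV (a • v) = a • cV v := by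
  unfold cV
  rw [Finset.smul_sum]
  refine Finset.sum_congr rfl fun i _ => ?_
  rw [Pi.smul_apply, smul_eq_mul, mul_smul]

theorem cV_sum {ι : Type*} (s : Finset ι) (v : ι → Fin n → R) :
    cV (∑ k ∈ s, v k) = ∑ k ∈ s, cV (v k) := by
  unfold cV
  rw [Finset.sum_comm]
  refine Finset.sum_congr rfl fun i _ => ?_
  rw [Finset.sum_apply, Finset.sum_smul]

private theorem Vec_mul (v w : Fin n → R) :
    cV v * cV w = ∑ i, ∑ j, (v i * w j) • (cE R n i * cE R n j) := by
  unfold cV
  rw [Finset.sum_mul]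
  refine Finset.sum_congr rfl fun i _ => ?_
  rw [Finset.mul_sum]
  refine Finset.sum_congr rfl fun j _ => ?_
  rw [Matrix.smul_mul, Matrix.mul_smul, smul_smul]

theorem cV_mul_add (v w : Fin n → R) :
    cV v * cV w + cV w * cV v = (2 * (v ⬝ᵥ w)) • (1 : Matrix (Ix n) (Ix n) R) := by
  rw [Vec_mul v w, Vec_mul w v, Finset.sum_comm (f := fun i j => (w i * v j) • (cE R n i * cE R n j)),
    ← Finset.sum_add_distrib]
  have h1 : ∀ i : Fin n, (∑ j, (v i * w j) • (cE R n i * cE R n j)
      + ∑ j, (w j * v i) • (cE R n j * cE R n i))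
      = (2 * (v i * w i)) • (1 : Matrix (Ix n) (Ix n) R) := by
    intro i
    rw [← Finset.sum_add_distrib, Finset.sum_eq_single i]
    · rw [cE_sq, mul_comm (w i) (v i), ← add_smul, two_mul]
    · intro j _ hj
      rw [cE_anti R n hj, mul_comm (w j) (v i), smul_neg, add_neg_cancel]
    · intro h
      exact absurd (Finset.mem_univ i) h
  rw [Finset.sum_congr rfl fun i _ => h1 i, ← Finset.sum_smul, ← Finset.mul_sum]
  rfl

theorem cV_sq (v : Fin n → R) : cV v * cV v = (v ⬝ᵥ v) • (1 : Matrix (Ix n) (Ix n) R) := by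
  rw [Vec_mul v v, ← Finset.sum_product', ← Finset.sum_filter_add_sum_filter_not
    (Finset.univ ×ˢ Finset.univ : Finset (Fin n × Fin n)) (fun p => p.1 = p.2)]
  have h2 : ∑ p ∈ (Finset.univ ×ˢ Finset.univ : Finset (Fin n × Fin n)).filter
      (fun p => ¬ p.1 = p.2), (v p.1 * v p.2) • (cE R n p.1 * cE R n p.2) = 0 := by
    refine Finset.sum_involution (fun p _ => (p.2, p.1)) ?_ ?_ ?_ ?_
    · intro p hp
      have hp' : p.1 ≠ p.2 := (Finset.mem_filter.1 hp).2
      rw [cE_anti R n hp', mul_comm (v p.2) (v p.1), smul_neg, neg_add_cancel]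
    · intro p hp _ h
      exact (Finset.mem_filter.1 hp).2 (congrArg Prod.fst h).symm
    · intro p hp
      have hp' : p.1 ≠ p.2 := (Finset.mem_filter.1 hp).2
      exact Finset.mem_filter.2 ⟨Finset.mem_product.2 ⟨Finset.mem_univ _, Finset.mem_univ _⟩,
        fun h => hp' h.symm⟩
    · intro p _
      rfl
  have h1 : ∑ p ∈ (Finset.univ ×ˢ Finset.univ : Finset (Fin n × Fin n)).filter
      (fun p => p.1 = p.2), (v p.1 * v p.2) • (cE R n p.1 * cE R n p.2)
      = ∑ i, (v i * v i) • (1 : Matrix (Ix n) (Ix n) R) := by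
    refine Finset.sum_nbij' (fun p => p.1) (fun i => (i, i)) ?_ ?_ ?_ ?_ ?_
    · intro p _
      exact Finset.mem_univ _
    · intro i _
      exact Finset.mem_filter.2 ⟨Finset.mem_product.2 ⟨Finset.mem_univ _, Finset.mem_univ _⟩, rfl⟩
    · intro p hp
      exact Prod.ext rfl (Finset.mem_filter.1 hp).2
    · intro i _
      rfl
    · intro p hp
      have hp' : p.1 = p.2 := (Finset.mem_filter.1 hp).2
      rw [← hp', cE_sq]
  rw [h1, h2, add_zero, ← Finset.sum_smul]
  rfl

theorem cV_transpose (v : Fin n → R) : (cV v)ᵀ = cV v := by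
  unfold cV
  rw [Matrix.transpose_sum]
  refine Finset.sum_congr rfl fun i _ => ?_
  rw [Matrix.transpose_smul, cE_transpose]

theorem cV_cF (v : Fin n → R) (j : Fin n) : cV v * cF R n j = -(cF R n j * cV v) := by
  unfold cV
  rw [Finset.sum_mul, Finset.mul_sum, ← Finset.sum_neg_distrib]
  refine Finset.sum_congr rfl fun i _ => ?_
  rw [Matrix.smul_mul, Matrix.mul_smul, cE_cF, smul_neg]

theorem cV_map {S : Type*} [CommRing S] (φ : R →+* S) (v : Fin n → R) :
    (cV v).map φ = cV (fun i => φ (v i)) := by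
  have h : (cV v).map φ = φ.mapMatrix (cV v) := rfl
  rw [h]
  unfold cV
  rw [map_sum]
  refine Finset.sum_congr rfl fun i _ => ?_
  rw [← cE_map R n φ i]
  ext A B
  rw [RingHom.mapMatrix_apply, Matrix.map_apply, Matrix.smul_apply, Matrix.smul_apply,
    Matrix.map_apply, smul_eq_mul, smul_eq_mul, map_mul]

end DC83
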